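import Mathlib

set_option autoImplicit false

/-! # An effective arithmetic Nullstellensatz lower bound

Helper file (for MP_27cd7e_an, requested by helper231): integer polynomials in `n` variables, of
number, degree and logarithmic size at most `T`, without common complex zeros, cannot be
simultaneously smaller than `exp (-T^k)` on the polydisc of radius `2^T`.
Proof: induction on `n` by elimination (Sylvester resultants after a linear change). -/

namespace Pool.Agent.TH596.EffNull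

open MvPolynomial

variable {σ : Type*}

/-- ℓ¹-norm of an integer polynomial. -/
noncomputable def len (P : MvPolynomial σ ℤ) : ℕ := ∑ m ∈ P.support, (P.coeff m).natAbs

lemma len_eq_of_subset (P : MvPolynomial σ ℤ) (s : Finset (σ →₀ ℕ)) (h : P.support ⊆ s) :
    len P = ∑ m ∈ s, (P.coeff m).natAbs := by
  unfold len
  apply Finset.sum_subset h
  intro m _ hm
  rw [MvPolynomial.notMem_support_iff] at hm
  simp [hm]

lemma len_add_le (P Q : MvPolynomial σ ℤ) : len (P + Q) ≤ len P + len Q := by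
  classical
  rw [len_eq_of_subset (P + Q) (P.support ∪ Q.support) MvPolynomial.support_add,
    len_eq_of_subset P (P.support ∪ Q.support) Finset.subset_union_left,
    len_eq_of_subset Q (P.support ∪ Q.support) Finset.subset_union_right,
    ← Finset.sum_add_distrib]
  apply Finset.sum_le_sum
  intro m _
  rw [MvPolynomial.coeff_add]
  exact Int.natAbs_add_le _ _

@[simp] lemma len_zero : len (0 : MvPolynomial σ ℤ) = 0 := by simp [len]

lemma len_sum_le {ι : Type*} (s : Finset ι) (f : ι → MvPolynomial σ ℤ) :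
    len (∑ i ∈ s, f i) ≤ ∑ i ∈ s, len (f i) := by
  classical
  induction s using Finset.induction_on with
  | empty => simp
  | insert a s ha ih =>
    rw [Finset.sum_insert ha, Finset.sum_insert ha]
    exact (len_add_le _ _).trans (by omega)

lemma len_monomial_le (m : σ →₀ ℕ) (c : ℤ) : len (monomial m c) ≤ c.natAbs := by
  classical
  rw [len_eq_of_subset (monomial m c) {m} MvPolynomial.support_monomial_subset]
  simp

lemma len_C_le (c : ℤ) : len (C c : MvPolynomial σ ℤ) ≤ c.natAbs := len_monomial_le 0 c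

lemma len_X_le (i : σ) : len (X i : MvPolynomial σ ℤ) ≤ 1 :=
  len_monomial_le (Finsupp.single i 1) (1 : ℤ)

lemma len_one_le : len (1 : MvPolynomial σ ℤ) ≤ 1 := by
  simpa using len_C_le (σ := σ) 1

lemma len_neg (P : MvPolynomial σ ℤ) : len (-P) = len P := by
  simp [len, MvPolynomial.support_neg]

lemma len_mul_le (P Q : MvPolynomial σ ℤ) : len (P * Q) ≤ len P * len Q := by
  classical
  conv_lhs => rw [P.as_sum, Q.as_sum]
  rw [Finset.sum_mul_sum]
  refine (len_sum_le _ _).trans ?_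
  unfold len
  rw [Finset.sum_mul_sum]
  apply Finset.sum_le_sum
  intro m _
  refine (len_sum_le _ _).trans ?_
  apply Finset.sum_le_sum
  intro m' _
  rw [monomial_mul]
  refine (len_monomial_le _ _).trans ?_
  rw [Int.natAbs_mul]

lemma len_prod_le {ι : Type*} (s : Finset ι) (f : ι → MvPolynomial σ ℤ) :
    len (∏ i ∈ s, f i) ≤ ∏ i ∈ s, len (f i) := by
  classical
  induction s using Finset.induction_on with
  | empty => simpa using len_one_le
  | insert a s ha ih =>
    rw [Finset.prod_insert ha, Finset.prod_insert ha]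
    exact (len_mul_le _ _).trans (Nat.mul_le_mul_left _ ih)

/-- Evaluation bound. -/
lemma norm_aeval_le (P : MvPolynomial σ ℤ) (x : σ → ℂ) (Y : ℝ) (hY : 1 ≤ Y)
    (hx : ∀ i, ‖x i‖ ≤ Y) (d : ℕ) (hd : P.totalDegree ≤ d) :
    ‖aeval x P‖ ≤ (len P : ℝ) * Y ^ d := by
  classical
  rw [MvPolynomial.aeval_def, MvPolynomial.eval₂_eq]
  refine (norm_sum_le _ _).trans ?_
  unfold len
  push_cast
  rw [Finset.sum_mul]
  apply Finset.sum_le_sum
  intro m hm
  rw [norm_mul]
  have h1 : ‖(algebraMap ℤ ℂ) (coeff m P)‖ = |((coeff m P : ℤ) : ℝ)| := by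
    simp
  rw [h1]
  have h2 : (((coeff m P).natAbs : ℕ) : ℝ) = |((coeff m P : ℤ) : ℝ)| := by
    rw [Nat.cast_natAbs]; simp
  have h3 : ‖∏ i ∈ m.support, x i ^ m i‖ ≤ Y ^ d := by
    rw [norm_prod]
    calc ∏ i ∈ m.support, ‖x i ^ m i‖ ≤ ∏ i ∈ m.support, Y ^ m i := by
          apply Finset.prod_le_prod
          · intro i _; exact norm_nonneg _
          · intro i _
            rw [norm_pow]
            exact pow_le_pow_left₀ (norm_nonneg _) (hx i) _
      _ = Y ^ (∑ i ∈ m.support, m i) := by rw [Finset.prod_pow_eq_pow_sum]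
      _ ≤ Y ^ d := by
          apply pow_le_pow_right₀ hY
          exact (MvPolynomial.le_totalDegree hm).trans hd
  rw [← h2] 
  gcongr

/-- ℓ¹-norm of a polynomial with coefficients integer polynomials. -/
noncomputable def len2 (f : Polynomial (MvPolynomial σ ℤ)) : ℕ := ∑ i ∈ f.support, len (f.coeff i)

lemma len2_eq_of_subset (P : Polynomial (MvPolynomial σ ℤ)) (s : Finset ℕ) (h : P.support ⊆ s) :
    len2 P = ∑ m ∈ s, len (P.coeff m) := by
  unfold len2
  apply Finset.sum_subset h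
  intro m _ hm
  rw [Polynomial.notMem_support_iff] at hm
  simp [hm]

lemma len2_add_le (P Q : Polynomial (MvPolynomial σ ℤ)) : len2 (P + Q) ≤ len2 P + len2 Q := by
  classical
  rw [len2_eq_of_subset (P + Q) (P.support ∪ Q.support) Polynomial.support_add,
    len2_eq_of_subset P (P.support ∪ Q.support) Finset.subset_union_left,
    len2_eq_of_subset Q (P.support ∪ Q.support) Finset.subset_union_right,
    ← Finset.sum_add_distrib]
  apply Finset.sum_le_sum
  intro m _
  rw [Polynomial.coeff_add]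
  exact len_add_le _ _

@[simp] lemma len2_zero : len2 (0 : Polynomial (MvPolynomial σ ℤ)) = 0 := by simp [len2]

lemma len2_sum_le {ι : Type*} (s : Finset ι) (f : ι → Polynomial (MvPolynomial σ ℤ)) :
    len2 (∑ i ∈ s, f i) ≤ ∑ i ∈ s, len2 (f i) := by
  classical
  induction s using Finset.induction_on with
  | empty => simp
  | insert a s ha ih =>
    rw [Finset.sum_insert ha, Finset.sum_insert ha]
    exact (len2_add_le _ _).trans (by omega)

lemma len2_monomial_le (m : ℕ) (c : MvPolynomial σ ℤ) : len2 (Polynomial.monomial m c) ≤ len c := by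
  classical
  rw [len2_eq_of_subset (Polynomial.monomial m c) {m} (Polynomial.support_monomial_subset m c)]
  simp

lemma len2_C_le (c : MvPolynomial σ ℤ) : len2 (Polynomial.C c) ≤ len c := by
  simpa using len2_monomial_le 0 c

lemma len2_one_le : len2 (1 : Polynomial (MvPolynomial σ ℤ)) ≤ 1 := by
  have := len2_C_le (1 : MvPolynomial σ ℤ)
  simpa using this.trans len_one_le

lemma len2_mul_le (P Q : Polynomial (MvPolynomial σ ℤ)) : len2 (P * Q) ≤ len2 P * len2 Q := by
  classical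
  conv_lhs => rw [P.as_sum_support, Q.as_sum_support]
  rw [Finset.sum_mul_sum]
  refine (len2_sum_le _ _).trans ?_
  unfold len2
  rw [Finset.sum_mul_sum]
  apply Finset.sum_le_sum
  intro m _
  refine (len2_sum_le _ _).trans ?_
  apply Finset.sum_le_sum
  intro m' _
  rw [Polynomial.monomial_mul_monomial]
  refine (len2_monomial_le _ _).trans ?_
  exact len_mul_le _ _

lemma len_coeff_le_len2 (P : Polynomial (MvPolynomial σ ℤ)) (i : ℕ) : len (P.coeff i) ≤ len2 P := by
  classical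
  by_cases h : i ∈ P.support
  · exact Finset.single_le_sum (f := fun i => len (P.coeff i)) (fun _ _ => Nat.zero_le _) h
  · rw [Polynomial.notMem_support_iff] at h
    simp [h]

/-- Bounded degree and size. -/
structure Gd (d H : ℕ) (f : Polynomial (MvPolynomial σ ℤ)) : Prop where
  deg : f.natDegree ≤ d
  tdeg : ∀ i, (f.coeff i).totalDegree ≤ d
  size : len2 f ≤ H

lemma Gd.mono {d H d' H' : ℕ} {f : Polynomial (MvPolynomial σ ℤ)} (h : Gd d H f) (hd : d ≤ d')
    (hH : H ≤ H') : Gd d' H' f :=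
  ⟨h.deg.trans hd, fun i => (h.tdeg i).trans hd, h.size.trans hH⟩

lemma Gd.mul {d H d' H' : ℕ} {f g : Polynomial (MvPolynomial σ ℤ)} (hf : Gd d H f)
    (hg : Gd d' H' g) : Gd (d + d') (H * H') (f * g) := by
  refine ⟨Polynomial.natDegree_mul_le.trans (add_le_add hf.deg hg.deg), ?_,
    (len2_mul_le _ _).trans (Nat.mul_le_mul hf.size hg.size)⟩
  intro i
  rw [Polynomial.coeff_mul]
  apply MvPolynomial.totalDegree_finsetSum_le
  intro p _
  exact (MvPolynomial.totalDegree_mul _ _).trans (add_le_add (hf.tdeg _) (hg.tdeg _))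

lemma Gd.one : Gd 0 1 (1 : Polynomial (MvPolynomial σ ℤ)) := by
  refine ⟨by simp, ?_, len2_one_le⟩
  intro i
  rw [Polynomial.coeff_one]
  split_ifs <;> simp

lemma Gd.pow {d H : ℕ} {f : Polynomial (MvPolynomial σ ℤ)} (hf : Gd d H f) (m : ℕ) :
    Gd (m * d) (H ^ m) (f ^ m) := by
  induction m with
  | zero => simpa using Gd.one
  | succ m ih =>
    rw [pow_succ, pow_succ, Nat.succ_mul]
    exact ih.mul hf

lemma Gd.prod {ι : Type*} (s : Finset ι) (d H : ι → ℕ) (f : ι → Polynomial (MvPolynomial σ ℤ))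
    (h : ∀ i ∈ s, Gd (d i) (H i) (f i)) : Gd (∑ i ∈ s, d i) (∏ i ∈ s, H i) (∏ i ∈ s, f i) := by
  classical
  induction s using Finset.induction_on with
  | empty => simpa using Gd.one
  | insert a s ha ih =>
    rw [Finset.sum_insert ha, Finset.prod_insert ha, Finset.prod_insert ha]
    exact (h a (Finset.mem_insert_self _ _)).mul
      (ih fun i hi => h i (Finset.mem_insert_of_mem hi))

lemma Gd.sum {ι : Type*} (s : Finset ι) (d : ℕ) (H : ι → ℕ)
    (f : ι → Polynomial (MvPolynomial σ ℤ))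
    (h : ∀ i ∈ s, Gd d (H i) (f i)) : Gd d (∑ i ∈ s, H i) (∑ i ∈ s, f i) := by
  classical
  refine ⟨?_, ?_, ?_⟩
  · exact Polynomial.natDegree_sum_le_of_forall_le s f fun i hi => (h i hi).deg
  · intro j
    rw [Polynomial.finsetSum_coeff]
    apply MvPolynomial.totalDegree_finsetSum_le
    intro i hi
    exact (h i hi).tdeg j
  · exact (len2_sum_le _ _).trans (Finset.sum_le_sum fun i hi => (h i hi).size)

/-! ### The linear change of variables -/

variable {n : ℕ}

/-- Images of the variables. -/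
noncomputable def psiX (w : Fin (n + 1) → ℤ) (j : Fin (n + 1)) :
    Polynomial (MvPolynomial (Fin n) ℤ) :=
  Polynomial.C ((Fin.cons 0 X : Fin (n + 1) → MvPolynomial (Fin n) ℤ) j) +
    Polynomial.C (C (w j)) * Polynomial.X

noncomputable def psi (w : Fin (n + 1) → ℤ) :
    MvPolynomial (Fin (n + 1)) ℤ →ₐ[ℤ] Polynomial (MvPolynomial (Fin n) ℤ) :=
  aeval (psiX w)

/-- The point. -/
noncomputable def pt (w : Fin (n + 1) → ℤ) (y : Fin n → ℂ) (t : ℂ) : Fin (n + 1) → ℂ :=
  fun j => (Fin.cons 0 y : Fin (n + 1) → ℂ) j + (w j : ℂ) * t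

lemma eval_psi (w : Fin (n + 1) → ℤ) (y : Fin n → ℂ) (t : ℂ) (P : MvPolynomial (Fin (n + 1)) ℤ) :
    ((psi w P).map (aeval y : MvPolynomial (Fin n) ℤ →ₐ[ℤ] ℂ).toRingHom).eval t =
      aeval (pt w y t) P := by
  have key : ((Polynomial.evalRingHom t).comp ((Polynomial.mapRingHom
      (aeval y : MvPolynomial (Fin n) ℤ →ₐ[ℤ] ℂ).toRingHom).comp (psi w).toRingHom)) =
      (aeval (pt w y t) : MvPolynomial (Fin (n + 1)) ℤ →ₐ[ℤ] ℂ).toRingHom := by
    apply MvPolynomial.ringHom_ext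
    · intro r
      simp
    · intro i
      refine Fin.cases ?_ (fun i => ?_) i
      · simp [psi, psiX, pt]
      · simp [psi, psiX, pt]
  have := congrArg (fun f => f P) key
  simpa using this

lemma psiX_gd (w : Fin (n + 1) → ℤ) (W : ℕ) (hw : ∀ j, (w j).natAbs ≤ W) (j : Fin (n + 1)) :
    Gd 1 (1 + W) (psiX w j) := by
  have h0 : len ((Fin.cons 0 X : Fin (n + 1) → MvPolynomial (Fin n) ℤ) j) ≤ 1 := by
    refine Fin.cases ?_ (fun i => ?_) j
    · simp
    · simpa using len_X_le i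
  have h0' : ((Fin.cons 0 X : Fin (n + 1) → MvPolynomial (Fin n) ℤ) j).totalDegree ≤ 1 := by
    refine Fin.cases ?_ (fun i => ?_) j
    · simp
    · simp
  refine ⟨?_, ?_, ?_⟩
  · unfold psiX
    refine (Polynomial.natDegree_add_le _ _).trans (max_le ?_ ?_)
    · simp
    · refine Polynomial.natDegree_mul_le.trans ?_
      simp
  · intro i
    unfold psiX
    rw [Polynomial.coeff_add, Polynomial.coeff_C_mul]
    refine (MvPolynomial.totalDegree_add _ _).trans (max_le ?_ ?_)
    · rw [Polynomial.coeff_C]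
      split_ifs
      · exact h0'
      · simp
    · refine (MvPolynomial.totalDegree_mul _ _).trans ?_
      rw [Polynomial.coeff_X, totalDegree_C]
      split_ifs <;> simp
  · unfold psiX
    refine (len2_add_le _ _).trans (add_le_add ((len2_C_le _).trans h0) ?_)
    refine (len2_mul_le _ _).trans ?_
    have h1 : len2 (Polynomial.C (C (w j) : MvPolynomial (Fin n) ℤ)) ≤ W :=
      (len2_C_le _).trans ((len_C_le _).trans (hw j))
    have h2 : len2 (Polynomial.X : Polynomial (MvPolynomial (Fin n) ℤ)) ≤ 1 := by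
      rw [← Polynomial.monomial_one_one_eq_X]
      exact (len2_monomial_le _ _).trans len_one_le
    calc _ ≤ W * 1 := Nat.mul_le_mul h1 h2
      _ = W := by ring

lemma psiX_coeff_one (w : Fin (n + 1) → ℤ) (j : Fin (n + 1)) :
    (psiX w j).coeff 1 = C (w j) := by
  unfold psiX
  simp

lemma psi_monomial (w : Fin (n + 1) → ℤ) (m : Fin (n + 1) →₀ ℕ) (c : ℤ) :
    psi w (monomial m c) = Polynomial.C (C c) * ∏ j, psiX w j ^ m j := by
  unfold psi
  rw [aeval_monomial, Finsupp.prod_fintype _ _ (by simp)]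
  congr 1

lemma prod_psiX_coeff (w : Fin (n + 1) → ℤ) (m : Fin (n + 1) →₀ ℕ) (s : Finset (Fin (n + 1))) :
    (∏ j ∈ s, psiX w j ^ m j).natDegree ≤ ∑ j ∈ s, m j ∧
    (∏ j ∈ s, psiX w j ^ m j).coeff (∑ j ∈ s, m j) = C (∏ j ∈ s, w j ^ m j) := by
  classical
  have hd : ∀ j, (psiX w j).natDegree ≤ 1 := fun j =>
    (psiX_gd w (Finset.univ.sup fun j => (w j).natAbs)
      (fun j => Finset.le_sup (f := fun j => (w j).natAbs) (Finset.mem_univ j)) j).deg
  induction s using Finset.induction_on with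
  | empty => simp
  | insert a s ha ih =>
    rw [Finset.prod_insert ha, Finset.sum_insert ha, Finset.prod_insert ha]
    have h1 : (psiX w a ^ m a).natDegree ≤ m a := by
      refine Polynomial.natDegree_pow_le.trans ?_
      calc m a * (psiX w a).natDegree ≤ m a * 1 := Nat.mul_le_mul_left _ (hd a)
        _ = m a := by ring
    have h2 : (psiX w a ^ m a).coeff (m a) = C (w a ^ m a) := by
      have := Polynomial.coeff_pow_of_natDegree_le (hd a) (m := m a)
      rw [mul_one] at this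
      rw [this, psiX_coeff_one, C_pow]
    refine ⟨Polynomial.natDegree_mul_le.trans (add_le_add h1 ih.1), ?_⟩
    rw [Polynomial.coeff_mul_add_eq_of_natDegree_le h1 ih.1, h2, ih.2, C_mul]

lemma psi_gd (w : Fin (n + 1) → ℤ) (W : ℕ) (hw : ∀ j, (w j).natAbs ≤ W)
    (P : MvPolynomial (Fin (n + 1)) ℤ) (d : ℕ) (hd : P.totalDegree ≤ d) :
    Gd d (len P * (1 + W) ^ d) (psi w P) := by
  classical
  conv => rhs; rw [P.as_sum]
  rw [map_sum]
  unfold len
  rw [Finset.sum_mul]
  apply Gd.sum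
  intro m hm
  rw [psi_monomial]
  have hm' : ∑ j, m j ≤ d := by
    have := (MvPolynomial.le_totalDegree hm).trans hd
    rwa [Finsupp.sum_fintype _ _ (by simp)] at this
  have h1 : Gd 0 (coeff m P).natAbs
      (Polynomial.C (C (coeff m P)) : Polynomial (MvPolynomial (Fin n) ℤ)) := by
    refine ⟨by simp, ?_, (len2_C_le _).trans (len_C_le _)⟩
    intro i
    rw [Polynomial.coeff_C]
    split_ifs
    · rw [totalDegree_C]
    · simp
  have h2 : Gd (∑ j, m j) (∏ j, (1 + W) ^ m j) (∏ j, psiX w j ^ m j) := by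
    apply Gd.prod
    intro j _
    have := (psiX_gd w W hw j).pow (m j)
    rwa [mul_one] at this
  refine (h1.mul h2).mono (by omega) ?_
  apply Nat.mul_le_mul_left
  rw [Finset.prod_pow_eq_pow_sum]
  exact Nat.pow_le_pow_right (by omega) hm'

lemma psi_coeff_top (w : Fin (n + 1) → ℤ) (P : MvPolynomial (Fin (n + 1)) ℤ) (d : ℕ)
    (hd : P.totalDegree ≤ d) :
    (psi w P).coeff d = C (eval w (homogeneousComponent d P)) := by
  classical
  conv_lhs => rw [P.as_sum]
  rw [map_sum, Polynomial.finsetSum_coeff, homogeneousComponent_apply, map_sum, map_sum,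
    Finset.sum_filter]
  apply Finset.sum_congr rfl
  intro m hm
  have hm' : ∑ j, m j ≤ d := by
    have := (MvPolynomial.le_totalDegree hm).trans hd
    rwa [Finsupp.sum_fintype _ _ (by simp)] at this
  have hdeg : m.degree = ∑ j, m j := by
    rw [Finsupp.degree_eq_sum]
  rw [psi_monomial, Polynomial.coeff_C_mul, eval_monomial, Finsupp.prod_fintype _ _ (by simp)]
  obtain ⟨h1, h2⟩ := prod_psiX_coeff w m Finset.univ
  split_ifs with h
  · rw [hdeg] at h
    rw [← h, h2, C_mul]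
  · rw [hdeg] at h
    rw [Polynomial.coeff_eq_zero_of_natDegree_lt (by omega)]
    simp

/-! ### The resultant -/

/-- Determinant bound. -/
lemma det_gd {N : ℕ} (M : Matrix (Fin N) (Fin N) (MvPolynomial σ ℤ)) (d H : ℕ)
    (hd : ∀ i j, (M i j).totalDegree ≤ d) (hH : ∀ i j, len (M i j) ≤ H) :
    M.det.totalDegree ≤ N * d ∧ len M.det ≤ N.factorial * H ^ N := by
  classical
  rw [Matrix.det_apply]
  have hprod : ∀ τ : Equiv.Perm (Fin N), (Equiv.Perm.sign τ • ∏ i, M (τ i) i).totalDegree ≤ N * d ∧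
      len (Equiv.Perm.sign τ • ∏ i, M (τ i) i) ≤ H ^ N := by
    intro τ
    have h1 : (∏ i, M (τ i) i).totalDegree ≤ N * d := by
      refine (MvPolynomial.totalDegree_finsetProd _ _).trans ?_
      calc ∑ i, (M (τ i) i).totalDegree ≤ ∑ _i : Fin N, d := Finset.sum_le_sum fun i _ => hd _ _
        _ = N * d := by simp
    have h2 : len (∏ i, M (τ i) i) ≤ H ^ N := by
      refine (len_prod_le _ _).trans ?_
      calc ∏ i, len (M (τ i) i) ≤ ∏ _i : Fin N, H := Finset.prod_le_prod' fun i _ => hH _ _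
        _ = H ^ N := by simp
    rcases Int.units_eq_one_or (Equiv.Perm.sign τ) with h | h
    · rw [h, one_smul]; exact ⟨h1, h2⟩
    · rw [h, Units.neg_smul, one_smul, len_neg, totalDegree_neg]; exact ⟨h1, h2⟩
  constructor
  · apply MvPolynomial.totalDegree_finsetSum_le
    intro τ _
    exact (hprod τ).1
  · refine (len_sum_le _ _).trans ?_
    calc ∑ τ : Equiv.Perm (Fin N), len (Equiv.Perm.sign τ • ∏ i, M (τ i) i)
        ≤ ∑ _τ : Equiv.Perm (Fin N), H ^ N := Finset.sum_le_sum fun τ _ => (hprod τ).2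
      _ = N.factorial * H ^ N := by simp [Fintype.card_perm]

lemma resultant_gd (f g : Polynomial (MvPolynomial σ ℤ)) (m k d H : ℕ)
    (hf : ∀ i, (f.coeff i).totalDegree ≤ d ∧ len (f.coeff i) ≤ H)
    (hg : ∀ i, (g.coeff i).totalDegree ≤ d ∧ len (g.coeff i) ≤ H) :
    (f.resultant g m k).totalDegree ≤ (m + k) * d ∧
      len (f.resultant g m k) ≤ (m + k).factorial * H ^ (m + k) := by
  have key : ∀ i j, (f.sylvester g m k i j).totalDegree ≤ d ∧ len (f.sylvester g m k i j) ≤ H := by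
    intro i j
    unfold Polynomial.sylvester
    rw [Matrix.of_apply]
    refine Fin.addCases (fun j => ?_) (fun j => ?_) j
    · rw [Fin.addCases_left]
      split_ifs
      · exact hg _
      · simp
    · rw [Fin.addCases_right]
      split_ifs
      · exact hf _
      · simp
  exact det_gd _ d H (fun i j => (key i j).1) (fun i j => (key i j).2)

lemma shift_sum (h : Polynomial ℂ) (m k j : ℕ) (hj : j < m) (hd : h.natDegree ≤ k) (t : ℂ)
    (e : ℕ) (he : m + k = e) :
    ∑ i : Fin e, t ^ (i : ℕ) * (if (i : ℕ) ∈ Set.Icc j (j + k) then h.coeff (i - j) else 0) =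
      t ^ j * h.eval t := by
  classical
  rw [Finset.sum_fin_eq_sum_range, Polynomial.eval_eq_sum_range' (Nat.lt_succ_of_le hd)]
  have h1 : ∑ i ∈ Finset.range e, (if hi : i < e then t ^ ((⟨i, hi⟩ : Fin e) : ℕ) *
      (if ((⟨i, hi⟩ : Fin e) : ℕ) ∈ Set.Icc j (j + k) then h.coeff (((⟨i, hi⟩ : Fin e) : ℕ) - j)
        else 0) else 0) = ∑ i ∈ Finset.Ico j (j + (k + 1)), t ^ i * h.coeff (i - j) := by
    symm
    have hsub : Finset.Ico j (j + (k + 1)) ⊆ Finset.range e := by
      intro i hi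
      rw [Finset.mem_Ico] at hi
      rw [Finset.mem_range]
      omega
    rw [← Finset.sum_subset hsub]
    · apply Finset.sum_congr rfl
      intro i hi
      have hi' := Finset.mem_range.1 (hsub hi)
      rw [Finset.mem_Ico] at hi
      rw [dif_pos hi', if_pos]
      rw [Set.mem_Icc]
      simp only
      omega
    · intro i hi hi2
      rw [Finset.mem_range] at hi
      rw [dif_pos hi, if_neg, mul_zero]
      rw [Set.mem_Icc]
      rw [Finset.mem_Ico] at hi2
      simp only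
      omega
  rw [h1, Finset.sum_Ico_eq_sum_range, Finset.mul_sum]
  have h2 : j + (k + 1) - j = k.succ := by omega
  rw [h2]
  apply Finset.sum_congr rfl
  intro i _
  rw [Nat.add_sub_cancel_left, pow_add]
  ring

lemma syl_left {R : Type*} [Semiring R] (f g : Polynomial R) (m k : ℕ) (i : Fin (m + k))
    (j : Fin m) : f.sylvester g m k i (Fin.castAdd k j) =
      if (i : ℕ) ∈ Set.Icc (j : ℕ) (j + k) then g.coeff (i - j) else 0 := by
  unfold Polynomial.sylvester
  rw [Matrix.of_apply, Fin.addCases_left]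

lemma syl_right {R : Type*} [Semiring R] (f g : Polynomial R) (m k : ℕ) (i : Fin (m + k))
    (j : Fin k) : f.sylvester g m k i (Fin.natAdd m j) =
      if (i : ℕ) ∈ Set.Icc (j : ℕ) (j + m) then f.coeff (i - j) else 0 := by
  unfold Polynomial.sylvester
  rw [Matrix.of_apply, Fin.addCases_right]

/-- If `f` and `g` are both small at a point, the resultant is small. -/
lemma norm_resultant_le (f g : Polynomial ℂ) (m k : ℕ) (H Y δ : ℝ) (hH : 1 ≤ H) (hY : 1 ≤ Y)
    (hfd : f.natDegree ≤ m) (hgd : g.natDegree ≤ k) (hmk : 0 < m + k)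
    (hf : ∀ i, ‖f.coeff i‖ ≤ H) (hg : ∀ i, ‖g.coeff i‖ ≤ H) (t : ℂ) (ht : ‖t‖ ≤ Y)
    (hft : ‖f.eval t‖ ≤ δ) (hgt : ‖g.eval t‖ ≤ δ) :
    ‖f.resultant g m k‖ ≤ (m + k : ℕ) * (Y ^ (m + k) * δ * ((m + k).factorial * H ^ (m + k))) := by
  classical
  have hδ : 0 ≤ δ := (norm_nonneg _).trans hft
  set M := f.sylvester g m k with hM
  have hent : ∀ i j, ‖M i j‖ ≤ H := by
    intro i j
    rw [hM]
    unfold Polynomial.sylvester
    rw [Matrix.of_apply]
    refine Fin.addCases (fun j => ?_) (fun j => ?_) j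
    · rw [Fin.addCases_left]
      split_ifs
      · exact hg _
      · simp; linarith
    · rw [Fin.addCases_right]
      split_ifs
      · exact hf _
      · simp; linarith
  set v : Fin (m + k) → ℂ := fun i => t ^ (i : ℕ) with hv
  have hvM : ∀ j, ‖(Matrix.vecMul v M) j‖ ≤ Y ^ (m + k) * δ := by
    intro j
    refine Fin.addCases (fun j => ?_) (fun j => ?_) j
    · have : (Matrix.vecMul v M) (Fin.castAdd k j) = t ^ (j : ℕ) * g.eval t := by
        rw [← shift_sum g m k j j.2 hgd t (m + k) rfl]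
        unfold Matrix.vecMul dotProduct
        apply Finset.sum_congr rfl
        intro i _
        change t ^ (i : ℕ) * f.sylvester g m k i (Fin.castAdd k j) = _
        rw [syl_left]
      rw [this, norm_mul, norm_pow]
      have h1 : ‖t‖ ^ (j : ℕ) ≤ Y ^ (m + k) :=
        (pow_le_pow_left₀ (norm_nonneg _) ht _).trans (pow_le_pow_right₀ hY (by omega))
      gcongr
    · have : (Matrix.vecMul v M) (Fin.natAdd m j) = t ^ (j : ℕ) * f.eval t := by
        rw [← shift_sum f k m j j.2 hfd t (m + k) (by omega)]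
        unfold Matrix.vecMul dotProduct
        apply Finset.sum_congr rfl
        intro i _
        change t ^ (i : ℕ) * f.sylvester g m k i (Fin.natAdd m j) = _
        rw [syl_right]
      rw [this, norm_mul, norm_pow]
      have h1 : ‖t‖ ^ (j : ℕ) ≤ Y ^ (m + k) :=
        (pow_le_pow_left₀ (norm_nonneg _) ht _).trans (pow_le_pow_right₀ hY (by omega))
      gcongr
  have hdet : (Matrix.vecMul (Matrix.vecMul v M) M.adjugate) ⟨0, hmk⟩ = f.resultant g m k := by
    rw [Matrix.vecMul_vecMul, Matrix.mul_adjugate]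
    simp [Matrix.vecMul_smul, hv, Polynomial.resultant, hM]
  rw [← hdet]
  unfold Matrix.vecMul dotProduct
  refine (norm_sum_le _ _).trans ?_
  have hadj : ∀ j, ‖M.adjugate j ⟨0, hmk⟩‖ ≤ (m + k).factorial * H ^ (m + k) := by
    intro j
    rw [Matrix.adjugate_apply]
    have := Matrix.det_le (A := M.updateRow ⟨0, hmk⟩ (Pi.single j 1)) (abv := NormedField.toAbsoluteValue ℂ)
      (x := H) ?_
    · rw [nsmul_eq_mul, Fintype.card_fin] at this
      exact this
    · intro i' j'
      change ‖M.updateRow ⟨0, hmk⟩ (Pi.single j 1) i' j'‖ ≤ H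
      rw [Matrix.updateRow_apply]
      split_ifs with h
      · rw [Pi.single_apply]
        split_ifs
        · simpa using hH
        · simp; linarith
      · exact hent _ _
  calc ∑ j, ‖(Matrix.vecMul v M) j * M.adjugate j ⟨0, hmk⟩‖
      ≤ ∑ _j : Fin (m + k), (Y ^ (m + k) * δ * ((m + k).factorial * H ^ (m + k))) := by
        apply Finset.sum_le_sum
        intro j _
        rw [norm_mul]
        have := hadj j
        have := hvM j
        gcongr
    _ = _ := by simp

/-! ### Numerical inequalities -/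

lemma two_mul_le_two_pow {T : ℕ} (hT : 2 ≤ T) : 2 * T ≤ 2 ^ T := by
  induction T, hT using Nat.le_induction with
  | base => norm_num
  | succ T hT ih => rw [pow_succ]; omega

lemma add_two_le_two_pow {T : ℕ} (hT : 2 ≤ T) : T + 2 ≤ 2 ^ T :=
  le_trans (by omega) (two_mul_le_two_pow hT)

lemma fact_le {T m : ℕ} (hT : 2 ≤ T) (hm : m ≤ 2 * T) : m.factorial ≤ 2 ^ (2 * T ^ 2) := by
  calc m.factorial ≤ (2 * T).factorial := Nat.factorial_le hm
    _ ≤ (2 * T) ^ (2 * T) := Nat.factorial_le_pow _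
    _ ≤ (2 ^ T) ^ (2 * T) := Nat.pow_le_pow_left (two_mul_le_two_pow hT) _
    _ = 2 ^ (2 * T ^ 2) := by rw [← pow_mul]; congr 1; ring

/-- Direction with nonvanishing top form. -/
lemma exists_dir (P : MvPolynomial (Fin (n + 1)) ℤ) (hP : P ≠ 0) (T : ℕ)
    (hT : P.totalDegree ≤ T) :
    ∃ w : Fin (n + 1) → ℤ, (∀ j, 1 ≤ w j ∧ w j ≤ T + 1) ∧
      eval w (homogeneousComponent P.totalDegree P) ≠ 0 := by
  classical
  by_contra hcon
  push Not at hcon
  have hF : homogeneousComponent P.totalDegree P = 0 := by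
    apply MvPolynomial.eq_zero_of_eval_zero_at_prod_finset _ (fun _ => Finset.Icc (1 : ℤ) (T + 1))
    · intro i
      rw [Int.card_Icc]
      have h1 := MvPolynomial.degreeOf_le_totalDegree (homogeneousComponent P.totalDegree P) i
      have h2 : (homogeneousComponent P.totalDegree P).totalDegree ≤ P.totalDegree :=
        (homogeneousComponent_isHomogeneous _ _).totalDegree_le
      omega
    · intro x hx
      apply hcon
      intro j
      exact Finset.mem_Icc.1 (hx j)
  have hne : P.support.Nonempty := MvPolynomial.support_nonempty.2 hP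
  obtain ⟨m, hm, hm2⟩ := Finset.exists_mem_eq_sup P.support hne
    (fun m : Fin (n + 1) →₀ ℕ => m.sum fun _ e => e)
  have h3 : coeff m (homogeneousComponent P.totalDegree P) = coeff m P := by
    rw [coeff_homogeneousComponent, if_pos]
    rw [totalDegree, hm2, Finsupp.degree_eq_sum, Finsupp.sum_fintype _ _ (by simp)]
  rw [hF, coeff_zero] at h3
  exact (MvPolynomial.mem_support_iff.1 hm) h3.symm

/-- The inductive claim. -/
def Claim (n k : ℕ) : Prop :=
  ∀ T : ℕ, 2 ≤ T → ∀ s : ℕ, s ≤ T → ∀ P : ℕ → MvPolynomial (Fin n) ℤ,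
    (∀ j < s, (P j).totalDegree ≤ T) → (∀ j < s, len (P j) ≤ 2 ^ T) →
    (∀ x : Fin n → ℂ, ∃ j < s, aeval x (P j) ≠ 0) →
    ∀ x : Fin n → ℂ, (∀ i, ‖x i‖ ≤ (2 : ℝ) ^ T) →
      ∃ j < s, Real.exp (-((T : ℝ) ^ k)) ≤ ‖aeval x (P j)‖

lemma claim_zero : Claim 0 0 := by
  intro T hT s hs P _ _ hne x _
  obtain ⟨j, hj, hj2⟩ := hne x
  refine ⟨j, hj, ?_⟩
  obtain ⟨c, hc⟩ : ∃ c : ℤ, P j = C c := ⟨_, MvPolynomial.eq_C_of_isEmpty (P j)⟩
  rw [hc] at hj2 ⊢
  have hc0 : c ≠ 0 := by
    rintro rfl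
    simp at hj2
  have h1 : (1 : ℝ) ≤ ‖(aeval x (C c : MvPolynomial (Fin 0) ℤ) : ℂ)‖ := by
    rw [aeval_C]
    have : (1 : ℝ) ≤ |(c : ℝ)| := by
      have := Int.one_le_abs hc0
      exact_mod_cast this
    simpa using this
  refine le_trans ?_ h1
  rw [Real.exp_le_one_iff]
  simp

/-- The combination `∑_j l^j P_j`. -/
noncomputable def comb (P : ℕ → MvPolynomial σ ℤ) (s l : ℕ) : MvPolynomial σ ℤ :=
  ∑ j ∈ Finset.range s, C ((l : ℤ) ^ j) * P j

lemma comb_totalDegree (P : ℕ → MvPolynomial σ ℤ) (s l T : ℕ)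
    (h : ∀ j < s, (P j).totalDegree ≤ T) : (comb P s l).totalDegree ≤ T := by
  unfold comb
  apply MvPolynomial.totalDegree_finsetSum_le
  intro j hj
  refine (MvPolynomial.totalDegree_mul _ _).trans ?_
  rw [totalDegree_C, zero_add]
  exact h j (Finset.mem_range.1 hj)

lemma pow_le_aux {T s l j : ℕ} (hT : 2 ≤ T) (hs : s ≤ T) (hl : l ≤ T ^ 2) (hj : j < s) :
    l ^ j ≤ 2 ^ (2 * T ^ 2) := by
  calc l ^ j ≤ (T ^ 2) ^ j := Nat.pow_le_pow_left hl _
    _ ≤ (T ^ 2) ^ T := Nat.pow_le_pow_right (by positivity) (by omega)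
    _ = T ^ (2 * T) := by rw [← pow_mul]
    _ ≤ (2 ^ T) ^ (2 * T) := Nat.pow_le_pow_left (by have := two_mul_le_two_pow hT; omega) _
    _ = 2 ^ (2 * T ^ 2) := by rw [← pow_mul]; congr 1; ring

lemma comb_len (P : ℕ → MvPolynomial σ ℤ) (s l T : ℕ) (hT : 2 ≤ T) (hs : s ≤ T)
    (hl : l ≤ T ^ 2) (h : ∀ j < s, len (P j) ≤ 2 ^ T) :
    len (comb P s l) ≤ 2 ^ (2 * T ^ 2 + 2 * T) := by
  unfold comb
  refine (len_sum_le _ _).trans ?_
  calc ∑ j ∈ Finset.range s, len (C ((l : ℤ) ^ j) * P j)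
      ≤ ∑ _j ∈ Finset.range s, 2 ^ (2 * T ^ 2) * 2 ^ T := by
        apply Finset.sum_le_sum
        intro j hj
        refine (len_mul_le _ _).trans (Nat.mul_le_mul ?_ (h j (Finset.mem_range.1 hj)))
        refine (len_C_le _).trans ?_
        rw [Int.natAbs_pow, Int.natAbs_natCast]
        exact pow_le_aux hT hs hl (Finset.mem_range.1 hj)
    _ = s * (2 ^ (2 * T ^ 2) * 2 ^ T) := by simp
    _ ≤ 2 ^ T * (2 ^ (2 * T ^ 2) * 2 ^ T) := by
        apply Nat.mul_le_mul_right
        have := two_mul_le_two_pow hT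
        omega
    _ = 2 ^ (2 * T ^ 2 + 2 * T) := by rw [← pow_add, ← pow_add]; congr 1; ring

lemma comb_eval (P : ℕ → MvPolynomial σ ℤ) (s l : ℕ) (x : σ → ℂ) :
    aeval x (comb P s l) = ∑ j ∈ Finset.range s, (l : ℂ) ^ j * aeval x (P j) := by
  unfold comb
  rw [map_sum]
  apply Finset.sum_congr rfl
  intro j _
  rw [map_mul, aeval_C]
  simp

lemma comb_small (P : ℕ → MvPolynomial σ ℤ) (s l T : ℕ) (hT : 2 ≤ T) (hs : s ≤ T)
    (hl : l ≤ T ^ 2) (x : σ → ℂ) (δ : ℝ) (hδ : 0 ≤ δ) (h : ∀ j < s, ‖aeval x (P j)‖ ≤ δ) :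
    ‖aeval x (comb P s l)‖ ≤ 2 ^ (2 * T ^ 2 + T) * δ := by
  rw [comb_eval]
  refine (norm_sum_le _ _).trans ?_
  calc ∑ j ∈ Finset.range s, ‖(l : ℂ) ^ j * aeval x (P j)‖
      ≤ ∑ _j ∈ Finset.range s, (2 : ℝ) ^ (2 * T ^ 2) * δ := by
        apply Finset.sum_le_sum
        intro j hj
        rw [norm_mul, norm_pow, Complex.norm_natCast]
        have h1 : (l : ℝ) ^ j ≤ (2 : ℝ) ^ (2 * T ^ 2) := by
          exact_mod_cast pow_le_aux hT hs hl (Finset.mem_range.1 hj)
        have h2 := h j (Finset.mem_range.1 hj)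
        gcongr
    _ = s * ((2 : ℝ) ^ (2 * T ^ 2) * δ) := by simp
    _ ≤ 2 ^ T * ((2 : ℝ) ^ (2 * T ^ 2) * δ) := by
        have : (s : ℝ) ≤ 2 ^ T := by
          have := two_mul_le_two_pow hT
          exact_mod_cast (by omega : s ≤ 2 ^ T)
        gcongr
    _ = 2 ^ (2 * T ^ 2 + T) * δ := by ring

/-- Nonvanishing of one of the resultants. -/
lemma exists_res_ne (w : Fin (n + 1) → ℤ) (P : ℕ → MvPolynomial (Fin (n + 1)) ℤ) (s T D : ℕ)
    (hs : s ≤ T) (P0 : MvPolynomial (Fin (n + 1)) ℤ) (hD : P0.totalDegree = D) (hDT : D ≤ T)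
    (hdeg : ∀ j < s, (P j).totalDegree ≤ T)
    (hw : eval w (homogeneousComponent D P0) ≠ 0)
    (hne : ∀ x : Fin (n + 1) → ℂ, ∃ j < s, aeval x (P j) ≠ 0) (y : Fin n → ℂ) :
    ∃ l < T ^ 2 + 1, aeval y ((psi w P0).resultant (psi w (comb P s l)) D T) ≠ 0 := by
  classical
  set φ := (aeval y : MvPolynomial (Fin n) ℤ →ₐ[ℤ] ℂ).toRingHom with hφ
  set f := (psi w P0).map φ with hf
  have htop : (psi w P0).coeff D = C (eval w (homogeneousComponent D P0)) :=
    psi_coeff_top w P0 D hD.le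
  have hnd : (psi w P0).natDegree ≤ D :=
    (psi_gd w (Finset.univ.sup fun j => (w j).natAbs)
      (fun j => Finset.le_sup (f := fun j => (w j).natAbs) (Finset.mem_univ j)) P0 D hD.le).deg
  have hfc : f.coeff D ≠ 0 := by
    rw [hf, Polynomial.coeff_map, htop]
    change aeval y (C _) ≠ 0
    rw [aeval_C]
    simpa using hw
  have hfD : f.natDegree = D := by
    apply le_antisymm
    · exact Polynomial.natDegree_map_le.trans hnd
    · exact Polynomial.le_natDegree_of_ne_zero hfc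
  have hf0 : f ≠ 0 := by
    intro h
    rw [h] at hfc
    simp at hfc
  -- the auxiliary polynomials
  let p : ℂ → Polynomial ℂ := fun ξ =>
    ∑ j ∈ Finset.range s, Polynomial.C (aeval (pt w y ξ) (P j)) * Polynomial.X ^ j
  have hp_ne : ∀ ξ, p ξ ≠ 0 := by
    intro ξ h0
    obtain ⟨j, hj, hj2⟩ := hne (pt w y ξ)
    have : (p ξ).coeff j = aeval (pt w y ξ) (P j) := by
      simp only [p, Polynomial.finsetSum_coeff, Polynomial.coeff_C_mul, Polynomial.coeff_X_pow]
      rw [Finset.sum_eq_single j]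
      · simp
      · intro i _ hi
        rw [if_neg (Ne.symm hi), mul_zero]
      · intro h
        exact absurd (Finset.mem_range.2 hj) h
    rw [h0, Polynomial.coeff_zero] at this
    exact hj2 this.symm
  have hp_deg : ∀ ξ, (p ξ).natDegree ≤ T := by
    intro ξ
    apply Polynomial.natDegree_sum_le_of_forall_le
    intro j hj
    refine (Polynomial.natDegree_C_mul_X_pow_le _ _).trans ?_
    have := Finset.mem_range.1 hj
    omega
  set Q : Polynomial ℂ := (f.roots.map p).prod with hQ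
  have hQ0 : Q ≠ 0 := by
    rw [hQ]
    apply Multiset.prod_ne_zero
    intro h
    rw [Multiset.mem_map] at h
    obtain ⟨ξ, _, hξ⟩ := h
    exact hp_ne ξ hξ
  have hQd : Q.natDegree ≤ T ^ 2 := by
    rw [hQ]
    refine (Polynomial.natDegree_multiset_prod_le _).trans ?_
    rw [Multiset.map_map]
    calc (Multiset.map (Polynomial.natDegree ∘ p) f.roots).sum
        ≤ Multiset.card (Multiset.map (Polynomial.natDegree ∘ p) f.roots) • T := by
          apply Multiset.sum_le_card_nsmul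
          intro x hx
          rw [Multiset.mem_map] at hx
          obtain ⟨ξ, _, rfl⟩ := hx
          exact hp_deg ξ
      _ ≤ T * T := by
          rw [Multiset.card_map, smul_eq_mul]
          apply Nat.mul_le_mul_right
          exact (Polynomial.card_roots' f).trans (by omega)
      _ = T ^ 2 := by ring
  obtain ⟨l, hl, hl2⟩ : ∃ l < T ^ 2 + 1, Q.eval (l : ℂ) ≠ 0 := by
    by_contra hcon
    push Not at hcon
    have h1 : (Finset.range (T ^ 2 + 1)).image (fun l : ℕ => (l : ℂ)) ⊆ Q.roots.toFinset := by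
      intro z hz
      rw [Finset.mem_image] at hz
      obtain ⟨l, hl, rfl⟩ := hz
      rw [Multiset.mem_toFinset, Polynomial.mem_roots hQ0]
      exact hcon l (Finset.mem_range.1 hl)
    have h2 := Finset.card_le_card h1
    rw [Finset.card_image_of_injective _ Nat.cast_injective, Finset.card_range] at h2
    have h3 := Multiset.toFinset_card_le Q.roots
    have h4 := Polynomial.card_roots' Q
    omega
  refine ⟨l, hl, ?_⟩
  set g := (psi w (comb P s l)).map φ with hg
  have hgd : g.natDegree ≤ T := by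
    refine Polynomial.natDegree_map_le.trans ?_
    exact (psi_gd w (Finset.univ.sup fun j => (w j).natAbs)
      (fun j => Finset.le_sup (f := fun j => (w j).natAbs) (Finset.mem_univ j)) (comb P s l) T
      (comb_totalDegree P s l T hdeg)).deg
  have h5 : aeval y ((psi w P0).resultant (psi w (comb P s l)) D T) = f.resultant g D T := by
    rw [hf, hg, Polynomial.resultant_map_map]
    rfl
  rw [h5]
  have h6 := Polynomial.resultant_eq_prod_eval f g T hgd (IsAlgClosed.splits f)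
  rw [hfD] at h6
  rw [h6]
  apply mul_ne_zero
  · apply pow_ne_zero
    rw [Polynomial.leadingCoeff, hfD]
    exact hfc
  · have h7 : f.roots.map g.eval = f.roots.map (fun ξ => (p ξ).eval (l : ℂ)) := by
      apply Multiset.map_congr rfl
      intro ξ _
      rw [hg, hφ, eval_psi, comb_eval]
      simp only [p, Polynomial.eval_finsetSum, Polynomial.eval_mul, Polynomial.eval_C,
        Polynomial.eval_pow, Polynomial.eval_X]
      apply Finset.sum_congr rfl
      intro j _
      ring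
    rw [h7]
    have h8 : (f.roots.map (fun ξ => (p ξ).eval (l : ℂ))).prod = Q.eval (l : ℂ) := by
      rw [hQ, Polynomial.eval_multiset_prod, Multiset.map_map]
      rfl
    rw [h8]
    exact hl2

lemma pow7 {T : ℕ} (hT : 2 ≤ T) : 16 * T ^ 3 ≤ T ^ 7 := by
  have h1 : 2 ^ 4 ≤ T ^ 4 := Nat.pow_le_pow_left hT 4
  calc 16 * T ^ 3 = 2 ^ 4 * T ^ 3 := by norm_num
    _ ≤ T ^ 4 * T ^ 3 := Nat.mul_le_mul_right _ h1
    _ = T ^ 7 := by ring

lemma claim_succ (n k : ℕ) (ih : Claim n k) : Claim (n + 1) (7 * k + 8) := by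
  classical
  intro T hT s hs P hdeg hlen hne x hx
  have hT2 : 2 * T ≤ T ^ 2 := by nlinarith
  have hT3 : 2 * T ^ 2 ≤ T ^ 3 := by
    have : 2 * T ^ 2 ≤ T * T ^ 2 := Nat.mul_le_mul_right _ hT
    calc 2 * T ^ 2 ≤ T * T ^ 2 := this
      _ = T ^ 3 := by ring
  have hT7 := pow7 hT
  -- the first polynomial
  obtain ⟨j0, hj0, hj0'⟩ := hne (fun _ => 0)
  have hP0 : P j0 ≠ 0 := by
    intro h
    rw [h, map_zero] at hj0'
    exact hj0' rfl
  obtain ⟨D, hD⟩ : ∃ D, (P j0).totalDegree = D := ⟨_, rfl⟩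
  have hDT : D ≤ T := hD ▸ hdeg j0 hj0
  obtain ⟨w, hw1, hw2⟩ := exists_dir (P j0) hP0 T (hdeg j0 hj0)
  rw [hD] at hw2
  have hwabs : ∀ j, (w j).natAbs ≤ T + 1 := by
    intro j
    have := hw1 j
    omega
  -- bounds
  have hW : 1 + (T + 1) ≤ 2 ^ T := by
    have := add_two_le_two_pow hT
    omega
  have hWT : (1 + (T + 1)) ^ T ≤ 2 ^ (T ^ 2) := by
    calc (1 + (T + 1)) ^ T ≤ (2 ^ T) ^ T := Nat.pow_le_pow_left hW _
      _ = 2 ^ (T ^ 2) := by rw [← pow_mul]; congr 1; ring
  set f := psi w (P j0) with hf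
  have hfgd : Gd T (2 ^ (4 * T ^ 2)) f := by
    refine (psi_gd w (T + 1) hwabs (P j0) T (hdeg j0 hj0)).mono le_rfl ?_
    calc len (P j0) * (1 + (T + 1)) ^ T ≤ 2 ^ T * 2 ^ (T ^ 2) :=
          Nat.mul_le_mul (hlen j0 hj0) hWT
      _ = 2 ^ (T + T ^ 2) := by rw [← pow_add]
      _ ≤ 2 ^ (4 * T ^ 2) := Nat.pow_le_pow_right (by norm_num) (by omega)
  have hfdeg : f.natDegree ≤ D :=
    (psi_gd w (T + 1) hwabs (P j0) D hD.le).deg
  have hggd : ∀ l ≤ T ^ 2, Gd T (2 ^ (4 * T ^ 2)) (psi w (comb P s l)) := by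
    intro l hl
    refine (psi_gd w (T + 1) hwabs (comb P s l) T (comb_totalDegree P s l T hdeg)).mono le_rfl ?_
    calc len (comb P s l) * (1 + (T + 1)) ^ T ≤ 2 ^ (2 * T ^ 2 + 2 * T) * 2 ^ (T ^ 2) :=
          Nat.mul_le_mul (comb_len P s l T hT hs hl hlen) hWT
      _ = 2 ^ (2 * T ^ 2 + 2 * T + T ^ 2) := by rw [← pow_add]
      _ ≤ 2 ^ (4 * T ^ 2) := Nat.pow_le_pow_right (by norm_num) (by omega)
  set R : ℕ → MvPolynomial (Fin n) ℤ := fun l => f.resultant (psi w (comb P s l)) D T with hR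
  have hRb : ∀ l < T ^ 2 + 1, (R l).totalDegree ≤ T ^ 7 ∧ len (R l) ≤ 2 ^ (T ^ 7) := by
    intro l hl
    have hl' : l ≤ T ^ 2 := by omega
    have hg := hggd l hl'
    have := resultant_gd f (psi w (comb P s l)) D T T (2 ^ (4 * T ^ 2))
      (fun i => ⟨hfgd.tdeg i, (len_coeff_le_len2 _ _).trans hfgd.size⟩)
      (fun i => ⟨hg.tdeg i, (len_coeff_le_len2 _ _).trans hg.size⟩)
    constructor
    · refine this.1.trans ?_
      calc (D + T) * T ≤ (T + T) * T := Nat.mul_le_mul_right _ (by omega)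
        _ = 2 * T ^ 2 := by ring
        _ ≤ T ^ 7 := by omega
    · refine this.2.trans ?_
      calc (D + T).factorial * (2 ^ (4 * T ^ 2)) ^ (D + T)
          ≤ 2 ^ (2 * T ^ 2) * (2 ^ (4 * T ^ 2)) ^ (2 * T) := by
            apply Nat.mul_le_mul (fact_le hT (by omega))
            exact Nat.pow_le_pow_right (by positivity) (by omega)
        _ = 2 ^ (2 * T ^ 2 + 8 * T ^ 3) := by rw [← pow_mul, ← pow_add]; congr 1; ring
        _ ≤ 2 ^ (T ^ 7) := Nat.pow_le_pow_right (by norm_num) (by omega)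
  -- the point
  have hw0 : (w 0 : ℂ) ≠ 0 := by
    have := (hw1 0).1
    exact_mod_cast (by omega : w 0 ≠ 0)
  set t : ℂ := x 0 / (w 0 : ℂ) with ht
  set y : Fin n → ℂ := fun i => x i.succ - (w i.succ : ℂ) * t with hy
  have hpt : pt w y t = x := by
    funext j
    refine Fin.cases ?_ (fun i => ?_) j
    · simp only [pt, Fin.cons_zero, zero_add, ht]
      field_simp
    · simp only [pt, Fin.cons_succ, hy]
      ring
  have htn : ‖t‖ ≤ 2 ^ T := by
    rw [ht, norm_div]
    have h1 : (1 : ℝ) ≤ ‖(w 0 : ℂ)‖ := by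
      rw [Complex.norm_intCast]
      have := (hw1 0).1
      have h2 : (1 : ℝ) ≤ (w 0 : ℝ) := by exact_mod_cast this
      exact h2.trans (le_abs_self _)
    calc ‖x 0‖ / ‖(w 0 : ℂ)‖ ≤ ‖x 0‖ := div_le_self (norm_nonneg _) h1
      _ ≤ 2 ^ T := hx 0
  have hyn : ∀ i, ‖y i‖ ≤ 2 ^ (2 * T) := by
    intro i
    rw [hy]
    refine (norm_sub_le _ _).trans ?_
    rw [norm_mul]
    have h1 : ‖(w i.succ : ℂ)‖ ≤ T + 1 := by
      rw [Complex.norm_intCast]
      have h3 := hw1 i.succ
      have h4 : (0 : ℝ) ≤ (w i.succ : ℝ) := by exact_mod_cast (by omega : 0 ≤ w i.succ)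
      rw [abs_of_nonneg h4]
      exact_mod_cast h3.2
    have h2 : ((T : ℝ) + 2) ≤ 2 ^ T := by exact_mod_cast add_two_le_two_pow hT
    calc ‖x i.succ‖ + ‖(w i.succ : ℂ)‖ * ‖t‖ ≤ 2 ^ T + (T + 1) * 2 ^ T := by
          have := hx i.succ
          gcongr
      _ = (T + 2) * 2 ^ T := by ring
      _ ≤ 2 ^ T * 2 ^ T := by gcongr
      _ = 2 ^ (2 * T) := by rw [← pow_add]; congr 1; ring
  -- induction hypothesis
  have hIH := ih (T ^ 7) (by
      have : 0 < T ^ 3 := by positivity
      omega) (T ^ 2 + 1) (by omega) R (fun l hl => (hRb l hl).1) (fun l hl => (hRb l hl).2)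
    (fun y => exists_res_ne w P s T D hs (P j0) hD hDT hdeg hw2 hne y) y (by
      intro i
      refine (hyn i).trans ?_
      apply pow_le_pow_right₀ (by norm_num)
      omega)
  obtain ⟨l, hl, hRl⟩ := hIH
  by_contra hcon
  push Not at hcon
  set δ := Real.exp (-((T : ℝ) ^ (7 * k + 8))) with hδ
  have hδ0 : 0 < δ := Real.exp_pos _
  have hl' : l ≤ T ^ 2 := by omega
  set φ := (aeval y : MvPolynomial (Fin n) ℤ →ₐ[ℤ] ℂ).toRingHom with hφ
  have hcoef : ∀ (F : Polynomial (MvPolynomial (Fin n) ℤ)), Gd T (2 ^ (4 * T ^ 2)) F →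
      ∀ i, ‖(F.map φ).coeff i‖ ≤ 2 ^ (6 * T ^ 2) := by
    intro F hF i
    rw [Polynomial.coeff_map]
    have h1 := norm_aeval_le (F.coeff i) y (2 ^ (2 * T)) (one_le_pow₀ (by norm_num)) hyn T
      (hF.tdeg i)
    have h2 : ((len (F.coeff i) : ℕ) : ℝ) ≤ 2 ^ (4 * T ^ 2) := by
      exact_mod_cast (len_coeff_le_len2 _ _).trans hF.size
    calc ‖φ (F.coeff i)‖ ≤ (len (F.coeff i) : ℝ) * (2 ^ (2 * T)) ^ T := h1
      _ ≤ 2 ^ (4 * T ^ 2) * (2 ^ (2 * T)) ^ T := by gcongr
      _ = 2 ^ (6 * T ^ 2) := by rw [← pow_mul, ← pow_add]; congr 1; ring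
  have hup := norm_resultant_le (f.map φ) ((psi w (comb P s l)).map φ) D T (2 ^ (6 * T ^ 2))
    (2 ^ T) (2 ^ (2 * T ^ 2 + T) * δ) (one_le_pow₀ (by norm_num)) (one_le_pow₀ (by norm_num))
    (Polynomial.natDegree_map_le.trans hfdeg) (Polynomial.natDegree_map_le.trans (hggd l hl').deg)
    (by omega) (hcoef f hfgd) (hcoef _ (hggd l hl')) t htn (by
      rw [hf, hφ, eval_psi, hpt]
      calc ‖aeval x (P j0)‖ ≤ δ := (hcon j0 hj0).le
        _ = 1 * δ := by ring
        _ ≤ 2 ^ (2 * T ^ 2 + T) * δ := by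
            gcongr
            exact one_le_pow₀ (by norm_num)) (by
      rw [hφ, eval_psi, hpt]
      exact comb_small P s l T hT hs hl' x δ hδ0.le (fun j hj => (hcon j hj).le))
  have hRe : aeval y (R l) = (f.map φ).resultant ((psi w (comb P s l)).map φ) D T := by
    rw [Polynomial.resultant_map_map]
    rfl
  rw [← hRe] at hup
  have hup2 : ‖aeval y (R l)‖ ≤ 2 ^ (T ^ 7) * δ := by
    refine hup.trans ?_
    have h1 : (((D + T).factorial : ℕ) : ℝ) ≤ 2 ^ (2 * T ^ 2) := by
      exact_mod_cast fact_le hT (by omega)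
    have h2 : ((2 : ℝ) ^ (6 * T ^ 2)) ^ (D + T) ≤ 2 ^ (12 * T ^ 3) := by
      calc ((2 : ℝ) ^ (6 * T ^ 2)) ^ (D + T) ≤ ((2 : ℝ) ^ (6 * T ^ 2)) ^ (2 * T) := by
            apply pow_le_pow_right₀ (one_le_pow₀ (by norm_num))
            omega
        _ = 2 ^ (12 * T ^ 3) := by rw [← pow_mul]; congr 1; ring
    have h3 : ((2 : ℝ) ^ T) ^ (D + T) ≤ 2 ^ (2 * T ^ 2) := by
      calc ((2 : ℝ) ^ T) ^ (D + T) ≤ ((2 : ℝ) ^ T) ^ (2 * T) := by
            apply pow_le_pow_right₀ (one_le_pow₀ (by norm_num))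
            omega
        _ = 2 ^ (2 * T ^ 2) := by rw [← pow_mul]; congr 1; ring
    have h4 : (((D + T : ℕ)) : ℝ) ≤ 2 ^ T := by
      have := two_mul_le_two_pow hT
      exact_mod_cast (by omega : D + T ≤ 2 ^ T)
    calc ((D + T : ℕ) : ℝ) * (((2 : ℝ) ^ T) ^ (D + T) * (2 ^ (2 * T ^ 2 + T) * δ) *
          ((D + T).factorial * ((2 : ℝ) ^ (6 * T ^ 2)) ^ (D + T)))
        ≤ 2 ^ T * (2 ^ (2 * T ^ 2) * (2 ^ (2 * T ^ 2 + T) * δ) *
          (2 ^ (2 * T ^ 2) * 2 ^ (12 * T ^ 3))) := by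
          gcongr
      _ = 2 ^ (12 * T ^ 3 + 6 * T ^ 2 + 2 * T) * δ := by
          have : 12 * T ^ 3 + 6 * T ^ 2 + 2 * T =
            T + (2 * T ^ 2) + (2 * T ^ 2 + T) + (2 * T ^ 2 + 12 * T ^ 3) := by ring
          rw [this]
          simp only [pow_add]
          ring
      _ ≤ 2 ^ (T ^ 7) * δ := by
          gcongr
          · norm_num
          · omega
  have h2e : (2 : ℝ) ≤ Real.exp 1 := by
    have := Real.add_one_le_exp (1 : ℝ)
    linarith
  have hup3 : ‖aeval y (R l)‖ ≤ Real.exp ((T : ℝ) ^ 7 - (T : ℝ) ^ (7 * k + 8)) := by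
    refine hup2.trans ?_
    rw [sub_eq_add_neg, Real.exp_add]
    have : (2 : ℝ) ^ (T ^ 7) ≤ Real.exp ((T : ℝ) ^ 7) := by
      calc (2 : ℝ) ^ (T ^ 7) ≤ (Real.exp 1) ^ (T ^ 7) := by gcongr
        _ = Real.exp ((T : ℝ) ^ 7) := by
            rw [← Real.exp_nat_mul]
            push_cast
            rw [mul_one]
    gcongr
  have hfin := hRl.trans hup3
  rw [Real.exp_le_exp] at hfin
  have hTr : (2 : ℝ) ≤ T := by exact_mod_cast hT
  push_cast at hfin
  rw [← pow_mul] at hfin
  have e1 : (T : ℝ) ^ (7 * k + 8) = T * ((T : ℝ) ^ 7 * (T : ℝ) ^ (7 * k)) := by ring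
  rw [e1] at hfin
  have hA : (1 : ℝ) ≤ (T : ℝ) ^ (7 * k) := one_le_pow₀ (by linarith)
  have hB : (1 : ℝ) < (T : ℝ) ^ 7 := one_lt_pow₀ (by linarith) (by norm_num)
  set A := (T : ℝ) ^ (7 * k)
  set B := (T : ℝ) ^ 7
  have h5 : 2 * (B * A) ≤ T * (B * A) := by
    have : 0 ≤ B * A := by positivity
    gcongr
  have h6 : B ≤ B * A := le_mul_of_one_le_right (by linarith) hA
  have h7 : A < B * A := by nlinarith
  linarith

lemma claim_all (n : ℕ) : ∃ k, Claim n k := by
  induction n with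
  | zero => exact ⟨0, claim_zero⟩
  | succ n ih =>
    obtain ⟨k, hk⟩ := ih
    exact ⟨_, claim_succ n k hk⟩

lemma card_support_le (P : MvPolynomial (Fin n) ℤ) (T : ℕ) (hT : P.totalDegree ≤ T) :
    P.support.card ≤ (T + 1) ^ n := by
  classical
  have h1 : P.support.card ≤ (Finset.univ : Finset (Fin n → Fin (T + 1))).card := by
    apply Finset.card_le_card_of_injOn (fun m i => Fin.ofNat (T + 1) (m i))
    · intro m _
      exact Finset.mem_coe.2 (Finset.mem_univ _)
    · intro m hm m' hm' h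
      ext i
      have e1 : m i ≤ T := by
        have h3 := (MvPolynomial.le_totalDegree (Finset.mem_coe.1 hm)).trans hT
        rw [Finsupp.sum_fintype _ _ (by simp)] at h3
        exact (Finset.single_le_sum (f := fun i => m i) (fun _ _ => Nat.zero_le _)
          (Finset.mem_univ i)).trans h3
      have e2 : m' i ≤ T := by
        have h3 := (MvPolynomial.le_totalDegree (Finset.mem_coe.1 hm')).trans hT
        rw [Finsupp.sum_fintype _ _ (by simp)] at h3
        exact (Finset.single_le_sum (f := fun i => m' i) (fun _ _ => Nat.zero_le _)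
          (Finset.mem_univ i)).trans h3
      have h2 := congrArg Fin.val (congrFun h i)
      simp only [Fin.ofNat_eq_cast, Fin.val_natCast] at h2
      rwa [Nat.mod_eq_of_lt (by omega), Nat.mod_eq_of_lt (by omega)] at h2
  refine h1.trans ?_
  simp

/-- **Effective arithmetic Nullstellensatz, lower bound form.** -/
theorem eff_null (n : ℕ) : ∃ k : ℕ, ∀ T : ℕ, 2 ≤ T → ∀ S : Finset (MvPolynomial (Fin n) ℤ),
    S.card ≤ T → (∀ P ∈ S, P.totalDegree ≤ T) →
    (∀ P ∈ S, ∀ m : Fin n →₀ ℕ, |MvPolynomial.coeff m P| ≤ (2 : ℤ) ^ T) →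
    (∀ x : Fin n → ℂ, ∃ P ∈ S, MvPolynomial.aeval x P ≠ 0) →
    ∀ x : Fin n → ℂ, (∀ i, ‖x i‖ ≤ (2 : ℝ) ^ T) →
      ∃ P ∈ S, Real.exp (-((T : ℝ) ^ k)) ≤ ‖MvPolynomial.aeval x P‖ := by
  classical
  obtain ⟨k, hk⟩ := claim_all n
  refine ⟨(n + 2) * k, ?_⟩
  intro T hT S hcard hdeg hcoef hne x hx
  -- enumerate `S`
  set e := S.equivFin with he
  set P : ℕ → MvPolynomial (Fin n) ℤ := fun j =>
    if h : j < S.card then ((e.symm ⟨j, h⟩ : S) : MvPolynomial (Fin n) ℤ) else 0 with hP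
  have hPmem : ∀ j, j < S.card → P j ∈ S := by
    intro j hj
    simp only [hP, dif_pos hj]
    exact (e.symm ⟨j, hj⟩).2
  have hPsurj : ∀ p ∈ S, ∃ j < S.card, P j = p := by
    intro p hp
    refine ⟨(e ⟨p, hp⟩ : Fin S.card), (e ⟨p, hp⟩).2, ?_⟩
    simp only [hP, dif_pos (e ⟨p, hp⟩).2]
    simp
  set T' := (n + 1) * T with hT'
  have hTT' : T ≤ T' := by
    rw [hT']
    nlinarith
  have hlen : ∀ j < S.card, len (P j) ≤ 2 ^ T' := by
    intro j hj
    have hm := hPmem j hj
    unfold len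
    calc ∑ m ∈ (P j).support, (coeff m (P j)).natAbs ≤ ∑ _m ∈ (P j).support, 2 ^ T := by
          apply Finset.sum_le_sum
          intro m _
          have h1 := hcoef (P j) hm m
          have h2 : (((coeff m (P j)).natAbs : ℕ) : ℤ) ≤ ((2 ^ T : ℕ) : ℤ) := by
            rw [Int.natCast_natAbs]
            push_cast
            exact h1
          exact_mod_cast h2
      _ = (P j).support.card * 2 ^ T := by simp
      _ ≤ (T + 1) ^ n * 2 ^ T := Nat.mul_le_mul_right _ (card_support_le _ _ (hdeg _ hm))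
      _ ≤ (2 ^ T) ^ n * 2 ^ T := by
          apply Nat.mul_le_mul_right
          apply Nat.pow_le_pow_left
          have := add_two_le_two_pow hT
          omega
      _ = 2 ^ T' := by rw [← pow_mul, ← pow_add, hT']; congr 1; ring
  obtain ⟨j, hj, hj2⟩ := hk T' (hT.trans hTT') S.card (hcard.trans hTT') P
    (fun j hj => (hdeg _ (hPmem j hj)).trans hTT') hlen
    (fun x => by
      obtain ⟨p, hp, hp2⟩ := hne x
      obtain ⟨j, hj, rfl⟩ := hPsurj p hp
      exact ⟨j, hj, hp2⟩) x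
    (fun i => (hx i).trans (pow_le_pow_right₀ (by norm_num) hTT'))
  refine ⟨P j, hPmem j hj, le_trans ?_ hj2⟩
  rw [Real.exp_le_exp, neg_le_neg_iff]
  have hn : n + 1 ≤ T ^ (n + 1) := by
    calc n + 1 ≤ 2 ^ (n + 1) := (Nat.lt_two_pow_self).le
      _ ≤ T ^ (n + 1) := Nat.pow_le_pow_left hT _
  have h1 : T' ^ k ≤ T ^ ((n + 2) * k) := by
    rw [pow_mul]
    apply Nat.pow_le_pow_left
    calc T' = (n + 1) * T := hT'
      _ ≤ T ^ (n + 1) * T := Nat.mul_le_mul_right _ hn
      _ = T ^ (n + 2) := by ring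
  exact_mod_cast h1

end Pool.Agent.TH596.EffNull
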