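import Pool.Agent.TH477.RB.Defs

set_option autoImplicit false

namespace Pool.Agent.TH596.J4

open Finset Pool.Agent.TH477.RB

/-! ### Upper bound for the Turán graph -/

lemma cc_le_pow {V : Type} [Fintype V] (r k : ℕ) (G : SimpleGraph V) [DecidableRel G.Adj]
    [DecidableEq V] : cc r k G ≤ r ^ G.edgeFinset.card := by
  classical
  unfold cc
  refine (Nat.card_le_card_of_injective (Subtype.val) Subtype.val_injective).trans ?_
  rw [Nat.card_eq_fintype_card, Fintype.card_fun, Fintype.card_fin, SimpleGraph.edgeFinset_card]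

lemma turan_bound (r k n : ℕ) (hr : 1 ≤ r) (hk : 2 ≤ k) :
    (cc r k (SimpleGraph.turanGraph n (k - 1))) ^ (2 * (k - 1)) ≤ r ^ ((k - 2) * n ^ 2) := by
  classical
  calc (cc r k (SimpleGraph.turanGraph n (k - 1))) ^ (2 * (k - 1))
      ≤ (r ^ (SimpleGraph.turanGraph n (k - 1)).edgeFinset.card) ^ (2 * (k - 1)) :=
        Nat.pow_le_pow_left (cc_le_pow r k _) _
    _ = r ^ (2 * (k - 1) * (SimpleGraph.turanGraph n (k - 1)).edgeFinset.card) := by
        rw [← pow_mul, mul_comm]
    _ ≤ r ^ ((k - 2) * n ^ 2) := by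
        apply Nat.pow_le_pow_right hr
        have h := SimpleGraph.mul_card_edgeFinset_turanGraph_le (n := n) (r := k - 1)
        have e : k - 1 - 1 = k - 2 := by omega
        rw [e] at h
        exact h

/-- If `A < B` then `A^n * C ≤ B^n` for large `n`. -/
lemma pow_dominates (A B C : ℕ) (hA : 0 < A) (hAB : A < B) (n : ℕ) (hn : A * C ≤ n) :
    A ^ n * C ≤ B ^ n := by
  have hAr : (0 : ℝ) < A := by exact_mod_cast hA
  have h1 : (A + 1) ^ n ≤ B ^ n := Nat.pow_le_pow_left hAB n
  refine le_trans ?_ h1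
  have h2 : (A : ℝ) ^ n * C ≤ ((A : ℝ) + 1) ^ n := by
    have h3 : (1 : ℝ) + n * (1 / A) ≤ (1 + 1 / A) ^ n :=
      one_add_mul_le_pow (by have : (0 : ℝ) < 1 / A := by positivity
                             linarith) n
    have h4 : (C : ℝ) ≤ (1 + 1 / A) ^ n := by
      refine le_trans ?_ h3
      have h5 : ((A * C : ℕ) : ℝ) ≤ n := by exact_mod_cast hn
      push_cast at h5
      have h6 : (C : ℝ) ≤ n * (1 / A) := by
        rw [mul_one_div, le_div_iff₀ hAr]
        linarith
      linarith
    calc (A : ℝ) ^ n * C ≤ (A : ℝ) ^ n * (1 + 1 / A) ^ n := by gcongr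
      _ = ((A : ℝ) + 1) ^ n := by
          rw [← mul_pow]
          congr 1
          field_simp
  exact_mod_cast h2

/-! ### First construction -/

lemma few_colors (r k m n : ℕ) (hm : m ≤ r) (hmk : m < k.choose 2) :
    m ^ (n.choose 2) ≤ cc r k (⊤ : SimpleGraph (Fin n)) := by
  classical
  have hcard : Nat.card ((⊤ : SimpleGraph (Fin n)).edgeSet → Fin m) = m ^ (n.choose 2) := by
    rw [Nat.card_eq_fintype_card, Fintype.card_fun, Fintype.card_fin,
      ← SimpleGraph.edgeFinset_card, SimpleGraph.card_edgeFinset_top_eq_card_choose_two,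
      Fintype.card_fin]
  rw [← hcard]
  unfold cc
  refine Nat.card_le_card_of_injective (fun c => ⟨fun e => Fin.castLE hm (c e), ?_⟩) ?_
  · intro S hS
    have hScard : S.card = k := hS.card_eq
    have hmem : ∀ e ∈ S.offDiag.image (Sym2.mk.uncurry),
        e ∈ (⊤ : SimpleGraph (Fin n)).edgeSet ∧ ∀ v ∈ e, v ∈ S := by
      intro e he
      rw [Finset.mem_image] at he
      obtain ⟨⟨a, b⟩, hab, rfl⟩ := he
      rw [Finset.mem_offDiag] at hab
      refine ⟨?_, ?_⟩
      · simp only [Function.uncurry_apply_pair, SimpleGraph.mem_edgeSet, SimpleGraph.top_adj]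
        exact hab.2.2
      · intro v hv
        simp only [Function.uncurry_apply_pair, Sym2.mem_iff] at hv
        rcases hv with rfl | rfl
        · exact hab.1
        · exact hab.2.1
    have hlt : (univ : Finset (Fin m)).card < (S.offDiag.image (Sym2.mk.uncurry)).attach.card := by
      rw [Finset.card_attach, Sym2.card_image_offDiag, hScard, Finset.card_univ, Fintype.card_fin]
      exact hmk
    obtain ⟨e, _, f, _, hef, hcef⟩ := Finset.exists_ne_map_eq_of_card_lt_of_maps_to hlt
      (f := fun e : {x // x ∈ S.offDiag.image (Sym2.mk.uncurry)} => c ⟨e.1, (hmem e.1 e.2).1⟩)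
      (fun _ _ => Finset.mem_coe.2 (Finset.mem_univ _))
    refine ⟨⟨e.1, (hmem e.1 e.2).1⟩, ⟨f.1, (hmem f.1 f.2).1⟩, ?_, (hmem e.1 e.2).2,
      (hmem f.1 f.2).2, ?_⟩
    · intro h
      exact hef (Subtype.ext (congrArg (fun x => x.1) h))
    · exact congrArg _ hcef
  · intro c c' h
    funext e
    have h1 := congrFun (Subtype.ext_iff.1 h) e
    exact Fin.castLE_injective hm h1

/-- `choose 2` lower bound as a numeric fact. -/
lemma choose_lt_two_pow (k : ℕ) (hk : 7 ≤ k) : k.choose 2 ≤ 2 ^ (k - 2) := by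
  induction k, hk using Nat.le_induction with
  | base => decide
  | succ k hk ih =>
    have e : k + 1 - 2 = (k - 2) + 1 := by omega
    rw [e, pow_succ, Nat.choose_succ_succ' k 1, Nat.choose_one_right]
    have e2 : k.choose (1 + 1) = k.choose 2 := rfl
    rw [e2]
    have h2 : k ≤ k.choose 2 := by
      rw [Nat.choose_two_right, Nat.le_div_iff_mul_le (by norm_num)]
      nlinarith [Nat.sub_add_cancel (by omega : 1 ≤ k)]
    omega

lemma strict (k r : ℕ) (hk : 4 ≤ k) (h : r ^ (k - 2) ≤ (k.choose 2 - 1) ^ (k - 1)) :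
    r ^ (k - 2) < (k.choose 2 - 1) ^ (k - 1) := by
  rcases lt_or_eq_of_le h with h1 | h1
  · exact h1
  exfalso
  set Q := k.choose 2 - 1 with hQ
  have hQ5 : 5 ≤ Q := by
    have : (4 : ℕ).choose 2 ≤ k.choose 2 := Nat.choose_le_choose 2 hk
    have h4 : (4 : ℕ).choose 2 = 6 := by decide
    omega
  have e1 : k - 1 = (k - 2) + 1 := by omega
  rw [e1, pow_succ] at h1
  have hdvd : Q ^ (k - 2) ∣ r ^ (k - 2) := ⟨Q, h1⟩
  rw [Nat.pow_dvd_pow_iff (by omega)] at hdvd
  obtain ⟨t, rfl⟩ := hdvd
  rw [mul_pow] at h1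
  have ht : t ^ (k - 2) = Q := Nat.eq_of_mul_eq_mul_left (by positivity) h1
  have ht2 : 2 ≤ t := by
    by_contra hcon
    have : t = 0 ∨ t = 1 := by omega
    rcases this with rfl | rfl
    · rw [zero_pow (by omega)] at ht; omega
    · rw [one_pow] at ht; omega
  rcases Nat.lt_or_ge k 7 with h7 | h7
  · -- small cases
    have h3 : t < 3 ∨ 3 ≤ t := by omega
    interval_cases k
    · have hQ' : Q = 5 := by rw [hQ]; decide
      rw [hQ'] at ht
      rcases h3 with h3 | h3
      · interval_cases t; norm_num at ht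
      · have := Nat.pow_le_pow_left h3 (4 - 2)
        norm_num at this ht
        omega
    · have hQ' : Q = 9 := by rw [hQ]; decide
      rw [hQ'] at ht
      rcases h3 with h3 | h3
      · interval_cases t; norm_num at ht
      · have := Nat.pow_le_pow_left h3 (5 - 2)
        norm_num at this ht
        omega
    · have hQ' : Q = 14 := by rw [hQ]; decide
      rw [hQ'] at ht
      rcases h3 with h3 | h3
      · interval_cases t; norm_num at ht
      · have := Nat.pow_le_pow_left h3 (6 - 2)
        norm_num at this ht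
        omega
  · have h2 := choose_lt_two_pow k h7
    have h3 : 2 ^ (k - 2) ≤ t ^ (k - 2) := Nat.pow_le_pow_left ht2 _
    omega

theorem low1 (k r : ℕ) (hk : 4 ≤ k) (hr : 2 ≤ r)
    (h : r ^ (k - 2) ≤ (k.choose 2 - 1) ^ (k - 1)) (n0 : ℕ) :
    ∃ n ≥ n0, cc r k (SimpleGraph.turanGraph n (k - 1)) ≤ cc r k (⊤ : SimpleGraph (Fin n)) := by
  classical
  have hs := strict k r hk h
  set Q := k.choose 2 - 1 with hQ
  have hQ5 : 5 ≤ Q := by
    have : (4 : ℕ).choose 2 ≤ k.choose 2 := Nat.choose_le_choose 2 hk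
    have h4 : (4 : ℕ).choose 2 = 6 := by decide
    omega
  set A := r ^ (k - 2) with hA
  set B := Q ^ (k - 1) with hB
  have hA0 : 0 < A := by positivity
  rcases Nat.lt_or_ge Q r with hrQ | hrQ
  · refine ⟨max n0 (A * B), le_max_left _ _, ?_⟩
    set n := max n0 (A * B) with hn
    have hn1 : A * B ≤ n := le_max_right _ _
    have hnpos : 1 ≤ n := by
      have : 0 < A * B := by positivity
      omega
    have hkey : A ^ n * B ≤ B ^ n := pow_dominates A B B hA0 hs n hn1
    have hB0 : 0 < B := by positivity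
    have hkey2 : A ^ n ≤ B ^ (n - 1) := by
      have e : B ^ n = B ^ (n - 1) * B := by
        rw [← pow_succ]; congr 1; omega
      rw [e] at hkey
      exact Nat.le_of_mul_le_mul_right hkey hB0
    have h1 := turan_bound r k n (by omega) (by omega)
    have h2 := few_colors r k Q n hrQ.le (by omega)
    refine le_trans ?_ h2
    have h3 : (cc r k (SimpleGraph.turanGraph n (k - 1))) ^ (2 * (k - 1)) ≤
        (Q ^ (n.choose 2)) ^ (2 * (k - 1)) := by
      refine h1.trans ?_
      calc r ^ ((k - 2) * n ^ 2) = (A ^ n) ^ n := by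
            rw [hA, ← pow_mul, ← pow_mul]; congr 1; ring
        _ ≤ (B ^ (n - 1)) ^ n := Nat.pow_le_pow_left hkey2 n
        _ = (Q ^ (n.choose 2)) ^ (2 * (k - 1)) := by
            rw [hB, ← pow_mul, ← pow_mul, ← pow_mul]
            congr 1
            have : n.choose 2 * 2 = n * (n - 1) := by
              rw [Nat.choose_two_right]
              exact Nat.div_mul_cancel (Nat.even_mul_pred_self n).two_dvd
            calc (k - 1) * ((n - 1) * n) = (k - 1) * (n * (n - 1)) := by ring
              _ = (k - 1) * (n.choose 2 * 2) := by rw [this]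
              _ = n.choose 2 * (2 * (k - 1)) := by ring
    exact (Nat.pow_le_pow_iff_left (by omega)).1 h3
  · refine ⟨n0, le_rfl, ?_⟩
    refine le_trans (cc_le_pow r k _) (le_trans ?_ (few_colors r k r n0 le_rfl (by omega)))
    apply Nat.pow_le_pow_right (by omega)
    have := SimpleGraph.card_edgeFinset_le_card_choose_two
      (G := SimpleGraph.turanGraph n0 (k - 1))
    rwa [Fintype.card_fin] at this

end Pool.Agent.TH596.J4
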