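import Pool.Agent.TH596.J4

set_option autoImplicit false

namespace Pool.Agent.TH596.J4

open Finset Pool.Agent.TH477.RB

/-! ### Second construction -/

/-- Vertices: anchors and `N` groups of `p` vertices. -/
abbrev W (p N : ℕ) := Fin p ⊕ (Fin N × Fin p)

section construction

variable {p N r : ℕ}

/-- The part of a vertex. -/
def part : W p N → Fin p := Sum.elim id Prod.snd

def small (r : ℕ) : Finset (Fin r) := univ.filter (fun c : Fin r => (c : ℕ) < 3)
def big (r : ℕ) : Finset (Fin r) := univ.filter (fun c : Fin r => 3 ≤ (c : ℕ))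

lemma card_small (hr : 3 ≤ r) : (small r).card = 3 := by
  unfold small
  rw [Fin.card_filter_val_lt]
  omega

lemma card_big (hr : 3 ≤ r) : (big r).card = r - 3 := by
  have h1 : (small r).card + (big r).card = r := by
    unfold small big
    have := Finset.card_filter_add_card_filter_not (s := (univ : Finset (Fin r)))
      (fun c : Fin r => (c : ℕ) < 3)
    simp only [not_lt, Finset.card_univ, Fintype.card_fin] at this
    exact this
  have := card_small hr
  omega

/-- Allowed colours of a pair. -/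
def al (hr : 0 < r) : W p N → W p N → Finset (Fin r)
  | Sum.inl _, Sum.inl _ => {⟨0, hr⟩}
  | Sum.inl i, Sum.inr q => if i = q.2 then small r else big r
  | Sum.inr q, Sum.inl i => if i = q.2 then small r else big r
  | Sum.inr q, Sum.inr q' => if q.2 = q'.2 then (if q.1 = q'.1 then {⟨0, hr⟩} else small r) else univ

lemma al_symm (hr : 0 < r) (x y : W p N) : al hr x y = al hr y x := by
  rcases x with i | q <;> rcases y with j | q'
  · rfl
  · rfl
  · rfl
  · simp only [al, eq_comm]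

def alS (hr : 0 < r) : Sym2 (W p N) → Finset (Fin r) := Sym2.lift ⟨al hr, al_symm hr⟩

lemma alS_mk (hr : 0 < r) (x y : W p N) : alS hr s(x, y) = al hr x y := rfl

lemma al_diag (hr : 0 < r) (x : W p N) : al hr x x = {⟨0, hr⟩} := by
  rcases x with i | q
  · rfl
  · simp [al]

lemma al_small (hr : 0 < r) {x y : W p N} (hxy : x ≠ y) (h : part x = part y) :
    al hr x y = small r := by
  rcases x with i | q <;> rcases y with j | q'
  · exact absurd (congrArg Sum.inl h) hxy
  · simp only [part, Sum.elim_inl, Sum.elim_inr, id] at h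
    simp [al, h]
  · simp only [part, Sum.elim_inl, Sum.elim_inr, id] at h
    simp [al, h]
  · simp only [part, Sum.elim_inr] at h
    have : q.1 ≠ q'.1 := fun h1 => hxy (congrArg Sum.inr (Prod.ext h1 h))
    simp [al, h, this]

/-- The canonical colourings. -/
def DD (p N : ℕ) (hr : 0 < r) : Finset (Sym2 (W p N) → Fin r) := Fintype.piFinset (alS hr)

lemma same_part_pairs {X : Type} [DecidableEq X] (f : X → Fin p) (m : ℕ) (S : Finset X)
    (h : p + m ≤ S.card) :
    ∃ E : Finset (Sym2 X), E.card = m ∧ ∀ e ∈ E, ∃ x y, e = s(x, y) ∧ x ∈ S ∧ y ∈ S ∧ x ≠ y ∧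
      f x = f y := by
  induction m generalizing S with
  | zero => exact ⟨∅, rfl, by simp⟩
  | succ m ih =>
    obtain ⟨x, hx, y, hy, hxy, hf⟩ := Finset.exists_ne_map_eq_of_card_lt_of_maps_to
      (s := S) (t := (univ : Finset (Fin p))) (by rw [Finset.card_univ, Fintype.card_fin]; omega)
      (f := f) (fun _ _ => Finset.mem_coe.2 (Finset.mem_univ _))
    obtain ⟨E, hE, hE2⟩ := ih (S.erase y) (by rw [Finset.card_erase_of_mem hy]; omega)
    refine ⟨insert s(x, y) E, ?_, ?_⟩
    · rw [Finset.card_insert_of_notMem, hE]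
      intro hmem
      obtain ⟨a, b, hab, ha, hb, _, _⟩ := hE2 _ hmem
      have : y ∈ s(a, b) := by rw [← hab]; simp
      rw [Sym2.mem_iff] at this
      rcases this with rfl | rfl
      · exact (Finset.mem_erase.1 ha).1 rfl
      · exact (Finset.mem_erase.1 hb).1 rfl
    · intro e he
      rcases Finset.mem_insert.1 he with rfl | he
      · exact ⟨x, y, rfl, hx, hy, hxy, hf⟩
      · obtain ⟨a, b, hab, ha, hb, h1, h2⟩ := hE2 _ he
        exact ⟨a, b, hab, Finset.mem_of_mem_erase ha, Finset.mem_of_mem_erase hb, h1, h2⟩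

lemma good {n : ℕ} (hr : 0 < r) (σ : Fin n ≃ W p N) (d : Sym2 (W p N) → Fin r)
    (hd : d ∈ DD p N hr) (S : Finset (Fin n))
    (hS : (⊤ : SimpleGraph (Fin n)).IsNClique (p + 4) S) :
    ∃ e f : (⊤ : SimpleGraph (Fin n)).edgeSet, e ≠ f ∧ (∀ v ∈ (e : Sym2 (Fin n)), v ∈ S) ∧
      (∀ v ∈ (f : Sym2 (Fin n)), v ∈ S) ∧ d (Sym2.map σ e) = d (Sym2.map σ f) := by
  classical
  obtain ⟨E, hE, hE2⟩ := same_part_pairs (fun x => part (σ x)) 4 S (by rw [hS.card_eq])
  have hcol : ∀ e ∈ E, (d (Sym2.map σ e) : ℕ) < 3 := by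
    intro e he
    obtain ⟨x, y, rfl, _, _, hxy, hp⟩ := hE2 e he
    have h1 : d (Sym2.map σ s(x, y)) ∈ alS hr (Sym2.map σ s(x, y)) :=
      (Fintype.mem_piFinset.1 hd) _
    rw [Sym2.map_mk, alS_mk, al_small hr (fun h => hxy (σ.injective h)) hp] at h1
    rw [small, Finset.mem_filter] at h1
    exact h1.2
  obtain ⟨e, he, f, hf, hef, hdef⟩ := Finset.exists_ne_map_eq_of_card_lt_of_maps_to
    (s := E) (t := Finset.range 3) (by rw [hE]; simp)
    (f := fun e => (d (Sym2.map σ e) : ℕ)) (fun e he => by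
      simpa using hcol e (Finset.mem_coe.1 he))
  have hedge : ∀ e ∈ E, e ∈ (⊤ : SimpleGraph (Fin n)).edgeSet ∧ ∀ v ∈ e, v ∈ S := by
    intro e he
    obtain ⟨x, y, rfl, hx, hy, hxy, _⟩ := hE2 e he
    refine ⟨by simpa using hxy, ?_⟩
    intro v hv
    rcases Sym2.mem_iff.1 hv with rfl | rfl
    · exact hx
    · exact hy
  refine ⟨⟨e, (hedge e he).1⟩, ⟨f, (hedge f hf).1⟩, ?_, (hedge e he).2, (hedge f hf).2,
    Fin.ext hdef⟩
  intro h
  exact hef (congrArg (fun x => x.1) h)

/-- Action of a family of permutations. -/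
def act (π : Fin N → Equiv.Perm (Fin p)) : W p N ≃ W p N :=
  Equiv.sumCongr (Equiv.refl _) (Equiv.prodShear (Equiv.refl _) π)

@[simp] lemma act_inl (π : Fin N → Equiv.Perm (Fin p)) (i : Fin p) :
    act π (Sum.inl i) = Sum.inl i := rfl

@[simp] lemma act_inr (π : Fin N → Equiv.Perm (Fin p)) (g : Fin N) (j : Fin p) :
    act π (Sum.inr (g, j)) = Sum.inr (g, π g j) := rfl

lemma lower_count {n : ℕ} (hr : 0 < r) (hn : n = p * (N + 1)) :
    (p.factorial) ^ N * (DD p N hr).card ≤ cc r (p + 4) (⊤ : SimpleGraph (Fin n)) := by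
  classical
  have hcardW : Fintype.card (W p N) = n := by
    simp only [W, Fintype.card_sum, Fintype.card_prod, Fintype.card_fin, hn]
    ring
  let ε : Fin n ≃ W p N := (Fintype.equivFinOfCardEq hcardW).symm
  have hcard : Nat.card ((Fin N → Equiv.Perm (Fin p)) × {d // d ∈ DD p N hr}) =
      (p.factorial) ^ N * (DD p N hr).card := by
    rw [Nat.card_prod, Nat.card_eq_fintype_card, Nat.card_eq_fintype_card, Fintype.card_fun,
      Fintype.card_perm, Fintype.card_fin, Fintype.card_fin, Fintype.card_coe]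
  rw [← hcard]
  unfold cc
  refine Nat.card_le_card_of_injective
    (fun q => ⟨fun e => q.2.1 (Sym2.map (ε.trans (act q.1)) e), ?_⟩) ?_
  · intro S hS
    exact good hr (ε.trans (act q.1)) q.2.1 q.2.2 S hS
  · rintro ⟨π, d, hd⟩ ⟨π', d', hd'⟩ h
    have h1 : ∀ x y : W p N, x ≠ y → d s(act π x, act π y) = d' s(act π' x, act π' y) := by
      intro x y hxy
      have h2 := congrFun (Subtype.ext_iff.1 h) ⟨s(ε.symm x, ε.symm y), by
        simp only [SimpleGraph.mem_edgeSet, SimpleGraph.top_adj]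
        exact fun h => hxy (ε.symm.injective h)⟩
      simpa using h2
    have hπ : π = π' := by
      funext g
      apply Equiv.ext
      intro j
      by_contra hne
      have h2 := h1 (Sum.inr (g, j)) (Sum.inl (π g j)) (by simp)
      rw [act_inr, act_inl, act_inr, act_inl] at h2
      have h3 : d s(Sum.inr (g, π g j), Sum.inl (π g j)) ∈ small r := by
        have := (Fintype.mem_piFinset.1 hd) s(Sum.inr (g, π g j), Sum.inl (π g j))
        rw [alS_mk] at this
        simpa [al] using this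
      have h4 : d' s(Sum.inr (g, π' g j), Sum.inl (π g j)) ∈ big r := by
        have := (Fintype.mem_piFinset.1 hd') s(Sum.inr (g, π' g j), Sum.inl (π g j))
        rw [alS_mk] at this
        simpa [al, hne] using this
      rw [← h2] at h4
      rw [small, Finset.mem_filter] at h3
      rw [big, Finset.mem_filter] at h4
      omega
    subst hπ
    have hdd : d = d' := by
      funext e
      induction e with
      | h x y =>
        by_cases hxy : x = y
        · subst hxy
          have e1 := (Fintype.mem_piFinset.1 hd) s(x, x)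
          have e2 := (Fintype.mem_piFinset.1 hd') s(x, x)
          rw [alS_mk, al_diag, Finset.mem_singleton] at e1 e2
          rw [e1, e2]
        · have h2 := h1 ((act π).symm x) ((act π).symm y)
            (fun h => hxy ((act π).symm.injective h))
          simpa using h2
    subst hdd
    rfl

lemma prod_sq {X : Type} [Fintype X] [DecidableEq X] (F : Sym2 X → ℕ)
    (hF : ∀ x, F s(x, x) = 1) : (∏ e, F e) ^ 2 = ∏ x, ∏ y, F s(x, y) := by
  classical
  have h1 : ∏ x, ∏ y, F s(x, y) = ∏ q : X × X, F s(q.1, q.2) := by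
    rw [Fintype.prod_prod_type]
  rw [h1, ← Finset.prod_fiberwise (univ : Finset (X × X)) (fun q => s(q.1, q.2))
    (fun q => F s(q.1, q.2)), ← Finset.prod_pow]
  apply Finset.prod_congr rfl
  intro e _
  have h2 : ∏ q ∈ univ.filter (fun q : X × X => s(q.1, q.2) = e), F s(q.1, q.2) =
      ∏ _q ∈ univ.filter (fun q : X × X => s(q.1, q.2) = e), F e := by
    apply Finset.prod_congr rfl
    intro q hq
    rw [(Finset.mem_filter.1 hq).2]
  rw [h2, Finset.prod_const]
  induction e with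
  | h a b =>
    by_cases hab : a = b
    · subst hab
      rw [hF, one_pow, one_pow]
    · congr 1
      have h3 : univ.filter (fun q : X × X => s(q.1, q.2) = s(a, b)) = {(a, b), (b, a)} := by
        ext ⟨x, y⟩
        simp [Prod.ext_iff]
      rw [h3, Finset.card_pair]
      intro h
      exact hab (congrArg Prod.fst h)

lemma alg0 (s r M q : ℕ) :
    ((3 * s ^ q) ^ (M + 1)) ^ (q + 1) *
      ((3 * s ^ q * (3 ^ M * r ^ (q * (M + 1)))) ^ (q + 1)) ^ (M + 1) =
    (3 ^ (M + 1 + 1) * s ^ (2 * q) * r ^ (q * (M + 1))) ^ ((q + 1) * (M + 1)) := by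
  generalize (3 : ℕ) = t
  ring

lemma card_DD (hr : 3 ≤ r) (hp : 1 ≤ p) (hN : 1 ≤ N) :
    ((DD p N (by omega : 0 < r)).card) ^ 2 =
      (3 ^ (N + 1) * (r - 3) ^ (2 * (p - 1)) * r ^ ((p - 1) * N)) ^ (p * N) := by
  classical
  unfold DD
  rw [Fintype.card_piFinset, prod_sq]
  swap
  · intro x
    rw [alS_mk, al_diag, Finset.card_singleton]
  have hA : ∀ i : Fin p, ∏ j : Fin p, (if i = j then 3 else (r - 3)) = 3 * (r - 3) ^ (p - 1) := by
    intro i
    rw [← Finset.mul_prod_erase univ _ (Finset.mem_univ i), if_pos rfl]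
    congr 1
    rw [Finset.prod_congr rfl (fun j hj => if_neg (Finset.ne_of_mem_erase hj).symm),
      Finset.prod_const, Finset.card_erase_of_mem (Finset.mem_univ i), Finset.card_univ,
      Fintype.card_fin]
  have hA' : ∀ i : Fin p, ∏ j : Fin p, (if j = i then 3 else (r - 3)) = 3 * (r - 3) ^ (p - 1) := by
    intro i
    rw [← hA i]
    apply Finset.prod_congr rfl
    intro j _
    simp only [eq_comm]
  have hB : ∀ (i : Fin p) (c : ℕ), ∏ j : Fin p, (if i = j then c else r) = c * r ^ (p - 1) := by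
    intro i c
    rw [← Finset.mul_prod_erase univ _ (Finset.mem_univ i), if_pos rfl]
    congr 1
    rw [Finset.prod_congr rfl (fun j hj => if_neg (Finset.ne_of_mem_erase hj).symm),
      Finset.prod_const, Finset.card_erase_of_mem (Finset.mem_univ i), Finset.card_univ,
      Fintype.card_fin]
  have hC : ∀ (g : Fin N), ∏ g' : Fin N, ((if g = g' then 1 else 3) * r ^ (p - 1)) =
      3 ^ (N - 1) * r ^ ((p - 1) * N) := by
    intro g
    rw [Finset.prod_mul_distrib, Finset.prod_const, Finset.card_univ, Fintype.card_fin, ← pow_mul]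
    congr 1
    rw [← Finset.mul_prod_erase univ _ (Finset.mem_univ g), if_pos rfl, one_mul]
    rw [Finset.prod_congr rfl (fun j hj => if_neg (Finset.ne_of_mem_erase hj).symm),
      Finset.prod_const, Finset.card_erase_of_mem (Finset.mem_univ g), Finset.card_univ,
      Fintype.card_fin]
  have hinl : ∀ i : Fin p, ∏ y : W p N, (alS (by omega : 0 < r) s(Sum.inl i, y)).card =
      (3 * (r - 3) ^ (p - 1)) ^ N := by
    intro i
    rw [Fintype.prod_sum_type, Fintype.prod_prod_type]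
    have e1 : ∏ j : Fin p, (alS (by omega : 0 < r) s((Sum.inl i : W p N), Sum.inl j)).card = 1 := by
      apply Finset.prod_eq_one
      intro j _
      rw [alS_mk]
      simp [al]
    have e2 : ∀ g : Fin N, ∏ j : Fin p, (alS (by omega : 0 < r)
        s((Sum.inl i : W p N), Sum.inr (g, j))).card = 3 * (r - 3) ^ (p - 1) := by
      intro g
      rw [← hA i]
      apply Finset.prod_congr rfl
      intro j _
      rw [alS_mk]
      simp only [al]
      split_ifs
      · exact card_small hr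
      · exact card_big hr
    rw [e1, one_mul, Finset.prod_congr rfl (fun g _ => e2 g), Finset.prod_const, Finset.card_univ,
      Fintype.card_fin]
  have hinr : ∀ (g : Fin N) (i : Fin p), ∏ y : W p N,
      (alS (by omega : 0 < r) s(Sum.inr (g, i), y)).card =
      (3 * (r - 3) ^ (p - 1)) * (3 ^ (N - 1) * r ^ ((p - 1) * N)) := by
    intro g i
    rw [Fintype.prod_sum_type, Fintype.prod_prod_type]
    congr 1
    · rw [← hA' i]
      apply Finset.prod_congr rfl
      intro j _
      rw [alS_mk]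
      simp only [al]
      split_ifs
      · exact card_small hr
      · exact card_big hr
    · rw [← hC g]
      apply Finset.prod_congr rfl
      intro g' _
      rw [← hB i]
      apply Finset.prod_congr rfl
      intro j _
      rw [alS_mk]
      simp only [al]
      split_ifs
      · simp
      · exact card_small hr
      · simp
  rw [Fintype.prod_sum_type, Fintype.prod_prod_type, Finset.prod_congr rfl (fun i _ => hinl i),
    Finset.prod_congr rfl (fun g _ => Finset.prod_congr rfl (fun i _ => hinr g i))]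
  simp only [Finset.prod_const, Finset.card_univ, Fintype.card_fin]
  obtain ⟨M, rfl⟩ : ∃ M, N = M + 1 := ⟨N - 1, by omega⟩
  obtain ⟨q, rfl⟩ : ∃ q, p = q + 1 := ⟨p - 1, by omega⟩
  simp only [Nat.add_sub_cancel]
  generalize r - 3 = s
  exact alg0 s r M q

end construction

/-! ### Numerics -/

lemma num1 (r m : ℕ) (hr : 4 ≤ r) (hm : m ≤ 2 * (r - 3)) : r ^ m < 404 * (r - 3) ^ m := by
  obtain ⟨s, rfl⟩ : ∃ s, r = s + 3 := ⟨r - 3, by omega⟩
  have hs : 1 ≤ s := by omega
  simp only [Nat.add_sub_cancel] at hm ⊢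
  have hsr : (0 : ℝ) < s := by exact_mod_cast hs
  have h1 : ((s : ℝ) + 3) ^ m < 404 * (s : ℝ) ^ m := by
    have h2 : ((s : ℝ) + 3) = s * (1 + 3 / s) := by field_simp
    rw [h2, mul_pow]
    have h3 : (1 + 3 / (s : ℝ)) ^ m ≤ Real.exp 6 := by
      calc (1 + 3 / (s : ℝ)) ^ m ≤ (Real.exp (3 / s)) ^ m := by
            apply pow_le_pow_left₀ (by positivity)
            have := Real.add_one_le_exp (3 / (s : ℝ))
            linarith
        _ = Real.exp (m * (3 / s)) := by rw [← Real.exp_nat_mul]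
        _ ≤ Real.exp 6 := by
            apply Real.exp_le_exp.2
            rw [mul_div_assoc', div_le_iff₀ hsr]
            have : (m : ℝ) ≤ 2 * s := by exact_mod_cast hm
            linarith
    have h4 : Real.exp 6 < 404 := by
      have h5 : Real.exp 6 = (Real.exp 1) ^ 6 := by
        rw [← Real.exp_nat_mul]
        norm_num
      rw [h5]
      have h6 := Real.exp_one_lt_d9
      calc (Real.exp 1) ^ 6 < (2.7182818286 : ℝ) ^ 6 :=
            pow_lt_pow_left₀ h6 (Real.exp_pos _).le (by norm_num)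
        _ < 404 := by norm_num
    have h7 : (0 : ℝ) < (s : ℝ) ^ m := by positivity
    nlinarith
  exact_mod_cast h1

lemma num2 (p : ℕ) (hp : 9 ≤ p) : 3 ^ p * 404 ^ 2 < (p.factorial) ^ 2 := by
  induction p, hp using Nat.le_induction with
  | base => decide
  | succ p hp ih =>
    rw [Nat.factorial_succ, mul_pow, pow_succ]
    have : 3 ≤ (p + 1) ^ 2 := by nlinarith
    calc 3 ^ p * 3 * 404 ^ 2 = 3 * (3 ^ p * 404 ^ 2) := by ring
      _ < 3 * (p.factorial) ^ 2 := by omega
      _ ≤ (p + 1) ^ 2 * (p.factorial) ^ 2 := Nat.mul_le_mul_right _ this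

lemma num3 (p r : ℕ) (hp : 9 ≤ p) (hr : 4 ≤ r) (hm : p * (p - 1) ≤ 2 * (r - 3))
    (h3 : r ^ 3 ≤ 3 ^ (p + 3)) :
    r ^ (2 * (p + 2) * p ^ 2) <
      (p.factorial) ^ (2 * (p + 3)) * r ^ (3 * p) * (r - 3) ^ (2 * (p - 1) * p * (p + 3)) := by
  have h1 := num1 r (p * (p - 1)) hr hm
  have h2 := num2 p hp
  have hpos : 0 < 404 ^ (2 * (p + 3)) := by positivity
  apply Nat.lt_of_mul_lt_mul_right (a := 404 ^ (2 * (p + 3)))
  have e1 : 2 * (p + 2) * p ^ 2 = 3 * p + (3 * p + (p * (p - 1)) * (2 * (p + 3))) := by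
    obtain ⟨q, rfl⟩ : ∃ q, p = q + 1 := ⟨p - 1, by omega⟩
    simp only [Nat.add_sub_cancel]
    ring
  calc r ^ (2 * (p + 2) * p ^ 2) * 404 ^ (2 * (p + 3))
      = (r ^ 3) ^ p * 404 ^ (2 * (p + 3)) * (r ^ (3 * p) * (r ^ (p * (p - 1))) ^ (2 * (p + 3))) := by
        rw [e1, pow_add, pow_add, ← pow_mul, ← pow_mul]
        ring
    _ ≤ (3 ^ (p + 3)) ^ p * 404 ^ (2 * (p + 3)) *
          (r ^ (3 * p) * (r ^ (p * (p - 1))) ^ (2 * (p + 3))) := by
        gcongr
    _ = (3 ^ p * 404 ^ 2) ^ (p + 3) * (r ^ (3 * p) * (r ^ (p * (p - 1))) ^ (2 * (p + 3))) := by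
        rw [mul_pow, ← pow_mul, ← pow_mul, ← pow_mul, ← pow_mul, mul_comm (p + 3) p]
    _ < ((p.factorial) ^ 2) ^ (p + 3) *
          (r ^ (3 * p) * (r ^ (p * (p - 1))) ^ (2 * (p + 3))) := by
        apply Nat.mul_lt_mul_of_pos_right
        · exact Nat.pow_lt_pow_left h2 (by omega)
        · positivity
    _ ≤ ((p.factorial) ^ 2) ^ (p + 3) *
          (r ^ (3 * p) * (404 * (r - 3) ^ (p * (p - 1))) ^ (2 * (p + 3))) := by
        gcongr
    _ = (p.factorial) ^ (2 * (p + 3)) * r ^ (3 * p) * (r - 3) ^ (2 * (p - 1) * p * (p + 3)) *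
          404 ^ (2 * (p + 3)) := by
        have e2 : 2 * (p - 1) * p * (p + 3) = p * (p - 1) * (2 * (p + 3)) := by ring
        rw [e2, mul_pow, ← pow_mul, ← pow_mul]
        ring

lemma alg1 (F s r X a b c N Y Z : ℕ) (h : X + b * N = Y + Z) :
    r ^ X * (F ^ a * r ^ b * s ^ c) ^ N = r ^ Y * (F ^ (a * N) * s ^ (c * N) * r ^ Z) := by
  rw [mul_pow, mul_pow, ← pow_mul, ← pow_mul, ← pow_mul]
  calc r ^ X * (F ^ (a * N) * r ^ (b * N) * s ^ (c * N))
      = (r ^ X * r ^ (b * N)) * (F ^ (a * N) * s ^ (c * N)) := by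
        generalize F ^ (a * N) = x1
        generalize s ^ (c * N) = x2
        generalize r ^ (b * N) = x3
        ring
    _ = (r ^ Y * r ^ Z) * (F ^ (a * N) * s ^ (c * N)) := by rw [← pow_add, h, pow_add]
    _ = _ := by
        generalize F ^ (a * N) = x1
        generalize s ^ (c * N) = x2
        ring

lemma alg2 (F s r t u' v' w' z' m e : ℕ) :
    t ^ (u' * m * e) * (F ^ (v' * e) * s ^ (w' * m * e) * r ^ (z' * m * e)) =
      (F ^ v' * (t ^ u' * s ^ w' * r ^ z') ^ m) ^ e := by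
  rw [mul_pow, mul_pow, mul_pow, mul_pow, mul_pow]
  simp only [← pow_mul]
  generalize F ^ (v' * e) = x1
  generalize t ^ (u' * m * e) = x2
  generalize s ^ (w' * m * e) = x3
  generalize r ^ (z' * m * e) = x4
  ring

lemma final_ineq (q r s F N t : ℕ) (h : r ^ 3 ≤ t ^ (q + 4))
    (hdom : (r ^ (2 * (q + 3) * (q + 1) ^ 2)) ^ N * r ^ ((q + 3) * (q + 1) ^ 2) ≤
      (F ^ (2 * (q + 4)) * r ^ (3 * (q + 1)) * s ^ (2 * q * (q + 1) * (q + 4))) ^ N) :
    r ^ ((q + 3) * ((q + 1) * (N + 1)) ^ 2) ≤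
      (F ^ (2 * N) * (t ^ (N + 1) * s ^ (2 * q) * r ^ (q * N)) ^ ((q + 1) * N)) ^ (q + 4) := by
  have e6 : r ^ (3 * (q + 1) * N * (N + 1)) ≤ t ^ ((N + 1) * ((q + 1) * N) * (q + 4)) := by
    calc r ^ (3 * (q + 1) * N * (N + 1)) = (r ^ 3) ^ ((q + 1) * N * (N + 1)) := by
          rw [← pow_mul]; congr 1; ring
      _ ≤ (t ^ (q + 4)) ^ ((q + 1) * N * (N + 1)) := Nat.pow_le_pow_left h _
      _ = t ^ ((N + 1) * ((q + 1) * N) * (q + 4)) := by rw [← pow_mul]; congr 1; ring
  have e8 : r ^ ((q + 3) * ((q + 1) * (N + 1)) ^ 2) = r ^ ((q + 1) ^ 2 * (q + 3) * N ^ 2) *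
      ((r ^ (2 * (q + 3) * (q + 1) ^ 2)) ^ N * r ^ ((q + 3) * (q + 1) ^ 2)) := by
    rw [← pow_mul, ← pow_add, ← pow_add]
    congr 1
    ring
  rw [e8]
  refine (Nat.mul_le_mul_left _ hdom).trans ?_
  have e9 := alg1 F s r ((q + 1) ^ 2 * (q + 3) * N ^ 2) (2 * (q + 4)) (3 * (q + 1))
    (2 * q * (q + 1) * (q + 4)) N (3 * (q + 1) * N * (N + 1)) (q * N * ((q + 1) * N) * (q + 4))
    (by ring)
  rw [e9]
  refine (Nat.mul_le_mul_right _ e6).trans (le_of_eq ?_)
  have e10 := alg2 F s r t (N + 1) (2 * N) (2 * q) (q * N) ((q + 1) * N) (q + 4)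
  rw [← e10]
  have a2 : 2 * (q + 4) * N = 2 * N * (q + 4) := by ring
  have a3 : 2 * q * (q + 1) * (q + 4) * N = 2 * q * ((q + 1) * N) * (q + 4) := by ring
  rw [a2, a3]

theorem low2 (k r : ℕ) (hk : 4 ≤ k) (hr : k.choose 2 ≤ r) (h : r ^ 3 ≤ 3 ^ (k - 1)) (n0 : ℕ) :
    ∃ n ≥ n0, cc r k (SimpleGraph.turanGraph n (k - 1)) ≤ cc r k (⊤ : SimpleGraph (Fin n)) := by
  classical
  have hk13 : 13 ≤ k := by
    by_contra hcon
    push Not at hcon
    have h1 : (k.choose 2) ^ 3 ≤ 3 ^ (k - 1) := (Nat.pow_le_pow_left hr 3).trans h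
    interval_cases k <;> revert h1 <;> decide
  obtain ⟨q, rfl⟩ : ∃ q, k = (q + 1) + 4 := ⟨k - 5, by omega⟩
  have hp : 9 ≤ q + 1 := by omega
  have hch : (q + 1 + 4).choose 2 * 2 = (q + 1 + 4) * (q + 1 + 3) := by
    rw [Nat.choose_two_right]
    exact Nat.div_mul_cancel (Nat.even_mul_pred_self (q + 1 + 4)).two_dvd
  have hr2 : (q + 1 + 4) * (q + 1 + 3) ≤ 2 * r := by omega
  have hr4 : 4 ≤ r := by nlinarith
  have hm : (q + 1) * (q + 1 - 1) ≤ 2 * (r - 3) := by
    simp only [Nat.add_sub_cancel]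
    have : (q + 1) * q + 6 ≤ 2 * r := by nlinarith
    omega
  have e3 : q + 1 + 4 - 1 = q + 4 := by omega
  rw [e3] at h
  have hAB := num3 (q + 1) r hp hr4 hm h
  rw [Nat.add_sub_cancel] at hAB
  have hA0 : 0 < r ^ (2 * (q + 1 + 2) * (q + 1) ^ 2) := by positivity
  obtain ⟨N, hN1, hNn, hNd⟩ : ∃ N, 1 ≤ N ∧ n0 ≤ N ∧
      r ^ (2 * (q + 1 + 2) * (q + 1) ^ 2) * r ^ ((q + 3) * (q + 1) ^ 2) ≤ N :=
    ⟨max (max n0 1) (r ^ (2 * (q + 1 + 2) * (q + 1) ^ 2) * r ^ ((q + 3) * (q + 1) ^ 2)),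
      (le_max_right n0 1).trans (le_max_left _ _), (le_max_left n0 1).trans (le_max_left _ _),
      le_max_right _ _⟩
  have hdom := pow_dominates _ _ _ hA0 hAB N hNd
  refine ⟨(q + 1) * (N + 1), by nlinarith, ?_⟩
  have h1 := turan_bound r (q + 1 + 4) ((q + 1) * (N + 1)) (by omega) (by omega)
  have h2 := lower_count (p := q + 1) (N := N) (r := r) (n := (q + 1) * (N + 1)) (by omega) rfl
  have h3 := card_DD (p := q + 1) (N := N) (r := r) (by omega) (by omega) hN1
  have e4 : q + 1 + 4 - 2 = q + 3 := by omega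
  rw [e3, e4] at h1
  rw [e3]
  have h4 : (cc r (q + 1 + 4) (SimpleGraph.turanGraph ((q + 1) * (N + 1)) (q + 4))) ^
        (2 * (q + 4)) ≤
      (cc r (q + 1 + 4) (⊤ : SimpleGraph (Fin ((q + 1) * (N + 1))))) ^ (2 * (q + 4)) := by
    refine h1.trans ?_
    refine le_trans ?_ (Nat.pow_le_pow_left h2 _)
    have e5 : ((q + 1).factorial ^ N * (DD (q + 1) N (by omega : 0 < r)).card) ^ (2 * (q + 4)) =
        ((q + 1).factorial ^ (2 * N) *
          (3 ^ (N + 1) * (r - 3) ^ (2 * q) * r ^ (q * N)) ^ ((q + 1) * N)) ^ (q + 4) := by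
      rw [Nat.add_sub_cancel] at h3
      rw [pow_mul, mul_pow, h3, ← pow_mul, mul_comm N 2]
    rw [e5]
    exact final_ineq q r (r - 3) (q + 1).factorial N 3 h hdom
  exact (Nat.pow_le_pow_iff_left (by omega)).1 h4

end Pool.Agent.TH596.J4
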