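import Mathlib

set_option autoImplicit false

/-! Maps into three-space: rank two implies rational directions; rank one normal form. -/

open Set Filter
open scoped Topology ContDiff

namespace Pool.Agent.TH596.J72

variable {E : Type*} [NormedAddCommGroup E] [NormedSpace ℝ E]

lemma clear_denominators (q : Fin 3 → ℚ) : ∃ (k : Fin 3 → ℤ) (d : ℚ), d ≠ 0 ∧ ∀ i, q i * d = k i := by
  refine ⟨fun i => (q i).num * ∏ j ∈ Finset.univ.erase i, ((q j).den : ℤ), ∏ j, ((q j).den : ℚ),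
    ?_, ?_⟩
  · exact Finset.prod_ne_zero_iff.mpr (fun i _ => by exact_mod_cast (q i).den_nz)
  · intro i
    rw [← Finset.mul_prod_erase _ _ (Finset.mem_univ i), ← mul_assoc, Rat.mul_den_eq_num]
    push_cast
    rfl

lemma cramer (A B C w : Fin 3 → ℝ) :
    (crossProduct A B ⬝ᵥ C) • w = (w ⬝ᵥ crossProduct B C) • A + (w ⬝ᵥ crossProduct C A) • B
      + (w ⬝ᵥ crossProduct A B) • C := by
  ext i
  fin_cases i <;>
  · simp [crossProduct, dotProduct, Fin.sum_univ_three]
    ring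

/-- If `f x`, and two values of the derivative are linearly independent, then the directions of `f`
near `x` contain a rational one. -/
theorem exists_rational_direction {f : E → Fin 3 → ℝ} {x : E} (hf : ContDiffAt ℝ 1 f x) {u v : E}
    (h : crossProduct (fderiv ℝ f x u) (fderiv ℝ f x v) ⬝ᵥ f x ≠ 0) {O : Set E} (hO : O ∈ 𝓝 x) :
    ∃ y ∈ O, ∃ k : Fin 3 → ℤ, k ≠ 0 ∧ ∃ t : ℝ, f y = t • (fun i => (k i : ℝ)) := by
  have hfx : f x ≠ 0 := by
    intro h0
    apply h
    rw [h0, dotProduct_zero]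
  -- the map
  let α : ℝ × ℝ × ℝ → E := fun p => x + (p.1 • u + p.2.1 • v)
  let α' : ℝ × ℝ × ℝ →L[ℝ] E :=
    (ContinuousLinearMap.fst ℝ ℝ (ℝ × ℝ)).smulRight u +
      ((ContinuousLinearMap.fst ℝ ℝ ℝ).comp (ContinuousLinearMap.snd ℝ ℝ (ℝ × ℝ))).smulRight v
  let ρ' : ℝ × ℝ × ℝ →L[ℝ] ℝ :=
    (ContinuousLinearMap.snd ℝ ℝ ℝ).comp (ContinuousLinearMap.snd ℝ ℝ (ℝ × ℝ))
  have hα : HasStrictFDerivAt α α' (0, 0, 1) := by
    have h1 : α = fun p => x + α' p := by
      funext p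
      simp [α, α']
    rw [h1]
    exact (α'.hasStrictFDerivAt).const_add x
  have hα0 : α (0, 0, 1) = x := by simp [α]
  have hρ : HasStrictFDerivAt (fun p : ℝ × ℝ × ℝ => p.2.2) ρ' (0, 0, 1) :=
    ρ'.hasStrictFDerivAt
  have hfs : HasStrictFDerivAt f (fderiv ℝ f x) (α (0, 0, 1)) := by
    rw [hα0]
    exact hf.hasStrictFDerivAt one_ne_zero
  have hG := hρ.smul (hfs.comp (0, 0, 1) hα)
  have hsurj : (((fun p : ℝ × ℝ × ℝ => p.2.2) (0, 0, 1)) • ((fderiv ℝ f x).comp α') +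
      ρ'.smulRight ((f ∘ α) (0, 0, 1)) : ℝ × ℝ × ℝ →L[ℝ] (Fin 3 → ℝ)).range = ⊤ := by
    rw [LinearMap.range_eq_top]
    intro w
    set T := crossProduct (fderiv ℝ f x u) (fderiv ℝ f x v) ⬝ᵥ f x with hT
    refine ⟨T⁻¹ • (w ⬝ᵥ crossProduct (fderiv ℝ f x v) (f x),
      w ⬝ᵥ crossProduct (f x) (fderiv ℝ f x u),
      w ⬝ᵥ crossProduct (fderiv ℝ f x u) (fderiv ℝ f x v)), ?_⟩
    have hc := cramer (fderiv ℝ f x u) (fderiv ℝ f x v) (f x) w
    rw [← hT] at hc
    rw [map_smul, inv_smul_eq_iff₀ h, hc]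
    simp only [ContinuousLinearMap.coe_coe, _root_.add_apply,
      ContinuousLinearMap.comp_apply, Function.comp, hα0,
      ContinuousLinearMap.smulRight_apply, one_smul, α', ρ', map_add, map_smul,
      ContinuousLinearMap.coe_fst', ContinuousLinearMap.coe_snd']
  have hmap := hG.map_nhds_eq_of_surj hsurj
  -- neighbourhood
  have hU : {p : ℝ × ℝ × ℝ | α p ∈ O ∧ p.2.2 ≠ 0} ∈ 𝓝 ((0, 0, 1) : ℝ × ℝ × ℝ) := by
    apply Filter.inter_mem
    · have := hα.continuousAt
      apply this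
      rw [hα0]
      exact hO
    · have : ContinuousAt (fun p : ℝ × ℝ × ℝ => p.2.2) (0, 0, 1) := hρ.continuousAt
      apply this.eventually_ne
      simp
  have hV : ((fun p : ℝ × ℝ × ℝ => p.2.2 • (f ∘ α) p) ''
      {p : ℝ × ℝ × ℝ | α p ∈ O ∧ p.2.2 ≠ 0}) ∈ 𝓝 (f x) := by
    have h1 := Filter.image_mem_map (m := fun p : ℝ × ℝ × ℝ => p.2.2 • (f ∘ α) p) hU
    have h2 : Filter.map (fun p : ℝ × ℝ × ℝ => p.2.2 • (f ∘ α) p) (𝓝 (0, 0, 1)) = 𝓝 (f x) := by
      have h3 : (fun p : ℝ × ℝ × ℝ => p.2.2 • (f ∘ α) p) (0, 0, 1) = f x := by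
        simp [hα0]
      rw [← h3]
      exact hmap
    rw [h2] at h1
    exact h1
  have hne : {y : Fin 3 → ℝ | y ≠ 0} ∈ 𝓝 (f x) := isOpen_ne.mem_nhds hfx
  have hdense : DenseRange (Pi.map (fun (_ : Fin 3) (q : ℚ) => (q : ℝ))) :=
    DenseRange.piMap (fun _ => Rat.denseRange_cast)
  obtain ⟨z, ⟨q, rfl⟩, ⟨⟨p, ⟨hpO, hp2⟩, hpz⟩, hz0⟩⟩ :=
    hdense.inter_nhds_nonempty (Filter.inter_mem hV hne)
  obtain ⟨k, d, hd, hk⟩ := clear_denominators q
  have hdR : (d : ℝ) ≠ 0 := by exact_mod_cast hd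
  refine ⟨α p, hpO, k, ?_, (p.2.2)⁻¹ * (d : ℝ)⁻¹, ?_⟩
  · intro hk0
    apply hz0
    funext i
    have h1 := hk i
    rw [hk0] at h1
    simp only [Pi.zero_apply, Int.cast_zero, mul_eq_zero, hd, or_false] at h1
    show ((q i : ℚ) : ℝ) = 0
    rw [h1]; simp
  · have h1 : f (α p) = (p.2.2)⁻¹ • (Pi.map (fun (_ : Fin 3) (q : ℚ) => (q : ℝ)) q) := by
      rw [← hpz]
      simp only [Function.comp]
      rw [smul_smul, inv_mul_cancel₀ hp2, one_smul]
    rw [h1, mul_smul]
    congr 1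
    funext i
    show ((q i : ℚ) : ℝ) = (d : ℝ)⁻¹ * (k i : ℝ)
    have h2 : ((k i : ℤ) : ℝ) = ((q i : ℚ) : ℝ) * (d : ℝ) := by
      have := hk i
      have h3 : (((k i : ℤ) : ℚ) : ℝ) = ((q i * d : ℚ) : ℝ) := by rw [this]
      push_cast at h3
      exact h3
    rw [h2]
    field_simp

/-- the derivative of a coordinate -/
lemma fderiv_coord {f : E → Fin 3 → ℝ} {y : E} (hf : DifferentiableAt ℝ f y) (l : Fin 3) (u : E) :
    fderiv ℝ (fun z => f z l) y u = fderiv ℝ f y u l := by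
  have h := (hasFDerivAt_pi'.mp hf.hasFDerivAt) l
  rw [h.fderiv]
  rfl

/-- Normal form of a map of rank one. -/
theorem normal_form [FiniteDimensional ℝ E] {f c : E → Fin 3 → ℝ} {x : E} {l : Fin 3} {O : Set E}
    (hO : IsOpen O)
    (hx : x ∈ O) (hf : ContDiffOn ℝ ∞ f O)
    (hc : ∀ y ∈ O, ∀ u, fderiv ℝ f y u = (fderiv ℝ f y u l) • c y)
    (hne : ∃ u, fderiv ℝ f x u l ≠ 0) :
    ∃ ε > (0:ℝ), ∃ g : ℝ → Fin 3 → ℝ, ContDiffOn ℝ ∞ g (Ioo (f x l - ε) (f x l + ε)) ∧
      ∀ᶠ y in 𝓝 x, y ∈ O ∧ f y l ∈ Ioo (f x l - ε) (f x l + ε) ∧ f y = g (f y l) ∧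
        c y = deriv g (f y l) := by
  have : CompleteSpace E := FiniteDimensional.complete ℝ E
  have hfat : ∀ y ∈ O, ContDiffAt ℝ ∞ f y := fun y hy => hf.contDiffAt (hO.mem_nhds hy)
  have hfd : ∀ y ∈ O, DifferentiableAt ℝ f y := fun y hy => (hfat y hy).differentiableAt (by simp)
  set φ : E → ℝ := fun z => f z l with hφ
  have hφat : ∀ y ∈ O, ContDiffAt ℝ ∞ φ y := fun y hy => (contDiffAt_pi.mp (hfat y hy)) l
  have hφd : ∀ y ∈ O, DifferentiableAt ℝ φ y := fun y hy =>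
    (hφat y hy).differentiableAt (by simp)
  have hφf : ∀ y ∈ O, ∀ u, fderiv ℝ φ y u = fderiv ℝ f y u l := fun y hy u =>
    fderiv_coord (hfd y hy) l u
  set L : E →L[ℝ] ℝ := fderiv ℝ φ x with hL
  obtain ⟨u₀, hu₀⟩ := hne
  rw [← hφf x hx] at hu₀
  obtain ⟨e, he⟩ : ∃ e : E, L e = 1 := by
    refine ⟨(L u₀)⁻¹ • u₀, ?_⟩
    rw [map_smul, smul_eq_mul, inv_mul_cancel₀ hu₀]
  have he0 : e ≠ 0 := by
    rintro rfl
    simp at he
  -- the straightening map
  set Ψ : E → E := fun z => z + (φ z - φ x - L (z - x)) • e with hΨ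
  have hΨat : ∀ y ∈ O, ContDiffAt ℝ ∞ Ψ y := by
    intro y hy
    have h1 : ContDiffAt ℝ ∞ (fun z => L (z - x)) y :=
      L.contDiff.contDiffAt.comp y (contDiffAt_id.sub contDiffAt_const)
    exact contDiffAt_id.add ((((hφat y hy).sub contDiffAt_const).sub h1).smul contDiffAt_const)
  have hΨd : ∀ y ∈ O, HasFDerivAt Ψ (ContinuousLinearMap.id ℝ E +
      (fderiv ℝ φ y - L).smulRight e) y := by
    intro y hy
    have h1 : HasFDerivAt (fun z => L (z - x)) L y := by
      have h3 : HasFDerivAt (fun z : E => z - x) (ContinuousLinearMap.id ℝ E) y :=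
        (hasFDerivAt_id y).sub_const x
      have h4 := L.hasFDerivAt.comp y h3
      rw [ContinuousLinearMap.comp_id] at h4
      exact h4
    have h2 := (((hφd y hy).hasFDerivAt.sub_const (φ x)).sub h1).smul_const e
    exact (hasFDerivAt_id y).add h2
  have hΨx : Ψ x = x := by simp [hΨ]
  have hLΨ : ∀ z, L (Ψ z - x) = φ z - φ x := by
    intro z
    have : Ψ z - x = (z - x) + (φ z - φ x - L (z - x)) • e := by simp only [hΨ]; abel
    rw [this, map_add, map_smul, he, smul_eq_mul, mul_one]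
    ring
  -- invertibility of the derivative
  have hinv : ∀ y ∈ O, fderiv ℝ φ y e ≠ 0 → ∃ A : E ≃L[ℝ] E, HasFDerivAt Ψ (A : E →L[ℝ] E) y := by
    intro y hy hye
    set B : E →L[ℝ] E := ContinuousLinearMap.id ℝ E + (fderiv ℝ φ y - L).smulRight e with hB
    have hBinj : Function.Injective B.toLinearMap := by
      rw [← LinearMap.ker_eq_bot, LinearMap.ker_eq_bot']
      intro m hm
      have h1 : m + (fderiv ℝ φ y m - L m) • e = 0 := by
        simpa [hB] using hm
      have h2 : m = (-(fderiv ℝ φ y m - L m)) • e := by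
        rw [neg_smul]; exact eq_neg_of_add_eq_zero_left h1
      obtain ⟨t, ht⟩ : ∃ t : ℝ, m = t • e := ⟨_, h2⟩
      rw [ht] at h1 ⊢
      rw [map_smul, map_smul, he, ← add_smul] at h1
      have h3 : t * fderiv ℝ φ y e = 0 := by
        rcases smul_eq_zero.mp h1 with h | h
        · simp only [smul_eq_mul] at h
          linarith
        · exact absurd h he0
      rcases mul_eq_zero.mp h3 with h | h
      · rw [h, zero_smul]
      · exact absurd h hye
    refine ⟨(LinearEquiv.ofInjectiveEndo B.toLinearMap hBinj).toContinuousLinearEquiv, ?_⟩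
    have h4 : (((LinearEquiv.ofInjectiveEndo B.toLinearMap hBinj).toContinuousLinearEquiv :
        E ≃L[ℝ] E) : E →L[ℝ] E) = B := by
      ext m
      rfl
    rw [h4]
    exact hΨd y hy
  obtain ⟨A, hA⟩ := hinv x hx (by rw [← hL, he]; exact one_ne_zero)
  set P := ContDiffAt.toOpenPartialHomeomorph Ψ (hΨat x hx) hA (by simp) with hP
  have hPcoe : (P : E → E) = Ψ := ContDiffAt.toOpenPartialHomeomorph_coe _ _ _
  have hPsrc : x ∈ P.source := ContDiffAt.mem_toOpenPartialHomeomorph_source _ _ _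
  have hxt : x ∈ P.target := by
    have := P.map_source hPsrc
    rwa [hPcoe, hΨx] at this
  have hPx : P.symm x = x := by
    have := P.left_inv hPsrc
    rwa [hPcoe, hΨx] at this
  have hW : {w | w ∈ P.target ∧ P.symm w ∈ O ∧ fderiv ℝ φ (P.symm w) e ≠ 0} ∈ 𝓝 x := by
    have hsc : ContinuousAt P.symm x := P.symm.continuousAt hxt
    have h1 : P.target ∈ 𝓝 x := P.open_target.mem_nhds hxt
    have h2 : ∀ᶠ w in 𝓝 x, P.symm w ∈ O := by
      apply hsc.eventually
      rw [hPx]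
      exact hO.mem_nhds hx
    have h3 : ContinuousAt (fun w => fderiv ℝ φ (P.symm w) e) x := by
      have h4 : ContinuousAt (fun y => fderiv ℝ φ y) (P.symm x) := by
        rw [hPx]
        exact (hφat x hx).continuousAt_fderiv (by simp)
      have h5 : ContinuousAt (fun w => fderiv ℝ φ (P.symm w)) x := h4.comp hsc
      exact h5.clm_apply continuousAt_const
    have h4 : ∀ᶠ w in 𝓝 x, fderiv ℝ φ (P.symm w) e ≠ 0 := by
      apply h3.eventually_ne
      rw [hPx, ← hL, he]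
      exact one_ne_zero
    filter_upwards [h1, h2, h4] with w a b c using ⟨a, b, c⟩
  obtain ⟨r, hr, hball⟩ := Metric.mem_nhds_iff.mp hW
  have hsymm : ∀ w ∈ Metric.ball x r, ContDiffAt ℝ ∞ P.symm w := by
    intro w hw
    obtain ⟨ht, hwO, hwe⟩ := hball hw
    obtain ⟨A', hA'⟩ := hinv _ hwO hwe
    apply P.contDiffAt_symm (f₀' := A') ht
    · rw [hPcoe]; exact hA'
    · rw [hPcoe]; exact hΨat _ hwO
  set F : E → Fin 3 → ℝ := fun w => f (P.symm w) with hF
  have hFat : ∀ w ∈ Metric.ball x r, ContDiffAt ℝ ∞ F w := by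
    intro w hw
    exact (hfat _ (hball hw).2.1).comp w (hsymm w hw)
  have hφP : ∀ w ∈ Metric.ball x r, φ (P.symm w) = φ x + L (w - x) := by
    intro w hw
    have h1 := hLΨ (P.symm w)
    have h2 : Ψ (P.symm w) = w := by
      rw [← hPcoe]; exact P.right_inv (hball hw).1
    rw [h2] at h1
    linarith
  have hFd : ∀ w ∈ Metric.ball x r, ∀ u, fderiv ℝ F w u = (L u) • c (P.symm w) := by
    intro w hw u
    have hwO := (hball hw).2.1
    have hsd : DifferentiableAt ℝ P.symm w := (hsymm w hw).differentiableAt (by simp)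
    have h1 : fderiv ℝ F w u = fderiv ℝ f (P.symm w) (fderiv ℝ P.symm w u) := by
      have := ((hfd _ hwO).hasFDerivAt.comp w hsd.hasFDerivAt).fderiv
      have h2 : fderiv ℝ F w = (fderiv ℝ f (P.symm w)).comp (fderiv ℝ P.symm w) := this
      rw [h2]; rfl
    have h3 : fderiv ℝ φ (P.symm w) (fderiv ℝ P.symm w u) = L u := by
      have h4 := ((hφd _ hwO).hasFDerivAt.comp w hsd.hasFDerivAt).fderiv
      have h5 : (φ ∘ P.symm) =ᶠ[𝓝 w] (fun w' => φ x + L (w' - x)) := by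
        filter_upwards [Metric.isOpen_ball.mem_nhds hw] with w' hw' using hφP w' hw'
      have h6 : HasFDerivAt (fun w' => φ x + L (w' - x)) L w := by
        have := (L.hasFDerivAt.comp w ((hasFDerivAt_id w).sub_const x)).const_add (φ x)
        simpa using this
      rw [h5.fderiv_eq, h6.fderiv] at h4
      rw [h4]; rfl
    rw [h1, hc _ hwO, ← hφf _ hwO, h3]
  have hFconst : ∀ w ∈ Metric.ball x r, ∀ w' ∈ Metric.ball x r, L (w - w') = 0 → F w = F w' := by
    intro w hw w' hw' hLw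
    have hseg : ∀ t ∈ Icc (0:ℝ) 1, w' + t • (w - w') ∈ Metric.ball x r := by
      intro t ht
      have := (convex_ball x r).add_smul_sub_mem hw' hw ht
      exact this
    have hder : ∀ t ∈ Icc (0:ℝ) 1, HasDerivAt (fun t : ℝ => F (w' + t • (w - w'))) 0 t := by
      intro t ht
      have h1 : HasFDerivAt F (fderiv ℝ F (w' + t • (w - w'))) (w' + t • (w - w')) :=
        ((hFat _ (hseg t ht)).differentiableAt (by simp)).hasFDerivAt
      have h2 : HasDerivAt (fun t : ℝ => w' + t • (w - w')) (w - w') t := by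
        have := ((hasDerivAt_id t).smul_const (w - w')).const_add w'
        simpa using this
      have h3 := h1.comp_hasDerivAt t h2
      rw [hFd _ (hseg t ht), hLw, zero_smul] at h3
      exact h3
    have h4 := constant_of_has_deriv_right_zero (f := fun t : ℝ => F (w' + t • (w - w')))
      (a := 0) (b := 1) (fun t ht => (hder t ht).continuousAt.continuousWithinAt)
      (fun t ht => (hder t (Ico_subset_Icc_self ht)).hasDerivWithinAt) 1 (by simp)
    simpa using h4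
  -- the curve
  set g : ℝ → Fin 3 → ℝ := fun s => F (x + (s - φ x) • e) with hg
  have hepos : 0 < ‖e‖ := norm_pos_iff.mpr he0
  set ε := r / ‖e‖ with hε
  have hεpos : 0 < ε := div_pos hr hepos
  have hcurve : ∀ s ∈ Ioo (φ x - ε) (φ x + ε), x + (s - φ x) • e ∈ Metric.ball x r := by
    intro s hs
    rw [Metric.mem_ball, dist_eq_norm, add_sub_cancel_left, norm_smul, Real.norm_eq_abs,
      ← lt_div_iff₀ hepos, abs_lt]
    constructor
    · linarith [hs.1]
    · linarith [hs.2]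
  have hgat : ∀ s ∈ Ioo (φ x - ε) (φ x + ε), ContDiffAt ℝ ∞ g s := by
    intro s hs
    have h1 : ContDiffAt ℝ ∞ (fun s : ℝ => x + (s - φ x) • e) s :=
      contDiffAt_const.add ((contDiffAt_id.sub contDiffAt_const).smul contDiffAt_const)
    exact ContDiffAt.comp (g := F) s (hFat _ (hcurve s hs)) h1
  have hev1 : ∀ᶠ y in 𝓝 x, y ∈ O ∧ f y l ∈ Ioo (f x l - ε) (f x l + ε) ∧ f y = g (f y l) := by
    have hφc : ContinuousAt φ x := (hφd x hx).continuousAt
    have h1 : ∀ᶠ y in 𝓝 x, φ y ∈ Ioo (φ x - ε) (φ x + ε) :=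
      hφc (Ioo_mem_nhds (by linarith) (by linarith))
    have h2 : ∀ᶠ y in 𝓝 x, Ψ y ∈ Metric.ball x r := by
      have : ContinuousAt Ψ x := (hΨd x hx).continuousAt
      apply this
      rw [hΨx]
      exact Metric.ball_mem_nhds x hr
    have h3 : ∀ᶠ y in 𝓝 x, y ∈ P.source := P.open_source.mem_nhds hPsrc
    have h4 : ∀ᶠ y in 𝓝 x, y ∈ O := hO.mem_nhds hx
    filter_upwards [h1, h2, h3, h4] with y hy1 hy2 hy3 hy4
    refine ⟨hy4, hy1, ?_⟩
    have h5 : f y = F (Ψ y) := by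
      show f y = f (P.symm (Ψ y))
      rw [← hPcoe, P.left_inv hy3]
    show f y = F (x + (φ y - φ x) • e)
    rw [h5]
    apply hFconst _ hy2 _ (hcurve _ hy1)
    have h6 : Ψ y - (x + (φ y - φ x) • e) = (Ψ y - x) - (φ y - φ x) • e := by abel
    rw [h6, map_sub, hLΨ, map_smul, he]
    simp
  refine ⟨ε, hεpos, g, fun s hs => (hgat s hs).contDiffWithinAt, ?_⟩
  have hev2 : ∀ᶠ y in 𝓝 x, fderiv ℝ φ y e ≠ 0 := by
    have h3 : ContinuousAt (fun y => fderiv ℝ φ y e) x := by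
      have h4 : ContinuousAt (fun y => fderiv ℝ φ y) x :=
        (hφat x hx).continuousAt_fderiv (by simp)
      exact h4.clm_apply continuousAt_const
    apply h3.eventually_ne
    rw [← hL, he]
    exact one_ne_zero
  filter_upwards [hev1.eventually_nhds, hev2] with y hy hye
  obtain ⟨hyO, hyI, hyg⟩ := hy.self_of_nhds
  refine ⟨hyO, hyI, hyg, ?_⟩
  have h1 : f =ᶠ[𝓝 y] (fun z => g (φ z)) := hy.mono (fun z hz => hz.2.2)
  have h2 : HasFDerivAt (fun z => g (φ z)) ((fderiv ℝ φ y).smulRight (deriv g (φ y))) y := by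
    have h3 : HasDerivAt g (deriv g (φ y)) (φ y) :=
      ((hgat _ hyI).differentiableAt (by simp)).hasDerivAt
    have h4 := h3.hasFDerivAt.comp y (hφd y hyO).hasFDerivAt
    have h5 : ((ContinuousLinearMap.smulRight (1 : ℝ →L[ℝ] ℝ) (deriv g (φ y))).comp
        (fderiv ℝ φ y)) = (fderiv ℝ φ y).smulRight (deriv g (φ y)) := by
      ext u
      simp
    rw [← h5]
    exact h4
  have h3 : fderiv ℝ f y e = (fderiv ℝ φ y e) • deriv g (φ y) := by
    rw [h1.fderiv_eq, h2.fderiv]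
    rfl
  have h4 := hc y hyO e
  rw [← hφf y hyO, h3] at h4
  exact (smul_right_injective _ hye h4).symm

end Pool.Agent.TH596.J72
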