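import Mathlib
import Pool.Agent.H826R2.Wein.Cpl

set_option autoImplicit false

/-! # Job 95: completeness of bounded smooth vector fields on coverings of compact manifolds -/

open scoped Topology ContDiff Manifold
open Set Metric Bundle Pool.Agent.Helper186 Pool.Agent.H826R2.Wein

noncomputable section

namespace Pool.Agent.TH596.J95

set_option linter.unusedSectionVars false

universe u

variable {E : Type u} [NormedAddCommGroup E] [NormedSpace ℝ E] [FiniteDimensional ℝ E]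
  {P : Type*} [TopologicalSpace P] [ChartedSpace E P] [IsManifold 𝓘(ℝ, E) ∞ P]

/-- Cauchy-Schwarz for the derivative of a function along a field -/
lemma abs_dForm_le {n : ℕ} (ι : Imm (E := E) P n) (ψ : P → ℝ) (x : P)
    (w : TangentSpace 𝓘(ℝ, E) x) :
    |dForm 𝓘(ℝ, E) ψ x w| ≤ Real.sqrt (ι.G ψ x) * ‖ι.D x w‖ := by
  rw [← ι.grad_spec, Imm.B_apply, Imm.G_eq, Real.sqrt_sq (norm_nonneg _)]
  exact abs_real_inner_le_norm _ _

/-- uniform existence time near the fundamental domain -/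
lemma uniform_D [T2Space P] [SigmaCompactSpace P] {n : ℕ} {ι : Imm (E := E) P n}
    {Γ : Type*} [Group Γ] [MulAction Γ P] (𝒟 : Deck ι Γ) :
    ∃ ε > (0:ℝ), ∀ W : (x : P) → TangentSpace 𝓘(ℝ, E) x,
      ContMDiff 𝓘(ℝ, E) 𝓘(ℝ, E).tangent ∞ (fun x => (⟨x, W x⟩ : TangentBundle 𝓘(ℝ, E) P)) →
      (∀ x, ‖ι.D x (W x)‖ ≤ 1) → ∀ y ∈ 𝒟.D,
      ∃ c : ℝ → P, c 0 = y ∧ IsMIntegralCurveOn (I := 𝓘(ℝ, E)) c W (Ioo (-ε) ε) := by
  obtain ⟨ψ, K', hψ, hK', -, hψ1, hψ0⟩ := exists_cutoff 𝓘(ℝ, E) 𝒟.compact isOpen_univ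
    (subset_univ 𝒟.D)
  obtain ⟨χ, K'', hχ, hK'', -, hχ1, hχ0⟩ := exists_cutoff 𝓘(ℝ, E) hK' isOpen_univ
    (subset_univ K')
  obtain ⟨L, hL0, hL⟩ : ∃ L : ℝ, 0 < L ∧ ∀ x, Real.sqrt (ι.G ψ x) ≤ L := by
    have hc : Continuous (fun x => Real.sqrt (ι.G ψ x)) :=
      Real.continuous_sqrt.comp (ι.smooth_G hψ).continuous
    obtain ⟨L, hL⟩ := (hK'.image hc).bddAbove
    refine ⟨max L 1, by positivity, fun x => ?_⟩
    by_cases hx : x ∈ K'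
    · exact (hL (mem_image_of_mem _ hx)).trans (le_max_left _ _)
    · have h1 : dForm 𝓘(ℝ, E) ψ x = 0 := by
        apply dForm_eq_zero_of_eventually (a := 0)
        filter_upwards [hK'.isClosed.isOpen_compl.mem_nhds hx] with y hy
        exact hψ0 y hy
      have h3 : ι.G ψ x = 0 := by
        unfold Imm.G
        rw [h1]; rfl
      rw [h3, Real.sqrt_zero]
      positivity
  refine ⟨L⁻¹, by positivity, ?_⟩
  intro V hV hVb y hy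
  -- cut off the vector field
  have hW : ContMDiff 𝓘(ℝ, E) 𝓘(ℝ, E).tangent ∞
      (fun x => (⟨x, χ x • V x⟩ : TangentBundle 𝓘(ℝ, E) P)) := by
    intro x
    exact contMDiffAt_smul_along (f := fun x : P => x) (hχ x) (hV x)
  obtain ⟨c, hc0, hc⟩ := complete_of_compact (W := fun x => χ x • V x) hW hK''
    (fun x hx => by rw [hχ0 x hx, zero_smul]) y
  have hχK : ∀ x ∈ K', χ x = 1 := fun x hx => hχ1.self_of_nhdsSet x hx
  -- the derivative of `ψ` along the curve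
  have hder : ∀ t, HasDerivAt (fun s => ψ (c s))
      (dForm 𝓘(ℝ, E) ψ (c t) (χ (c t) • V (c t))) t := fun t =>
    hasDerivAt_along (W := fun x => χ x • V x) (hc t) hψ
  have hbd : ∀ t, ‖dForm 𝓘(ℝ, E) ψ (c t) (χ (c t) • V (c t))‖ ≤ L := by
    intro t
    by_cases hx : c t ∈ K'
    · rw [hχK _ hx, one_smul, Real.norm_eq_abs]
      refine (abs_dForm_le ι ψ (c t) (V (c t))).trans ?_
      calc Real.sqrt (ι.G ψ (c t)) * ‖ι.D (c t) (V (c t))‖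
          ≤ Real.sqrt (ι.G ψ (c t)) * 1 :=
            mul_le_mul_of_nonneg_left (hVb _) (Real.sqrt_nonneg _)
        _ ≤ L := by rw [mul_one]; exact hL _
    · have h1 : dForm 𝓘(ℝ, E) ψ (c t) = 0 := by
        apply dForm_eq_zero_of_eventually (a := 0)
        filter_upwards [hK'.isClosed.isOpen_compl.mem_nhds hx] with y hy
        exact hψ0 y hy
      rw [h1]
      show ‖(0:ℝ)‖ ≤ L
      rw [norm_zero]
      exact hL0.le
  have hlip : ∀ t, |ψ (c t) - ψ (c 0)| ≤ L * |t| := by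
    intro t
    have := convex_univ.norm_image_sub_le_of_norm_hasDerivWithin_le (s := univ) (x := (0:ℝ))
      (y := t) (fun s _ => (hder s).hasDerivWithinAt) (fun s _ => hbd s) (mem_univ _) (mem_univ _)
    simpa using this
  refine ⟨c, hc0, ?_⟩
  intro t ht
  have h1 : c t ∈ K' := by
    by_contra hx
    have h2 := hlip t
    rw [hψ0 _ hx, hc0, hψ1.self_of_nhdsSet y hy] at h2
    have h3 : |t| < L⁻¹ := abs_lt.2 ht
    have h4 : L * |t| < 1 := by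
      have := mul_lt_mul_of_pos_left h3 hL0
      rwa [mul_inv_cancel₀ hL0.ne'] at this
    rw [show |(0:ℝ) - 1| = 1 by norm_num] at h2
    linarith
  have h2 := hc t
  have h3 : χ (c t) • V (c t) = V (c t) := by rw [hχK _ h1, one_smul]
  beta_reduce at h2
  rw [h3] at h2
  exact h2.hasMFDerivWithinAt

/-- **Completeness** of bounded smooth vector fields on coverings of compact manifolds. -/
theorem complete_bounded [T2Space P] [SigmaCompactSpace P] {n : ℕ} {ι : Imm (E := E) P n}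
    {Γ : Type*} [Group Γ] [MulAction Γ P] (𝒟 : Deck ι Γ)
    {W : (x : P) → TangentSpace 𝓘(ℝ, E) x}
    (hW : ContMDiff 𝓘(ℝ, E) 𝓘(ℝ, E).tangent ∞ (fun x => (⟨x, W x⟩ : TangentBundle 𝓘(ℝ, E) P)))
    (hb : ∀ x, ‖ι.D x (W x)‖ ≤ 1) (x : P) :
    ∃ c : ℝ → P, c 0 = x ∧ IsMIntegralCurve (I := 𝓘(ℝ, E)) c W := by
  have : IsManifold 𝓘(ℝ, E) 1 P := IsManifold.of_le (n := ∞) (by simp)
  obtain ⟨ε, hε, h⟩ := uniform_D 𝒟
  refine exists_isMIntegralCurve_of_isMIntegralCurveOn (hW.of_le (by simp)) hε ?_ x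
  intro y
  obtain ⟨γ, hγ⟩ := 𝒟.cover y
  -- the push forward
  set W' : (z : P) → TangentSpace 𝓘(ℝ, E) z := fun z =>
    (mfderiv 𝓘(ℝ, E) 𝓘(ℝ, E) (fun p : P => γ • p) (γ⁻¹ • z) (W (γ⁻¹ • z)) : E) with hW'def
  have hW' : ContMDiff 𝓘(ℝ, E) 𝓘(ℝ, E).tangent ∞
      (fun z => (⟨z, W' z⟩ : TangentBundle 𝓘(ℝ, E) P)) := by
    intro z
    have h1 : ContMDiff 𝓘(ℝ, E).tangent 𝓘(ℝ, E).tangent ∞
        (tangentMap 𝓘(ℝ, E) 𝓘(ℝ, E) (fun p : P => γ • p)) :=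
      (𝒟.smooth γ).contMDiff_tangentMap (by simp)
    have h2 : ContMDiff 𝓘(ℝ, E) 𝓘(ℝ, E).tangent ∞
        (fun z : P => (⟨γ⁻¹ • z, W (γ⁻¹ • z)⟩ : TangentBundle 𝓘(ℝ, E) P)) :=
      hW.comp (𝒟.smooth γ⁻¹)
    have h3 := (h1.comp h2) z
    refine h3.congr_of_eventuallyEq (Filter.Eventually.of_forall fun p => ?_)
    have e1 : ∀ (z z' : P) (w : E), z' = z →
        (⟨z, w⟩ : TangentBundle 𝓘(ℝ, E) P) = ⟨z', w⟩ := by
      rintro z _ w rfl; rfl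
    exact e1 p (γ • γ⁻¹ • p) _ (smul_inv_smul γ p)
  have hb' : ∀ z, ‖ι.D z (W' z)‖ ≤ 1 := by
    intro z
    have h1 : mfderiv 𝓘(ℝ, E) 𝓘(ℝ, EuclideanSpace ℝ (Fin n)) (ι.F ∘ (fun p : P => γ • p))
        (γ⁻¹ • z) =
        (mfderiv 𝓘(ℝ, E) 𝓘(ℝ, EuclideanSpace ℝ (Fin n)) ι.F (γ • γ⁻¹ • z)).comp
        (mfderiv 𝓘(ℝ, E) 𝓘(ℝ, E) (fun p : P => γ • p) (γ⁻¹ • z)) :=
      mfderiv_comp _ (ι.smooth.mdifferentiableAt (by simp))
        ((𝒟.smooth γ).mdifferentiableAt (by simp))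
    have h2 : ι.F ∘ (fun p : P => γ • p) = ι.F := by ext1 y; exact 𝒟.F_inv γ y
    rw [h2] at h1
    have h3 := DFunLike.congr_fun h1 (W (γ⁻¹ • z))
    have h4 : ∀ z' : P, z' = z → ∀ w : E, (ι.D z w : EuclideanSpace ℝ (Fin n)) =
        mfderiv 𝓘(ℝ, E) 𝓘(ℝ, EuclideanSpace ℝ (Fin n)) ι.F z' w := by
      rintro _ rfl w; rfl
    have h5 : (ι.D z (W' z) : EuclideanSpace ℝ (Fin n)) = ι.D (γ⁻¹ • z) (W (γ⁻¹ • z)) := by
      refine (h4 (γ • γ⁻¹ • z) (smul_inv_smul γ z) (W' z)).trans ?_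
      exact h3.symm
    have h6 := hb (γ⁻¹ • z)
    rw [← h5] at h6
    exact h6
  obtain ⟨c, hc0, hc⟩ := h W' hW' hb' _ hγ
  refine ⟨fun t => γ⁻¹ • c t, by simp [hc0], ?_⟩
  intro t ht
  have h1 : HasMFDerivAt 𝓘(ℝ, ℝ) 𝓘(ℝ, E) c t
    ((1 : ℝ →L[ℝ] ℝ).smulRight (W' (c t))) :=
    (hc t ht).hasMFDerivAt (isOpen_Ioo.mem_nhds ht)
  have h2 := HasMFDerivAt.comp t (g := fun z : P => γ⁻¹ • z) (f := c)
    ((𝒟.smooth γ⁻¹).mdifferentiableAt (by simp)).hasMFDerivAt h1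
  have h3 : (mfderiv 𝓘(ℝ, E) 𝓘(ℝ, E) (fun z : P => γ⁻¹ • z) (c t) (W' (c t)) : E)
      = W (γ⁻¹ • c t) := by
    have e1 : mfderiv 𝓘(ℝ, E) 𝓘(ℝ, E) ((fun z : P => γ⁻¹ • z) ∘ (fun p : P => γ • p))
        (γ⁻¹ • c t) = (mfderiv 𝓘(ℝ, E) 𝓘(ℝ, E) (fun z : P => γ⁻¹ • z) (γ • γ⁻¹ • c t)).comp
        (mfderiv 𝓘(ℝ, E) 𝓘(ℝ, E) (fun p : P => γ • p) (γ⁻¹ • c t)) :=
      mfderiv_comp _ ((𝒟.smooth γ⁻¹).mdifferentiableAt (by simp))
        ((𝒟.smooth γ).mdifferentiableAt (by simp))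
    have e2 : (fun z : P => γ⁻¹ • z) ∘ (fun p : P => γ • p) = id := by
      ext1 p; exact inv_smul_smul γ p
    rw [e2, mfderiv_id] at e1
    have e3 := DFunLike.congr_fun e1 (W (γ⁻¹ • c t))
    have e4 : ∀ z : P, z = c t → ∀ a : E,
        (mfderiv 𝓘(ℝ, E) 𝓘(ℝ, E) (fun z : P => γ⁻¹ • z) (c t) a : E) =
        mfderiv 𝓘(ℝ, E) 𝓘(ℝ, E) (fun z : P => γ⁻¹ • z) z a := by rintro _ rfl a; rfl
    exact (e4 (γ • γ⁻¹ • c t) (smul_inv_smul γ (c t)) (W' (c t))).trans e3.symm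
  refine (h2.congr_mfderiv ?_).hasMFDerivWithinAt
  refine ContinuousLinearMap.ext fun (r : ℝ) => ?_
  show (mfderiv 𝓘(ℝ, E) 𝓘(ℝ, E) (fun z : P => γ⁻¹ • z) (c t))
    ((r • W' (c t) : E)) = r • W (γ⁻¹ • c t)
  have h4 : (mfderiv 𝓘(ℝ, E) 𝓘(ℝ, E) (fun z : P => γ⁻¹ • z) (c t))
    ((r • W' (c t) : E)) = (r •
      (mfderiv 𝓘(ℝ, E) 𝓘(ℝ, E) (fun z : P => γ⁻¹ • z) (c t) (W' (c t)) : E) : E) :=
    map_smul (mfderiv 𝓘(ℝ, E) 𝓘(ℝ, E) (fun z : P => γ⁻¹ • z) (c t)) _ _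
  rw [h4]
  exact congrArg (fun w : E => r • w) h3

end Pool.Agent.TH596.J95
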