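import Mathlib

set_option autoImplicit false

/-! # Job 66: choice of a good linear combination with respect to all valuation rings -/

namespace Pool.Agent.TH596.J66

open Cardinal

/-- two elements of a field of transcendence degree at most one satisfy a polynomial relation -/
lemma exists_relation {k L : Type} [Field k] [Field L] [Algebra k L] (T₀ : L)
    (halg : Algebra.IsAlgebraic (IntermediateField.adjoin k {T₀}) L) (g h : L) :
    ∃ p : MvPolynomial (Fin 2) k, p ≠ 0 ∧ MvPolynomial.aeval ![g, h] p = 0 := by
  have halg' : Algebra.IsAlgebraic (Algebra.adjoin k ({T₀} : Set L)) L := by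
    constructor
    intro x
    have h1 := halg.isAlgebraic x
    exact IntermediateField.isAlgebraic_adjoin_iff.mp h1
  have h1 : ¬ AlgebraicIndependent k ![g, h] := by
    intro hind
    have h2 := hind.lift_cardinalMk_le_trdeg
    have h3 : Algebra.trdeg k L ≤ #({T₀} : Set L) := Algebra.IsAlgebraic.trdeg_le_cardinalMk k {T₀}
    rw [Cardinal.mk_singleton] at h3
    rw [Cardinal.mk_fin] at h2
    have h4 : (2 : Cardinal.{0}) ≤ 1 := by
      simpa using h2.trans (Cardinal.lift_le.mpr h3)
    have h5 : (1 : Cardinal.{0}) < 2 := by norm_num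
    exact absurd h4 (not_le.mpr h5)
  rw [algebraicIndependent_iff] at h1
  push Not at h1
  obtain ⟨p, hp, hp0⟩ := h1
  exact ⟨p, hp0, hp⟩

section val

variable {k L : Type} [Field k] [Field L] [Algebra k L] (O : ValuationSubring L)

lemma val_const (hO : ∀ c : k, algebraMap k L c ∈ O) {c : k} (hc : c ≠ 0) :
    O.valuation (algebraMap k L c) = 1 := by
  apply le_antisymm
  · exact (O.valuation_le_one_iff _).mpr (hO c)
  · have h1 := (O.valuation_le_one_iff _).mpr (hO c⁻¹)
    rw [map_inv₀, map_inv₀] at h1
    have h2 : 0 < O.valuation (algebraMap k L c) := by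
      rw [Valuation.pos_iff]
      simpa using hc
    rw [inv_le_one₀ h2] at h1
    exact h1

lemma val_const_le (hO : ∀ c : k, algebraMap k L c ∈ O) (c : k) :
    O.valuation (algebraMap k L c) ≤ 1 :=
  (O.valuation_le_one_iff _).mpr (hO c)

lemma val_pow_sub {h a : L} (hh : O.valuation h ≤ 1) (ha : O.valuation a ≤ 1)
    (hha : O.valuation (h - a) < 1) (j : ℕ) : O.valuation (h ^ j - a ^ j) < 1 := by
  induction j with
  | zero => simp
  | succ j ih =>
    have h1 : h ^ (j + 1) - a ^ (j + 1) = h * (h ^ j - a ^ j) + a ^ j * (h - a) := by ring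
    rw [h1]
    apply Valuation.map_add_lt
    · rw [map_mul]
      exact mul_lt_one_of_nonneg_of_lt_one_right hh zero_le ih
    · rw [map_mul, map_pow]
      exact mul_lt_one_of_nonneg_of_lt_one_right (pow_le_one' ha j) zero_le hha

end val

/-- the pair lemma -/
lemma pair {k L : Type} [Field k] [Field L] [Algebra k L] (T₀ : L)
    (halg : Algebra.IsAlgebraic (IntermediateField.adjoin k {T₀}) L) (f g : L) :
    ∃ B : Finset k, ∀ c : k, c ∉ B → ∀ O : ValuationSubring L, (∀ c : k, algebraMap k L c ∈ O) →
      ((f + algebraMap k L c * g ∈ O → f ∈ O ∧ g ∈ O) ∧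
       (f + algebraMap k L c * g ∉ O →
          f * (f + algebraMap k L c * g)⁻¹ ∈ O ∧ g * (f + algebraMap k L c * g)⁻¹ ∈ O)) := by
  classical
  obtain ⟨p, hp0, hp⟩ := exists_relation T₀ halg g (f / g)
  set D := p.support.sup (fun m => m 0) with hD
  set S := p.support.filter (fun m => m 0 = D) with hS
  set q : Polynomial k := ∑ m ∈ S, Polynomial.C (p.coeff m) * Polynomial.X ^ (m 1) with hq
  have hq0 : q ≠ 0 := by
    have hne : p.support.Nonempty := by
      rwa [Finset.nonempty_iff_ne_empty, Ne, MvPolynomial.support_eq_empty]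
    obtain ⟨m', hm', hm'D⟩ := Finset.exists_mem_eq_sup p.support hne (fun m => m 0)
    have hm'S : m' ∈ S := by
      rw [hS, Finset.mem_filter]
      exact ⟨hm', hm'D.symm⟩
    intro h0
    have h1 : q.coeff (m' 1) = p.coeff m' := by
      rw [hq, Polynomial.finsetSum_coeff]
      rw [Finset.sum_eq_single m']
      · rw [Polynomial.coeff_C_mul, Polynomial.coeff_X_pow, if_pos rfl, mul_one]
      · intro m hm hne
        rw [Polynomial.coeff_C_mul, Polynomial.coeff_X_pow, if_neg, mul_zero]
        intro h2
        apply hne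
        rw [hS, Finset.mem_filter] at hm hm'S
        ext i
        fin_cases i
        · show m 0 = m' 0
          rw [hm.2, hm'S.2]
        · exact h2.symm
      · intro h; exact absurd hm'S h
    rw [h0, Polynomial.coeff_zero] at h1
    exact (MvPolynomial.mem_support_iff.mp hm') h1.symm
  refine ⟨q.roots.toFinset.image (fun x => -x), ?_⟩
  intro c hc O hO
  have hcq : q.eval (-c) ≠ 0 := by
    intro h1
    apply hc
    rw [Finset.mem_image]
    refine ⟨-c, ?_, neg_neg c⟩
    rw [Multiset.mem_toFinset, Polynomial.mem_roots hq0]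
    exact h1
  set T := f + algebraMap k L c * g with hT
  by_cases hgO : g ∈ O
  · -- `g` is regular
    have hcg : algebraMap k L c * g ∈ O := O.mul_mem _ _ (hO c) hgO
    have hf : f = T - algebraMap k L c * g := by rw [hT]; ring
    constructor
    · intro hTO
      refine ⟨?_, hgO⟩
      rw [hf]
      exact O.sub_mem hTO hcg
    · intro hTO
      have hT0 : T ≠ 0 := by
        rintro h; rw [h] at hTO; exact hTO O.zero_mem
      have hTi : T⁻¹ ∈ O := (O.mem_or_inv_mem T).resolve_left hTO
      refine ⟨?_, O.mul_mem _ _ hgO hTi⟩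
      have h1 : f * T⁻¹ = 1 - algebraMap k L c * g * T⁻¹ := by
        rw [hf, sub_mul, mul_inv_cancel₀ hT0]
      rw [h1]
      exact O.sub_mem O.one_mem (O.mul_mem _ _ hcg hTi)
  · -- `g` has a pole
    have hg0 : g ≠ 0 := by
      rintro h; rw [h] at hgO; exact hgO O.zero_mem
    set v := O.valuation with hv
    have hvg : 1 < v g := by
      rw [← not_le]
      intro h
      exact hgO ((O.valuation_le_one_iff g).mp h)
    set h := f / g with hh
    -- the key claim
    have key : 1 ≤ v (h + algebraMap k L c) := by
      by_contra hlt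
      rw [not_le] at hlt
      have hvh : v h ≤ 1 := by
        have h1 : h = (h + algebraMap k L c) - algebraMap k L c := by ring
        rw [h1]
        exact v.map_sub_le hlt.le (val_const_le O hO c)
      -- the relation
      have hrel : ∑ m ∈ p.support, algebraMap k L (p.coeff m) * (g ^ (m 0) * h ^ (m 1)) = 0 := by
        rw [MvPolynomial.aeval_def, MvPolynomial.eval₂_eq'] at hp
        simp only [Fin.prod_univ_two] at hp
        exact hp
      rw [← Finset.sum_filter_add_sum_filter_not p.support (fun m => m 0 = D)] at hrel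
      have hA : ∑ m ∈ p.support.filter (fun m => m 0 = D),
          algebraMap k L (p.coeff m) * (g ^ (m 0) * h ^ (m 1)) =
          g ^ D * ∑ m ∈ S, algebraMap k L (p.coeff m) * h ^ (m 1) := by
        rw [Finset.mul_sum]
        apply Finset.sum_congr rfl
        intro m hm
        rw [Finset.mem_filter] at hm
        rw [hm.2]; ring
      have hB : v (∑ m ∈ p.support.filter (fun m => ¬ m 0 = D),
          algebraMap k L (p.coeff m) * (g ^ (m 0) * h ^ (m 1))) < v g ^ D := by
        apply Valuation.map_sum_lt
        · exact pow_ne_zero _ (by rintro h0; rw [h0] at hvg; exact absurd hvg (not_lt.mpr zero_le_one))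
        · intro m hm
          rw [Finset.mem_filter] at hm
          have hlt : m 0 < D := lt_of_le_of_ne (Finset.le_sup (f := fun m : Fin 2 →₀ ℕ => m 0) hm.1)
            hm.2
          rw [map_mul, map_mul, map_pow, map_pow]
          calc v (algebraMap k L (p.coeff m)) * (v g ^ (m 0) * v h ^ (m 1))
              ≤ 1 * (v g ^ (m 0) * 1) := by
                apply mul_le_mul' (val_const_le O hO _)
                exact mul_le_mul' le_rfl (pow_le_one' hvh _)
            _ = v g ^ (m 0) := by rw [one_mul, mul_one]
            _ < v g ^ D := pow_lt_pow_right₀ hvg hlt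
      rw [hA] at hrel
      set Qh := ∑ m ∈ S, algebraMap k L (p.coeff m) * h ^ (m 1) with hQh
      have hC : v (g ^ D * Qh) < v g ^ D := by
        have h1 : g ^ D * Qh = - ∑ m ∈ p.support.filter (fun m => ¬ m 0 = D),
          algebraMap k L (p.coeff m) * (g ^ (m 0) * h ^ (m 1)) := eq_neg_of_add_eq_zero_left hrel
        rw [h1, Valuation.map_neg]
        exact hB
      have hvgD : 0 < v g ^ D := pow_pos (lt_trans zero_lt_one hvg) D
      have hQ1 : v Qh < 1 := by
        rw [map_mul, map_pow] at hC
        by_contra h1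
        rw [not_lt] at h1
        have := mul_le_mul' (le_refl (v g ^ D)) h1
        rw [mul_one] at this
        exact absurd hC (not_lt.mpr this)
      have hQ2 : v (Qh - algebraMap k L (q.eval (-c))) < 1 := by
        have h1 : Qh - algebraMap k L (q.eval (-c)) =
            ∑ m ∈ S, algebraMap k L (p.coeff m) * (h ^ (m 1) - (algebraMap k L (-c)) ^ (m 1)) := by
          rw [hq, Polynomial.eval_finsetSum, map_sum, hQh, ← Finset.sum_sub_distrib]
          apply Finset.sum_congr rfl
          intro m _
          rw [Polynomial.eval_mul, Polynomial.eval_C, Polynomial.eval_pow, Polynomial.eval_X,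
            map_mul, map_pow]
          ring
        rw [h1]
        apply Valuation.map_sum_lt _ one_ne_zero
        intro m _
        rw [map_mul]
        apply mul_lt_one_of_nonneg_of_lt_one_right (val_const_le O hO _) zero_le
        apply val_pow_sub O hvh (val_const_le O hO _)
        rw [map_neg, sub_neg_eq_add]
        exact hlt
      have hQ3 : v (algebraMap k L (q.eval (-c))) < 1 := by
        have h1 : algebraMap k L (q.eval (-c)) = Qh - (Qh - algebraMap k L (q.eval (-c))) := by ring
        rw [h1]
        exact v.map_sub_lt hQ1 hQ2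
      rw [hv, val_const O hO hcq] at hQ3
      exact lt_irrefl _ hQ3
    have hTg : T = g * (h + algebraMap k L c) := by
      rw [hT, hh, mul_add, mul_div_cancel₀ _ hg0]; ring
    have hhc0 : h + algebraMap k L c ≠ 0 := by
      rintro h0; rw [h0, map_zero] at key
      exact absurd key (not_le.mpr zero_lt_one)
    have hT0 : T ≠ 0 := by rw [hTg]; exact mul_ne_zero hg0 hhc0
    have hgT : g * T⁻¹ ∈ O := by
      rw [← O.valuation_le_one_iff, hTg, mul_inv, ← mul_assoc, mul_inv_cancel₀ hg0, one_mul,
        map_inv₀]
      exact inv_le_one_of_one_le₀ key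
    have hfT : f * T⁻¹ ∈ O := by
      have h1 : f * T⁻¹ = 1 - algebraMap k L c * (g * T⁻¹) := by
        have hf : f = T - algebraMap k L c * g := by rw [hT]; ring
        rw [hf, sub_mul, mul_inv_cancel₀ hT0, mul_assoc]
      rw [h1]
      exact O.sub_mem O.one_mem (O.mul_mem _ _ (hO c) hgT)
    constructor
    · intro hTO
      exfalso
      apply hgO
      have h1 : g = T * (g * T⁻¹) := by field_simp
      rw [h1]
      exact O.mul_mem _ _ hTO hgT
    · intro _
      exact ⟨hfT, hgT⟩

/-- QT (choice of a good linear combination). -/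
theorem QT {k L : Type} [Field k] [Infinite k] [Field L] [Algebra k L] (T₀ : L)
    (halg : Algebra.IsAlgebraic (IntermediateField.adjoin k {T₀}) L)
    {N : ℕ} (ξ : Fin (N + 1) → L) :
    ∃ l : Fin (N + 1) → k, ∀ O : ValuationSubring L, (∀ c : k, algebraMap k L c ∈ O) →
      ((∑ b, algebraMap k L (l b) * ξ b ∈ O → ∀ b, ξ b ∈ O) ∧
       (∑ b, algebraMap k L (l b) * ξ b ∉ O →
          ∀ b, ξ b * (∑ b, algebraMap k L (l b) * ξ b)⁻¹ ∈ O)) := by
  induction N with
  | zero =>
    refine ⟨fun _ => 1, ?_⟩
    intro O hO
    have h1 : ∑ b : Fin (0 + 1), algebraMap k L 1 * ξ b = ξ 0 := by simp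
    rw [h1]
    constructor
    · intro h b
      rw [Fin.eq_zero b]; exact h
    · intro h b
      rw [Fin.eq_zero b]
      have h0 : ξ 0 ≠ 0 := by
        intro h2; rw [h2] at h; exact h O.zero_mem
      rw [mul_inv_cancel₀ h0]
      exact O.one_mem
  | succ N ih =>
    obtain ⟨l, hl⟩ := ih (fun b => ξ b.castSucc)
    set T := ∑ b : Fin (N + 1), algebraMap k L (l b) * ξ b.castSucc with hT
    obtain ⟨B, hB⟩ := pair T₀ halg T (ξ (Fin.last (N + 1)))
    obtain ⟨c, hc⟩ := Infinite.exists_notMem_finset B
    refine ⟨Fin.snoc l c, ?_⟩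
    intro O hO
    obtain ⟨hl1, hl2⟩ := hl O hO
    obtain ⟨hc1, hc2⟩ := hB c hc O hO
    have hsum : ∑ b : Fin (N + 1 + 1), algebraMap k L ((Fin.snoc l c : Fin (N + 2) → k) b) * ξ b
        = T + algebraMap k L c * ξ (Fin.last (N + 1)) := by
      rw [Fin.sum_univ_castSucc, hT]
      simp only [Fin.snoc_castSucc, Fin.snoc_last]
    rw [hsum]
    set T' := T + algebraMap k L c * ξ (Fin.last (N + 1)) with hT'
    constructor
    · intro h b
      obtain ⟨h1, h2⟩ := hc1 h
      refine Fin.lastCases h2 (fun i => ?_) b
      exact hl1 h1 i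
    · intro h b
      obtain ⟨h1, h2⟩ := hc2 h
      refine Fin.lastCases h2 (fun i => ?_) b
      by_cases hTO : T ∈ O
      · exact O.mul_mem _ _ (hl1 hTO i) ((O.mem_or_inv_mem T').resolve_left h)
      · have hT0 : T ≠ 0 := by
          intro h3; rw [h3] at hTO; exact hTO O.zero_mem
        have h3 : ξ i.castSucc * T'⁻¹ = (ξ i.castSucc * T⁻¹) * (T * T'⁻¹) := by
          field_simp
        rw [h3]
        exact O.mul_mem _ _ (hl2 hTO i) h1

end Pool.Agent.TH596.J66
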