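import Mathlib

set_option autoImplicit false

/-! # Job 67: specialisation to a function field of a curve -/

namespace Pool.Agent.TH596.J67

open IntermediateField

lemma lift_field {F K M : Type} [Field F] [Field K] [Algebra F K] [Field M] [IsAlgClosed M]
    [Algebra F M] [Algebra.IsAlgebraic F K] : Nonempty (K →ₐ[F] M) := ⟨IsAlgClosed.lift⟩

lemma lift_field' {F K M : Type} [Field F] [Field K] [Algebra F K] [Field M] [IsAlgClosed M]
    [Algebra F M] [Algebra.FiniteType F K] : Nonempty (K →ₐ[F] M) := by
  have : Module.Finite F K := finite_of_finite_type_of_isJacobsonRing F K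
  have : Algebra.IsAlgebraic F K := Algebra.IsAlgebraic.of_finite F _
  exact lift_field

/-- a finitely generated algebra over `F` maps to every algebraically closed extension of `F` -/
lemma exists_hom {F E M : Type} [Field F] [Field E] [Algebra F E] [Field M] [IsAlgClosed M]
    [Algebra F M] (s : Finset E) : Nonempty (Algebra.adjoin F (s : Set E) →ₐ[F] M) := by
  set B := Algebra.adjoin F (s : Set E) with hB
  have : Algebra.FiniteType F B := (Subalgebra.fg_iff_finiteType _).mp (Subalgebra.fg_adjoin_finset s)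
  obtain ⟨m, hm⟩ := Ideal.exists_maximal B
  have h1 : Algebra.FiniteType F (B ⧸ m) := inferInstance
  obtain ⟨j⟩ := @lift_field' F (B ⧸ m) M _ (Ideal.Quotient.field m) _ _ _ _ h1
  exact ⟨j.comp (Ideal.Quotient.mkₐ F m)⟩

/-- QS (specialisation to a function field of a curve). -/
theorem QS {κ E : Type} [Field κ] [Field E] [Algebra κ E] (s : Finset E) (r : E)
    (hr : Transcendental κ r) (hrs : r ∈ Algebra.adjoin κ (s : Set E)) :
    ∃ (k : Type) (_ : Field k) (_ : IsAlgClosed k) (_ : Algebra κ k)
      (L : Type) (_ : Field L) (_ : Algebra k L) (_ : Algebra κ L) (_ : IsScalarTower κ k L)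
      (T : L), Transcendental k T ∧
        FiniteDimensional (IntermediateField.adjoin k {T}) L ∧
        ∃ ψ : (Algebra.adjoin κ (s : Set E)) →ₐ[κ] L, ψ ⟨r, hrs⟩ = T := by
  let k := AlgebraicClosure κ
  let A := RatFunc k
  let M := AlgebraicClosure A
  let T : M := algebraMap A M RatFunc.X
  have hTk : Transcendental k T :=
    (transcendental_algebraMap_iff (algebraMap A M).injective).mpr RatFunc.transcendental_X
  have hTκ : Transcendental κ T :=
    Transcendental.restrictScalars (algebraMap κ k).injective hTk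
  -- the homomorphism from `κ(r)` to `M`
  let φ : κ⟮r⟯ →ₐ[κ] M := (IntermediateField.val _).comp
    ((RatFunc.algEquivOfTranscendental T hTκ).toAlgHom.comp
      (RatFunc.algEquivOfTranscendental r hr).symm.toAlgHom)
  have hφr : φ (AdjoinSimple.gen κ r) = T := by
    show (((RatFunc.algEquivOfTranscendental T hTκ)
      ((RatFunc.algEquivOfTranscendental r hr).symm (AdjoinSimple.gen κ r))) : M) = T
    rw [RatFunc.algEquivOfTranscendental_symm_gen, RatFunc.algEquivOfTranscendental_X]
  let : Algebra κ⟮r⟯ M := φ.toRingHom.toAlgebra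
  obtain ⟨Φ⟩ := exists_hom (F := κ⟮r⟯) (E := E) (M := M) s
  -- inclusion
  have hincl : ∀ b ∈ Algebra.adjoin κ (s : Set E), b ∈ Algebra.adjoin κ⟮r⟯ (s : Set E) := by
    intro b hb
    induction hb using Algebra.adjoin_induction with
    | mem x hx => exact Algebra.subset_adjoin hx
    | algebraMap c =>
      have : algebraMap κ E c = algebraMap κ⟮r⟯ E (algebraMap κ κ⟮r⟯ c) := rfl
      rw [this]
      exact Subalgebra.algebraMap_mem _ _
    | add x y _ _ hx hy => exact add_mem hx hy
    | mul x y _ _ hx hy => exact mul_mem hx hy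
  let ψ0 : Algebra.adjoin κ (s : Set E) →+* M :=
    { toFun := fun b => Φ ⟨b.1, hincl b.1 b.2⟩
      map_one' := by
        have : (⟨(1 : Algebra.adjoin κ (s : Set E)).1, hincl _ (1 : Algebra.adjoin κ (s : Set E)).2⟩ :
          Algebra.adjoin κ⟮r⟯ (s : Set E)) = 1 := rfl
        rw [this, map_one]
      map_mul' := fun x y => by
        rw [← map_mul]; rfl
      map_zero' := by
        have : (⟨(0 : Algebra.adjoin κ (s : Set E)).1, hincl _ (0 : Algebra.adjoin κ (s : Set E)).2⟩ :
          Algebra.adjoin κ⟮r⟯ (s : Set E)) = 0 := rfl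
        rw [this, map_zero]
      map_add' := fun x y => by
        rw [← map_add]; rfl }
  have hψ0c : ∀ c : κ, ψ0 (algebraMap κ _ c) = algebraMap κ M c := by
    intro c
    show Φ _ = _
    have h1 : (⟨(algebraMap κ (Algebra.adjoin κ (s : Set E)) c).1,
        hincl _ (algebraMap κ (Algebra.adjoin κ (s : Set E)) c).2⟩ :
        Algebra.adjoin κ⟮r⟯ (s : Set E)) = algebraMap κ⟮r⟯ _ (algebraMap κ κ⟮r⟯ c) := rfl
    rw [h1, AlgHom.commutes]
    exact φ.commutes c
  have hψ0r : ψ0 ⟨r, hrs⟩ = T := by
    show Φ _ = _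
    have h1 : (⟨r, hincl _ hrs⟩ : Algebra.adjoin κ⟮r⟯ (s : Set E))
        = algebraMap κ⟮r⟯ _ (AdjoinSimple.gen κ r) := rfl
    rw [h1, AlgHom.commutes]
    exact hφr
  -- the field `L`
  let S : Set M := ψ0 '' {b | b.1 ∈ s}
  have hSfin : S.Finite := by
    apply Set.Finite.image
    apply Set.Finite.of_finite_image (f := Subtype.val) _ Subtype.val_injective.injOn
    apply s.finite_toSet.subset
    rintro _ ⟨b, hb, rfl⟩
    exact hb
  have : Finite S := hSfin
  let L : IntermediateField A M := IntermediateField.adjoin A S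
  have hfin : FiniteDimensional A L :=
    IntermediateField.finiteDimensional_adjoin
      (fun x _ => (Algebra.IsAlgebraic.isAlgebraic (R := A) x).isIntegral)
  have hψL : ∀ b : Algebra.adjoin κ (s : Set E), ψ0 b ∈ L := by
    rintro ⟨b, hb⟩
    induction hb using Algebra.adjoin_induction with
    | mem x hx =>
      apply IntermediateField.subset_adjoin
      exact ⟨⟨x, Algebra.subset_adjoin hx⟩, hx, rfl⟩
    | algebraMap c =>
      have h1 : (⟨algebraMap κ E c, (Algebra.adjoin κ (s : Set E)).algebraMap_mem c⟩ :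
        Algebra.adjoin κ (s : Set E)) = algebraMap κ _ c := rfl
      rw [h1, hψ0c]
      exact L.algebraMap_mem (algebraMap κ A c)
    | add x y hx' hy' hx hy =>
      have h1 : (⟨x + y, add_mem hx' hy'⟩ : Algebra.adjoin κ (s : Set E)) = ⟨x, hx'⟩ + ⟨y, hy'⟩ := rfl
      rw [h1, map_add]
      exact add_mem hx hy
    | mul x y hx' hy' hx hy =>
      have h1 : (⟨x * y, mul_mem hx' hy'⟩ : Algebra.adjoin κ (s : Set E)) = ⟨x, hx'⟩ * ⟨y, hy'⟩ := rfl
      rw [h1, map_mul]
      exact mul_mem hx hy
  let ψ : Algebra.adjoin κ (s : Set E) →+* L := ψ0.codRestrict L hψL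
  let TL : L := ⟨T, L.algebraMap_mem RatFunc.X⟩
  let a1 : Algebra k L := ((algebraMap A L).comp (algebraMap k A)).toAlgebra
  let a2 : Algebra κ L := ((algebraMap k L).comp (algebraMap κ k)).toAlgebra
  have t1 : IsScalarTower κ k L := IsScalarTower.of_algebraMap_eq (fun _ => rfl)
  have t2 : IsScalarTower k A L := IsScalarTower.of_algebraMap_eq (fun _ => rfl)
  have t3 : IsScalarTower k L M := IsScalarTower.of_algebraMap_eq (fun _ => rfl)
  refine ⟨k, inferInstance, inferInstance, inferInstance, L, inferInstance, a1, a2, t1, TL,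
    ?_, ?_, ?_⟩
  · have h1 : algebraMap L M TL = T := rfl
    have h2 := (transcendental_algebraMap_iff (R := k) (S := L) (A := M) (a := TL)
      (algebraMap L M).injective)
    rw [h1] at h2
    exact h2.mp hTk
  · have hmem : ∀ a : A, algebraMap A L a ∈ IntermediateField.adjoin k {TL} := by
      intro a
      have h1 : a ∈ (k⟮(RatFunc.X : RatFunc k)⟯) := by
        rw [RatFunc.adjoin_X]; trivial
      have h2 : (IsScalarTower.toAlgHom k A L) a ∈
          (k⟮(RatFunc.X : RatFunc k)⟯).map (IsScalarTower.toAlgHom k A L) :=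
        ⟨a, h1, rfl⟩
      rw [IntermediateField.adjoin_map, Set.image_singleton] at h2
      exact h2
    let a3 : Algebra A (IntermediateField.adjoin k {TL}) :=
      ((algebraMap A L).codRestrict (IntermediateField.adjoin k {TL}) hmem).toAlgebra
    have t4 : IsScalarTower A (IntermediateField.adjoin k {TL}) L :=
      IsScalarTower.of_algebraMap_eq (fun _ => rfl)
    exact Module.Finite.of_restrictScalars_finite A (IntermediateField.adjoin k {TL}) L
  · refine ⟨{ ψ with commutes' := ?_ }, ?_⟩
    · intro c
      apply Subtype.ext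
      exact hψ0c c
    · apply Subtype.ext
      exact hψ0r

end Pool.Agent.TH596.J67
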