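import Mathlib

set_option autoImplicit false

/-!
# Job 94: from a chain of primes to a contradiction with QC (geometric part CB of S00557)
-/

namespace Pool.Agent.TH596.J94

open MvPolynomial

/-- Explicit data over a ring `A`: a projective scheme `V(I) ⊂ P^N_A`, an endomorphism of it given by
a finite family `𝓕` of tuples of forms, and a section `x₀`. -/
structure CData (A : Type) [CommRing A] (N : ℕ) (I : Ideal (MvPolynomial (Fin (N + 1)) A))
    (𝓕 : Set (Fin (N + 1) → MvPolynomial (Fin (N + 1)) A)) (x₀ : Fin (N + 1) → A) : Prop where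
  hom : ∃ G : Set (MvPolynomial (Fin (N + 1)) A), G.Finite ∧ (∀ g ∈ G, ∃ d, g.IsHomogeneous d) ∧
    I = Ideal.span G
  fin : 𝓕.Finite
  tup : ∀ F ∈ 𝓕, ∃ d, ∀ a, (F a).IsHomogeneous d
  uni : ∀ i, ∃ M : ℕ, (X i : MvPolynomial (Fin (N + 1)) A) ^ M ∈
    I ⊔ Ideal.span {P | ∃ F ∈ 𝓕, ∃ a, P = F a}
  prop : ∀ F ∈ 𝓕, ∀ F' ∈ 𝓕, ∀ a b, F a * F' b - F b * F' a ∈ I
  stab : ∀ P ∈ I, ∀ F ∈ 𝓕, bind₁ F P ∈ I
  x1 : ∃ i, x₀ i = 1
  xI : ∀ P ∈ I, eval x₀ P = 0

/-- iterated compositions (apply an element of `𝓕` first). -/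
def Comp {R : Type} [CommRing R] {N : ℕ} (𝓕 : Set (Fin (N + 1) → MvPolynomial (Fin (N + 1)) R)) :
    ℕ → Set (Fin (N + 1) → MvPolynomial (Fin (N + 1)) R)
  | 0 => {fun a => X a}
  | n + 1 => {G | ∃ F ∈ 𝓕, ∃ F' ∈ Comp 𝓕 n, G = fun a => bind₁ F (F' a)}

/-- the statement QC (proved elsewhere) -/
def QCStatement : Prop :=
  ∀ {K κ : Type} [Field K] [CharZero K] [Field κ] [Algebra K κ] {N : ℕ}
    (I : Ideal (MvPolynomial (Fin (N + 1)) K))
    (_ : ∃ G : Set (MvPolynomial (Fin (N + 1)) K), (∀ g ∈ G, ∃ d, g.IsHomogeneous d) ∧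
      I = Ideal.span G)
    (𝓕 : ℕ → Set (Fin (N + 1) → MvPolynomial (Fin (N + 1)) K))
    (_ : ∀ n, ∀ F ∈ 𝓕 n, ∃ d, ∀ a, (F a).IsHomogeneous d)
    (_ : ∀ n i, ∃ M : ℕ, (X i : MvPolynomial (Fin (N + 1)) K) ^ M ∈
      I ⊔ Ideal.span {P | ∃ F ∈ 𝓕 n, ∃ a, P = F a})
    (_ : ∀ n, ∀ F ∈ 𝓕 n, ∀ F' ∈ 𝓕 n, ∀ a b i, ∃ M : ℕ,
      (X i : MvPolynomial (Fin (N + 1)) K) ^ M * (F a * F' b - F b * F' a) ∈ I)
    (E : ℕ → Type) [∀ m, Field (E m)] (ρ : ∀ m, κ →+* E m)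
    (z : ∀ m, Fin (N + 1) → E m) (_ : ∀ m, z m ≠ 0)
    (_ : ∀ m, ∀ P ∈ I, eval₂ ((ρ m).comp (algebraMap K κ)) (z m) P = 0)
    (_ : ∀ m n, m < n → ∃ v : Fin (N + 1) → κ, v ≠ 0 ∧ ∀ F ∈ 𝓕 n, ∀ a b,
      eval₂ ((ρ m).comp (algebraMap K κ)) (z m) (F a) * ρ m (v b) =
        eval₂ ((ρ m).comp (algebraMap K κ)) (z m) (F b) * ρ m (v a))
    (_ : ∀ m, ∃ F ∈ 𝓕 m, ∃ a b,
      eval₂ ((ρ m).comp (algebraMap K κ)) (z m) (F a) ≠ 0 ∧
      ¬ (ρ m).IsIntegralElem (eval₂ ((ρ m).comp (algebraMap K κ)) (z m) (F b) /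
        eval₂ ((ρ m).comp (algebraMap K κ)) (z m) (F a))),
    False

section forms

variable {R : Type} [CommRing R] {N : ℕ}

/-- homogeneous polynomials scale -/
lemma eval₂_smul {B : Type} [CommRing B] (f : R →+* B) (v : Fin (N + 1) → B) (c : B)
    {P : MvPolynomial (Fin (N + 1)) R} {d : ℕ} (hP : P.IsHomogeneous d) :
    eval₂ f (fun l => c * v l) P = c ^ d * eval₂ f v P := by
  rw [eval₂_eq', eval₂_eq', Finset.mul_sum]
  apply Finset.sum_congr rfl
  intro m hm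
  have h1 : ∑ i, m i = d := by
    have h2 := hP (mem_support_iff.mp hm)
    rw [← h2]
    simp [Finsupp.weight_apply, Finsupp.sum_fintype]
  simp_rw [mul_pow]
  rw [Finset.prod_mul_distrib, Finset.prod_pow_eq_pow_sum, h1]
  ring

variable {I : Ideal (MvPolynomial (Fin (N + 1)) R)}
  {𝓕 : Set (Fin (N + 1) → MvPolynomial (Fin (N + 1)) R)}

lemma comp_tup (htup : ∀ F ∈ 𝓕, ∃ d, ∀ a, (F a).IsHomogeneous d) :
    ∀ n, ∀ F ∈ Comp 𝓕 n, ∃ d, ∀ a, (F a).IsHomogeneous d := by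
  intro n
  induction n with
  | zero =>
    intro F hF
    have hF' : F = fun a => X a := hF
    subst hF'
    exact ⟨1, fun a => isHomogeneous_X R a⟩
  | succ n ih =>
    rintro _ ⟨F, hF, F', hF', rfl⟩
    obtain ⟨d, hd⟩ := htup F hF
    obtain ⟨d', hd'⟩ := ih F' hF'
    exact ⟨d * d', fun a => (hd' a).aeval F hd⟩

lemma comp_stab (hstab : ∀ P ∈ I, ∀ F ∈ 𝓕, bind₁ F P ∈ I) :
    ∀ n, ∀ F ∈ Comp 𝓕 n, ∀ P ∈ I, bind₁ F P ∈ I := by
  intro n
  induction n with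
  | zero =>
    intro F hF P hP
    have hF' : F = fun a => X a := hF
    subst hF'
    have : bind₁ (fun a => (X a : MvPolynomial (Fin (N + 1)) R)) P = P := by
      have h := congrArg (fun φ => φ P) (bind₁_X_left (σ := Fin (N + 1)) (R := R))
      exact h
    rw [this]; exact hP
  | succ n ih =>
    rintro _ ⟨F, hF, F', hF', rfl⟩ P hP
    rw [← bind₁_bind₁]
    exact hstab _ (ih F' hF' P hP) F hF

lemma comp_add {p q : ℕ} {F F' : Fin (N + 1) → MvPolynomial (Fin (N + 1)) R}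
    (hF : F ∈ Comp 𝓕 p) (hF' : F' ∈ Comp 𝓕 q) : (fun a => bind₁ F (F' a)) ∈ Comp 𝓕 (q + p) := by
  induction p generalizing F with
  | zero =>
    have h1 : F = fun a => X a := hF
    subst h1
    have h2 : (fun a => bind₁ (fun a => (X a : MvPolynomial (Fin (N + 1)) R)) (F' a)) = F' := by
      funext a
      exact congrArg (fun φ => φ (F' a)) (bind₁_X_left (σ := Fin (N + 1)) (R := R))
    rw [h2]; exact hF'
  | succ p ih =>
    obtain ⟨f, hf, F0, hF0, rfl⟩ := hF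
    refine ⟨f, hf, _, ih hF0, ?_⟩
    funext a
    rw [bind₁_bind₁]

lemma comp_uni
    (huni : ∀ i, ∃ M : ℕ, (X i : MvPolynomial (Fin (N + 1)) R) ^ M ∈
      I ⊔ Ideal.span {P | ∃ F ∈ 𝓕, ∃ a, P = F a})
    (hstab : ∀ P ∈ I, ∀ F ∈ 𝓕, bind₁ F P ∈ I) :
    ∀ n l, (X l : MvPolynomial (Fin (N + 1)) R) ∈
      (I ⊔ Ideal.span {P | ∃ F ∈ Comp 𝓕 n, ∃ a, P = F a}).radical := by
  intro n
  induction n with
  | zero =>
    intro l
    apply Ideal.le_radical
    apply Ideal.mem_sup_right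
    apply Ideal.subset_span
    exact ⟨fun a => X a, rfl, l, rfl⟩
  | succ n ih =>
    intro l
    set T := I ⊔ Ideal.span {P | ∃ F ∈ Comp 𝓕 (n + 1), ∃ a, P = F a} with hT
    have h1 : ∀ F ∈ 𝓕, ∀ a, F a ∈ T.radical := by
      intro F hF a
      obtain ⟨M, hM⟩ := ih a
      refine ⟨M, ?_⟩
      have h2 : bind₁ F ((X a) ^ M) = F a ^ M := by
        rw [map_pow, bind₁_X_right]
      rw [← h2]
      have h3 : Ideal.map (bind₁ F : MvPolynomial (Fin (N + 1)) R →ₐ[R] _)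
          (I ⊔ Ideal.span {P | ∃ F ∈ Comp 𝓕 n, ∃ a, P = F a}) ≤ T := by
        rw [Ideal.map_sup, Ideal.map_span]
        apply sup_le
        · rw [Ideal.map_le_iff_le_comap]
          intro P hP
          exact Ideal.mem_sup_left (hstab P hP F hF)
        · rw [Ideal.span_le]
          rintro _ ⟨_, ⟨F', hF', b, rfl⟩, rfl⟩
          apply Ideal.mem_sup_right
          apply Ideal.subset_span
          exact ⟨_, ⟨F, hF, F', hF', rfl⟩, b, rfl⟩
      exact h3 (Ideal.mem_map_of_mem _ hM)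
    have h2 : I ⊔ Ideal.span {P | ∃ F ∈ 𝓕, ∃ a, P = F a} ≤ T.radical := by
      apply sup_le
      · exact le_trans le_sup_left Ideal.le_radical
      · rw [Ideal.span_le]
        rintro _ ⟨F, hF, a, rfl⟩
        exact h1 F hF a
    obtain ⟨M, hM⟩ := huni l
    have h3 := h2 hM
    exact Ideal.mem_radical_of_pow_mem h3

/-- the ideal of elements killing `c` modulo `I` -/
def kill (I : Ideal (MvPolynomial (Fin (N + 1)) R)) (c : MvPolynomial (Fin (N + 1)) R) :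
    Ideal (MvPolynomial (Fin (N + 1)) R) where
  carrier := {P | P * c ∈ I}
  add_mem' := by
    intro a b ha hb
    show (a + b) * c ∈ I
    rw [add_mul]
    exact I.add_mem ha hb
  zero_mem' := by
    show 0 * c ∈ I
    rw [zero_mul]; exact I.zero_mem
  smul_mem' := by
    intro r a ha
    show r • a * c ∈ I
    rw [smul_eq_mul, mul_assoc]
    exact I.mul_mem_left r ha

lemma mem_kill {c P : MvPolynomial (Fin (N + 1)) R} : P ∈ kill I c ↔ P * c ∈ I := Iff.rfl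

lemma form_swap {F F2 : Fin (N + 1) → MvPolynomial (Fin (N + 1)) R}
    (hprop : ∀ a b, F a * F2 b - F b * F2 a ∈ I) (c : Fin (N + 1))
    {P : MvPolynomial (Fin (N + 1)) R} {d : ℕ} (hP : P.IsHomogeneous d) :
    F2 c ^ d * bind₁ F P - F c ^ d * bind₁ F2 P ∈ I := by
  rw [← Ideal.Quotient.eq, map_mul, map_mul, map_pow, map_pow, hom_bind₁, hom_bind₁,
    coe_eval₂Hom, coe_eval₂Hom, ← eval₂_smul _ _ _ hP, ← eval₂_smul _ _ _ hP]
  congr 1
  funext l
  rw [← map_mul, ← map_mul, Ideal.Quotient.eq]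
  have := hprop l c
  have h2 : F2 c * F l - F c * F2 l = F l * F2 c - F c * F2 l := by ring
  rw [h2]
  exact this

lemma comp_prop (htup : ∀ F ∈ 𝓕, ∃ d, ∀ a, (F a).IsHomogeneous d)
    (huni : ∀ i, ∃ M : ℕ, (X i : MvPolynomial (Fin (N + 1)) R) ^ M ∈
      I ⊔ Ideal.span {P | ∃ F ∈ 𝓕, ∃ a, P = F a})
    (hprop : ∀ F ∈ 𝓕, ∀ F' ∈ 𝓕, ∀ a b, F a * F' b - F b * F' a ∈ I)
    (hstab : ∀ P ∈ I, ∀ F ∈ 𝓕, bind₁ F P ∈ I) :
    ∀ n, ∀ F ∈ Comp 𝓕 n, ∀ F' ∈ Comp 𝓕 n, ∀ a b l,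
      (X l : MvPolynomial (Fin (N + 1)) R) ∈ (kill I (F a * F' b - F b * F' a)).radical := by
  intro n
  induction n with
  | zero =>
    intro F hF F' hF' a b l
    have h1 : F = fun a => X a := hF
    have h2 : F' = fun a => X a := hF'
    subst h1; subst h2
    apply Ideal.le_radical
    rw [mem_kill]
    have h3 : (X a * X b - X b * X a : MvPolynomial (Fin (N + 1)) R) = 0 := by ring
    rw [h3, mul_zero]
    exact I.zero_mem
  | succ n ih =>
    rintro _ ⟨F, hF, F', hF', rfl⟩ _ ⟨F1, hF1, F1', hF1', rfl⟩ a b l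
    simp only
    set cross := bind₁ F (F' a) * bind₁ F1 (F1' b) - bind₁ F (F' b) * bind₁ F1 (F1' a) with hcross
    obtain ⟨d', hd'⟩ := comp_tup htup n F' hF'
    obtain ⟨d1', hd1'⟩ := comp_tup htup n F1' hF1'
    have key : ∀ F2 ∈ 𝓕, ∀ c, F2 c ∈ (kill I cross).radical := by
      intro F2 hF2 c
      obtain ⟨M, hM⟩ := ih F' hF' F1' hF1' a b c
      rw [mem_kill] at hM
      refine ⟨d' + d1' + M, ?_⟩
      rw [mem_kill]
      have s1 := form_swap (hprop F hF F2 hF2) c (hd' a)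
      have s2 := form_swap (hprop F1 hF1 F2 hF2) c (hd1' b)
      have s3 := form_swap (hprop F hF F2 hF2) c (hd' b)
      have s4 := form_swap (hprop F1 hF1 F2 hF2) c (hd1' a)
      have s5 := hstab _ hM F2 hF2
      rw [map_mul, map_pow, bind₁_X_right, map_sub, map_mul, map_mul] at s5
      rw [← Ideal.Quotient.eq] at s1 s2 s3 s4
      rw [← Ideal.Quotient.eq_zero_iff_mem] at s5 ⊢
      simp only [map_mul, map_pow, map_sub] at s1 s2 s3 s4 s5 ⊢
      rw [hcross]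
      simp only [map_mul, map_sub]
      set q := Ideal.Quotient.mk I with hq
      calc q (F2 c) ^ (d' + d1' + M) * (q (bind₁ F (F' a)) * q (bind₁ F1 (F1' b))
            - q (bind₁ F (F' b)) * q (bind₁ F1 (F1' a)))
          = q (F2 c) ^ M * ((q (F2 c) ^ d' * q (bind₁ F (F' a))) *
              (q (F2 c) ^ d1' * q (bind₁ F1 (F1' b)))
            - (q (F2 c) ^ d' * q (bind₁ F (F' b))) *
              (q (F2 c) ^ d1' * q (bind₁ F1 (F1' a)))) := by ring
        _ = (q (F c) ^ d' * q (F1 c) ^ d1') * (q (F2 c) ^ M * (q (bind₁ F2 (F' a)) *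
              q (bind₁ F2 (F1' b)) - q (bind₁ F2 (F' b)) * q (bind₁ F2 (F1' a)))) := by
            rw [s1, s2, s3, s4]; ring
        _ = 0 := by rw [s5, mul_zero]
    have h2 : I ⊔ Ideal.span {P | ∃ F ∈ 𝓕, ∃ a, P = F a} ≤ (kill I cross).radical := by
      apply sup_le
      · refine le_trans ?_ Ideal.le_radical
        intro P hP
        rw [mem_kill]
        exact I.mul_mem_right _ hP
      · rw [Ideal.span_le]
        rintro _ ⟨F2, hF2, c, rfl⟩
        exact key F2 hF2 c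
    obtain ⟨M, hM⟩ := huni l
    exact Ideal.mem_radical_of_pow_mem (h2 hM)

/-- iterates of `Φ` (apply `Φ` first) -/
noncomputable def iter (Φ : Fin (N + 1) → MvPolynomial (Fin (N + 1)) R) :
    ℕ → Fin (N + 1) → MvPolynomial (Fin (N + 1)) R
  | 0 => fun a => X a
  | n + 1 => fun a => bind₁ Φ (iter Φ n a)

lemma iter_comp {Φ : Fin (N + 1) → MvPolynomial (Fin (N + 1)) R} {K : ℕ} (hΦ : Φ ∈ Comp 𝓕 K) :
    ∀ n, iter Φ n ∈ Comp 𝓕 (n * K) := by
  intro n
  induction n with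
  | zero =>
    rw [Nat.zero_mul]
    rfl
  | succ n ih =>
    have := comp_add hΦ ih
    rw [Nat.succ_mul]
    exact this

end forms

/-- the composed embeddings -/
noncomputable def sig (Fr : ℕ → Type) [∀ m, Field (Fr m)] (g : ∀ m, Fr m →+* Fr (m + 1)) :
    ∀ m, Fr 1 →+* Fr (m + 1)
  | 0 => RingHom.id _
  | m + 1 => (g (m + 1)).comp (sig Fr g m)

theorem CB_core (hQC : QCStatement) (R : Type) [CommRing R] [IsDomain R] [CharZero R] (N : ℕ)
    (I : Ideal (MvPolynomial (Fin (N + 1)) R))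
    (𝓕 : Set (Fin (N + 1) → MvPolynomial (Fin (N + 1)) R))
    (hhom : ∃ G : Set (MvPolynomial (Fin (N + 1)) R), (∀ g ∈ G, ∃ d, g.IsHomogeneous d) ∧
      I = Ideal.span G)
    (htup : ∀ F ∈ 𝓕, ∃ d, ∀ a, (F a).IsHomogeneous d)
    (huni : ∀ i, ∃ M : ℕ, (X i : MvPolynomial (Fin (N + 1)) R) ^ M ∈
      I ⊔ Ideal.span {P | ∃ F ∈ 𝓕, ∃ a, P = F a})
    (hprop : ∀ F ∈ 𝓕, ∀ F' ∈ 𝓕, ∀ a b, F a * F' b - F b * F' a ∈ I)
    (hstab : ∀ P ∈ I, ∀ F ∈ 𝓕, bind₁ F P ∈ I)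
    (K : ℕ) (Φ : Fin (N + 1) → MvPolynomial (Fin (N + 1)) R) (hΦ : Φ ∈ Comp 𝓕 K)
    (i : Fin (N + 1))
    {C Cs : Type} [CommRing C] [CommRing Cs] [Algebra C Cs]
    (mk : MvPolynomial (Fin (N + 1)) R →+* C) (hmk : Function.Surjective mk)
    (hmkI : ∀ P ∈ I, mk P = 0) (hmki : mk (X i) = 1)
    (γ : C →+* Cs)
    (hγC : ∀ r : R, γ (mk (MvPolynomial.C r)) = algebraMap _ _ (mk (MvPolynomial.C r)))
    (hγX : ∀ l, γ (mk (X l)) * algebraMap _ _ (mk (Φ i)) = algebraMap _ _ (mk (Φ l)))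
    (Fr : ℕ → Type) [∀ m, Field (Fr m)]
    (ev : ∀ m, C →+* Fr m) (evs : ∀ m, Cs →+* Fr m)
    (hevs : ∀ m c, evs m (algebraMap C Cs c) = ev m c)
    (g : ∀ m, Fr m →+* Fr (m + 1)) (hg : ∀ m c, g m (ev m c) = evs (m + 1) (γ c))
    (hs : ∀ m, ev m (mk (Φ i)) ≠ 0)
    (hfix : ∀ c, evs 0 (γ c) = ev 0 c)
    (hR : ∀ r : R, ev 0 (mk (MvPolynomial.C r)) = 0 → r = 0)
    (hker : ∀ y : Cs, evs 1 y = 0 → evs 0 y = 0)
    (c₀ : C) (hc0 : ev 0 c₀ = 0) (hc1 : ev 1 c₀ ≠ 0)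
    (hfrac : ∀ p : Polynomial (Fr 0), ∃ (b : Fr 0) (q : Polynomial C), b ≠ 0 ∧
      q.map (ev 0) = Polynomial.C b * p) : False := by
  classical
  -- evaluation
  set EV : ∀ m, MvPolynomial (Fin (N + 1)) R →+* Fr m := fun m => (ev m).comp mk with hEV
  have hEVC : ∀ m r, g m (EV m (MvPolynomial.C r)) = EV (m + 1) (MvPolynomial.C r) := by
    intro m r
    show g m (ev m (mk _)) = ev (m + 1) (mk _)
    rw [hg, hγC, hevs]
  have hEVX : ∀ m l, EV (m + 1) (Φ l) = EV (m + 1) (Φ i) * g m (EV m (X l)) := by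
    intro m l
    show ev (m + 1) (mk (Φ l)) = ev (m + 1) (mk (Φ i)) * g m (ev m (mk (X l)))
    rw [hg, ← hevs, ← hγX, map_mul, hevs, mul_comm]
  have hEVs : ∀ m, EV m (Φ i) ≠ 0 := hs
  have hEVi : ∀ m, EV m (X i) = 1 := by
    intro m
    show ev m (mk (X i)) = 1
    rw [hmki, map_one]
  have hEVI : ∀ m, ∀ P ∈ I, EV m P = 0 := by
    intro m P hP
    show ev m (mk P) = 0
    rw [hmkI P hP, map_zero]
  -- step
  have step : ∀ m {P : MvPolynomial (Fin (N + 1)) R} {d : ℕ}, P.IsHomogeneous d →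
      EV (m + 1) (bind₁ Φ P) = EV (m + 1) (Φ i) ^ d * g m (EV m P) := by
    intro m P d hP
    rw [hom_bind₁, coe_eval₂Hom]
    have h1 : (fun l => EV (m + 1) (Φ l)) = fun l => EV (m + 1) (Φ i) * g m (EV m (X l)) := by
      funext l; exact hEVX m l
    rw [h1, eval₂_smul _ _ _ hP]
    congr 1
    have h2 : (g m).comp (EV m) = eval₂Hom ((EV (m + 1)).comp MvPolynomial.C)
        (fun l => g m (EV m (X l))) := by
      apply MvPolynomial.ringHom_ext
      · intro r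
        simp only [RingHom.comp_apply, eval₂Hom_C]
        exact hEVC m r
      · intro l
        simp only [RingHom.comp_apply, eval₂Hom_X']
    have h3 := congrArg (fun f : MvPolynomial (Fin (N + 1)) R →+* Fr (m + 1) => f P) h2
    simp only [RingHom.comp_apply, coe_eval₂Hom] at h3
    exact h3.symm
  have step0 : ∀ {P : MvPolynomial (Fin (N + 1)) R} {d : ℕ}, P.IsHomogeneous d →
      EV 0 (bind₁ Φ P) = EV 0 (Φ i) ^ d * EV 0 P := by
    intro P d hP
    rw [hom_bind₁, coe_eval₂Hom]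
    have h1 : (fun l => EV 0 (Φ l)) = fun l => EV 0 (Φ i) * EV 0 (X l) := by
      funext l
      show ev 0 (mk (Φ l)) = ev 0 (mk (Φ i)) * ev 0 (mk (X l))
      rw [← hevs, ← hγX, map_mul, hfix, hevs, mul_comm]
    rw [h1, eval₂_smul _ _ _ hP]
    congr 1
    have h2 : EV 0 = eval₂Hom ((EV 0).comp MvPolynomial.C) (fun l => EV 0 (X l)) := by
      apply MvPolynomial.ringHom_ext
      · intro r
        simp only [RingHom.comp_apply, eval₂Hom_C]
      · intro l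
        simp only [eval₂Hom_X']
    have h3 := congrArg (fun f : MvPolynomial (Fin (N + 1)) R →+* Fr 0 => f P) h2
    simp only [coe_eval₂Hom] at h3
    exact h3.symm
  -- iterates
  have hit : ∀ n, ∃ d, ∀ a, (iter Φ n a).IsHomogeneous d := fun n =>
    comp_tup htup _ _ (iter_comp hΦ n)
  have it1 : ∀ q m, ∃ c : Fr (m + 1), c ≠ 0 ∧ ∀ a,
      EV (m + 1) (iter Φ (m + q) a) = c * sig Fr g m (EV 1 (iter Φ q a)) := by
    intro q m
    induction m with
    | zero =>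
      refine ⟨1, one_ne_zero, fun a => ?_⟩
      have e : iter Φ (0 + q) = iter Φ q := by rw [Nat.zero_add]
      rw [one_mul, e]
      rfl
    | succ m ih =>
      obtain ⟨c, hc, h⟩ := ih
      obtain ⟨d, hd⟩ := hit (m + q)
      refine ⟨EV (m + 1 + 1) (Φ i) ^ d * g (m + 1) c,
        mul_ne_zero (pow_ne_zero _ (hEVs _)) (by rwa [Ne, map_eq_zero]), fun a => ?_⟩
      have e : m + 1 + q = (m + q) + 1 := by omega
      rw [e]
      show EV (m + 1 + 1) (bind₁ Φ (iter Φ (m + q) a)) = _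
      rw [step (m + 1) (hd a), h a, map_mul, mul_assoc]
      rfl
  have it0 : ∀ q, ∃ c : Fr 0, c ≠ 0 ∧ ∀ a, EV 0 (iter Φ q a) = c * EV 0 (X a) := by
    intro q
    induction q with
    | zero => exact ⟨1, one_ne_zero, fun a => by rw [one_mul]; rfl⟩
    | succ q ih =>
      obtain ⟨c, hc, h⟩ := ih
      obtain ⟨d, hd⟩ := hit q
      refine ⟨EV 0 (Φ i) ^ d * c, mul_ne_zero (pow_ne_zero _ (hEVs _)) hc, fun a => ?_⟩
      show EV 0 (bind₁ Φ (iter Φ q a)) = _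
      rw [step0 (hd a), h a, mul_assoc]
  set ρ : ∀ m, Fr 0 →+* Fr (m + 1) := fun m => (sig Fr g m).comp (g 0) with hρ
  have it2 : ∀ q m, ∃ c : Fr (m + 1), c ≠ 0 ∧ ∀ a,
      EV (m + 1) (iter Φ (m + (q + 1)) a) = c * ρ m (EV 0 (X a)) := by
    intro q m
    obtain ⟨c, hc, h⟩ := it1 (q + 1) m
    obtain ⟨c', hc', h'⟩ := it0 q
    obtain ⟨d, hd⟩ := hit q
    refine ⟨c * sig Fr g m (EV 1 (Φ i) ^ d) * ρ m c', ?_, fun a => ?_⟩
    · refine mul_ne_zero (mul_ne_zero hc ?_) (by rwa [Ne, map_eq_zero])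
      rw [Ne, map_eq_zero]
      exact pow_ne_zero _ (hEVs 1)
    · rw [h a]
      have h1 : EV 1 (iter Φ (q + 1) a) = EV 1 (Φ i) ^ d * g 0 (EV 0 (iter Φ q a)) :=
        step 0 (hd a)
      rw [h1, h' a, map_mul, map_mul, map_mul]
      show _ = c * sig Fr g m (EV 1 (Φ i) ^ d) * sig Fr g m (g 0 c') * sig Fr g m (g 0 (EV 0 (X a)))
      ring
  -- compatibility with constants
  have hsigC : ∀ m r, sig Fr g m (EV 1 (MvPolynomial.C r)) = EV (m + 1) (MvPolynomial.C r) := by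
    intro m r
    induction m with
    | zero => rfl
    | succ m ih =>
      show g (m + 1) (sig Fr g m (EV 1 (MvPolynomial.C r))) = _
      rw [ih, hEVC]
  have hρC : ∀ m r, ρ m (EV 0 (MvPolynomial.C r)) = EV (m + 1) (MvPolynomial.C r) := by
    intro m r
    show sig Fr g m (g 0 (EV 0 (MvPolynomial.C r))) = _
    rw [hEVC, hsigC]
  -- the base field
  have hinj : Function.Injective ((EV 0).comp MvPolynomial.C : R →+* Fr 0) := by
    rw [injective_iff_map_eq_zero]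
    intro r hr
    exact hR r hr
  let K0 := FractionRing R
  have : CharZero K0 := charZero_of_injective_algebraMap (IsFractionRing.injective R K0)
  let alg : Algebra K0 (Fr 0) := (IsFractionRing.lift hinj : K0 →+* Fr 0).toAlgebra
  have halg : ∀ r : R, algebraMap K0 (Fr 0) (algebraMap R K0 r) = EV 0 (MvPolynomial.C r) := by
    intro r
    exact IsFractionRing.lift_algebraMap hinj r
  -- evaluation at `z_m`
  set mp : MvPolynomial (Fin (N + 1)) R →+* MvPolynomial (Fin (N + 1)) K0 :=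
    MvPolynomial.map (algebraMap R K0) with hmp
  have hev : ∀ m P, eval₂ ((ρ m).comp (algebraMap K0 (Fr 0))) (fun l => EV (m + 1) (X l)) (mp P)
      = EV (m + 1) P := by
    intro m P
    rw [hmp, eval₂_map]
    have h2 : EV (m + 1) = eval₂Hom (((ρ m).comp (algebraMap K0 (Fr 0))).comp (algebraMap R K0))
        (fun l => EV (m + 1) (X l)) := by
      apply MvPolynomial.ringHom_ext
      · intro r
        simp only [RingHom.comp_apply, eval₂Hom_C]
        rw [halg, hρC]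
      · intro l
        simp only [eval₂Hom_X']
    have h3 := congrArg (fun f : MvPolynomial (Fin (N + 1)) R →+* Fr (m + 1) => f P) h2
    simp only [coe_eval₂Hom] at h3
    exact h3.symm
  obtain ⟨G, hG, hIG⟩ := hhom
  refine hQC (K := K0) (κ := Fr 0) (N := N) (I.map mp) ⟨mp '' G, ?_, ?_⟩
    (fun n => (fun F a => mp (F a)) '' Comp 𝓕 (n * K)) ?_ ?_ ?_
    (fun m => Fr (m + 1)) ρ (fun m l => EV (m + 1) (X l)) ?_ ?_ ?_ ?_
  · rintro _ ⟨P, hP, rfl⟩
    obtain ⟨d, hd⟩ := hG P hP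
    exact ⟨d, hd.map _⟩
  · rw [hIG, Ideal.map_span]
  · rintro n _ ⟨F, hF, rfl⟩
    obtain ⟨d, hd⟩ := comp_tup htup _ F hF
    exact ⟨d, fun a => (hd a).map _⟩
  · intro n l
    obtain ⟨M, hM⟩ := comp_uni huni hstab (n * K) l
    refine ⟨M, ?_⟩
    have h1 := Ideal.mem_map_of_mem mp hM
    rw [map_pow, Ideal.map_sup, Ideal.map_span] at h1
    have h2 : mp (X l) = X l := by rw [hmp, map_X]
    rw [h2] at h1
    have h3 : mp '' {P | ∃ F ∈ Comp 𝓕 (n * K), ∃ a, P = F a} ⊆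
        {P | ∃ F ∈ (fun F a => mp (F a)) '' Comp 𝓕 (n * K), ∃ a, P = F a} := by
      rintro _ ⟨_, ⟨F, hF, a, rfl⟩, rfl⟩
      exact ⟨_, ⟨F, hF, rfl⟩, a, rfl⟩
    have h4 : Ideal.map mp I ⊔ Ideal.span (mp '' {P | ∃ F ∈ Comp 𝓕 (n * K), ∃ a, P = F a}) ≤
        Ideal.map mp I ⊔
          Ideal.span {P | ∃ F ∈ (fun F a => mp (F a)) '' Comp 𝓕 (n * K), ∃ a, P = F a} :=
      sup_le_sup le_rfl (Ideal.span_mono h3)
    exact h4 h1
  · rintro n _ ⟨F, hF, rfl⟩ _ ⟨F', hF', rfl⟩ a b l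
    obtain ⟨M, hM⟩ := comp_prop htup huni hprop hstab (n * K) F hF F' hF' a b l
    rw [mem_kill] at hM
    refine ⟨M, ?_⟩
    have h1 := Ideal.mem_map_of_mem mp hM
    rw [map_mul, map_pow, map_sub, map_mul, map_mul] at h1
    have h2 : mp (X l) = X l := by rw [hmp, map_X]
    rw [h2] at h1
    exact h1
  · intro m h0
    have := congrFun h0 i
    rw [Pi.zero_apply] at this
    rw [hEVi] at this
    exact one_ne_zero this
  · intro m P hP
    have h1 : I.map mp ≤ RingHom.ker (eval₂Hom ((ρ m).comp (algebraMap K0 (Fr 0)))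
        (fun l => EV (m + 1) (X l))) := by
      rw [Ideal.map_le_iff_le_comap]
      intro Q hQ
      rw [Ideal.mem_comap, RingHom.mem_ker, coe_eval₂Hom, hev]
      exact hEVI _ Q hQ
    have h2 := h1 hP
    rw [RingHom.mem_ker, coe_eval₂Hom] at h2
    exact h2
  · intro m n hmn
    refine ⟨fun l => EV 0 (X l), ?_, ?_⟩
    · intro h0
      have := congrFun h0 i
      rw [Pi.zero_apply, hEVi] at this
      exact one_ne_zero this
    · rintro _ ⟨F, hF, rfl⟩ a b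
      simp only
      rw [hev, hev]
      obtain ⟨q, rfl⟩ : ∃ q, n = m + (q + 1) := ⟨n - m - 1, by omega⟩
      obtain ⟨c, hc, h⟩ := it2 q m
      obtain ⟨M, hM⟩ := comp_prop htup huni hprop hstab _ F hF _ (iter_comp hΦ (m + (q + 1))) a b i
      rw [mem_kill] at hM
      have h1 := hEVI (m + 1) _ hM
      rw [map_mul, map_pow, hEVi, one_pow, one_mul, map_sub, map_mul, map_mul, h a, h b] at h1
      have h2 : c * (EV (m + 1) (F a) * ρ m (EV 0 (X b)) - EV (m + 1) (F b) * ρ m (EV 0 (X a)))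
          = 0 := by
        rw [← h1]; ring
      rcases mul_eq_zero.mp h2 with h3 | h3
      · exact absurd h3 hc
      · exact sub_eq_zero.mp h3
  · intro m
    obtain ⟨c, hc, h0⟩ := it1 0 m
    have h : ∀ a, EV (m + 1) (iter Φ m a) = c * sig Fr g m (EV 1 (X a)) := h0
    by_contra hcon
    push Not at hcon
    -- all coordinates are integral
    have hint : ∀ b, (g 0).IsIntegralElem (EV 1 (X b)) := by
      intro b
      have h1 := hcon _ ⟨iter Φ m, iter_comp hΦ m, rfl⟩ i b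
      simp only [hev] at h1
      rw [h i, h b, hEVi, map_one, mul_one] at h1
      have h2 := h1 hc
      rw [mul_div_cancel_left₀ _ hc] at h2
      obtain ⟨p, hp, hpe⟩ := h2
      refine ⟨p, hp, ?_⟩
      apply (sig Fr g m).injective
      rw [map_zero, Polynomial.hom_eval₂]
      exact hpe
    have hint2 : ∀ P, (g 0).IsIntegralElem (EV 1 P) := by
      intro P
      induction P using MvPolynomial.induction_on with
      | C r =>
        rw [← hEVC]
        exact RingHom.isIntegralElem_map _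
      | add p q hp hq =>
        rw [map_add]
        exact RingHom.IsIntegralElem.add _ hp hq
      | mul_X p l hp =>
        rw [map_mul]
        exact RingHom.IsIntegralElem.mul _ hp (hint l)
    obtain ⟨P₀, rfl⟩ := hmk c₀
    have h3 : (g 0).IsIntegralElem (ev 1 (mk P₀)) := hint2 P₀
    let alg2 : Algebra (Fr 0) (Fr 1) := (g 0).toAlgebra
    have h4 : IsIntegral (Fr 0) (ev 1 (mk P₀)) := h3
    set p := minpoly (Fr 0) (ev 1 (mk P₀)) with hp
    have hp0 : p.coeff 0 ≠ 0 := minpoly.coeff_zero_ne_zero h4 hc1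
    have hpe : Polynomial.eval₂ (g 0) (ev 1 (mk P₀)) p = 0 := minpoly.aeval (Fr 0) (ev 1 (mk P₀))
    obtain ⟨b, q, hb, hq⟩ := hfrac p
    have h5 : Polynomial.eval₂ (g 0) (ev 1 (mk P₀)) (q.map (ev 0)) = 0 := by
      rw [hq, Polynomial.eval₂_mul, hpe, mul_zero]
    rw [Polynomial.eval₂_map] at h5
    have h6 : (g 0).comp (ev 0) = (evs 1).comp γ := by
      ext c
      exact hg 0 c
    rw [h6, ← hevs, ← Polynomial.hom_eval₂] at h5
    have h7 := hker _ h5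
    rw [Polynomial.hom_eval₂, hevs, hc0] at h7
    have h8 : (evs 0).comp γ = ev 0 := by
      ext c; exact hfix c
    rw [h8, Polynomial.eval₂_at_zero] at h7
    have h9 : (q.map (ev 0)).coeff 0 = b * p.coeff 0 := by
      rw [hq, Polynomial.coeff_C_mul]
    rw [Polynomial.coeff_map, h7] at h9
    exact mul_ne_zero hb hp0 h9.symm

theorem CB_mid (hQC : QCStatement) (R : Type) [CommRing R] [IsDomain R] [CharZero R] (N : ℕ)
    (I : Ideal (MvPolynomial (Fin (N + 1)) R))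
    (𝓕 : Set (Fin (N + 1) → MvPolynomial (Fin (N + 1)) R)) (x : Fin (N + 1) → R)
    (hD : CData R N I 𝓕 x) (K : ℕ)
    (Φ : Fin (N + 1) → MvPolynomial (Fin (N + 1)) R) (hΦ : Φ ∈ Comp 𝓕 K) (i : Fin (N + 1))
    {C : Type} [CommRing C] (mk : MvPolynomial (Fin (N + 1)) R →+* C)
    (hmk : Function.Surjective mk) (hmkI : ∀ P ∈ I, mk P = 0) (hmki : mk (X i) = 1)
    {Cs : Type} [CommRing Cs] [Algebra C Cs] [IsLocalization.Away (mk (Φ i)) Cs]
    (γ : C →+* Cs) (𝔮 : ℕ → Ideal C)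
    (hγC : ∀ r : R, γ (mk (MvPolynomial.C r)) = algebraMap C Cs (mk (MvPolynomial.C r)))
    (hγX : ∀ l, γ (mk (X l)) * algebraMap C Cs (mk (Φ i)) = algebraMap C Cs (mk (Φ l)))
    (hprime : ∀ m, (𝔮 m).IsPrime) (hs : ∀ m, mk (Φ i) ∉ 𝔮 m)
    (hcomap : ∀ m, Ideal.comap γ (Ideal.map (algebraMap C Cs) (𝔮 (m + 1))) = 𝔮 m)
    (hfix : ∀ c, γ c - algebraMap C Cs c ∈ Ideal.map (algebraMap C Cs) (𝔮 0))
    (hR : ∀ r : R, mk (MvPolynomial.C r) ∈ 𝔮 0 → r = 0)
    (hlt : 𝔮 1 < 𝔮 0) : False := by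
  classical
  have hp : ∀ m, (𝔮 m).IsPrime := hprime
  let Fr : ℕ → Type := fun m => FractionRing (C ⧸ 𝔮 m)
  let ev : ∀ m, C →+* Fr m := fun m => (algebraMap (C ⧸ 𝔮 m) (Fr m)).comp (Ideal.Quotient.mk (𝔮 m))
  have hev : ∀ m c, ev m c = 0 ↔ c ∈ 𝔮 m := by
    intro m c
    show algebraMap (C ⧸ 𝔮 m) (FractionRing (C ⧸ 𝔮 m)) (Ideal.Quotient.mk (𝔮 m) c) = 0 ↔ _
    rw [map_eq_zero_iff _ (IsFractionRing.injective (C ⧸ 𝔮 m) (FractionRing (C ⧸ 𝔮 m))),
      Ideal.Quotient.eq_zero_iff_mem]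
  have hevs0 : ∀ m, ev m (mk (Φ i)) ≠ 0 := fun m h => hs m ((hev m _).mp h)
  have hunit : ∀ m, IsUnit (ev m (mk (Φ i))) := fun m => (hevs0 m).isUnit
  let evs : ∀ m, Cs →+* Fr m := fun m => IsLocalization.Away.lift (mk (Φ i)) (hunit m)
  have hevs : ∀ m c, evs m (algebraMap C Cs c) = ev m c := fun m c =>
    IsLocalization.Away.lift_eq (mk (Φ i)) (hunit m) c
  have hker : ∀ m y, evs m y = 0 ↔ y ∈ Ideal.map (algebraMap C Cs) (𝔮 m) := by
    intro m y
    constructor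
    · intro hy
      obtain ⟨⟨c, t⟩, hct⟩ := IsLocalization.surj (Submonoid.powers (mk (Φ i))) y
      have h1 : evs m (algebraMap C Cs c) = 0 := by
        rw [← hct, map_mul, hy, zero_mul]
      rw [hevs, hev] at h1
      have h2 := Ideal.mem_map_of_mem (algebraMap C Cs) h1
      rw [← hct] at h2
      have h3 : IsUnit (algebraMap C Cs (t : C)) := IsLocalization.map_units Cs t
      obtain ⟨u, hu⟩ := h3
      have h4 : y = (y * algebraMap C Cs (t : C)) * (u⁻¹ : Csˣ) := by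
        rw [← hu, mul_assoc, Units.mul_inv, mul_one]
      rw [h4]
      exact Ideal.mul_mem_right _ _ h2
    · intro hy
      have h1 : Ideal.map (algebraMap C Cs) (𝔮 m) ≤ RingHom.ker (evs m) := by
        rw [Ideal.map_le_iff_le_comap]
        intro c hc
        rw [Ideal.mem_comap, RingHom.mem_ker, hevs]
        exact (hev m c).mpr hc
      exact h1 hy
  -- the embeddings
  let h0 : ∀ m, C →+* Fr (m + 1) := fun m => (evs (m + 1)).comp γ
  have hh0 : ∀ m c, h0 m c = 0 ↔ c ∈ 𝔮 m := by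
    intro m c
    show evs (m + 1) (γ c) = 0 ↔ _
    rw [hker, ← Ideal.mem_comap, hcomap]
  let h1 : ∀ m, (C ⧸ 𝔮 m) →+* Fr (m + 1) := fun m =>
    Ideal.Quotient.lift (𝔮 m) (h0 m) (fun c hc => (hh0 m c).mpr hc)
  have hh1 : ∀ m, Function.Injective (h1 m) := by
    intro m
    rw [injective_iff_map_eq_zero]
    intro c hc
    obtain ⟨c, rfl⟩ := Ideal.Quotient.mk_surjective c
    have : h1 m (Ideal.Quotient.mk (𝔮 m) c) = h0 m c := rfl
    rw [this, hh0] at hc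
    exact Ideal.Quotient.eq_zero_iff_mem.mpr hc
  let g : ∀ m, Fr m →+* Fr (m + 1) := fun m => IsFractionRing.lift (hh1 m)
  have hg : ∀ m c, g m (ev m c) = evs (m + 1) (γ c) := by
    intro m c
    exact IsFractionRing.lift_algebraMap (hh1 m) (Ideal.Quotient.mk (𝔮 m) c)
  obtain ⟨c₀, hc0, hc1⟩ := SetLike.exists_of_lt hlt
  obtain ⟨G, _, hG, hIG⟩ := hD.hom
  refine CB_core hQC R N I 𝓕 ⟨G, hG, hIG⟩ hD.tup hD.uni hD.prop hD.stab K Φ hΦ i (C := C)
    (Cs := Cs) mk hmk hmkI hmki γ hγC hγX Fr ev evs hevs g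
    hg hevs0 ?_ ?_ ?_ c₀ ((hev 0 c₀).mpr hc0) (fun h => hc1 ((hev 1 c₀).mp h)) ?_
  · intro c
    have h2 := (hker 0 _).mpr (hfix c)
    rw [map_sub, sub_eq_zero] at h2
    rw [h2]
    exact hevs 0 c
  · intro r hr
    exact hR r ((hev 0 _).mp hr)
  · intro y hy
    rw [hker] at hy ⊢
    exact Ideal.map_mono hlt.le hy
  · intro p
    obtain ⟨b, hb, hbp⟩ := IsLocalization.integerNormalization_spec
      (nonZeroDivisors (C ⧸ 𝔮 0)) p
    obtain ⟨q, hq⟩ := Polynomial.map_surjective (Ideal.Quotient.mk (𝔮 0))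
      Ideal.Quotient.mk_surjective
      (IsLocalization.integerNormalization (nonZeroDivisors (C ⧸ 𝔮 0)) p)
    refine ⟨algebraMap (C ⧸ 𝔮 0) (Fr 0) b, q, ?_, ?_⟩
    · rw [Ne, map_eq_zero_iff _ (IsFractionRing.injective (C ⧸ 𝔮 0) (FractionRing (C ⧸ 𝔮 0)))]
      exact nonZeroDivisors.ne_zero hb
    · show q.map ((algebraMap (C ⧸ 𝔮 0) (Fr 0)).comp (Ideal.Quotient.mk (𝔮 0))) = _
      rw [← Polynomial.map_map, hq, hbp]
      ext n
      rw [Polynomial.coeff_smul, Polynomial.coeff_C_mul, Algebra.smul_def]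

/-- CB (geometric part), given QC. -/
theorem CB (hQC : QCStatement) (R : Type) [CommRing R] [IsDomain R] [CharZero R] (N : ℕ)
    (I : Ideal (MvPolynomial (Fin (N + 1)) R))
    (𝓕 : Set (Fin (N + 1) → MvPolynomial (Fin (N + 1)) R)) (x : Fin (N + 1) → R)
    (hD : CData R N I 𝓕 x) (K : ℕ)
    (Φ : Fin (N + 1) → MvPolynomial (Fin (N + 1)) R) (hΦ : Φ ∈ Comp 𝓕 K) (i : Fin (N + 1))
    (J : Ideal (MvPolynomial (Fin (N + 1)) R)) (hJ : J = I ⊔ Ideal.span {X i - 1})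
    (γ : (MvPolynomial (Fin (N + 1)) R ⧸ J) →+* Localization.Away (Ideal.Quotient.mk J (Φ i)))
    (𝔮 : ℕ → Ideal (MvPolynomial (Fin (N + 1)) R ⧸ J))
    (hγC : ∀ r : R, γ (Ideal.Quotient.mk J (MvPolynomial.C r)) =
      algebraMap _ _ (Ideal.Quotient.mk J (MvPolynomial.C r)))
    (hγX : ∀ l, γ (Ideal.Quotient.mk J (X l)) * algebraMap _ _ (Ideal.Quotient.mk J (Φ i)) =
      algebraMap _ _ (Ideal.Quotient.mk J (Φ l)))
    (hprime : ∀ m, (𝔮 m).IsPrime) (hs : ∀ m, Ideal.Quotient.mk J (Φ i) ∉ 𝔮 m)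
    (hcomap : ∀ m, Ideal.comap γ (Ideal.map (algebraMap _ _) (𝔮 (m + 1))) = 𝔮 m)
    (hfix : ∀ c, γ c - algebraMap _ _ c ∈
      Ideal.map (algebraMap _ (Localization.Away (Ideal.Quotient.mk J (Φ i)))) (𝔮 0))
    (hR : ∀ r : R, Ideal.Quotient.mk J (MvPolynomial.C r) ∈ 𝔮 0 → r = 0)
    (hlt : 𝔮 1 < 𝔮 0) : False := by
  refine CB_mid hQC R N I 𝓕 x hD K Φ hΦ i (Ideal.Quotient.mk J) Ideal.Quotient.mk_surjective
    ?_ ?_ γ 𝔮 hγC hγX hprime hs hcomap hfix hR hlt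
  · intro P hP
    rw [Ideal.Quotient.eq_zero_iff_mem, hJ]
    exact Ideal.mem_sup_left hP
  · have h2 : Ideal.Quotient.mk J (X i - 1) = 0 := by
      rw [Ideal.Quotient.eq_zero_iff_mem, hJ]
      exact Ideal.mem_sup_right (Ideal.subset_span rfl)
    rw [map_sub, map_one, sub_eq_zero] at h2
    exact h2

end Pool.Agent.TH596.J94
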