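import Pool.Agent.TH477.RB.Defs

set_option autoImplicit false

namespace Pool.Agent.TH596.J1

open Finset Pool.Agent.TH477.RB

section avg

variable {X J : Type*} [Fintype X]

open Classical in
/-- Average over the fibres of `ρ`. -/
noncomputable def E (ρ : X → J) (f : X → ℝ) (x : X) : ℝ :=
  (∑ x' ∈ univ.filter (fun x' => ρ x' = ρ x), f x') / ((univ.filter (fun x' => ρ x' = ρ x)).card : ℝ)

lemma E_eq (ρ : X → J) (f : X → ℝ) (x : X) (s : Finset X) (hs : ∀ x', x' ∈ s ↔ ρ x' = ρ x) :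
    E ρ f x = (∑ x' ∈ s, f x') / (s.card : ℝ) := by
  classical
  unfold E
  have : univ.filter (fun x' => ρ x' = ρ x) = s := by ext; simp [hs]
  rw [this]

lemma E_congr (ρ : X → J) (f : X → ℝ) {x y : X} (h : ρ x = ρ y) : E ρ f x = E ρ f y := by
  unfold E
  rw [h]

lemma card_pos' (ρ : X → J) (x : X) [DecidablePred fun x' => ρ x' = ρ x] :
    (0 : ℝ) < ((univ.filter (fun x' => ρ x' = ρ x)).card : ℝ) := by
  have : x ∈ univ.filter (fun x' => ρ x' = ρ x) := by simp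
  exact_mod_cast Finset.card_pos.2 ⟨x, this⟩

lemma E_of_measurable (ρ : X → J) (h : X → ℝ) (hh : ∀ x y, ρ x = ρ y → h x = h y) (x : X) :
    E ρ h x = h x := by
  classical
  unfold E
  have h1 : ∑ x' ∈ univ.filter (fun x' => ρ x' = ρ x), h x' =
      ∑ _x' ∈ univ.filter (fun x' => ρ x' = ρ x), h x := by
    apply Finset.sum_congr rfl
    intro x' hx'
    exact hh _ _ (Finset.mem_filter.1 hx').2
  rw [h1, Finset.sum_const, nsmul_eq_mul, mul_comm, mul_div_assoc]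
  have := card_pos' ρ x
  rw [div_self (ne_of_gt this), mul_one]

lemma E_adj (ρ : X → J) (f g : X → ℝ) : ∑ x, E ρ f x * g x = ∑ x, f x * E ρ g x := by
  classical
  have h1 : ∀ x, E ρ f x * g x = ∑ x', if ρ x' = ρ x then f x' * g x /
      ((univ.filter (fun z => ρ z = ρ x)).card : ℝ) else 0 := by
    intro x
    unfold E
    rw [← Finset.sum_filter, div_mul_eq_mul_div, Finset.sum_mul, Finset.sum_div]
  have h2 : ∀ x, f x * E ρ g x = ∑ x', if ρ x' = ρ x then f x * g x' /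
      ((univ.filter (fun z => ρ z = ρ x)).card : ℝ) else 0 := by
    intro x
    unfold E
    rw [← Finset.sum_filter, ← mul_div_assoc, Finset.mul_sum, Finset.sum_div]
  simp only [h1, h2]
  rw [Finset.sum_comm]
  apply Finset.sum_congr rfl
  intro x _
  apply Finset.sum_congr rfl
  intro y _
  by_cases h : ρ x = ρ y
  · rw [if_pos h, if_pos h.symm, h]
  · rw [if_neg h, if_neg (fun h' => h h'.symm)]

lemma E_mul_measurable (ρ : X → J) (f h : X → ℝ) (hh : ∀ x y, ρ x = ρ y → h x = h y) :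
    ∑ x, E ρ f x * h x = ∑ x, f x * h x := by
  rw [E_adj]
  apply Finset.sum_congr rfl
  intro x _
  rw [E_of_measurable ρ h hh]

lemma pythagoras {J' : Type*} (ρ : X → J) (ρ' : X → J') (href : ∀ x y, ρ' x = ρ' y → ρ x = ρ y)
    (f : X → ℝ) :
    ∑ x, (E ρ' f x) ^ 2 = ∑ x, (E ρ f x) ^ 2 + ∑ x, (E ρ' f x - E ρ f x) ^ 2 := by
  have h1 : ∑ x, E ρ' f x * E ρ f x = ∑ x, f x * E ρ f x :=
    E_mul_measurable ρ' f (E ρ f) (fun x y h => E_congr ρ f (href x y h))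
  have h2 : ∑ x, E ρ f x * E ρ f x = ∑ x, f x * E ρ f x :=
    E_mul_measurable ρ f (E ρ f) (fun x y h => E_congr ρ f h)
  have h3 : ∑ x, (E ρ' f x - E ρ f x) ^ 2 = ∑ x, (E ρ' f x) ^ 2 - 2 * ∑ x, E ρ' f x * E ρ f x +
      ∑ x, E ρ f x * E ρ f x := by
    rw [Finset.mul_sum, ← Finset.sum_sub_distrib, ← Finset.sum_add_distrib]
    apply Finset.sum_congr rfl
    intro x _
    ring
  have h4 : ∑ x, (E ρ f x) ^ 2 = ∑ x, E ρ f x * E ρ f x := by
    apply Finset.sum_congr rfl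
    intro x _
    ring
  rw [h3, h4, h1, h2]
  ring

lemma E_bounds (ρ : X → J) (f : X → ℝ) (hf : ∀ x, 0 ≤ f x ∧ f x ≤ 1) (x : X) :
    0 ≤ E ρ f x ∧ E ρ f x ≤ 1 := by
  classical
  unfold E
  constructor
  · apply div_nonneg
    · exact Finset.sum_nonneg fun x' _ => (hf x').1
    · positivity
  · rw [div_le_one (card_pos' ρ x)]
    calc ∑ x' ∈ univ.filter (fun x' => ρ x' = ρ x), f x'
        ≤ ∑ _x' ∈ univ.filter (fun x' => ρ x' = ρ x), (1 : ℝ) :=
          Finset.sum_le_sum fun x' _ => (hf x').2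
      _ = _ := by simp

end avg

section sets

variable {V : Type} [Fintype V]

lemma to_sets (D : V → V → ℝ) (f g : V → ℝ) (hf : ∀ x, 0 ≤ f x ∧ f x ≤ 1)
    (hg : ∀ x, 0 ≤ g x ∧ g x ≤ 1) :
    ∃ S T : Finset V, ∑ x, ∑ y, f x * g y * D x y ≤ ∑ x ∈ S, ∑ y ∈ T, D x y := by
  classical
  have key : ∀ (h : V → ℝ) (f : V → ℝ), (∀ x, 0 ≤ f x ∧ f x ≤ 1) →
      ∑ x, f x * h x ≤ ∑ x ∈ univ.filter (fun x => 0 < h x), h x := by
    intro h f hf
    rw [Finset.sum_filter]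
    apply Finset.sum_le_sum
    intro x _
    split_ifs with hx
    · nlinarith [(hf x).1, (hf x).2]
    · push Not at hx
      nlinarith [(hf x).1, (hf x).2]
  refine ⟨univ.filter (fun x => 0 < ∑ y, g y * D x y),
    univ.filter (fun y => 0 < ∑ x ∈ univ.filter (fun x => 0 < ∑ y, g y * D x y), D x y), ?_⟩
  calc ∑ x, ∑ y, f x * g y * D x y = ∑ x, f x * ∑ y, g y * D x y := by
        apply Finset.sum_congr rfl
        intro x _
        rw [Finset.mul_sum]
        apply Finset.sum_congr rfl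
        intro y _
        ring
    _ ≤ ∑ x ∈ univ.filter (fun x => 0 < ∑ y, g y * D x y), ∑ y, g y * D x y := key _ f hf
    _ = ∑ y, g y * ∑ x ∈ univ.filter (fun x => 0 < ∑ y, g y * D x y), D x y := by
        rw [Finset.sum_comm]
        apply Finset.sum_congr rfl
        intro y _
        rw [Finset.mul_sum]
    _ ≤ _ := key _ g hg
    _ = _ := by rw [Finset.sum_comm]

/-- Product partition. -/
def pr (κ : V → ℕ) : V × V → ℕ × ℕ := fun p => (κ p.1, κ p.2)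

lemma cellAvg_eq {M : ℕ} (κ' : V → Fin M) (κ : V → ℕ) (h : ∀ x, (κ' x : ℕ) = κ x)
    (A : V → V → ℝ) (x y : V) :
    cellAvg κ' A x y = E (pr κ) (fun p => A p.1 p.2) (x, y) := by
  classical
  have h1 : ∀ a b, κ' a = κ' b ↔ κ a = κ b := by
    intro a b
    rw [← h a, ← h b, Fin.val_inj]
  rw [E_eq (pr κ) (fun p => A p.1 p.2) (x, y)
    ((univ.filter (fun x' => κ' x' = κ' x)) ×ˢ (univ.filter (fun y' => κ' y' = κ' y)))
    (by rintro ⟨a, b⟩; simp [pr, h1])]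
  unfold cellAvg
  rw [Finset.sum_product, Finset.card_product]
  push_cast
  rfl

lemma step {r : ℕ} (A : Fin r → V → V → ℝ)
    (ε : ℝ) (hε : 0 < ε) (hV : 0 < Fintype.card V) (N : ℕ) (κ : V → ℕ) (hκ : ∀ x, κ x < N)
    (hbad : ∃ c, ∃ f g : V → ℝ, (∀ x, 0 ≤ f x ∧ f x ≤ 1) ∧ (∀ x, 0 ≤ g x ∧ g x ≤ 1) ∧
      ε * (Fintype.card V : ℝ) ^ 2 <
        |∑ x, ∑ y, f x * g y * (A c x y - E (pr κ) (fun p => A c p.1 p.2) (x, y))|) :
    ∃ κ' : V → ℕ, (∀ x, κ' x < 4 * N) ∧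
      (∑ c, ∑ p, (E (pr κ) (fun p => A c p.1 p.2) p) ^ 2) + ε ^ 2 * (Fintype.card V : ℝ) ^ 2 ≤
        ∑ c, ∑ p, (E (pr κ') (fun p => A c p.1 p.2) p) ^ 2 := by
  classical
  obtain ⟨c, f, g, hf, hg, hfg⟩ := hbad
  set D : V → V → ℝ := fun x y => A c x y - E (pr κ) (fun p => A c p.1 p.2) (x, y) with hD
  obtain ⟨S, T, hST⟩ : ∃ S T : Finset V,
      ε * (Fintype.card V : ℝ) ^ 2 < |∑ x ∈ S, ∑ y ∈ T, D x y| := by
    rcases lt_abs.1 hfg with h | h
    · obtain ⟨S, T, h1⟩ := to_sets D f g hf hg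
      exact ⟨S, T, lt_of_lt_of_le (lt_of_lt_of_le h h1) (le_abs_self _)⟩
    · obtain ⟨S, T, h1⟩ := to_sets (fun x y => - D x y) f g hf hg
      refine ⟨S, T, lt_of_lt_of_le (lt_of_lt_of_le h ?_) (neg_le_abs _)⟩
      simp only [mul_neg, Finset.sum_neg_distrib] at h1
      exact h1
  set κ' : V → ℕ := fun x => 4 * κ x + 2 * (if x ∈ S then 1 else 0) + (if x ∈ T then 1 else 0)
    with hκ'
  have hdec : ∀ x y, κ' x = κ' y → κ x = κ y ∧ (x ∈ S ↔ y ∈ S) ∧ (x ∈ T ↔ y ∈ T) := by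
    intro x y h
    simp only [hκ'] at h
    split_ifs at h <;> refine ⟨by omega, ?_, ?_⟩ <;> first | (simp_all; done) | omega
  have href : ∀ p q : V × V, pr κ' p = pr κ' q → pr κ p = pr κ q := by
    intro p q h
    simp only [pr, Prod.mk.injEq] at h ⊢
    exact ⟨(hdec _ _ h.1).1, (hdec _ _ h.2).1⟩
  refine ⟨κ', ?_, ?_⟩
  · intro x
    have := hκ x
    simp only [hκ']
    split_ifs <;> omega
  -- the indicator of `S × T`
  set ind : V × V → ℝ := fun p => if p.1 ∈ S ∧ p.2 ∈ T then 1 else 0 with hind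
  have hindm : ∀ p q : V × V, pr κ' p = pr κ' q → ind p = ind q := by
    intro p q h
    simp only [pr, Prod.mk.injEq] at h
    have h1 := (hdec _ _ h.1).2.1
    have h2 := (hdec _ _ h.2).2.2
    simp only [hind, h1, h2]
  have hsum1 : ∑ x ∈ S, ∑ y ∈ T, D x y = ∑ p : V × V, D p.1 p.2 * ind p := by
    rw [Fintype.sum_prod_type, ← Finset.sum_filter_add_sum_filter_not univ (fun x => x ∈ S)]
    have h0 : ∑ x ∈ univ.filter (fun x => x ∉ S), ∑ y, D x y * ind (x, y) = 0 := by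
      apply Finset.sum_eq_zero
      intro x hx
      apply Finset.sum_eq_zero
      intro y _
      simp [hind, (Finset.mem_filter.1 hx).2]
    rw [h0, add_zero]
    have h1 : univ.filter (fun x => x ∈ S) = S := by ext; simp
    rw [h1]
    apply Finset.sum_congr rfl
    intro x hx
    have h2 : ∀ y, D x y * ind (x, y) = if y ∈ T then D x y else 0 := by
      intro y
      simp [hind, hx]
    simp only [h2]
    rw [← Finset.sum_filter]
    congr 1
    ext; simp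
  set F : V × V → ℝ := fun p => A c p.1 p.2 with hF
  have hsum2 : ∑ p : V × V, D p.1 p.2 * ind p =
      ∑ p : V × V, (E (pr κ') F p - E (pr κ) F p) * ind p := by
    have h1 : ∑ p : V × V, D p.1 p.2 * ind p = ∑ p : V × V, F p * ind p -
        ∑ p : V × V, E (pr κ) F p * ind p := by
      rw [← Finset.sum_sub_distrib]
      apply Finset.sum_congr rfl
      intro p _
      simp only [hD, hF]
      ring
    rw [h1, ← E_mul_measurable (pr κ') F ind hindm, ← Finset.sum_sub_distrib]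
    apply Finset.sum_congr rfl
    intro p _
    ring
  have hcs : (∑ p : V × V, (E (pr κ') F p - E (pr κ) F p) * ind p) ^ 2 ≤
      (∑ p : V × V, (E (pr κ') F p - E (pr κ) F p) ^ 2) * ∑ p : V × V, ind p ^ 2 :=
    Finset.sum_mul_sq_le_sq_mul_sq _ _ _
  have hind2 : ∑ p : V × V, ind p ^ 2 ≤ (Fintype.card V : ℝ) ^ 2 := by
    calc ∑ p : V × V, ind p ^ 2 ≤ ∑ _p : V × V, (1 : ℝ) := by
          apply Finset.sum_le_sum
          intro p _
          simp only [hind]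
          split_ifs <;> norm_num
      _ = (Fintype.card V : ℝ) ^ 2 := by
          simp [Fintype.card_prod, sq]
  have hVr : (0 : ℝ) < (Fintype.card V : ℝ) ^ 2 := by positivity
  have hgain : ε ^ 2 * (Fintype.card V : ℝ) ^ 2 ≤
      ∑ p : V × V, (E (pr κ') F p - E (pr κ) F p) ^ 2 := by
    have h1 : (ε * (Fintype.card V : ℝ) ^ 2) ^ 2 ≤
        (∑ p : V × V, (E (pr κ') F p - E (pr κ) F p) ^ 2) * (Fintype.card V : ℝ) ^ 2 := by
      calc (ε * (Fintype.card V : ℝ) ^ 2) ^ 2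
          ≤ |∑ x ∈ S, ∑ y ∈ T, D x y| ^ 2 := by
            apply pow_le_pow_left₀ (by positivity) hST.le
        _ = (∑ p : V × V, (E (pr κ') F p - E (pr κ) F p) * ind p) ^ 2 := by
            rw [sq_abs, hsum1, hsum2]
        _ ≤ _ := hcs
        _ ≤ _ := by
            apply mul_le_mul_of_nonneg_left hind2
            exact Finset.sum_nonneg fun _ _ => sq_nonneg _
    have h2 : (ε * (Fintype.card V : ℝ) ^ 2) ^ 2 =
        (ε ^ 2 * (Fintype.card V : ℝ) ^ 2) * (Fintype.card V : ℝ) ^ 2 := by ring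
    rw [h2] at h1
    exact le_of_mul_le_mul_right h1 hVr
  rw [← Finset.add_sum_erase univ _ (Finset.mem_univ c),
    ← Finset.add_sum_erase univ (fun c => ∑ p, (E (pr κ') (fun p => A c p.1 p.2) p) ^ 2)
      (Finset.mem_univ c)]
  have hc : ∑ p, (E (pr κ) F p) ^ 2 + ε ^ 2 * (Fintype.card V : ℝ) ^ 2 ≤
      ∑ p, (E (pr κ') F p) ^ 2 := by
    rw [pythagoras (pr κ) (pr κ') href F]
    linarith
  have hothers : ∑ c' ∈ univ.erase c, ∑ p, (E (pr κ) (fun p => A c' p.1 p.2) p) ^ 2 ≤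
      ∑ c' ∈ univ.erase c, ∑ p, (E (pr κ') (fun p => A c' p.1 p.2) p) ^ 2 := by
    apply Finset.sum_le_sum
    intro c' _
    rw [pythagoras (pr κ) (pr κ') href (fun p => A c' p.1 p.2)]
    have : 0 ≤ ∑ p, (E (pr κ') (fun p => A c' p.1 p.2) p - E (pr κ) (fun p => A c' p.1 p.2) p) ^ 2 :=
      Finset.sum_nonneg fun _ _ => sq_nonneg _
    linarith
  linarith

end sets

end Pool.Agent.TH596.J1

namespace Pool.Agent.TH596.J1

open Finset Pool.Agent.TH477.RB

/-- Frieze-Kannan weak regularity, for `r` kernels at once. -/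
theorem weak_regularity (r : ℕ) (ε : ℝ) (hε : 0 < ε) :
    ∃ M : ℕ, ∀ (V : Type) [Fintype V] (A : Fin r → V → V → ℝ),
      (∀ c x y, 0 ≤ A c x y ∧ A c x y ≤ 1) →
      ∃ κ : V → Fin M, ∀ c, ∀ f g : V → ℝ, (∀ x, 0 ≤ f x ∧ f x ≤ 1) → (∀ x, 0 ≤ g x ∧ g x ≤ 1) →
        |∑ x, ∑ y, f x * g y * (A c x y - cellAvg κ (A c) x y)| ≤ ε * (Fintype.card V : ℝ) ^ 2 := by
  classical
  obtain ⟨K, hK⟩ := exists_nat_gt ((r : ℝ) / ε ^ 2)
  refine ⟨4 ^ K, ?_⟩
  intro V _ A hA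
  rcases Nat.eq_zero_or_pos (Fintype.card V) with hV | hV
  · have : IsEmpty V := Fintype.card_eq_zero_iff.1 hV
    refine ⟨fun x => (IsEmpty.false x).elim, ?_⟩
    intro c f g _ _
    simp
  by_contra hcon
  push Not at hcon
  -- no good partition
  have hno : ∀ κ : V → ℕ, (∀ x, κ x < 4 ^ K) → ∃ c, ∃ f g : V → ℝ, (∀ x, 0 ≤ f x ∧ f x ≤ 1) ∧
      (∀ x, 0 ≤ g x ∧ g x ≤ 1) ∧ ε * (Fintype.card V : ℝ) ^ 2 <
        |∑ x, ∑ y, f x * g y * (A c x y - E (pr κ) (fun p => A c p.1 p.2) (x, y))| := by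
    intro κ hκ
    obtain ⟨c, f, g, hf, hg, h⟩ := hcon (fun x => ⟨κ x, hκ x⟩)
    refine ⟨c, f, g, hf, hg, ?_⟩
    simpa only [cellAvg_eq (fun x => (⟨κ x, hκ x⟩ : Fin (4 ^ K))) κ (fun _ => rfl)] using h
  have hit : ∀ i ≤ K, ∃ κ : V → ℕ, (∀ x, κ x < 4 ^ i) ∧
      (i : ℝ) * (ε ^ 2 * (Fintype.card V : ℝ) ^ 2) ≤
        ∑ c, ∑ p, (E (pr κ) (fun p => A c p.1 p.2) p) ^ 2 := by
    intro i
    induction i with
    | zero =>
      intro _
      refine ⟨fun _ => 0, by simp, ?_⟩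
      simp only [Nat.cast_zero, zero_mul]
      exact Finset.sum_nonneg fun _ _ => Finset.sum_nonneg fun _ _ => sq_nonneg _
    | succ i ih =>
      intro hi
      obtain ⟨κ, hκ, hen⟩ := ih (by omega)
      have hκ' : ∀ x, κ x < 4 ^ K := fun x =>
        lt_of_lt_of_le (hκ x) (Nat.pow_le_pow_right (by norm_num) (by omega))
      obtain ⟨κ', h1, h2⟩ := step A ε hε hV (4 ^ i) κ hκ (hno κ hκ')
      refine ⟨κ', fun x => by rw [pow_succ, mul_comm]; exact h1 x, ?_⟩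
      push_cast
      linarith
  obtain ⟨κ, _, hen⟩ := hit K le_rfl
  have hup : ∑ c, ∑ p, (E (pr κ) (fun p => A c p.1 p.2) p) ^ 2 ≤ (r : ℝ) * (Fintype.card V : ℝ) ^ 2 := by
    calc ∑ c, ∑ p, (E (pr κ) (fun p => A c p.1 p.2) p) ^ 2 ≤ ∑ _c : Fin r, ∑ _p : V × V, (1 : ℝ) := by
          apply Finset.sum_le_sum
          intro c _
          apply Finset.sum_le_sum
          intro p _
          have := E_bounds (pr κ) (fun p => A c p.1 p.2) (fun p => hA c p.1 p.2) p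
          nlinarith [this.1, this.2]
      _ = (r : ℝ) * (Fintype.card V : ℝ) ^ 2 := by
          simp [Fintype.card_prod, sq]
  have hVr : (0 : ℝ) < (Fintype.card V : ℝ) ^ 2 := by positivity
  have h1 : (K : ℝ) * ε ^ 2 * (Fintype.card V : ℝ) ^ 2 ≤ (r : ℝ) * (Fintype.card V : ℝ) ^ 2 := by
    calc (K : ℝ) * ε ^ 2 * (Fintype.card V : ℝ) ^ 2 =
        (K : ℝ) * (ε ^ 2 * (Fintype.card V : ℝ) ^ 2) := by ring
      _ ≤ _ := hen.trans hup
  have h2 : (K : ℝ) * ε ^ 2 ≤ r := le_of_mul_le_mul_right h1 hVr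
  have h3 : (r : ℝ) < K * ε ^ 2 := by
    rwa [div_lt_iff₀ (by positivity)] at hK
  linarith

end Pool.Agent.TH596.J1
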