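import Pool.Agent.TH477.RB.Defs

set_option autoImplicit false

namespace Pool.Agent.TH596.J2

open Finset Pool.Agent.TH477.RB

variable {V : Type} [Fintype V]

lemma sum_update {k : ℕ} (G : (Fin k → V) → ℝ) (i : Fin k) :
    ∑ x : Fin k → V, ∑ a, G (Function.update x i a) =
      (Fintype.card V : ℝ) * ∑ x, G x := by
  classical
  have h1 : ∑ x : Fin k → V, ∑ a, G (Function.update x i a) =
      ∑ q : (Fin k → V) × V, G (Function.update q.1 i q.2) := by
    rw [Fintype.sum_prod_type]
  have h2 : ∑ q : (Fin k → V) × V, G q.1 = (Fintype.card V : ℝ) * ∑ x, G x := by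
    rw [Fintype.sum_prod_type]
    simp [Finset.mul_sum]
  rw [h1, ← h2]
  let e : (Fin k → V) × V → (Fin k → V) × V := fun q => (Function.update q.1 i q.2, q.1 i)
  have he : Function.Involutive e := by
    rintro ⟨x, a⟩
    simp [e]
  exact Equiv.sum_comp he.toPerm (fun q => G q.1)

lemma one_step {k : ℕ} (i j : Fin k) (hij : i < j) (U : Fin k × Fin k → V → V → ℝ)
    (hU : ∀ p x y, 0 ≤ U p x y ∧ U p x y ≤ 1) (D : V → V → ℝ) (ε : ℝ)
    (h : ∀ f g : V → ℝ, (∀ x, 0 ≤ f x ∧ f x ≤ 1) → (∀ x, 0 ≤ g x ∧ g x ≤ 1) →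
        |∑ x, ∑ y, f x * g y * D x y| ≤ ε * (Fintype.card V : ℝ) ^ 2) :
    |∑ x : Fin k → V, (∏ p ∈ (univ.filter (fun p : Fin k × Fin k => p.1 < p.2)).erase (i, j),
        U p (x p.1) (x p.2)) * D (x i) (x j)| ≤ ε * (Fintype.card V : ℝ) ^ k := by
  classical
  set Q := (univ.filter (fun p : Fin k × Fin k => p.1 < p.2)).erase (i, j) with hQ
  set G : (Fin k → V) → ℝ := fun x => (∏ p ∈ Q, U p (x p.1) (x p.2)) * D (x i) (x j) with hG
  rcases Nat.eq_zero_or_pos (Fintype.card V) with hV | hV
  · have : IsEmpty V := Fintype.card_eq_zero_iff.1 hV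
    have hk : k ≠ 0 := by
      rintro rfl
      exact i.elim0
    have : IsEmpty (Fin k → V) := ⟨fun f => IsEmpty.false (f i)⟩
    rw [Finset.univ_eq_empty, Finset.sum_empty, hV]
    simp [hk]
  have hVr : (0 : ℝ) < Fintype.card V := by exact_mod_cast hV
  have h1 : (Fintype.card V : ℝ) ^ 2 * ∑ x, G x =
      ∑ x : Fin k → V, ∑ a, ∑ b, G (Function.update (Function.update x i a) j b) := by
    rw [sum_update (fun y => ∑ b, G (Function.update y j b)) i, sum_update G j]
    ring
  have h2 : ∀ x : Fin k → V,
      |∑ a, ∑ b, G (Function.update (Function.update x i a) j b)| ≤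
        ε * (Fintype.card V : ℝ) ^ 2 := by
    intro x
    set f : V → ℝ := fun a => ∏ p ∈ Q.filter (fun p => p.1 = i ∨ p.2 = i),
      U p (Function.update x i a p.1) (Function.update x i a p.2) with hf
    set g : V → ℝ := fun b => ∏ p ∈ Q.filter (fun p => ¬ (p.1 = i ∨ p.2 = i)),
      U p (Function.update x j b p.1) (Function.update x j b p.2) with hg
    have hfb : ∀ a, 0 ≤ f a ∧ f a ≤ 1 := fun a =>
      ⟨Finset.prod_nonneg fun p _ => (hU _ _ _).1, Finset.prod_le_one (fun p _ => (hU _ _ _).1)
        (fun p _ => (hU _ _ _).2)⟩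
    have hgb : ∀ a, 0 ≤ g a ∧ g a ≤ 1 := fun a =>
      ⟨Finset.prod_nonneg fun p _ => (hU _ _ _).1, Finset.prod_le_one (fun p _ => (hU _ _ _).1)
        (fun p _ => (hU _ _ _).2)⟩
    have key : ∀ a b, G (Function.update (Function.update x i a) j b) = f a * g b * D a b := by
      intro a b
      have hne : i ≠ j := ne_of_lt hij
      simp only [hG]
      rw [← Finset.prod_filter_mul_prod_filter_not Q (fun p => p.1 = i ∨ p.2 = i)]
      congr 1
      · congr 1
        · simp only [hf]
          apply Finset.prod_congr rfl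
          intro p hp
          rw [Finset.mem_filter, hQ, Finset.mem_erase, Finset.mem_filter] at hp
          obtain ⟨⟨hp1, _, hp2⟩, hp3⟩ := hp
          have hj1 : p.1 ≠ j := by
            intro e
            rcases hp3 with e2 | e2
            · exact hne (e2 ▸ e)
            · rw [e, e2] at hp2
              exact absurd hp2 (not_lt.2 hij.le)
          have hj2 : p.2 ≠ j := by
            intro e
            rcases hp3 with e2 | e2
            · exact hp1 (Prod.ext e2 e)
            · exact hne (e2 ▸ e)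
          rw [Function.update_of_ne hj1, Function.update_of_ne hj2]
        · simp only [hg]
          apply Finset.prod_congr rfl
          intro p hp
          rw [Finset.mem_filter] at hp
          obtain ⟨_, hp3⟩ := hp
          push Not at hp3
          have e1 : ∀ q : Fin k, q ≠ i → Function.update (Function.update x i a) j b q =
              Function.update x j b q := by
            intro q hq
            by_cases hqj : q = j
            · subst hqj; simp
            · rw [Function.update_of_ne hqj, Function.update_of_ne hq, Function.update_of_ne hqj]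
          rw [e1 _ hp3.1, e1 _ hp3.2]
      · rw [Function.update_of_ne hne, Function.update_self, Function.update_self]
    simp only [key]
    exact h f g hfb hgb
  have h3 : (Fintype.card V : ℝ) ^ 2 * |∑ x, G x| ≤
      (Fintype.card V : ℝ) ^ 2 * (ε * (Fintype.card V : ℝ) ^ k) := by
    calc (Fintype.card V : ℝ) ^ 2 * |∑ x, G x| = |(Fintype.card V : ℝ) ^ 2 * ∑ x, G x| := by
          rw [abs_mul, abs_of_nonneg (by positivity : (0 : ℝ) ≤ (Fintype.card V : ℝ) ^ 2)]
      _ ≤ ∑ x : Fin k → V, |∑ a, ∑ b, G (Function.update (Function.update x i a) j b)| := by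
          rw [h1]
          exact Finset.abs_sum_le_sum_abs _ _
      _ ≤ ∑ _x : Fin k → V, ε * (Fintype.card V : ℝ) ^ 2 := Finset.sum_le_sum fun x _ => h2 x
      _ = (Fintype.card V : ℝ) ^ 2 * (ε * (Fintype.card V : ℝ) ^ k) := by
          simp
          ring
  exact le_of_mul_le_mul_left h3 (by positivity)

/-- Counting lemma for complete `k`-partite patterns in the cut norm. -/
theorem counting (k : ℕ) (W W' : Fin k → Fin k → V → V → ℝ)
    (hW : ∀ i j x y, 0 ≤ W i j x y ∧ W i j x y ≤ 1)
    (hW' : ∀ i j x y, 0 ≤ W' i j x y ∧ W' i j x y ≤ 1) (ε : ℝ)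
    (h : ∀ i j, ∀ f g : V → ℝ, (∀ x, 0 ≤ f x ∧ f x ≤ 1) → (∀ x, 0 ≤ g x ∧ g x ≤ 1) →
        |∑ x, ∑ y, f x * g y * (W i j x y - W' i j x y)| ≤ ε * (Fintype.card V : ℝ) ^ 2) :
    |∑ x : Fin k → V, ∏ p ∈ univ.filter (fun p : Fin k × Fin k => p.1 < p.2),
        W p.1 p.2 (x p.1) (x p.2)
      - ∑ x : Fin k → V, ∏ p ∈ univ.filter (fun p : Fin k × Fin k => p.1 < p.2),
        W' p.1 p.2 (x p.1) (x p.2)|
      ≤ (k.choose 2 : ℝ) * ε * (Fintype.card V : ℝ) ^ k := by
  classical
  set Q := univ.filter (fun p : Fin k × Fin k => p.1 < p.2) with hQ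
  have hcard : Q.card = k.choose 2 := by
    rw [hQ, Finset.card_filter, Fintype.sum_prod_type_right]
    have h1 : ∀ j : Fin k, ∑ i : Fin k, (if i < j then 1 else 0) = (j : ℕ) := by
      intro j
      rw [← Finset.card_filter]
      have : univ.filter (fun i : Fin k => i < j) = Finset.Iio j := by ext; simp
      rw [this, Fin.card_Iio]
    simp only [h1]
    rw [Fin.sum_univ_eq_sum_range (fun i => i) k, Finset.sum_range_id, Nat.choose_two_right]
  have key : ∀ P : Finset (Fin k × Fin k), P ⊆ Q →
      |∑ x : Fin k → V, ∏ p ∈ Q, (if p ∈ P then W' else W) p.1 p.2 (x p.1) (x p.2) -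
        ∑ x : Fin k → V, ∏ p ∈ Q, W p.1 p.2 (x p.1) (x p.2)| ≤
        (P.card : ℝ) * ε * (Fintype.card V : ℝ) ^ k := by
    intro P
    induction P using Finset.induction_on with
    | empty => intro _; simp
    | insert a P ha ih =>
      intro hP
      have haQ : a ∈ Q := hP (Finset.mem_insert_self _ _)
      have hPQ : P ⊆ Q := (Finset.subset_insert _ _).trans hP
      have ih' := ih hPQ
      obtain ⟨i, j⟩ := a
      have hij : i < j := by
        rw [hQ, Finset.mem_filter] at haQ
        exact haQ.2
      have hstep := one_step i j hij (fun p => (if p ∈ P then W' else W) p.1 p.2)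
        (by
          intro p x y
          split_ifs
          · exact hW' _ _ _ _
          · exact hW _ _ _ _) (fun x y => W i j x y - W' i j x y) ε (h i j)
      rw [← hQ] at hstep
      have hdiff : ∑ x : Fin k → V, (∏ p ∈ Q.erase (i, j),
          (if p ∈ P then W' else W) p.1 p.2 (x p.1) (x p.2)) *
            (W i j (x i) (x j) - W' i j (x i) (x j)) =
          ∑ x : Fin k → V, ∏ p ∈ Q, (if p ∈ P then W' else W) p.1 p.2 (x p.1) (x p.2) -
          ∑ x : Fin k → V, ∏ p ∈ Q, (if p ∈ insert (i, j) P then W' else W) p.1 p.2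
            (x p.1) (x p.2) := by
        rw [← Finset.sum_sub_distrib]
        apply Finset.sum_congr rfl
        intro x _
        rw [← Finset.prod_erase_mul Q _ haQ, ← Finset.prod_erase_mul Q
          (fun p => (if p ∈ insert (i, j) P then W' else W) p.1 p.2 (x p.1) (x p.2)) haQ]
        have e1 : ∏ p ∈ Q.erase (i, j), (if p ∈ insert (i, j) P then W' else W) p.1 p.2
            (x p.1) (x p.2) = ∏ p ∈ Q.erase (i, j), (if p ∈ P then W' else W) p.1 p.2
            (x p.1) (x p.2) := by
          apply Finset.prod_congr rfl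
          intro p hp
          have hne : p ≠ (i, j) := (Finset.mem_erase.1 hp).1
          have : p ∈ insert (i, j) P ↔ p ∈ P := by simp [hne]
          simp only [this]
        rw [e1]
        simp only [ha, Finset.mem_insert_self, if_true, if_false]
        ring
      rw [hdiff] at hstep
      rw [Finset.card_insert_of_notMem ha]
      push_cast
      rw [abs_le] at hstep ih' ⊢
      constructor <;> nlinarith [hstep.1, hstep.2, ih'.1, ih'.2]
  have hfin := key Q (Finset.Subset.refl _)
  have e2 : ∑ x : Fin k → V, ∏ p ∈ Q, (if p ∈ Q then W' else W) p.1 p.2 (x p.1) (x p.2) =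
      ∑ x : Fin k → V, ∏ p ∈ Q, W' p.1 p.2 (x p.1) (x p.2) := by
    apply Finset.sum_congr rfl
    intro x _
    apply Finset.prod_congr rfl
    intro p hp
    simp only [hp, if_true]
  rw [e2, hcard] at hfin
  rw [abs_sub_comm]
  exact hfin

end Pool.Agent.TH596.J2
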