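import Pool.Agent.TH444.DC.Defs

set_option autoImplicit false

/-!
# Job 35: sparse random graphs without short cycles and with small independence number
-/

namespace Pool.Agent.TH596.J35

open Pool.Agent.TH444.DC Finset

/-- counting functions with prescribed ranges on a finite set of coordinates -/
lemma cnt {ι : Type} [Fintype ι] [DecidableEq ι] {N : ℕ} (S : Finset ι) (A : Finset (Fin N)) :
    ((univ.filter (fun w : ι → Fin N => ∀ e ∈ S, w e ∈ A)).card) * N ^ S.card
      = A.card ^ S.card * N ^ (Fintype.card ι) := by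
  classical
  have h : (univ.filter (fun w : ι → Fin N => ∀ e ∈ S, w e ∈ A))
      = Fintype.piFinset (fun e => if e ∈ S then A else univ) := by
    ext w
    simp only [mem_filter, mem_univ, true_and, Fintype.mem_piFinset]
    constructor
    · intro h e
      by_cases he : e ∈ S
      · simp [he, h e he]
      · simp [he]
    · intro h e he
      have := h e
      simpa [he] using this
  rw [h, Fintype.card_piFinset]
  have h2 : ∀ e : ι, (if e ∈ S then A else (univ : Finset (Fin N))).card
      = if e ∈ S then A.card else N := by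
    intro e; split_ifs <;> simp
  simp_rw [h2]
  rw [Finset.prod_ite]
  simp only [Finset.prod_const]
  have h3 : (univ.filter (fun e : ι => e ∈ S)) = S := by ext; simp
  have h4 : (univ.filter (fun e : ι => e ∉ S)).card + S.card = Fintype.card ι := by
    have := Finset.card_filter_add_card_filter_not (s := (univ : Finset ι)) (fun e => e ∈ S)
    rw [h3] at this
    rw [Finset.card_univ] at this
    omega
  rw [h3, mul_assoc, ← pow_add, h4]

/-- the random graph -/
def Gw {n N : ℕ} (w : Sym2 (Fin n) → Fin N) : SimpleGraph (Fin n) where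
  Adj x y := x ≠ y ∧ (w s(x, y)).val = 0
  symm := ⟨fun x y h => ⟨h.1.symm, by rw [Sym2.eq_swap]; exact h.2⟩⟩
  loopless := ⟨fun x h => h.1 rfl⟩

/-- zero element -/
def Z0 (N : ℕ) : Finset (Fin N) := univ.filter (fun i => i.val = 0)

lemma card_Z0 {N : ℕ} (hN : 0 < N) : (Z0 N).card = 1 := by
  rw [Finset.card_eq_one]
  refine ⟨⟨0, hN⟩, ?_⟩
  ext i
  simp [Z0, Fin.ext_iff]

lemma card_Z0c {N : ℕ} (hN : 0 < N) : ((Z0 N)ᶜ).card = N - 1 := by
  rw [Finset.card_compl, card_Z0 hN, Fintype.card_fin]

/-- Markov's inequality for counting -/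
lemma markov {Ω : Type} [Fintype Ω] (f : Ω → ℕ) (K T : ℕ) (h : ∑ w, f w ≤ K * T) (r : ℕ) :
    (univ.filter (fun w => r * K < f w)).card * (r * K + 1) ≤ K * T := by
  classical
  calc (univ.filter (fun w => r * K < f w)).card * (r * K + 1)
      = ∑ w ∈ univ.filter (fun w => r * K < f w), (r * K + 1) := by
        rw [Finset.sum_const, smul_eq_mul]
    _ ≤ ∑ w ∈ univ.filter (fun w => r * K < f w), f w := by
        apply Finset.sum_le_sum
        intro w hw
        rw [mem_filter] at hw
        omega
    _ ≤ ∑ w, f w := Finset.sum_le_sum_of_subset (Finset.filter_subset _ _)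
    _ ≤ K * T := h

lemma markov' {Ω : Type} [Fintype Ω] (f : Ω → ℕ) (K T : ℕ) (hK : 0 < K)
    (h : ∑ w, f w ≤ K * T) : 8 * (univ.filter (fun w => 8 * K < f w)).card ≤ T := by
  have := markov f K T h 8
  have h2 : (univ.filter (fun w => 8 * K < f w)).card * (8 * K) ≤ K * T := by nlinarith
  have h3 : K * (8 * (univ.filter (fun w => 8 * K < f w)).card) ≤ K * T := by nlinarith
  exact Nat.le_of_mul_le_mul_left h3 hK

section counts

variable {n N : ℕ}

open Classical in
/-- number of ordered adjacent pairs -/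
noncomputable def D (w : Sym2 (Fin n) → Fin N) : ℕ :=
  (univ.filter (fun p : Fin n × Fin n => (Gw w).Adj p.1 p.2)).card

open Classical in
lemma sum_D (hN : 0 < N) :
    N * ∑ w : Sym2 (Fin n) → Fin N, D w ≤ n ^ 2 * N ^ (Fintype.card (Sym2 (Fin n))) := by
  have h1 : ∑ w : Sym2 (Fin n) → Fin N, D w
      = ∑ p : Fin n × Fin n, (univ.filter (fun w : Sym2 (Fin n) → Fin N =>
          (Gw w).Adj p.1 p.2)).card := by
    unfold D
    simp_rw [Finset.card_filter]
    exact Finset.sum_comm
  rw [h1, Finset.mul_sum]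
  calc ∑ p : Fin n × Fin n, N * (univ.filter (fun w : Sym2 (Fin n) → Fin N =>
          (Gw w).Adj p.1 p.2)).card
      ≤ ∑ p : Fin n × Fin n, N ^ (Fintype.card (Sym2 (Fin n))) := by
        apply Finset.sum_le_sum
        intro p _
        have h2 := cnt (N := N) ({s(p.1, p.2)} : Finset (Sym2 (Fin n))) (Z0 N)
        rw [card_Z0 hN] at h2
        simp only [Finset.card_singleton, pow_one, one_mul] at h2
        rw [← h2, mul_comm]
        apply Nat.mul_le_mul_right
        apply Finset.card_le_card
        intro w hw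
        rw [mem_filter] at hw ⊢
        refine ⟨mem_univ _, fun e he => ?_⟩
        rw [Finset.mem_singleton] at he
        subst he
        simp only [Z0, mem_filter, mem_univ, true_and]
        exact hw.2.2
    _ = n ^ 2 * N ^ (Fintype.card (Sym2 (Fin n))) := by
        rw [Finset.sum_const, Finset.card_univ, smul_eq_mul, Fintype.card_prod, Fintype.card_fin]
        ring

open Classical in
/-- number of injective closed sequences of length `k + 3` -/
noncomputable def Zk (k : ℕ) (w : Sym2 (Fin n) → Fin N) : ℕ :=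
  (univ.filter (fun f : Fin (k + 3) → Fin n => Function.Injective f ∧
    ∀ i, (Gw w).Adj (f i) (f (i + 1)))).card

lemma edge_inj {k : ℕ} {f : Fin (k + 3) → Fin n} (hf : Function.Injective f) :
    Function.Injective (fun i : Fin (k + 3) => s(f i, f (i + 1))) := by
  intro i j hij
  simp only [Sym2.eq_iff] at hij
  rcases hij with h | h
  · exact hf h.1
  · exfalso
    have h1 := hf h.1
    have h2 := hf h.2
    rw [h1] at h2
    have h3 : (1 : Fin (k + 3)) + 1 = 0 := by
      have : j + (1 + 1) = j + 0 := by rw [← add_assoc, h2, add_zero]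
      exact add_left_cancel this
    have h5 : ((1 : Fin (k + 3)) : ℕ) = 1 := by
      rw [Fin.val_one']
      exact Nat.mod_eq_of_lt (by omega)
    have h4 := congrArg Fin.val h3
    rw [Fin.val_add, h5, Nat.mod_eq_of_lt (by omega : 1 + 1 < k + 3)] at h4
    simp at h4

open Classical in
lemma sum_Zk (hN : 0 < N) (k : ℕ) :
    N ^ (k + 3) * ∑ w : Sym2 (Fin n) → Fin N, Zk k w
      ≤ n ^ (k + 3) * N ^ (Fintype.card (Sym2 (Fin n))) := by
  have h1 : ∑ w : Sym2 (Fin n) → Fin N, Zk k w
      = ∑ f : Fin (k + 3) → Fin n, (univ.filter (fun w : Sym2 (Fin n) → Fin N =>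
          Function.Injective f ∧ ∀ i, (Gw w).Adj (f i) (f (i + 1)))).card := by
    unfold Zk
    simp_rw [Finset.card_filter]
    exact Finset.sum_comm
  rw [h1, Finset.mul_sum]
  calc ∑ f : Fin (k + 3) → Fin n, N ^ (k + 3) * (univ.filter (fun w : Sym2 (Fin n) → Fin N =>
          Function.Injective f ∧ ∀ i, (Gw w).Adj (f i) (f (i + 1)))).card
      ≤ ∑ f : Fin (k + 3) → Fin n, N ^ (Fintype.card (Sym2 (Fin n))) := by
        apply Finset.sum_le_sum
        intro f _
        by_cases hf : Function.Injective f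
        · have h2 := cnt (N := N) (univ.image (fun i : Fin (k + 3) => s(f i, f (i + 1)))) (Z0 N)
          rw [card_Z0 hN, Finset.card_image_of_injective _ (edge_inj hf), Finset.card_univ,
            Fintype.card_fin, one_pow, one_mul] at h2
          rw [← h2, mul_comm]
          apply Nat.mul_le_mul_right
          apply Finset.card_le_card
          intro w hw
          rw [mem_filter] at hw ⊢
          refine ⟨mem_univ _, fun e he => ?_⟩
          rw [Finset.mem_image] at he
          obtain ⟨i, _, rfl⟩ := he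
          simp only [Z0, mem_filter, mem_univ, true_and]
          exact (hw.2.2 i).2
        · rw [Finset.filter_false_of_mem]
          · simp
          · intro w _ h
            exact hf h.1
    _ = n ^ (k + 3) * N ^ (Fintype.card (Sym2 (Fin n))) := by
        rw [Finset.sum_const, Finset.card_univ, smul_eq_mul, Fintype.card_fun, Fintype.card_fin,
          Fintype.card_fin]

open Classical in
/-- number of graphs with an independent set of size `a` -/
lemma indep_count (hN : 0 < N) (a : ℕ) :
    (univ.filter (fun w : Sym2 (Fin n) → Fin N => ∃ A : Finset (Fin n), A.card = a ∧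
      ∀ x ∈ A, ∀ y ∈ A, ¬ (Gw w).Adj x y)).card * N ^ (a.choose 2)
      ≤ n.choose a * ((N - 1) ^ (a.choose 2) * N ^ (Fintype.card (Sym2 (Fin n)))) := by
  have h1 : (univ.filter (fun w : Sym2 (Fin n) → Fin N => ∃ A : Finset (Fin n), A.card = a ∧
      ∀ x ∈ A, ∀ y ∈ A, ¬ (Gw w).Adj x y)) ⊆
      (Finset.powersetCard a (univ : Finset (Fin n))).biUnion (fun A =>
        univ.filter (fun w : Sym2 (Fin n) → Fin N => ∀ e ∈ A.offDiag.image
          (Function.uncurry Sym2.mk), w e ∈ (Z0 N)ᶜ)) := by
    intro w hw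
    rw [mem_filter] at hw
    obtain ⟨_, A, hA, hind⟩ := hw
    rw [Finset.mem_biUnion]
    refine ⟨A, by rw [Finset.mem_powersetCard]; exact ⟨Finset.subset_univ _, hA⟩, ?_⟩
    rw [mem_filter]
    refine ⟨mem_univ _, fun e he => ?_⟩
    rw [Finset.mem_image] at he
    obtain ⟨p, hp, rfl⟩ := he
    rw [Finset.mem_offDiag] at hp
    rw [Finset.mem_compl]
    intro hz
    apply hind p.1 hp.1 p.2 hp.2.1
    refine ⟨hp.2.2, ?_⟩
    have h3 : Function.uncurry Sym2.mk p = s(p.1, p.2) := rfl
    rw [h3] at hz
    simpa [Z0] using hz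
  calc _ ≤ (∑ A ∈ Finset.powersetCard a (univ : Finset (Fin n)),
        (univ.filter (fun w : Sym2 (Fin n) → Fin N => ∀ e ∈ A.offDiag.image
          (Function.uncurry Sym2.mk), w e ∈ (Z0 N)ᶜ)).card) * N ^ (a.choose 2) := by
        apply Nat.mul_le_mul_right
        exact (Finset.card_le_card h1).trans Finset.card_biUnion_le
    _ = ∑ A ∈ Finset.powersetCard a (univ : Finset (Fin n)),
        ((N - 1) ^ (a.choose 2) * N ^ (Fintype.card (Sym2 (Fin n)))) := by
        rw [Finset.sum_mul]
        apply Finset.sum_congr rfl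
        intro A hA
        rw [Finset.mem_powersetCard] at hA
        have h2 := cnt (N := N) (A.offDiag.image (Function.uncurry Sym2.mk)) (Z0 N)ᶜ
        rw [Sym2.card_image_offDiag, hA.2, card_Z0c hN] at h2
        exact h2
    _ = n.choose a * ((N - 1) ^ (a.choose 2) * N ^ (Fintype.card (Sym2 (Fin n)))) := by
        rw [Finset.sum_const, Finset.card_powersetCard, Finset.card_univ, Fintype.card_fin,
          smul_eq_mul]

end counts

/-- the first moment estimate for independent sets -/
lemma real_est (q N a : ℕ) (hq : 1 ≤ Real.log q) (hN : 1 ≤ N)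
    (ha : (4 * Real.log q + 16) * N ≤ a) :
    ((q * N).choose a : ℝ) * (((N : ℝ) - 1) / N) ^ (a.choose 2) ≤ 1 / 2 := by
  have hN' : (1 : ℝ) ≤ N := by exact_mod_cast hN
  have hq0 : (0 : ℝ) < q := by
    rcases Nat.eq_zero_or_pos q with h | h
    · subst h; simp at hq; linarith
    · exact_mod_cast h
  have haN : (N : ℝ) ≤ a := by nlinarith
  have ha1 : (1 : ℝ) ≤ a := by linarith
  have ha0 : (0 : ℝ) < a := by linarith
  have h1 : ((q * N).choose a : ℝ) ≤ Real.exp (a * (1 + Real.log q)) := by
    calc ((q * N).choose a : ℝ) ≤ ((q * N : ℕ) : ℝ) ^ a / (a.factorial : ℝ) :=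
          Nat.choose_le_pow_div a (q * N)
      _ ≤ (q * a : ℝ) ^ a / (a.factorial : ℝ) := by
          apply div_le_div_of_nonneg_right _ (by positivity)
          apply pow_le_pow_left₀ (by positivity)
          push_cast
          nlinarith
      _ = (q : ℝ) ^ a * ((a : ℝ) ^ a / (a.factorial : ℝ)) := by rw [mul_pow, mul_div_assoc]
      _ ≤ (q : ℝ) ^ a * Real.exp a := by
          apply mul_le_mul_of_nonneg_left _ (by positivity)
          exact Real.pow_div_factorial_le_exp _ ha0.le _
      _ = Real.exp (a * (1 + Real.log q)) := by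
          have h0 : Real.exp ((a : ℝ) * Real.log q) = (q : ℝ) ^ a := by
            rw [Real.exp_nat_mul, Real.exp_log hq0]
          rw [mul_add, mul_one, Real.exp_add, h0, mul_comm]
  have h2 : (((N : ℝ) - 1) / N) ^ (a.choose 2) ≤ Real.exp (-(a * (2 * Real.log q + 15 / 2))) := by
    have h3 : ((N : ℝ) - 1) / N ≤ Real.exp (-(1 / N)) := by
      have := Real.one_sub_le_exp_neg (1 / (N : ℝ))
      have h4 : ((N : ℝ) - 1) / N = 1 - 1 / N := by field_simp
      rw [h4]; exact this
    have h5 : 0 ≤ ((N : ℝ) - 1) / N := div_nonneg (by linarith) (by linarith)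
    calc (((N : ℝ) - 1) / N) ^ (a.choose 2) ≤ (Real.exp (-(1 / N))) ^ (a.choose 2) :=
          pow_le_pow_left₀ h5 h3 _
      _ = Real.exp (-((a.choose 2 : ℕ) / N)) := by
          rw [← Real.exp_nat_mul]; congr 1; ring
      _ ≤ Real.exp (-(a * (2 * Real.log q + 15 / 2))) := by
          apply Real.exp_le_exp.mpr
          apply neg_le_neg
          rw [Nat.cast_choose_two, le_div_iff₀ (by linarith)]
          have h6 : (2 * Real.log q + 15 / 2) * N ≤ ((a : ℝ) - 1) / 2 := by nlinarith
          calc (a : ℝ) * (2 * Real.log q + 15 / 2) * N = a * ((2 * Real.log q + 15 / 2) * N) := by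
                ring
            _ ≤ a * (((a : ℝ) - 1) / 2) := mul_le_mul_of_nonneg_left h6 ha0.le
            _ = a * (a - 1) / 2 := by ring
  calc ((q * N).choose a : ℝ) * (((N : ℝ) - 1) / N) ^ (a.choose 2)
      ≤ Real.exp (a * (1 + Real.log q)) * Real.exp (-(a * (2 * Real.log q + 15 / 2))) := by
        apply mul_le_mul h1 h2 _ (Real.exp_pos _).le
        exact pow_nonneg (div_nonneg (by linarith) (by linarith)) _
    _ = Real.exp (-(a * (Real.log q + 13 / 2))) := by rw [← Real.exp_add]; congr 1; ring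
    _ ≤ Real.exp (-1) := by
        apply Real.exp_le_exp.mpr
        nlinarith
    _ ≤ 1 / 2 := by
        rw [Real.exp_neg, one_div]
        apply inv_anti₀ (by norm_num)
        have := Real.add_one_le_exp (1 : ℝ)
        linarith

open Classical in
/-- the good graph -/
lemma exists_good (q g N a : ℕ) (hq : 1 ≤ Real.log q) (hN : 1 ≤ N)
    (ha : (4 * Real.log q + 16) * N ≤ a) :
    ∃ w : Sym2 (Fin (q * N)) → Fin N, D w ≤ 8 * (q * N * q) ∧
      (∑ k ∈ range g, Zk k w) ≤ 8 * ((g + 1) * q ^ (g + 3)) ∧
      ¬ ∃ A : Finset (Fin (q * N)), A.card = a ∧ ∀ x ∈ A, ∀ y ∈ A, ¬ (Gw w).Adj x y := by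
  have hq1 : 1 ≤ q := by
    rcases Nat.eq_zero_or_pos q with h | h
    · subst h; simp at hq; linarith
    · exact h
  set T := N ^ (Fintype.card (Sym2 (Fin (q * N)))) with hT
  have hTpos : 0 < T := by rw [hT]; positivity
  have hcard : Fintype.card (Sym2 (Fin (q * N)) → Fin N) = T := by
    rw [Fintype.card_fun, Fintype.card_fin]
  have e1 : ∑ w : Sym2 (Fin (q * N)) → Fin N, D w ≤ (q * N * q) * T := by
    have h := sum_D (n := q * N) (N := N) (by omega)
    have h2 : N * ∑ w : Sym2 (Fin (q * N)) → Fin N, D w ≤ N * ((q * N * q) * T) := by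
      calc _ ≤ _ := h
        _ = N * ((q * N * q) * T) := by rw [← hT]; ring
    exact Nat.le_of_mul_le_mul_left h2 (by omega)
  have b1 := markov' (fun w : Sym2 (Fin (q * N)) → Fin N => D w) (q * N * q) T (by positivity) e1
  have e2 : ∑ w : Sym2 (Fin (q * N)) → Fin N, (∑ k ∈ range g, Zk k w)
      ≤ ((g + 1) * q ^ (g + 3)) * T := by
    rw [Finset.sum_comm]
    have h3 : ∀ k ∈ range g, ∑ w : Sym2 (Fin (q * N)) → Fin N, Zk k w ≤ q ^ (g + 3) * T := by
      intro k hk
      rw [Finset.mem_range] at hk
      have h := sum_Zk (n := q * N) (N := N) (by omega) k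
      have h2 : N ^ (k + 3) * ∑ w : Sym2 (Fin (q * N)) → Fin N, Zk k w
          ≤ N ^ (k + 3) * (q ^ (k + 3) * T) := by
        calc _ ≤ _ := h
          _ = N ^ (k + 3) * (q ^ (k + 3) * T) := by rw [← hT, mul_pow]; ring
      have h4 := Nat.le_of_mul_le_mul_left h2 (by positivity)
      refine h4.trans (Nat.mul_le_mul_right _ ?_)
      exact Nat.pow_le_pow_right hq1 (by omega)
    calc _ ≤ ∑ k ∈ range g, q ^ (g + 3) * T := Finset.sum_le_sum h3
      _ = g * (q ^ (g + 3) * T) := by rw [Finset.sum_const, Finset.card_range, smul_eq_mul]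
      _ ≤ ((g + 1) * q ^ (g + 3)) * T := by
          rw [mul_assoc]
          exact Nat.mul_le_mul_right _ (by omega)
  have b2 := markov' (fun w : Sym2 (Fin (q * N)) → Fin N => ∑ k ∈ range g, Zk k w)
    ((g + 1) * q ^ (g + 3)) T (by positivity) e2
  have b3 : 2 * (univ.filter (fun w : Sym2 (Fin (q * N)) → Fin N =>
      ∃ A : Finset (Fin (q * N)), A.card = a ∧ ∀ x ∈ A, ∀ y ∈ A, ¬ (Gw w).Adj x y)).card ≤ T := by
    have h := indep_count (n := q * N) (N := N) (by omega) a
    have h2 := real_est q N a hq hN ha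
    set B := (univ.filter (fun w : Sym2 (Fin (q * N)) → Fin N =>
      ∃ A : Finset (Fin (q * N)), A.card = a ∧ ∀ x ∈ A, ∀ y ∈ A, ¬ (Gw w).Adj x y)).card with hB
    rw [← hT] at h
    have h3 : (B : ℝ) * (N : ℝ) ^ (a.choose 2)
        ≤ ((q * N).choose a : ℝ) * (((N : ℝ) - 1) ^ (a.choose 2) * (T : ℝ)) := by
      have h4 : ((B * N ^ (a.choose 2) : ℕ) : ℝ)
          ≤ (((q * N).choose a * ((N - 1) ^ (a.choose 2) * T) : ℕ) : ℝ) := by exact_mod_cast h
      rw [Nat.cast_mul, Nat.cast_mul, Nat.cast_mul, Nat.cast_pow, Nat.cast_pow,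
        Nat.cast_sub hN, Nat.cast_one] at h4
      exact h4
    have hNpos : (0 : ℝ) < (N : ℝ) ^ (a.choose 2) := by
      have : (0 : ℝ) < N := by exact_mod_cast hN
      positivity
    have h5 : (B : ℝ) ≤ (((q * N).choose a : ℝ) * (((N : ℝ) - 1) / N) ^ (a.choose 2)) * T := by
      rw [div_pow]
      have : (((q * N).choose a : ℝ) * (((N : ℝ) - 1) ^ (a.choose 2) / (N : ℝ) ^ (a.choose 2))) * T
          = ((q * N).choose a : ℝ) * (((N : ℝ) - 1) ^ (a.choose 2) * (T : ℝ))
            / (N : ℝ) ^ (a.choose 2) := by ring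
      rw [this, le_div_iff₀ hNpos]
      exact h3
    have h6 : (B : ℝ) ≤ 1 / 2 * T :=
      h5.trans (mul_le_mul_of_nonneg_right h2 (by positivity))
    have h7 : ((2 * B : ℕ) : ℝ) ≤ (T : ℝ) := by push_cast; linarith
    exact_mod_cast h7
  by_contra hcon
  push Not at hcon
  have hcov : (univ : Finset (Sym2 (Fin (q * N)) → Fin N)) ⊆
      (univ.filter (fun w => 8 * (q * N * q) < D w) ∪
        univ.filter (fun w => 8 * ((g + 1) * q ^ (g + 3)) < ∑ k ∈ range g, Zk k w)) ∪
      (univ.filter (fun w : Sym2 (Fin (q * N)) → Fin N =>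
      ∃ A : Finset (Fin (q * N)), A.card = a ∧ ∀ x ∈ A, ∀ y ∈ A, ¬ (Gw w).Adj x y)) := by
    intro w _
    rw [mem_union, mem_union, mem_filter, mem_filter, mem_filter]
    by_cases h1 : D w ≤ 8 * (q * N * q)
    · by_cases h2 : (∑ k ∈ range g, Zk k w) ≤ 8 * ((g + 1) * q ^ (g + 3))
      · right
        exact ⟨mem_univ _, hcon w h1 h2⟩
      · left; right
        exact ⟨mem_univ _, by omega⟩
    · left; left
      exact ⟨mem_univ _, by omega⟩
  have h8 := Finset.card_le_card hcov
  rw [Finset.card_univ, hcard] at h8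
  have h9 := Finset.card_union_le (univ.filter (fun w => 8 * (q * N * q) < D w) ∪
        univ.filter (fun w => 8 * ((g + 1) * q ^ (g + 3)) < ∑ k ∈ range g, Zk k w))
      (univ.filter (fun w : Sym2 (Fin (q * N)) → Fin N =>
      ∃ A : Finset (Fin (q * N)), A.card = a ∧ ∀ x ∈ A, ∀ y ∈ A, ¬ (Gw w).Adj x y))
  have h10 := Finset.card_union_le
    (univ.filter (fun w : Sym2 (Fin (q * N)) → Fin N => 8 * (q * N * q) < D w))
    (univ.filter (fun w => 8 * ((g + 1) * q ^ (g + 3)) < ∑ k ∈ range g, Zk k w))
  omega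

section final

variable {n N : ℕ}

open Classical in
/-- few vertices of large degree -/
lemma few_large (w : Sym2 (Fin n) → Fin N) (q : ℕ) (hq : 0 < q) (hD : D w ≤ 8 * (n * q)) :
    4 * (univ.filter (fun x : Fin n => 32 * q < ((Gw w).neighborSet x).ncard)).card ≤ n := by
  set B := univ.filter (fun x : Fin n => 32 * q < ((Gw w).neighborSet x).ncard) with hB
  have h1 : B.card * (32 * q) ≤ D w := by
    have h2 : D w = ∑ x : Fin n, ((Gw w).neighborSet x).ncard := by
      unfold D
      rw [Finset.card_filter, Fintype.sum_prod_type]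
      apply Finset.sum_congr rfl
      intro x _
      rw [← Finset.card_filter, ← Set.ncard_coe_finset]
      congr 1
      ext y
      simp
    rw [h2]
    calc B.card * (32 * q) = ∑ x ∈ B, 32 * q := by rw [Finset.sum_const, smul_eq_mul]
      _ ≤ ∑ x ∈ B, ((Gw w).neighborSet x).ncard := by
          apply Finset.sum_le_sum
          intro x hx
          rw [hB, mem_filter] at hx
          exact hx.2.le
      _ ≤ ∑ x, ((Gw w).neighborSet x).ncard :=
          Finset.sum_le_sum_of_subset (Finset.subset_univ _)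
  have h3 : (8 * q) * (4 * B.card) ≤ (8 * q) * n := by nlinarith
  exact Nat.le_of_mul_le_mul_left h3 (by omega)

open Classical in
/-- few vertices on short cycles -/
lemma few_cyc (w : Sym2 (Fin n) → Fin N) (g : ℕ) :
    (univ.filter (fun x : Fin n => ∃ p : (Gw w).Walk x x, p.IsCycle ∧ p.length < g)).card
      ≤ ∑ k ∈ range g, Zk k w := by
  have h1 : univ.filter (fun x : Fin n => ∃ p : (Gw w).Walk x x, p.IsCycle ∧ p.length < g) ⊆
      (range g).biUnion (fun k => (univ.filter (fun f : Fin (k + 3) → Fin n =>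
        Function.Injective f ∧ ∀ i, (Gw w).Adj (f i) (f (i + 1)))).image (fun f => f 0)) := by
    intro x hx
    rw [mem_filter] at hx
    obtain ⟨_, p, hp, hl⟩ := hx
    have h3 : 3 ≤ p.length := hp.isCircuit.three_le_length
    rw [Finset.mem_biUnion]
    refine ⟨p.length - 3, by rw [Finset.mem_range]; omega, ?_⟩
    rw [Finset.mem_image]
    have hlen : p.length - 3 + 3 = p.length := by omega
    refine ⟨fun i => p.getVert i.val, ?_, ?_⟩
    · rw [mem_filter]
      refine ⟨mem_univ _, ?_, ?_⟩
      · intro i j hij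
        have hi := i.isLt
        have hj := j.isLt
        apply Fin.ext
        apply hp.getVert_injOn' _ _ hij
        · show i.val ≤ p.length - 1
          omega
        · show j.val ≤ p.length - 1
          omega
      · intro i
        have hi := i.isLt
        have h4 := p.adj_getVert_succ (i := i.val) (by omega)
        by_cases h5 : i.val + 1 = p.length
        · have h6 : ((i + 1 : Fin (p.length - 3 + 3)) : ℕ) = 0 := by
            rw [Fin.val_add, Fin.val_one']
            have : (1 : ℕ) % (p.length - 3 + 3) = 1 := Nat.mod_eq_of_lt (by omega)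
            rw [this, h5, hlen, Nat.mod_self]
          show (Gw w).Adj (p.getVert i.val) (p.getVert ((i + 1 : Fin (p.length - 3 + 3)) : ℕ))
          rw [h6, SimpleGraph.Walk.getVert_zero]
          rw [h5, SimpleGraph.Walk.getVert_length] at h4
          exact h4
        · have h6 : ((i + 1 : Fin (p.length - 3 + 3)) : ℕ) = i.val + 1 := by
            rw [Fin.val_add, Fin.val_one']
            have : (1 : ℕ) % (p.length - 3 + 3) = 1 := Nat.mod_eq_of_lt (by omega)
            rw [this]
            exact Nat.mod_eq_of_lt (by omega)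
          show (Gw w).Adj (p.getVert i.val) (p.getVert ((i + 1 : Fin (p.length - 3 + 3)) : ℕ))
          rw [h6]
          exact h4
    · show p.getVert ((0 : Fin (p.length - 3 + 3)) : ℕ) = x
      simp
  calc _ ≤ _ := Finset.card_le_card h1
    _ ≤ ∑ k ∈ range g, _ := Finset.card_biUnion_le
    _ ≤ ∑ k ∈ range g, Zk k w := by
        apply Finset.sum_le_sum
        intro k _
        exact Finset.card_image_le

end final

theorem t_D : S_D := by
  classical
  intro g
  refine ⟨1 / 2688, by norm_num, 96, ?_⟩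
  intro m hm
  obtain ⟨q, hq⟩ : ∃ q, q = m / 32 := ⟨_, rfl⟩
  have hq3 : 3 ≤ q := by omega
  have hmq : 32 * q ≤ m := by omega
  have hmq2 : m ≤ 64 * q := by omega
  have hlogq : 1 ≤ Real.log q := by
    rw [Real.le_log_iff_exp_le (by positivity)]
    have h1 := Real.exp_one_lt_d9
    have h2 : (3 : ℝ) ≤ q := by exact_mod_cast hq3
    linarith
  set N := 32 * ((g + 1) * q ^ (g + 3)) with hN
  have hNpos : 1 ≤ N := by
    have : 0 < N := by rw [hN]; positivity
    exact this
  set a := ⌈(4 * Real.log q + 16) * N⌉₊ with ha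
  have ha1 : (4 * Real.log q + 16) * N ≤ a := Nat.le_ceil _
  have ha2 : (a : ℝ) ≤ (4 * Real.log q + 16) * N + 1 := by
    apply (Nat.ceil_lt_add_one _).le
    positivity
  obtain ⟨w, hD, hZ, hI⟩ := exists_good q g N a hlogq hNpos ha1
  have c1 := few_large w q (by omega) hD
  have c2 := few_cyc w g
  set B1 := univ.filter (fun x : Fin (q * N) => 32 * q < ((Gw w).neighborSet x).ncard) with hB1
  set B2 := univ.filter (fun x : Fin (q * N) => ∃ p : (Gw w).Walk x x, p.IsCycle ∧ p.length < g)
    with hB2
  have c3 : 4 * B2.card ≤ q * N := by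
    have : 4 * B2.card ≤ N := by omega
    exact this.trans (Nat.le_mul_of_pos_left _ (by omega))
  set S : Finset (Fin (q * N)) := univ \ (B1 ∪ B2) with hS
  have hScard : q * N ≤ 2 * S.card := by
    have h1 := Finset.card_union_le B1 B2
    have h2 : S.card + (B1 ∪ B2).card = q * N := by
      rw [hS, Finset.card_sdiff_add_card_eq_card (Finset.subset_univ _), Finset.card_univ,
        Fintype.card_fin]
    omega
  have hS' : ∀ y : Fin (q * N), y ∈ S → y ∉ B1 ∧ y ∉ B2 := by
    intro y hy
    rw [hS, mem_sdiff, mem_union] at hy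
    exact ⟨fun h => hy.2 (Or.inl h), fun h => hy.2 (Or.inr h)⟩
  refine ⟨{x // x ∈ S}, inferInstance, (Gw w).comap (fun x => x.1), a, ?_, ?_, ?_, ?_, ?_⟩
  · intro x
    have hx1 : x.1 ∉ B1 := (hS' x.1 x.2).1
    rw [hB1, mem_filter] at hx1
    have hx2 : ((Gw w).neighborSet x.1).ncard ≤ 32 * q := by
      by_contra h
      exact hx1 ⟨mem_univ _, by omega⟩
    refine le_trans ?_ (hx2.trans hmq)
    have h1 : (((Gw w).comap (fun x : {x // x ∈ S} => x.1)).neighborSet x).ncard
        = (Subtype.val '' (((Gw w).comap (fun x : {x // x ∈ S} => x.1)).neighborSet x)).ncard :=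
      (Set.ncard_image_of_injective _ Subtype.val_injective).symm
    rw [h1]
    apply Set.ncard_le_ncard _ (Set.toFinite _)
    rintro _ ⟨y, hy, rfl⟩
    exact hy
  · rintro l hl ⟨v, p, hp, hpl⟩
    apply (hS' v.1 v.2).2
    rw [hB2, mem_filter]
    refine ⟨mem_univ _, ?_⟩
    let φ : ((Gw w).comap (fun x : {x // x ∈ S} => x.1)) →g (Gw w) :=
      ⟨fun x => x.1, fun {a b} h => h⟩
    have hφ : Function.Injective φ := Subtype.val_injective
    refine ⟨p.map φ, (SimpleGraph.Walk.isCycle_map_iff_of_injective hφ).mpr hp, ?_⟩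
    rw [SimpleGraph.Walk.length_map]
    omega
  · intro A hA
    by_contra hcon
    push Not at hcon
    apply hI
    obtain ⟨A', hA', hcard⟩ := Finset.exists_subset_card_eq
      (show a ≤ (A.map (Function.Embedding.subtype _)).card by rw [Finset.card_map]; omega)
    refine ⟨A', hcard, ?_⟩
    intro x hx y hy hxy
    have hx' := hA' hx
    have hy' := hA' hy
    rw [Finset.mem_map] at hx' hy'
    obtain ⟨x0, hx0, rfl⟩ := hx'
    obtain ⟨y0, hy0, rfl⟩ := hy'
    exact hA x0 hx0 y0 hy0 hxy
  · rw [Fintype.card_coe]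
    have : 0 < q * N := Nat.mul_pos (by omega) (by omega)
    omega
  · rw [Fintype.card_coe]
    have h1 : (q : ℝ) * N ≤ 2 * S.card := by exact_mod_cast hScard
    have h2 : (m : ℝ) ≤ 64 * q := by exact_mod_cast hmq2
    have h3 : Real.log q ≤ Real.log m := by
      apply Real.log_le_log (by positivity)
      have : q ≤ m := by omega
      exact_mod_cast this
    have hN1 : (1 : ℝ) ≤ N := by exact_mod_cast hNpos
    have h4 : (a : ℝ) ≤ 21 * Real.log m * N := by
      calc (a : ℝ) ≤ (4 * Real.log q + 16) * N + 1 := ha2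
        _ ≤ (4 * Real.log q + 16) * N + N := by linarith
        _ = (4 * Real.log q + 17) * N := by ring
        _ ≤ (21 * Real.log m) * N := by
            apply mul_le_mul_of_nonneg_right _ (by linarith)
            linarith
    have hlm : 0 ≤ Real.log m := by linarith
    calc 1 / 2688 * (m : ℝ) * a ≤ 1 / 2688 * (64 * q) * (21 * Real.log m * N) := by
          apply mul_le_mul _ h4 (by positivity) (by positivity)
          linarith
      _ = (1 / 2) * (q * N) * Real.log m := by ring
      _ ≤ S.card * Real.log m := by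
          apply mul_le_mul_of_nonneg_right _ hlm
          linarith

end Pool.Agent.TH596.J35
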