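import Pool.Agent.TH602.Defs
import Pool.Agent.TH596.NE.Glob

set_option autoImplicit false

open Set Function Bundle
open scoped ContDiff Manifold Topology InnerProductSpace SchwartzMap

namespace Pool.Agent.TH596.J13

open Pool.Agent.TH602 Pool.Agent.TH596.NE

/-- The statement of the perturbation theorem (module A), used as a hypothesis here. -/
def Perturb : Prop := ∀ (n : ℕ) (h : Fin n → Fin n → 𝓢(V n, ℝ)), (∀ i j, h i j = h j i) → ∀ η : ℝ,
    0 < η → ∃ t₀ > 0, ∀ t, 0 < t → t < t₀ → ∃ w : Idx n → V n → ℝ,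
      (∀ J, ContDiff ℝ ∞ (w J)) ∧ (∀ J x, ‖fderiv ℝ (w J) x‖ ≤ η) ∧
      ∀ x a, ∑ J, (fderiv ℝ (uu J) x a + fderiv ℝ (w J) x a) ^ 2 =
        ∑ J, (fderiv ℝ (uu J) x a) ^ 2 + t * ∑ i, ∑ j, h i j x * a i * a j

/-! ### Elementary facts -/

lemma uu_contDiff {n : ℕ} (J : Idx n) : ContDiff ℝ ∞ (uu J) := by
  unfold uu
  split_ifs
  · exact Real.contDiff_sin.comp (contDiff_const.inner ℝ contDiff_id)
  · exact Real.contDiff_cos.comp (contDiff_const.inner ℝ contDiff_id)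

/-- Trigonometric lower bound. -/
lemma trig_lower {a b : ℝ} (h : |a - b| ≤ Real.pi) :
    4 / Real.pi ^ 2 * (a - b) ^ 2 ≤
      (Real.cos a - Real.cos b) ^ 2 + (Real.sin a - Real.sin b) ^ 2 := by
  have h1 := Real.cos_le_one_sub_mul_cos_sq h
  rw [Real.cos_sub] at h1
  have h2 := Real.sin_sq_add_cos_sq a
  have h3 := Real.sin_sq_add_cos_sq b
  have h4 : 4 / Real.pi ^ 2 * (a - b) ^ 2 = 2 * (2 / Real.pi ^ 2 * (a - b) ^ 2) := by ring
  rw [h4]
  nlinarith

/-- Injectivity. -/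
lemma inj_aux {n : ℕ} (w : Idx n → V n → ℝ) (hw : ∀ J, ContDiff ℝ ∞ (w J))
    (η : ℝ) (hηn : 2 * n * η ^ 2 ≤ 1 / 8)
    (hwη : ∀ J x, ‖fderiv ℝ (w J) x‖ ≤ η) (a b : V n) (ha : ‖a‖ ≤ 1) (hb : ‖b‖ ≤ 1)
    (hab : ∀ J, uu J a + w J a = uu J b + w J b) : a = b := by
  have hLip : ∀ J, |uu J a - uu J b| ≤ η * ‖a - b‖ := by
    intro J
    have h1 : ‖w J a - w J b‖ ≤ η * ‖a - b‖ :=
      convex_univ.norm_image_sub_le_of_norm_fderiv_le (𝕜 := ℝ)
        (fun x _ => (hw J).differentiable (by simp) x) (fun x _ => hwη J x)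
        (mem_univ b) (mem_univ a)
    have h2 : uu J a - uu J b = -(w J a - w J b) := by linarith [hab J]
    rw [h2, abs_neg]
    exact h1
  have hsq : ∀ J, (uu J a - uu J b) ^ 2 ≤ η ^ 2 * ‖a - b‖ ^ 2 := by
    intro J
    rw [← sq_abs, ← mul_pow]
    exact pow_le_pow_left₀ (abs_nonneg _) (hLip J) 2
  have hnorm2 : ‖a - b‖ ≤ 2 := (norm_sub_le _ _).trans (by linarith)
  have hi : ∀ i : Fin n, 4 / Real.pi ^ 2 * (a i - b i) ^ 2 ≤ 2 * (η ^ 2 * ‖a - b‖ ^ 2) := by
    intro i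
    have h1 : |a i - b i| ≤ Real.pi := by
      have h2 : ‖(a - b) i‖ ≤ ‖a - b‖ := PiLp.norm_apply_le (a - b) i
      have h3 := Real.pi_gt_three
      have h4 : ‖(a - b) i‖ = |a i - b i| := by simp
      rw [h4] at h2
      linarith
    have h5 := trig_lower h1
    have h6 := hsq (Sum.inl i, false)
    have h7 := hsq (Sum.inl i, true)
    have e1 : ∀ x : V n, uu (Sum.inl i, false) x = Real.cos (x i) := by
      intro x
      simp [uu, freq, EuclideanSpace.inner_single_left]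
    have e2 : ∀ x : V n, uu (Sum.inl i, true) x = Real.sin (x i) := by
      intro x
      simp [uu, freq, EuclideanSpace.inner_single_left]
    rw [e1, e1] at h6
    rw [e2, e2] at h7
    linarith
  have hsum : 4 / Real.pi ^ 2 * ‖a - b‖ ^ 2 ≤ 2 * n * η ^ 2 * ‖a - b‖ ^ 2 := by
    rw [EuclideanSpace.norm_sq_eq, Finset.mul_sum]
    calc ∑ i, 4 / Real.pi ^ 2 * ‖(a - b) i‖ ^ 2 ≤ ∑ _i : Fin n, 2 * (η ^ 2 * ‖a - b‖ ^ 2) := by
          apply Finset.sum_le_sum
          intro i _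
          have := hi i
          simpa using this
      _ = 2 * n * η ^ 2 * ∑ i, ‖(a - b) i‖ ^ 2 := by
          rw [← EuclideanSpace.norm_sq_eq]
          simp
          ring
  have hpi : (1 : ℝ) / 4 ≤ 4 / Real.pi ^ 2 := by
    have h1 := Real.pi_le_four
    have h2 := Real.pi_pos
    rw [div_le_div_iff₀ (by norm_num) (by positivity)]
    nlinarith
  have h0 : ‖a - b‖ ^ 2 ≤ 0 := by
    have h3 : 1 / 4 * ‖a - b‖ ^ 2 ≤ 4 / Real.pi ^ 2 * ‖a - b‖ ^ 2 := by gcongr
    have h4 : 2 * n * η ^ 2 * ‖a - b‖ ^ 2 ≤ 1 / 8 * ‖a - b‖ ^ 2 := by gcongr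
    nlinarith [sq_nonneg ‖a - b‖]
  have h1 : ‖a - b‖ = 0 := by
    have := sq_nonneg ‖a - b‖
    exact pow_eq_zero_iff (two_ne_zero) |>.1 (le_antisymm h0 this)
  exact sub_eq_zero.1 (norm_eq_zero.1 h1)

/-- The derivative of a spherical pair. -/
lemma pair_sq {n : ℕ} (A : V n → ℝ) (hA : ContDiff ℝ ∞ A) (l : V n →L[ℝ] ℝ) (ε : ℝ) (hε : ε ≠ 0)
    (y a : V n) :
    (fderiv ℝ (fun z => ε * A z * Real.cos (l z / ε)) y a) ^ 2 +
      (fderiv ℝ (fun z => ε * A z * Real.sin (l z / ε)) y a) ^ 2 =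
      (A y) ^ 2 * (l a) ^ 2 + ε ^ 2 * (fderiv ℝ A y a) ^ 2 := by
  have hAd : HasFDerivAt A (fderiv ℝ A y) y := (hA.differentiable (by simp) y).hasFDerivAt
  have hl : HasFDerivAt (fun z => l z / ε) (ε⁻¹ • l) y := by
    have := l.hasFDerivAt (x := y) |>.const_smul ε⁻¹
    refine this.congr_of_eventuallyEq (Filter.Eventually.of_forall fun z => ?_)
    simp [div_eq_inv_mul]
  have h1 : HasFDerivAt (fun z => ε * A z * Real.cos (l z / ε)) _ y :=
    (hAd.const_mul ε).mul (hl.cos)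
  have h2 : HasFDerivAt (fun z => ε * A z * Real.sin (l z / ε)) _ y :=
    (hAd.const_mul ε).mul (hl.sin)
  rw [h1.fderiv, h2.fderiv]
  simp only [add_apply, smul_apply, smul_eq_mul]
  have h3 := Real.sin_sq_add_cos_sq (l y / ε)
  generalize Real.cos (l y / ε) = C at *
  generalize Real.sin (l y / ε) = D at *
  have e1 : (ε * A y * (-D * (ε⁻¹ * l a)) + C * (ε * (fderiv ℝ A y) a)) =
      - (A y * D * l a) + ε * C * (fderiv ℝ A y) a := by
    field_simp
  have e2 : (ε * A y * (C * (ε⁻¹ * l a)) + D * (ε * (fderiv ℝ A y) a)) =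
      A y * C * l a + ε * D * (fderiv ℝ A y) a := by
    field_simp
  rw [e1, e2]
  linear_combination ((A y) ^ 2 * (l a) ^ 2 + ε ^ 2 * (fderiv ℝ A y a) ^ 2) * h3

section

variable (S : Type) [MetricSpace S] [ChartedSpace E2 S] [IsManifold 𝓘(ℝ, E2) ∞ S]
  [CompactSpace S]

lemma exists_unit_embedding : ∃ (n : ℕ) (e : S → V n), ContMDiff 𝓘(ℝ, E2) 𝓘(ℝ, V n) ∞ e ∧
    Injective e ∧ (∀ x, Injective (mfderiv 𝓘(ℝ, E2) 𝓘(ℝ, V n) e x)) ∧ ∀ x, ‖e x‖ ≤ 1 := by
  obtain ⟨n, e0, he0, hemb, hd0⟩ := exists_embedding_euclidean_of_compact (I := 𝓘(ℝ, E2)) (M := S)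
  obtain ⟨R, hR⟩ := (isCompact_range he0.continuous).isBounded.exists_norm_le
  set R' := max R 1 with hR'
  have hR1 : 1 ≤ R' := le_max_right _ _
  have hR0 : 0 < R' := by linarith
  set L : V n →L[ℝ] V n := R'⁻¹ • ContinuousLinearMap.id ℝ (V n) with hL
  have hLx : ∀ x, L x = R'⁻¹ • x := fun x => rfl
  have hLinj : Injective L := by
    intro x y hxy
    rw [hLx, hLx] at hxy
    exact smul_right_injective _ (inv_ne_zero hR0.ne') hxy
  refine ⟨n, L ∘ e0, L.contDiff.contMDiff.comp he0, hLinj.comp hemb.injective, ?_, ?_⟩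
  · intro x
    rw [mfderiv_comp x L.differentiableAt.mdifferentiableAt
      (he0.mdifferentiableAt (by simp)), mfderiv_eq_fderiv, ContinuousLinearMap.fderiv]
    exact hLinj.comp (hd0 x)
  · intro x
    rw [Function.comp_apply, hLx, norm_smul, norm_inv, Real.norm_of_nonneg hR0.le,
      inv_mul_le_iff₀ hR0, mul_one]
    exact (hR _ (mem_range_self x)).trans (le_max_left _ _)

end

/-- Components. -/
noncomputable def comp {n : ℕ} {K : Type} (c ε : ℝ) (w : Idx n → V n → ℝ) (A : K → V n → ℝ)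
    (l : K → V n →L[ℝ] ℝ) : Idx n ⊕ (K ⊕ K) → V n → ℝ
  | Sum.inl J => fun y => c * (uu J y + w J y)
  | Sum.inr (Sum.inl k) => fun y => ε * A k y * Real.cos (l k y / ε)
  | Sum.inr (Sum.inr k) => fun y => ε * A k y * Real.sin (l k y / ε)

lemma comp_contDiff {n : ℕ} {K : Type} (c ε : ℝ) (w : Idx n → V n → ℝ) (A : K → V n → ℝ)
    (l : K → V n →L[ℝ] ℝ) (hw : ∀ J, ContDiff ℝ ∞ (w J)) (hA : ∀ k, ContDiff ℝ ∞ (A k))
    (i : Idx n ⊕ (K ⊕ K)) : ContDiff ℝ ∞ (comp c ε w A l i) := by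
  rcases i with J | k | k
  · exact contDiff_const.mul ((uu_contDiff J).add (hw J))
  · exact (contDiff_const.mul (hA k)).mul
      (Real.contDiff_cos.comp ((l k).contDiff.div_const _))
  · exact (contDiff_const.mul (hA k)).mul
      (Real.contDiff_sin.comp ((l k).contDiff.div_const _))

lemma comp_sum {n : ℕ} {K : Type} [Fintype K] (c ε t : ℝ) (hε : ε ≠ 0) (hct : c ^ 2 * t = ε ^ 2)
    (w : Idx n → V n → ℝ) (A : K → V n → ℝ)
    (l : K → V n →L[ℝ] ℝ) (hw : ∀ J, ContDiff ℝ ∞ (w J)) (hA : ∀ k, ContDiff ℝ ∞ (A k))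
    (hper : ∀ x a, ∑ J, (fderiv ℝ (uu J) x a + fderiv ℝ (w J) x a) ^ 2 =
        ∑ J, (fderiv ℝ (uu J) x a) ^ 2 + t * (- ∑ k, (fderiv ℝ (A k) x a) ^ 2)) (y a : V n) :
    ∑ i, (fderiv ℝ (comp c ε w A l i) y a) ^ 2 =
      c ^ 2 * ∑ J, (fderiv ℝ (uu J) y a) ^ 2 + ∑ k, (A k y) ^ 2 * (l k a) ^ 2 := by
  rw [Fintype.sum_sum_type, Fintype.sum_sum_type]
  have h1 : ∀ J, fderiv ℝ (comp c ε w A l (Sum.inl J)) y a =
      c * (fderiv ℝ (uu J) y a + fderiv ℝ (w J) y a) := by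
    intro J
    have h2 : HasFDerivAt (fun y => c * (uu J y + w J y)) _ y :=
      ((((uu_contDiff J).differentiable (by simp) y).hasFDerivAt).add
        (((hw J).differentiable (by simp) y).hasFDerivAt)).const_mul c
    change fderiv ℝ (fun y => c * (uu J y + w J y)) y a = _
    rw [h2.fderiv]
    simp only [add_apply, smul_apply, smul_eq_mul]
  have h2 : ∑ k, (fderiv ℝ (comp c ε w A l (Sum.inr (Sum.inl k))) y a) ^ 2 +
      ∑ k, (fderiv ℝ (comp c ε w A l (Sum.inr (Sum.inr k))) y a) ^ 2 =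
      ∑ k, ((A k y) ^ 2 * (l k a) ^ 2 + ε ^ 2 * (fderiv ℝ (A k) y a) ^ 2) := by
    rw [← Finset.sum_add_distrib]
    apply Finset.sum_congr rfl
    intro k _
    exact pair_sq (A k) (hA k) (l k) ε hε y a
  rw [h2]
  simp only [h1, mul_pow]
  rw [← Finset.mul_sum, hper, Finset.sum_add_distrib, ← Finset.mul_sum, ← hct]
  ring

/-- Smooth isometric embedding of compact Riemannian surfaces, from the perturbation theorem. -/
theorem isometric_embedding (hP : Perturb) (S : Type) [MetricSpace S]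
    [ChartedSpace (EuclideanSpace ℝ (Fin 2)) S]
    [IsManifold 𝓘(ℝ, EuclideanSpace ℝ (Fin 2)) ∞ S] [CompactSpace S]
    [RiemannianBundle (fun x : S => TangentSpace 𝓘(ℝ, EuclideanSpace ℝ (Fin 2)) x)]
    [IsContMDiffRiemannianBundle 𝓘(ℝ, EuclideanSpace ℝ (Fin 2)) ∞ (EuclideanSpace ℝ (Fin 2))
      (fun x : S => TangentSpace 𝓘(ℝ, EuclideanSpace ℝ (Fin 2)) x)] :
    ∃ (N : ℕ) (F : S → EuclideanSpace ℝ (Fin N)),
      ContMDiff 𝓘(ℝ, EuclideanSpace ℝ (Fin 2)) 𝓘(ℝ, EuclideanSpace ℝ (Fin N)) ∞ F ∧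
      Function.Injective F ∧
      ∀ (x : S) (v : TangentSpace 𝓘(ℝ, EuclideanSpace ℝ (Fin 2)) x),
        ‖@id (EuclideanSpace ℝ (Fin N)) (mfderiv 𝓘(ℝ, EuclideanSpace ℝ (Fin 2))
          𝓘(ℝ, EuclideanSpace ℝ (Fin N)) F x v)‖ = ‖v‖ := by
  classical
  obtain ⟨n, e, he, hinj, hd, hnorm⟩ := exists_unit_embedding S
  obtain ⟨c, hc, K, _, A0, l, hA0, hglob⟩ := glob he hd (uu (n := n)) uu_contDiff
  choose f hf hfe using fun k => exists_ext he hinj hd (hA0 k)
  -- cut off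
  set χ : ContDiffBump (0 : V n) := ⟨1, 2, by norm_num, by norm_num⟩ with hχ
  set A : K → V n → ℝ := fun k y => χ y * f k y with hA
  have hAs : ∀ k, ContDiff ℝ ∞ (A k) := fun k => χ.contDiff.mul (hf k)
  have hAc : ∀ k, HasCompactSupport (A k) := fun k => χ.hasCompactSupport.mul_right
  have hAe : ∀ k x, A k (e x) = A0 k x := by
    intro k x
    have h1 : χ (e x) = 1 := χ.one_of_mem_closedBall (by
      rw [mem_closedBall_zero_iff]
      exact hnorm x)
    simp only [hA, h1, one_mul, hfe]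
  -- the perturbation
  set dA : K → Fin n → V n → ℝ := fun k i y => fderiv ℝ (A k) y (EuclideanSpace.single i 1) with hdA
  have hdAs : ∀ k i, ContDiff ℝ ∞ (dA k i) := by
    intro k i
    exact ((hAs k).fderiv_right (m := ∞) (by simp)).clm_apply contDiff_const
  have hdAc : ∀ k i, HasCompactSupport (dA k i) := by
    intro k i
    exact (hAc k).fderiv_apply (𝕜 := ℝ) _
  have hhs : ∀ i j, ContDiff ℝ ∞ (fun y => - ∑ k, dA k i y * dA k j y) := by
    intro i j
    exact (ContDiff.sum fun k _ => (hdAs k i).mul (hdAs k j)).neg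
  have hhc : ∀ i j, HasCompactSupport (fun y => - ∑ k, dA k i y * dA k j y) := by
    intro i j
    apply HasCompactSupport.intro (K := ⋃ k, tsupport (dA k i))
      (isCompact_iUnion fun k => (hdAc k i).isCompact)
    intro y hy
    simp only [mem_iUnion, not_exists] at hy
    have h1 : ∀ k, dA k i y = 0 := fun k => image_eq_zero_of_notMem_tsupport (hy k)
    simp [h1]
  set h : Fin n → Fin n → 𝓢(V n, ℝ) := fun i j => (hhc i j).toSchwartzMap (hhs i j) with hh
  have hsymm : ∀ i j, h i j = h j i := by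
    intro i j
    ext y
    change - ∑ k, dA k i y * dA k j y = - ∑ k, dA k j y * dA k i y
    simp only [mul_comm]
  have hquad : ∀ (y a : V n), ∑ i, ∑ j, h i j y * a i * a j =
      - ∑ k, (fderiv ℝ (A k) y a) ^ 2 := by
    intro y a
    have h1 : ∀ k, fderiv ℝ (A k) y a = ∑ i, a i * dA k i y := by
      intro k
      have h2 : a = ∑ i, a i • EuclideanSpace.single i (1 : ℝ) := by
        ext j
        simp [Finset.sum_apply, Pi.single_apply]
      conv_lhs => rw [h2]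
      rw [map_sum]
      simp only [map_smul, smul_eq_mul, hdA]
    have h3 : ∀ i j, h i j y = - ∑ k, dA k i y * dA k j y := fun i j => rfl
    simp only [h1, h3, sq, Finset.sum_mul_sum]
    calc ∑ i, ∑ j, -(∑ k, dA k i y * dA k j y) * a i * a j
        = - ∑ i, ∑ j, ∑ k, (a i * dA k i y) * (a j * dA k j y) := by
          rw [← Finset.sum_neg_distrib]
          apply Finset.sum_congr rfl
          intro i _
          rw [← Finset.sum_neg_distrib]
          apply Finset.sum_congr rfl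
          intro j _
          rw [neg_mul, neg_mul, Finset.sum_mul, Finset.sum_mul]
          congr 1
          apply Finset.sum_congr rfl
          intro k _
          ring
      _ = - ∑ k, ∑ i, ∑ j, (a i * dA k i y) * (a j * dA k j y) := by
          congr 1
          rw [Finset.sum_comm]
          rw [Finset.sum_congr rfl fun j _ => Finset.sum_comm]
          rw [Finset.sum_comm]
          apply Finset.sum_congr rfl
          intro k _
          rw [Finset.sum_comm]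
  set η : ℝ := 1 / (4 * ((n : ℝ) + 1)) with hη
  have hη0 : 0 < η := by positivity
  have hηn : 2 * n * η ^ 2 ≤ 1 / 8 := by
    rw [hη, div_pow, one_pow, mul_one_div, div_le_div_iff₀ (by positivity) (by norm_num)]
    nlinarith [sq_nonneg ((n : ℝ)), (Nat.cast_nonneg n : (0 : ℝ) ≤ n)]
  obtain ⟨t₀, ht₀, ht⟩ := hP n h hsymm η hη0
  obtain ⟨w, hw, hwη, hwper⟩ := ht (t₀ / 2) (by linarith) (by linarith)
  set ε : ℝ := c * √(t₀ / 2) with hε
  have hε0 : ε ≠ 0 := by
    have : 0 < √(t₀ / 2) := Real.sqrt_pos.2 (by linarith)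
    positivity
  have hct : c ^ 2 * (t₀ / 2) = ε ^ 2 := by
    rw [hε, mul_pow, Real.sq_sqrt (by linarith)]
  have hper : ∀ x a, ∑ J, (fderiv ℝ (uu J) x a + fderiv ℝ (w J) x a) ^ 2 =
        ∑ J, (fderiv ℝ (uu J) x a) ^ 2 + (t₀ / 2) * (- ∑ k, (fderiv ℝ (A k) x a) ^ 2) := by
    intro x a
    rw [hwper x a, hquad]
  -- the map
  set G := comp c ε w A l with hG
  have hGs : ∀ i, ContDiff ℝ ∞ (G i) := comp_contDiff c ε w A l hw hAs
  set N := Fintype.card (Idx n ⊕ (K ⊕ K)) with hN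
  set σ : (Idx n ⊕ (K ⊕ K)) ≃ Fin N := Fintype.equivFin _ with hσ
  set GF : V n → EuclideanSpace ℝ (Fin N) := fun y => WithLp.toLp 2 (fun i => G (σ.symm i) y)
    with hGF
  have hGFs : ContDiff ℝ ∞ GF := by
    rw [contDiff_euclidean]
    intro i
    exact hGs (σ.symm i)
  have hGFd : ∀ y a i, (fderiv ℝ GF y a) i = fderiv ℝ (G (σ.symm i)) y a := by
    intro y a i
    have h1 : HasFDerivAt GF (fderiv ℝ GF y) y := (hGFs.differentiable (by simp) y).hasFDerivAt
    have h2 : HasFDerivAt (fun z => GF z i)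
        ((EuclideanSpace.proj i : EuclideanSpace ℝ (Fin N) →L[ℝ] ℝ).comp (fderiv ℝ GF y)) y :=
      (EuclideanSpace.proj i : EuclideanSpace ℝ (Fin N) →L[ℝ] ℝ).hasFDerivAt.comp y h1
    have h3 : fderiv ℝ (G (σ.symm i)) y = (EuclideanSpace.proj i :
      EuclideanSpace ℝ (Fin N) →L[ℝ] ℝ).comp (fderiv ℝ GF y) := h2.fderiv
    rw [h3]
    rfl
  refine ⟨N, GF ∘ e, hGFs.contMDiff.comp he, ?_, ?_⟩
  · intro x y hxy
    apply hinj
    apply inj_aux w hw η hηn hwη (e x) (e y) (hnorm x) (hnorm y)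
    intro J
    have h1 : GF (e x) (σ (Sum.inl J)) = GF (e y) (σ (Sum.inl J)) := by
      have : GF (e x) = GF (e y) := hxy
      rw [this]
    simp only [hGF, σ.symm_apply_apply] at h1
    exact mul_left_cancel₀ hc.ne' h1
  · intro x v
    have h1 : mfderiv 𝓘(ℝ, E2) 𝓘(ℝ, EuclideanSpace ℝ (Fin N)) (GF ∘ e) x v =
        fderiv ℝ GF (e x) (De e x v) := by
      rw [mfderiv_comp x ((hGFs.differentiable (by simp) _).mdifferentiableAt)
        (he.mdifferentiableAt (by simp)), mfderiv_eq_fderiv]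
      rfl
    have h2 : ‖fderiv ℝ GF (e x) (De e x v)‖ ^ 2 = ‖v‖ ^ 2 := by
      rw [EuclideanSpace.norm_sq_eq]
      have h3 : ∑ i, ‖(fderiv ℝ GF (e x) (De e x v)) i‖ ^ 2 =
          ∑ i, (fderiv ℝ (G i) (e x) (De e x v)) ^ 2 := by
        rw [← Equiv.sum_comp σ.symm]
        apply Finset.sum_congr rfl
        intro i _
        rw [hGFd, Real.norm_eq_abs, sq_abs]
      rw [h3, hG, comp_sum c ε (t₀ / 2) hε0 hct w A l hw hAs hper]
      have h4 := hglob x v
      simp only [hAe]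
      linarith
    have h5 : @id (EuclideanSpace ℝ (Fin N)) (mfderiv 𝓘(ℝ, E2)
      𝓘(ℝ, EuclideanSpace ℝ (Fin N)) (GF ∘ e) x v) = fderiv ℝ GF (e x) (De e x v) := h1
    rw [h5]
    exact (sq_eq_sq₀ (norm_nonneg _) (norm_nonneg _)).1 h2

end Pool.Agent.TH596.J13
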