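import Mathlib

set_option autoImplicit false

/-! # Job 202, linear algebra -/

namespace Pool.Agent.TH596.J202

open Module

variable {K : Type} [Field K] [Algebra ℂ K]

/-- elimination -/
lemma elim {x : Fin 3 → K} (hx : LinearIndependent ℂ x) {W : Submodule ℂ K} {ρ : Fin 3 → W}
    (hρ : ρ ≠ 0) (hker : ∑ i, x i * (ρ i : K) = 0) {c : Fin 3 → ℂ} (hc : c 2 ≠ 0)
    (hdep : ∑ i, c i • ρ i = 0) :
    ∃ al be : K, al ∈ Submodule.span ℂ (Set.range x) ∧ be ∈ Submodule.span ℂ (Set.range x) ∧
      (∀ s t : ℂ, s • al + t • be = 0 → s = 0 ∧ t = 0) ∧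
      ∃ u ∈ W, ∃ v ∈ W, u ≠ 0 ∧ v ≠ 0 ∧ al * u + be * v = 0 := by
  have hx' : ∀ i, x i ∈ Submodule.span ℂ (Set.range x) := fun i => Submodule.subset_span ⟨i, rfl⟩
  have hd : ∑ i, c i • (ρ i : K) = 0 := by
    have := congrArg Subtype.val hdep
    rw [AddSubmonoidClass.coe_finsetSum] at this
    exact this
  rw [Fin.sum_univ_three] at hker hd
  have hind := Fintype.linearIndependent_iff.1 hx
  have h2 : (ρ 2 : K) = -((c 0 / c 2) • (ρ 0 : K)) - (c 1 / c 2) • (ρ 1 : K) := by
    have h3 : c 2 • (ρ 2 : K) = -(c 0 • (ρ 0 : K)) - c 1 • (ρ 1 : K) := by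
      linear_combination hd
    have h4 : (ρ 2 : K) = (c 2)⁻¹ • (c 2 • (ρ 2 : K)) := by
      rw [smul_smul, inv_mul_cancel₀ hc, one_smul]
    rw [h4, h3, smul_sub, smul_neg, smul_smul, smul_smul, div_eq_inv_mul, div_eq_inv_mul]
  have hrel : (x 0 - (c 0 / c 2) • x 2) * (ρ 0 : K) + (x 1 - (c 1 / c 2) • x 2) * (ρ 1 : K) = 0 := by
    rw [h2] at hker
    simp only [Algebra.smul_def] at hker ⊢
    linear_combination hker
  have hli : ∀ s t : ℂ, s • (x 0 - (c 0 / c 2) • x 2) + t • (x 1 - (c 1 / c 2) • x 2) = 0 →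
      s = 0 ∧ t = 0 := by
    intro s t hst
    have h3 := hind ![s, t, -(s * (c 0 / c 2)) - t * (c 1 / c 2)] (by
      rw [Fin.sum_univ_three]
      simp only [Matrix.cons_val_zero, Matrix.cons_val_one, Matrix.cons_val]
      rw [← hst]
      simp only [Algebra.smul_def, map_sub, map_neg, map_mul]
      ring)
    exact ⟨h3 0, h3 1⟩
  have hal : x 0 - (c 0 / c 2) • x 2 ≠ 0 := by
    intro h0
    have := hli 1 0 (by rw [h0]; simp)
    exact one_ne_zero this.1
  have hbe : x 1 - (c 1 / c 2) • x 2 ≠ 0 := by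
    intro h0
    have := hli 0 1 (by rw [h0]; simp)
    exact one_ne_zero this.2
  have huv : ¬ ((ρ 0 : K) = 0 ∧ (ρ 1 : K) = 0) := by
    rintro ⟨h3, h4⟩
    apply hρ
    funext i
    apply Subtype.ext
    fin_cases i
    · exact h3
    · exact h4
    · show (ρ 2 : K) = 0
      rw [h2, h3, h4]; simp
  refine ⟨_, _, Submodule.sub_mem _ (hx' 0) (Submodule.smul_mem _ _ (hx' 2)),
    Submodule.sub_mem _ (hx' 1) (Submodule.smul_mem _ _ (hx' 2)), hli, ρ 0, (ρ 0).2, ρ 1, (ρ 1).2,
    ?_, ?_, hrel⟩
  · intro h0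
    rw [h0, mul_zero, zero_add] at hrel
    rcases mul_eq_zero.mp hrel with h | h
    · exact hbe h
    · exact huv ⟨h0, h⟩
  · intro h0
    rw [h0, mul_zero, add_zero] at hrel
    rcases mul_eq_zero.mp hrel with h | h
    · exact hal h
    · exact huv ⟨h, h0⟩

/-- Step 1: a common pencil -/
lemma step1 {x : Fin 3 → K} (hx : LinearIndependent ℂ x) {W S : Submodule ℂ K}
    (hW : finrank ℂ W = 3) [FiniteDimensional ℂ S] (hS : finrank ℂ S ≤ 7)
    (hmul : ∀ i, ∀ w ∈ W, x i * w ∈ S) :
    ∃ al be : K, al ∈ Submodule.span ℂ (Set.range x) ∧ be ∈ Submodule.span ℂ (Set.range x) ∧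
      (∀ s t : ℂ, s • al + t • be = 0 → s = 0 ∧ t = 0) ∧
      ∃ u ∈ W, ∃ v ∈ W, u ≠ 0 ∧ v ≠ 0 ∧ al * u + be * v = 0 := by
  classical
  have hWfin : FiniteDimensional ℂ W := Module.finite_of_finrank_pos (by omega)
  let T : (Fin 3 → W) →ₗ[ℂ] S :=
    { toFun := fun w => ⟨∑ i, x i * (w i : K), S.sum_mem (fun i _ => hmul i _ (w i).2)⟩
      map_add' := fun a b => by
        apply Subtype.ext
        show ∑ i, x i * ((a i + b i : W) : K) = ∑ i, x i * (a i : K) + ∑ i, x i * (b i : K)
        rw [← Finset.sum_add_distrib]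
        exact Finset.sum_congr rfl (fun i _ => by rw [Submodule.coe_add]; ring)
      map_smul' := fun c a => by
        apply Subtype.ext
        show ∑ i, x i * ((c • a i : W) : K) = c • ∑ i, x i * (a i : K)
        rw [Finset.smul_sum]
        exact Finset.sum_congr rfl (fun i _ => by
          rw [Submodule.coe_smul, mul_smul_comm]) }
  have hT : ∀ w, w ∈ LinearMap.ker T ↔ ∑ i, x i * (w i : K) = 0 := by
    intro w
    rw [LinearMap.mem_ker]
    constructor
    · intro h; exact congrArg Subtype.val h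
    · intro h; exact Subtype.ext h
  have hdim : 1 < finrank ℂ (LinearMap.ker T) := by
    have h1 := LinearMap.finrank_range_add_finrank_ker T
    have h2 : finrank ℂ (Fin 3 → W) = 9 := by
      rw [Module.finrank_pi_fintype]
      simp [hW]
    have h3 : finrank ℂ (LinearMap.range T) ≤ finrank ℂ S := Submodule.finrank_le _
    omega
  have hnt : Nontrivial (LinearMap.ker T) := Module.nontrivial_of_finrank_pos (R := ℂ) (by omega)
  obtain ⟨r', hr'⟩ := exists_ne (0 : LinearMap.ker T)
  obtain ⟨r, hr0⟩ := exists_linearIndependent_pair_of_one_lt_finrank (R := ℂ)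
    (M := LinearMap.ker T) hdim (x := r') hr'
  have hr : ∀ s t : ℂ, s • r' + t • r = 0 → s = 0 ∧ t = 0 := LinearIndependent.pair_iff.mp hr0
  -- the dependent element
  obtain ⟨ρ, hρker, hρ, c, hc, hdep⟩ : ∃ ρ : Fin 3 → W, (∑ i, x i * (ρ i : K) = 0) ∧ ρ ≠ 0 ∧
      ∃ c : Fin 3 → ℂ, c ≠ 0 ∧ ∑ i, c i • ρ i = 0 := by
    by_cases hli : LinearIndependent ℂ (r' : Fin 3 → W)
    · let b : Module.Basis (Fin 3) ℂ W := basisOfLinearIndependentOfCardEqFinrank hli (by simp [hW])
      have hb : ∀ i, b i = (r' : Fin 3 → W) i := fun i => by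
        simp [b]
      have hntW : Nontrivial W := Module.nontrivial_of_finrank_pos (R := ℂ) (by omega)
      let φ : Module.End ℂ W := b.constr ℂ (r : Fin 3 → W)
      obtain ⟨t, ht⟩ := Module.End.exists_eigenvalue φ
      obtain ⟨w, hw⟩ := ht.exists_hasEigenvector
      have hw1 : φ w = t • w := hw.apply_eq_smul
      have hw0 : w ≠ 0 := hw.2
      refine ⟨fun i => (r : Fin 3 → W) i - t • (r' : Fin 3 → W) i, ?_, ?_, fun i => b.repr w i,
        ?_, ?_⟩
      · have h1 := (hT r).mp r.2
        have h2 := (hT r').mp r'.2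
        have h3 : ∑ i, x i * (((r : Fin 3 → W) i - t • (r' : Fin 3 → W) i : W) : K)
            = ∑ i, x i * ((r : Fin 3 → W) i : K) - t • ∑ i, x i * ((r' : Fin 3 → W) i : K) := by
          rw [Finset.smul_sum, ← Finset.sum_sub_distrib]
          refine Finset.sum_congr rfl (fun i _ => ?_)
          rw [Submodule.coe_sub, Submodule.coe_smul, mul_sub, mul_smul_comm]
        rw [h3, h1, h2, smul_zero, sub_zero]
      · intro h0
        have h1 : (-t) • r' + (1 : ℂ) • r = 0 := by
          apply Subtype.ext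
          funext i
          have h2 := congrFun h0 i
          show (-t) • (r' : Fin 3 → W) i + (1 : ℂ) • (r : Fin 3 → W) i = 0
          simp only [Pi.zero_apply] at h2
          have h4 : ∀ a b : W, b - t • a = 0 → (-t) • a + (1 : ℂ) • b = 0 := by
            intro a b hab
            apply Subtype.ext
            have h5 := congrArg Subtype.val hab
            rw [Submodule.coe_sub, Submodule.coe_smul] at h5
            rw [Submodule.coe_add, Submodule.coe_smul, Submodule.coe_smul, one_smul]
            rw [Algebra.smul_def] at h5 ⊢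
            rw [map_neg]
            simp only [ZeroMemClass.coe_zero] at h5 ⊢
            linear_combination h5
          exact h4 _ _ h2
        exact one_ne_zero (hr _ _ h1).2
      · intro h0
        apply hw0
        have h1 := b.sum_repr w
        rw [← h1]
        apply Finset.sum_eq_zero
        intro i _
        have : b.repr w i = 0 := congrFun h0 i
        rw [this, zero_smul]
      · have h1 : φ w = ∑ i, b.repr w i • (r : Fin 3 → W) i := by
          show b.constr ℂ (r : Fin 3 → W) w = _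
          rw [Module.Basis.constr_apply_fintype]
          rfl
        have h2 : w = ∑ i, b.repr w i • (r' : Fin 3 → W) i := by
          conv_lhs => rw [← b.sum_repr w]
          refine Finset.sum_congr rfl (fun i _ => ?_)
          rw [hb]
        simp only [smul_sub]
        rw [Finset.sum_sub_distrib, ← h1, hw1]
        conv_lhs => 
          enter [1, 2]
          rw [h2]
        rw [Finset.smul_sum, sub_eq_zero]
        refine Finset.sum_congr rfl (fun i _ => ?_)
        rw [smul_comm]
    · rw [Fintype.not_linearIndependent_iff] at hli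
      obtain ⟨c, hc, i, hi⟩ := hli
      refine ⟨r', (hT r').mp r'.2, ?_, c, ?_, hc⟩
      · intro h0
        exact hr' (Subtype.ext h0)
      · intro h0
        exact hi (congrFun h0 i)
  -- reorder
  obtain ⟨k, hk⟩ : ∃ k, c k ≠ 0 := by
    by_contra hcon
    push Not at hcon
    exact hc (funext hcon)
  let σ : Equiv.Perm (Fin 3) := Equiv.swap k 2
  have hσ2 : σ 2 = k := Equiv.swap_apply_right k 2
  obtain ⟨al, be, h1, h2, h3, h4⟩ := elim (x := x ∘ σ) (hx.comp σ σ.injective) (ρ := ρ ∘ σ)
    (fun h0 => hρ (by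
      funext i
      have := congrFun h0 (σ.symm i)
      simpa using this))
    (by
      have := Equiv.sum_comp σ (fun i => x i * (ρ i : K))
      simp only [Function.comp]
      rw [this, hρker])
    (c := c ∘ σ) (by simpa [hσ2] using hk)
    (by
      have := Equiv.sum_comp σ (fun i => c i • ρ i)
      simp only [Function.comp]
      rw [this, hdep])
  have hr : Set.range (x ∘ σ) = Set.range x := by
    rw [Set.range_comp, σ.surjective.range_eq, Set.image_univ]
  rw [hr] at h1 h2
  exact ⟨al, be, h1, h2, h3, h4⟩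

/-- factorisation of binary quadratic forms -/
lemma factor (c0 c1 c2 : ℂ) : ∃ p q r s : ℂ, p * r = c0 ∧ p * s + q * r = c1 ∧ q * s = c2 := by
  by_cases h0 : c0 = 0
  · exact ⟨0, 1, c1, c2, by simp [h0], by ring, by ring⟩
  · obtain ⟨d, hd⟩ := IsAlgClosed.exists_pow_nat_eq (c1 ^ 2 - 4 * c0 * c2) (n := 2) (by norm_num)
    refine ⟨c0, (c1 - d) / 2, 1, (c1 + d) / (2 * c0), by ring, ?_, ?_⟩
    · field_simp
      ring
    · field_simp
      linear_combination (-1 : ℂ) * hd

end Pool.Agent.TH596.J202
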