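import Pool.Agent.TH186.Defs
import Pool.Agent.W525.Cliff
import Pool.Agent.W518.SMR.Odd
import Pool.Agent.TH596.J202a

set_option autoImplicit false

/-! # Job 202: uniqueness of the `g²₇` -/

open scoped WithZero Matrix
open Pool.Agent.Helper395.CS hiding genus
open Pool.Agent.Helper395.BC
open Pool.Agent.W525.BA
open Pool.Agent.TH186
open Module

namespace Pool.Agent.TH596.J202

variable {K : Type} [Field K] [Algebra ℂ K]

lemma ldeg_le (hK : IsCurve K) {L M : LineBundle K}
    (h : ∀ v : Point K, v.val (L.frame v : K) ≤ v.val (M.frame v : K)) : L.degree ≤ M.degree :=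
  ldegree_le hK (fun v _ hs => le_trans hs (h v))

lemma val_lmul (L M : LineBundle K) (v : Point K) :
    v.val ((lmul L M).frame v : K) = v.val (L.frame v : K) * v.val (M.frame v : K) := by
  change v.val ((L.frame v * M.frame v : Kˣ) : K) = _
  rw [Units.val_mul, map_mul]

lemma val_lprin (hK : IsCurve K) (f : Kˣ) (v : Point K) :
    v.val ((lprin hK f).frame v : K) = v.val (f : K) := rfl

lemma finrank_ge_two {N : LineBundle K} [FiniteDimensional ℂ (H0 N)] {a b : K} (ha : a ∈ H0 N)
    (hb : b ∈ H0 N) (hli : ∀ s t : ℂ, s • a + t • b = 0 → s = 0 ∧ t = 0) :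
    2 ≤ finrank ℂ (H0 N) := by
  have h : LinearIndependent ℂ ![(⟨a, ha⟩ : H0 N), ⟨b, hb⟩] := by
    rw [LinearIndependent.pair_iff]
    intro s t hst
    exact hli s t (congrArg Subtype.val hst)
  have := h.fintype_card_le_finrank
  simpa using this

lemma decomp {A V : Submodule ℂ K} [FiniteDimensional ℂ V] (hAV : A ≤ V) (hA : finrank ℂ A = 2)
    (hV : finrank ℂ V = 3) {x : K} (hx : x ∈ V) (hxA : x ∉ A) :
    ∀ u ∈ V, ∃ s : ℂ, u - s • x ∈ A := by
  have h1 : A ⊔ Submodule.span ℂ {x} ≤ V :=
    sup_le hAV (by rw [Submodule.span_le, Set.singleton_subset_iff]; exact hx)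
  have hfin : FiniteDimensional ℂ (A ⊔ Submodule.span ℂ {x} : Submodule ℂ K) :=
    Submodule.finiteDimensional_of_le h1
  have h2 : A < A ⊔ Submodule.span ℂ {x} := by
    refine lt_of_le_of_ne le_sup_left (fun h => hxA ?_)
    rw [h]
    exact Submodule.mem_sup_right (Submodule.mem_span_singleton_self x)
  have h3 := Submodule.finrank_lt_finrank_of_lt h2
  have h4 : A ⊔ Submodule.span ℂ {x} = V := by
    apply Submodule.eq_of_le_of_finrank_le h1
    omega
  intro u hu
  rw [← h4, Submodule.mem_sup] at hu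
  obtain ⟨a, ha, z, hz, rfl⟩ := hu
  obtain ⟨s, rfl⟩ := Submodule.mem_span_singleton.mp hz
  exact ⟨s, by rwa [add_sub_cancel_right]⟩

/-- two bundles `L`, `M` of degree 7 with a common pencil -/
theorem key (hK : IsCurve K) (hg : 9 ≤ genus K) (hLB : LB K) (L M : LineBundle K)
    (hL : L.degree = 7) (hM : M.degree = 7)
    (hL3 : 3 ≤ finrank ℂ (H0 L)) (hM3 : 3 ≤ finrank ℂ (H0 M)) {al be : K}
    (halL : al ∈ H0 L) (halM : al ∈ H0 M) (hbeL : be ∈ H0 L) (hbeM : be ∈ H0 M)
    (hli : ∀ s t : ℂ, s • al + t • be = 0 → s = 0 ∧ t = 0) (v : Point K) :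
    v.val (L.frame v : K) = v.val (M.frame v : K) := by
  classical
  have hg0 : genus K ≠ 0 := by omega
  have hfin : ∀ N : LineBundle K, FiniteDimensional ℂ (H0 N) := fun N => H0_finite hK hg0 N
  have hLe : finrank ℂ (H0 L) = 3 := by
    rcases hLB L with h | h | h <;> omega
  have hMe : finrank ℂ (H0 M) = 3 := by
    rcases hLB M with h | h | h <;> omega
  have gen : ∀ N : LineBundle K, N.degree = 7 → finrank ℂ (H0 N) = 3 → ∀ v : Point K,
      ∃ s ∈ H0 N, v.val s = v.val (N.frame v : K) := by
    intro N hN hN3 v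
    apply exists_generator
    have h1 := lsub_degree N v
    rcases hLB (lsub N v) with h | h | h <;> omega
  by_cases hVW : H0 L = H0 M
  · apply le_antisymm
    · obtain ⟨s, hs, hsv⟩ := gen L hL hLe v
      rw [hVW] at hs
      rw [← hsv]; exact hs v
    · obtain ⟨s, hs, hsv⟩ := gen M hM hMe v
      rw [← hVW] at hs
      rw [← hsv]; exact hs v
  exfalso
  have hLM : ¬ H0 L ≤ H0 M := fun h =>
    hVW (Submodule.eq_of_le_of_finrank_le h (by omega))
  have hML : ¬ H0 M ≤ H0 L := fun h =>
    hVW (Submodule.eq_of_le_of_finrank_le h (by omega)).symm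
  have hal0 : al ≠ 0 := by
    intro h0
    exact one_ne_zero (hli 1 0 (by rw [h0]; simp)).1
  have hbe0 : be ≠ 0 := by
    intro h0
    exact one_ne_zero (hli 0 1 (by rw [h0]; simp)).2
  set A : Submodule ℂ K := H0 L ⊓ H0 M with hA
  have halA : al ∈ A := ⟨halL, halM⟩
  have hbeA : be ∈ A := ⟨hbeL, hbeM⟩
  have hAfin : FiniteDimensional ℂ A := Submodule.finiteDimensional_of_le (inf_le_left : A ≤ H0 L)
  have hli' : LinearIndependent ℂ ![(⟨al, halA⟩ : A), ⟨be, hbeA⟩] := by
    rw [LinearIndependent.pair_iff]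
    intro s t hst
    exact hli s t (congrArg Subtype.val hst)
  have hA2 : finrank ℂ A = 2 := by
    have h1 : 2 ≤ finrank ℂ A := by
      have := hli'.fintype_card_le_finrank
      simpa using this
    have h2 : A < H0 L := lt_of_le_of_ne inf_le_left (fun h => hLM (by rw [← h]; exact inf_le_right))
    have h3 := Submodule.finrank_lt_finrank_of_lt h2
    omega
  have hAspan : ∀ a ∈ A, ∃ s t : ℂ, a = s • al + t • be := by
    intro a ha
    have h1 := hli'.span_eq_top_of_card_eq_finrank' (by simp [hA2])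
    have h2 : (⟨a, ha⟩ : A) ∈ Submodule.span ℂ (Set.range ![(⟨al, halA⟩ : A), ⟨be, hbeA⟩]) := by
      rw [h1]; trivial
    rw [Matrix.range_cons, Matrix.range_cons, Matrix.range_empty, Set.union_empty,
      Set.singleton_union, Submodule.mem_span_pair] at h2
    obtain ⟨s, t, hst⟩ := h2
    exact ⟨s, t, (congrArg Subtype.val hst).symm⟩
  set U : Submodule ℂ K := H0 L ⊔ H0 M with hU
  have hUfin : FiniteDimensional ℂ U := Submodule.finiteDimensional_sup _ _
  have hU4 : finrank ℂ U = 4 := by
    have := Submodule.finrank_sup_add_finrank_inf_eq (H0 L) (H0 M)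
    rw [← hU, ← hA] at this
    omega
  -- the bundle `Z`
  set Z := lsup L M with hZ
  have hUZ : U ≤ H0 Z := by
    apply sup_le
    · intro f hf v
      show v.val f ≤ v.val (Z.frame v : K)
      rw [hZ, val_lsup]
      exact (hf v).trans (le_max_left _ _)
    · intro f hf v
      show v.val f ≤ v.val (Z.frame v : K)
      rw [hZ, val_lsup]
      exact (hf v).trans (le_max_right _ _)
  have hZ4 : 4 ≤ finrank ℂ (H0 Z) := by
    have := hfin Z
    rw [← hU4]; exact Submodule.finrank_mono hUZ
  -- the bundle `T`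
  set T := lsup (lprin hK (Units.mk0 al hal0)) (lprin hK (Units.mk0 be hbe0)) with hT
  have hTv : ∀ w : Point K, w.val (T.frame w : K) = max (w.val al) (w.val be) := by
    intro w
    rw [hT, val_lsup]
    rfl
  have hT2 : 2 ≤ finrank ℂ (H0 T) := by
    have := hfin T
    refine finrank_ge_two (a := al) (b := be) ?_ ?_ hli
    · intro w
      show w.val al ≤ w.val (T.frame w : K)
      rw [hTv]; exact le_max_left _ _
    · intro w
      show w.val be ≤ w.val (T.frame w : K)
      rw [hTv]; exact le_max_right _ _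
  have hZT : (lmul Z T).degree ≤ (lmul L M).degree := by
    apply ldeg_le hK
    intro w
    rw [val_lmul, val_lmul, hTv, hZ, val_lsup, ← max_mul_min (w.val (L.frame w : K))
      (w.val (M.frame w : K))]
    apply mul_le_mul' le_rfl
    apply max_le
    · exact le_min (halL w) (halM w)
    · exact le_min (hbeL w) (hbeM w)
  rw [lmul_degree, lmul_degree, hL, hM] at hZT
  have hZ9 : Z.degree = 9 ∧ T.degree = 5 := by
    have h1 : 9 ≤ Z.degree := by rcases hLB Z with h | h | h <;> omega
    have h2 : 5 ≤ T.degree := by rcases hLB T with h | h | h <;> omega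
    omega
  -- multiplication
  set P := lmul L M with hP
  have hP7 : finrank ℂ (H0 P) ≤ 7 := by
    have h1 : P.degree = 14 := by rw [hP, lmul_degree, hL, hM]; norm_num
    rcases hLB P with h | h | h <;> omega
  have hPfin := hfin P
  have hmulLM : ∀ a ∈ H0 L, ∀ b ∈ H0 M, a * b ∈ H0 P := by
    intro a ha b hb w
    show w.val (a * b) ≤ w.val (P.frame w : K)
    rw [hP, val_lmul, map_mul]
    exact mul_le_mul' (ha w) (hb w)
  have hAU : ∀ a ∈ A, ∀ u ∈ U, a * u ∈ H0 P := by
    intro a ha u hu
    obtain ⟨s, hs, t, ht, rfl⟩ := Submodule.mem_sup.mp hu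
    rw [mul_add]
    refine (H0 P).add_mem ?_ (hmulLM _ ha.1 _ ht)
    rw [mul_comm]
    exact hmulLM _ hs _ ha.2
  let Φ : (U × U) →ₗ[ℂ] H0 P :=
    { toFun := fun u => ⟨al * (u.1 : K) + be * (u.2 : K),
        (H0 P).add_mem (hAU _ halA _ u.1.2) (hAU _ hbeA _ u.2.2)⟩
      map_add' := fun a b => by
        apply Subtype.ext
        show al * ((a.1 + b.1 : U) : K) + be * ((a.2 + b.2 : U) : K) =
          (al * (a.1 : K) + be * (a.2 : K)) + (al * (b.1 : K) + be * (b.2 : K))
        rw [Submodule.coe_add, Submodule.coe_add]; ring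
      map_smul' := fun c a => by
        apply Subtype.ext
        show al * ((c • a.1 : U) : K) + be * ((c • a.2 : U) : K) =
          c • (al * (a.1 : K) + be * (a.2 : K))
        rw [Submodule.coe_smul, Submodule.coe_smul, smul_add, mul_smul_comm, mul_smul_comm] }
  have hΦ0 : ∀ u : U × U, u ∈ LinearMap.ker Φ → al * (u.1 : K) + be * (u.2 : K) = 0 := by
    intro u hu
    rw [LinearMap.mem_ker] at hu
    exact congrArg Subtype.val hu
  -- the kernel
  have hker : finrank ℂ (LinearMap.ker Φ) ≤ 1 := by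
    set Q := lmul Z (linv T) with hQ
    have hQ1 : finrank ℂ (H0 Q) ≤ 1 := by
      have h1 : Q.degree = 4 := by
        rw [hQ, lmul_degree, linv_degree, hZ9.1, hZ9.2]; norm_num
      rcases hLB Q with h | h | h <;> omega
    have hQfin := hfin Q
    have hmem : ∀ u : LinearMap.ker Φ, ((u : U × U).2 : K) / al ∈ H0 Q := by
      intro u w
      rw [hQ, mem_lmul_linv]
      show w.val (((u : U × U).2 : K) / al * (T.frame w : K)) ≤ w.val (Z.frame w : K)
      have h0 := hΦ0 _ u.2
      have hu1 : w.val ((u : U × U).1 : K) ≤ w.val (Z.frame w : K) := hUZ (u : U × U).1.2 w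
      have hu2 : w.val ((u : U × U).2 : K) ≤ w.val (Z.frame w : K) := hUZ (u : U × U).2.2 w
      rw [map_mul, hTv]
      rcases max_choice (w.val al) (w.val be) with h | h
      · rw [h, ← map_mul, div_mul_cancel₀ _ hal0]; exact hu2
      · rw [h, ← map_mul]
        have h1 : ((u : U × U).2 : K) / al * be = -((u : U × U).1 : K) := by
          field_simp
          linear_combination h0
        rw [h1, Valuation.map_neg]; exact hu1
    let Ψ : LinearMap.ker Φ →ₗ[ℂ] H0 Q :=
      { toFun := fun u => ⟨((u : U × U).2 : K) / al, hmem u⟩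
        map_add' := fun a b => by
          apply Subtype.ext
          show (((a : U × U).2 + (b : U × U).2 : U) : K) / al =
            ((a : U × U).2 : K) / al + ((b : U × U).2 : K) / al
          rw [Submodule.coe_add, add_div]
        map_smul' := fun c a => by
          apply Subtype.ext
          show ((c • (a : U × U).2 : U) : K) / al = c • (((a : U × U).2 : K) / al)
          rw [Submodule.coe_smul, Algebra.smul_def, Algebra.smul_def, mul_div_assoc] }
    have hΨ : Function.Injective Ψ := by
      rw [injective_iff_map_eq_zero]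
      intro u hu
      have h1 : ((u : U × U).2 : K) / al = 0 := congrArg Subtype.val hu
      rw [div_eq_zero_iff] at h1
      have h2 : ((u : U × U).2 : K) = 0 := h1.resolve_right hal0
      have h3 := hΦ0 _ u.2
      rw [h2, mul_zero, add_zero] at h3
      have h4 : ((u : U × U).1 : K) = 0 := (mul_eq_zero.mp h3).resolve_left hal0
      apply Subtype.ext
      apply Prod.ext
      · exact Subtype.ext h4
      · exact Subtype.ext h2
    exact (LinearMap.finrank_le_finrank_of_injective hΨ).trans hQ1
  have hrange : LinearMap.range Φ = ⊤ := by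
    have h1 := LinearMap.finrank_range_add_finrank_ker Φ
    rw [Module.finrank_prod, hU4] at h1
    apply Submodule.eq_top_of_finrank_eq
    have h2 := Submodule.finrank_le (LinearMap.range Φ)
    omega
  -- the elements `x`, `y`
  obtain ⟨x, hxL, hxM⟩ := Set.not_subset.mp hLM
  obtain ⟨y, hyM, hyL⟩ := Set.not_subset.mp hML
  have hxA : x ∉ A := fun h => hxM h.2
  have hyA : y ∉ A := fun h => hyL h.1
  have dL := decomp (inf_le_left : A ≤ H0 L) hA2 hLe hxL hxA
  have dM := decomp (inf_le_right : A ≤ H0 M) hA2 hMe hyM hyA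
  have dU : ∀ u ∈ U, ∃ p q s t : ℂ, u = p • al + q • be + s • x + t • y := by
    intro u hu
    obtain ⟨a, ha, b, hb, rfl⟩ := Submodule.mem_sup.mp hu
    obtain ⟨s, hs⟩ := dL a ha
    obtain ⟨t, ht⟩ := dM b hb
    obtain ⟨p, q, hpq⟩ := hAspan _ hs
    obtain ⟨p', q', hpq'⟩ := hAspan _ ht
    refine ⟨p + p', q + q', s, t, ?_⟩
    simp only [Algebra.smul_def, map_add] at *
    linear_combination hpq + hpq'
  obtain ⟨⟨u0, u1⟩, hu01⟩ : ∃ u, Φ u = ⟨x * y, hmulLM x hxL y hyM⟩ := by
    have h1 : (⟨x * y, hmulLM x hxL y hyM⟩ : H0 P) ∈ LinearMap.range Φ := by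
      rw [hrange]; trivial
    exact h1
  have hxy : al * (u0 : K) + be * (u1 : K) = x * y := congrArg Subtype.val hu01
  obtain ⟨α0, β0, s0, t0, hu0⟩ := dU _ u0.2
  obtain ⟨α1, β1, s1, t1, hu1⟩ := dU _ u1.2
  obtain ⟨p, q, r, s, hpr, hpsqr, hqs⟩ := factor (α0 + s0 * t0) (β0 + α1 + s0 * t1 + s1 * t0)
    (β1 + s1 * t1)
  set b := t0 • al + t1 • be with hb
  set a := s0 • al + s1 • be with ha
  set l1 := p • al + q • be with hl1
  set l2 := r • al + s • be with hl2
  have hprod : (x - b) * (y - a) = l1 * l2 := by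
    rw [hb, ha, hl1, hl2]
    rw [hu0, hu1] at hxy
    simp only [Algebra.smul_def] at hxy ⊢
    have e1 : algebraMap ℂ K p * algebraMap ℂ K r = algebraMap ℂ K α0 +
        algebraMap ℂ K s0 * algebraMap ℂ K t0 := by
      rw [← map_mul, hpr, map_add, map_mul]
    have e2 : algebraMap ℂ K p * algebraMap ℂ K s + algebraMap ℂ K q * algebraMap ℂ K r =
        algebraMap ℂ K β0 + algebraMap ℂ K α1 + algebraMap ℂ K s0 * algebraMap ℂ K t1 +
        algebraMap ℂ K s1 * algebraMap ℂ K t0 := by
      rw [← map_mul, ← map_mul, ← map_add, hpsqr]; simp only [map_add, map_mul]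
    have e3 : algebraMap ℂ K q * algebraMap ℂ K s = algebraMap ℂ K β1 +
        algebraMap ℂ K s1 * algebraMap ℂ K t1 := by
      rw [← map_mul, hqs, map_add, map_mul]
    linear_combination (-1 : K) * hxy - al ^ 2 * e1 - al * be * e2 - be ^ 2 * e3
  have hbA : b ∈ A := A.add_mem (A.smul_mem _ halA) (A.smul_mem _ hbeA)
  have haA : a ∈ A := A.add_mem (A.smul_mem _ halA) (A.smul_mem _ hbeA)
  have hl1A : l1 ∈ A := A.add_mem (A.smul_mem _ halA) (A.smul_mem _ hbeA)
  have hl2A : l2 ∈ A := A.add_mem (A.smul_mem _ halA) (A.smul_mem _ hbeA)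
  have hx'A : x - b ∉ A := fun h => hxA (by
    have := A.add_mem h hbA
    rwa [sub_add_cancel] at this)
  have hy'A : y - a ∉ A := fun h => hyA (by
    have := A.add_mem h haA
    rwa [sub_add_cancel] at this)
  have hx'0 : x - b ≠ 0 := fun h => hx'A (by rw [h]; exact A.zero_mem)
  have hy'0 : y - a ≠ 0 := fun h => hy'A (by rw [h]; exact A.zero_mem)
  have hl10 : l1 ≠ 0 := by
    intro h
    rw [h, zero_mul] at hprod
    exact (mul_ne_zero hx'0 hy'0) hprod
  have hl20 : l2 ≠ 0 := by
    intro h
    rw [h, mul_zero] at hprod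
    exact (mul_ne_zero hx'0 hy'0) hprod
  have hx'L : x - b ∈ H0 L := (H0 L).sub_mem hxL hbA.1
  have hy'M : y - a ∈ H0 M := (H0 M).sub_mem hyM haA.2
  have hdeg : ∀ (l : K) (hl : l ∈ A) (hl0 : l ≠ 0),
      5 ≤ (lsup (lprin hK (Units.mk0 (x - b) hx'0)) (lprin hK (Units.mk0 l hl0))).degree := by
    intro l hl hl0
    set T1 := lsup (lprin hK (Units.mk0 (x - b) hx'0)) (lprin hK (Units.mk0 l hl0)) with hT1
    have hT1v : ∀ w : Point K, w.val (T1.frame w : K) = max (w.val (x - b)) (w.val l) := by
      intro w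
      rw [hT1, val_lsup]
      rfl
    have h2 : 2 ≤ finrank ℂ (H0 T1) := by
      have := hfin T1
      refine finrank_ge_two (a := x - b) (b := l) ?_ ?_ ?_
      · intro w
        show w.val (x - b) ≤ w.val (T1.frame w : K)
        rw [hT1v]; exact le_max_left _ _
      · intro w
        show w.val l ≤ w.val (T1.frame w : K)
        rw [hT1v]; exact le_max_right _ _
      · intro s t hst
        have hs : s = 0 := by
          by_contra hs
          apply hx'A
          have h3 : x - b = (-(t / s)) • l := by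
            have h4 : s • (x - b) = -(t • l) := eq_neg_of_add_eq_zero_left hst
            have h5 : x - b = s⁻¹ • (s • (x - b)) := by
              rw [smul_smul, inv_mul_cancel₀ hs, one_smul]
            rw [h5, h4, smul_neg, smul_smul, neg_smul, div_eq_inv_mul]
          rw [h3]
          exact A.smul_mem _ hl
        refine ⟨hs, ?_⟩
        rw [hs, zero_smul, zero_add] at hst
        exact (smul_eq_zero.mp hst).resolve_right hl0
    rcases hLB T1 with h | h | h <;> omega
  have hd1 := hdeg l1 hl1A hl10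
  have hd2 := hdeg l2 hl2A hl20
  have hfinal : (lmul (lsup (lprin hK (Units.mk0 (x - b) hx'0)) (lprin hK (Units.mk0 l1 hl10)))
      (lsup (lprin hK (Units.mk0 (x - b) hx'0)) (lprin hK (Units.mk0 l2 hl20)))).degree ≤
      (lmul (lprin hK (Units.mk0 (x - b) hx'0)) Z).degree := by
    apply ldeg_le hK
    intro w
    rw [val_lmul, val_lmul, val_lsup, val_lsup]
    show max (w.val (x - b)) (w.val l1) * max (w.val (x - b)) (w.val l2) ≤
      w.val (x - b) * w.val (Z.frame w : K)
    have z1 : w.val (x - b) ≤ w.val (Z.frame w : K) := hUZ (Submodule.mem_sup_left hx'L) w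
    have z2 : w.val (y - a) ≤ w.val (Z.frame w : K) := hUZ (Submodule.mem_sup_right hy'M) w
    have z3 : w.val l1 ≤ w.val (Z.frame w : K) := hUZ (Submodule.mem_sup_left hl1A.1) w
    have z4 : w.val l2 ≤ w.val (Z.frame w : K) := hUZ (Submodule.mem_sup_left hl2A.1) w
    rcases max_choice (w.val (x - b)) (w.val l1) with h | h <;>
      rcases max_choice (w.val (x - b)) (w.val l2) with h' | h' <;> rw [h, h']
    · exact mul_le_mul' le_rfl z1
    · exact mul_le_mul' le_rfl z4
    · rw [mul_comm]
      exact mul_le_mul' le_rfl z3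
    · rw [← map_mul, ← hprod, map_mul]
      exact mul_le_mul' le_rfl z2
  rw [lmul_degree, lmul_degree, lprin_degree, hZ9.1] at hfinal
  omega

/-- Uniqueness of the `g²₇`. -/
theorem g27_unique {K : Type} [Field K] [Algebra ℂ K] (hK : IsCurve K) (hg : 9 ≤ genus K)
    (hLB : LB K) (L M : LineBundle K) (hL : L.degree = 7) (hM : M.degree = 7)
    (hL3 : 3 ≤ Module.finrank ℂ (H0 L)) (hM3 : 3 ≤ Module.finrank ℂ (H0 M)) :
    ∃ c : Kˣ, ∀ v : Point K, v.val (M.frame v : K) = v.val (c : K) * v.val (L.frame v : K) := by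
  have hg0 : genus K ≠ 0 := by omega
  have hLe : finrank ℂ (H0 L) = 3 := by
    rcases hLB L with h | h | h <;> omega
  have hMe : finrank ℂ (H0 M) = 3 := by
    rcases hLB M with h | h | h <;> omega
  obtain ⟨x, hx⟩ := exists_GG3 L hLe (fun v => by
    have h1 := lsub_degree L v
    rcases hLB (lsub L v) with h | h | h <;> omega)
  have hxli : LinearIndependent ℂ x := by
    rw [Fintype.linearIndependent_iff]
    intro c hc i
    rw [hx.indep c hc]; rfl
  have hSfin : FiniteDimensional ℂ (H0 (lmul L M)) := H0_finite hK hg0 _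
  have hS : finrank ℂ (H0 (lmul L M)) ≤ 7 := by
    have h1 : (lmul L M).degree = 14 := by rw [lmul_degree, hL, hM]; norm_num
    rcases hLB (lmul L M) with h | h | h <;> omega
  obtain ⟨al, be, hal, hbe, hli, u, hu, w, hw, hu0, hw0, hrel⟩ := step1 hxli hMe hS
    (fun i z hz v => by
      show v.val (x i * z) ≤ v.val ((lmul L M).frame v : K)
      rw [val_lmul, map_mul]
      exact mul_le_mul' (hx.mem i v) (hz v))
  have hspan : Submodule.span ℂ (Set.range x) ≤ H0 L := by
    rw [Submodule.span_le]
    rintro _ ⟨i, rfl⟩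
    exact hx.mem i
  have hal0 : al ≠ 0 := by
    intro h0
    exact one_ne_zero (hli 1 0 (by rw [h0]; simp)).1
  have hc0 : al / w ≠ 0 := div_ne_zero hal0 hw0
  set M' := lmul M (lprin hK (Units.mk0 (al / w) hc0)) with hM'
  have hM'v : ∀ v : Point K, v.val (M'.frame v : K) = v.val (M.frame v : K) * v.val (al / w) := by
    intro v
    rw [hM', val_lmul]; rfl
  have h1 := key hK hg hLB L M' hL (by rw [hM', lmul_degree, lprin_degree, hM, add_zero]) hL3
    (by
      have h2 := h0_scale (L := M') (M := M) (al / w) hc0 (fun v => (hM'v v).symm)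
      omega)
    (al := al) (be := be) (hspan hal)
    (fun v => by
      show v.val al ≤ v.val (M'.frame v : K)
      have h3 : al = w * (al / w) := by field_simp
      rw [hM'v]
      conv_lhs => rw [h3]
      rw [map_mul]
      exact mul_le_mul' (hw v) le_rfl)
    (hspan hbe)
    (fun v => by
      show v.val be ≤ v.val (M'.frame v : K)
      have h3 : be = -(u * (al / w)) := by
        field_simp
        linear_combination hrel
      rw [hM'v]
      conv_lhs => rw [h3]
      rw [Valuation.map_neg, map_mul]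
      exact mul_le_mul' (hu v) le_rfl) hli
  refine ⟨(Units.mk0 (al / w) hc0)⁻¹, fun v => ?_⟩
  rw [h1 v, hM'v, Units.val_inv_eq_inv_val, Units.val_mk0, map_inv₀]
  have h4 : v.val (al / w) ≠ 0 := v.val_ne_zero hc0
  field_simp

end Pool.Agent.TH596.J202
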