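import Mathlib

set_option autoImplicit false

/-! # Job 52: the phase map between the `p`- and the `q`-problem -/

open MeasureTheory Set Filter
open scoped Topology

namespace Pool.Agent.TH596.J52

/-- the integrand, even extension -/
noncomputable def hh (r M a : ℝ) : ℝ := 1 / (M + (r - 1) * |a| ^ (r / (r - 1)))

/-- the time -/
noncomputable def TT (r M a : ℝ) : ℝ := ∫ x in (0:ℝ)..a, hh r M x

/-- the total time -/
noncomputable def JJ (r M : ℝ) : ℝ := ∫ a in Ioi (0 : ℝ), 1 / (M + (r - 1) * a ^ (r / (r - 1)))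

section basic

variable {r M : ℝ}

lemma exp_gt (hr : 1 < r) : 1 < r / (r - 1) := by
  rw [lt_div_iff₀ (by linarith)]; linarith

lemma den_pos (hr : 1 < r) (hM : 0 < M) (a : ℝ) : 0 < M + (r - 1) * |a| ^ (r / (r - 1)) := by
  have h1 : 0 ≤ |a| ^ (r / (r - 1)) := Real.rpow_nonneg (abs_nonneg a) _
  have h2 : 0 < r - 1 := by linarith
  positivity

lemma hh_pos (hr : 1 < r) (hM : 0 < M) (a : ℝ) : 0 < hh r M a := by
  unfold hh
  exact one_div_pos.mpr (den_pos hr hM a)

lemma hh_cont (hr : 1 < r) (hM : 0 < M) : Continuous (hh r M) := by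
  unfold hh
  apply Continuous.div continuous_const
  · apply continuous_const.add
    apply continuous_const.mul
    apply continuous_abs.rpow_const
    intro a
    right
    have := exp_gt hr
    linarith
  · intro a
    exact (den_pos hr hM a).ne'

lemma TT_strict (hr : 1 < r) (hM : 0 < M) (a : ℝ) :
    HasStrictDerivAt (TT r M) (hh r M a) a :=
  (hh_cont hr hM).integral_hasStrictDerivAt 0 a

lemma TT_hasDeriv (hr : 1 < r) (hM : 0 < M) (a : ℝ) : HasDerivAt (TT r M) (hh r M a) a :=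
  (TT_strict hr hM a).hasDerivAt

lemma TT_continuous (hr : 1 < r) (hM : 0 < M) : Continuous (TT r M) :=
  continuous_iff_continuousAt.mpr (fun a => (TT_hasDeriv hr hM a).continuousAt)

lemma TT_mono (hr : 1 < r) (hM : 0 < M) : StrictMono (TT r M) := by
  apply strictMono_of_deriv_pos
  intro x
  rw [(TT_hasDeriv hr hM x).deriv]
  exact hh_pos hr hM x

lemma TT_zero : TT r M 0 = 0 := by
  unfold TT
  exact intervalIntegral.integral_same

lemma TT_neg (a : ℝ) : TT r M (-a) = - TT r M a := by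
  unfold TT
  have h1 : ∀ x, hh r M (-x) = hh r M x := by
    intro x; unfold hh; rw [abs_neg]
  have h2 := intervalIntegral.integral_comp_neg (a := 0) (b := a) (fun x => hh r M x)
  simp only [h1, neg_zero] at h2
  rw [h2, ← intervalIntegral.integral_symm]

theorem total_integrable' (hr : 1 < r) (hM : 0 < M) :
    IntegrableOn (hh r M) (Ioi 0) := by
  have hc := hh_cont hr hM
  have h1 : IntegrableOn (hh r M) (Ioc 0 1) :=
    (hc.continuousOn.integrableOn_Icc (a := 0) (b := 1)).mono_set Ioc_subset_Icc_self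
  have h2 : IntegrableOn (hh r M) (Ioi 1) := by
    have h3 : IntegrableOn (fun t : ℝ => (r - 1)⁻¹ * t ^ (-(r / (r - 1)))) (Ioi 1) :=
      (integrableOn_Ioi_rpow_of_lt (by linarith [exp_gt hr]) one_pos).const_mul _
    refine Integrable.mono' h3 hc.aestronglyMeasurable.restrict ?_
    rw [ae_restrict_iff' measurableSet_Ioi]
    refine Eventually.of_forall (fun t ht => ?_)
    have ht0 : (0:ℝ) < t := lt_trans one_pos ht
    rw [Real.norm_eq_abs, abs_of_pos (hh_pos hr hM t)]
    unfold hh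
    rw [abs_of_pos ht0, Real.rpow_neg ht0.le, ← mul_inv, one_div]
    have h4 : 0 < t ^ (r / (r - 1)) := Real.rpow_pos_of_pos ht0 _
    have h5 : 0 < r - 1 := by linarith
    apply inv_anti₀ (by positivity)
    linarith
  have h3 : Ioi (0:ℝ) = Ioc 0 1 ∪ Ioi 1 := (Ioc_union_Ioi_eq_Ioi zero_le_one).symm
  rw [h3]
  exact h1.union h2

theorem total_integrable {r M : ℝ} (hr : 1 < r) (hM : 0 < M) :
    IntegrableOn (fun a : ℝ => 1 / (M + (r - 1) * a ^ (r / (r - 1)))) (Ioi 0) := by
  refine (total_integrable' hr hM).congr_fun ?_ measurableSet_Ioi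
  intro a ha
  have ha0 : (0:ℝ) < a := ha
  unfold hh
  simp only [abs_of_pos ha0]

lemma JJ_eq : JJ r M = ∫ a in Ioi (0:ℝ), hh r M a := by
  unfold JJ
  apply setIntegral_congr_fun measurableSet_Ioi
  intro a ha
  have ha0 : (0:ℝ) < a := ha
  unfold hh
  simp only [abs_of_pos ha0]

lemma TT_tendsto (hr : 1 < r) (hM : 0 < M) : Tendsto (TT r M) atTop (𝓝 (JJ r M)) := by
  rw [JJ_eq]
  exact intervalIntegral_tendsto_integral_Ioi 0 (total_integrable' hr hM) tendsto_id

lemma TT_lt (hr : 1 < r) (hM : 0 < M) (a : ℝ) : TT r M a < JJ r M :=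
  lt_of_lt_of_le (TT_mono hr hM (lt_add_one a))
    ((TT_mono hr hM).monotone.ge_of_tendsto (TT_tendsto hr hM) _)

/-- scaling of the total time -/
theorem total_scale {r M : ℝ} (hr : 1 < r) (hM : 0 < M) :
    (∫ a in Ioi (0 : ℝ), 1 / (M + (r - 1) * a ^ (r / (r - 1)))) =
      M ^ (-(1 / r)) * ∫ a in Ioi (0 : ℝ), 1 / (1 + (r - 1) * a ^ (r / (r - 1))) := by
  set s := r / (r - 1) with hs
  have hs1 : 1 < s := exp_gt hr
  have hr1 : 0 < r - 1 := by linarith
  set b := M ^ (1 / s) with hb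
  have hbpos : 0 < b := Real.rpow_pos_of_pos hM _
  have hbs : b ^ s = M := by
    rw [hb, ← Real.rpow_mul hM.le, one_div, inv_mul_cancel₀ (by linarith), Real.rpow_one]
  have h1 := MeasureTheory.integral_comp_mul_left_Ioi
    (fun a : ℝ => 1 / (M + (r - 1) * a ^ s)) 0 hbpos
  rw [mul_zero] at h1
  have h2 : (∫ a in Ioi (0 : ℝ), 1 / (M + (r - 1) * a ^ s))
      = b * ∫ x in Ioi (0:ℝ), 1 / (M + (r - 1) * (b * x) ^ s) := by
    rw [h1, smul_eq_mul, ← mul_assoc, mul_inv_cancel₀ hbpos.ne', one_mul]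
  have h3 : (∫ x in Ioi (0:ℝ), 1 / (M + (r - 1) * (b * x) ^ s))
      = ∫ x in Ioi (0:ℝ), M⁻¹ * (1 / (1 + (r - 1) * x ^ s)) := by
    apply setIntegral_congr_fun measurableSet_Ioi
    intro x hx
    have hx0 : (0:ℝ) < x := hx
    simp only
    rw [Real.mul_rpow hbpos.le hx0.le, hbs]
    have h4 : 0 < x ^ s := Real.rpow_pos_of_pos hx0 _
    have h5 : 0 < 1 + (r - 1) * x ^ s := by positivity
    field_simp
  rw [h2, h3, integral_const_mul, ← mul_assoc]
  congr 1
  rw [hb, ← Real.rpow_neg_one, ← Real.rpow_add hM]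
  congr 1
  rw [hs]
  field_simp
  ring

end basic

/-- comparison of the times -/
lemma TT_compare {p q Λ M : ℝ} (hq : 1 < q) (hpq : q < p) (hΛ : 0 < Λ) (hM : 0 < M)
    (htot : JJ q M = JJ p Λ) {a : ℝ} (ha : 0 < a) :
    TT p Λ a ≤ TT q M (a ^ ((q - 1) / (p - 1))) := by
  have hp : 1 < p := hq.trans hpq
  have hp1 : 0 < p - 1 := by linarith
  have hq1 : 0 < q - 1 := by linarith
  set θ := (q - 1) / (p - 1) with hθ
  have hθ0 : 0 < θ := div_pos hq1 hp1
  have hθ1 : θ < 1 := by rw [hθ, div_lt_one hp1]; linarith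
  set φ : ℝ → ℝ := fun a => TT q M (a ^ θ) - TT p Λ a with hφ
  have hφc : Continuous φ := by
    apply ((TT_continuous hq hM).comp (Real.continuous_rpow_const hθ0.le)).sub
      (TT_continuous hp hΛ)
  have hφd : ∀ x, 0 < x → HasDerivAt φ (hh q M (x ^ θ) * (θ * x ^ (θ - 1)) - hh p Λ x) x := by
    intro x hx
    exact ((TT_hasDeriv hq hM (x ^ θ)).comp x (Real.hasDerivAt_rpow_const (Or.inl hx.ne'))).sub
      (TT_hasDeriv hp hΛ x)
  -- formula for the derivative
  have hform : ∀ x, 0 < x → hh q M (x ^ θ) * (θ * x ^ (θ - 1)) - hh p Λ x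
      = (θ * Λ * x ^ (θ - 1) - M) * (hh q M (x ^ θ) * hh p Λ x) := by
    intro x hx
    have h1 := den_pos hq hM (x ^ θ)
    have h2 := den_pos hp hΛ x
    unfold hh
    rw [abs_of_pos hx, abs_of_pos (Real.rpow_pos_of_pos hx θ)] at *
    have h3 : (x ^ θ) ^ (q / (q - 1)) = x ^ (q / (p - 1)) := by
      rw [← Real.rpow_mul hx.le]
      congr 1
      rw [hθ]; field_simp
    have h4 : x ^ (θ - 1) * x ^ (p / (p - 1)) = x ^ (q / (p - 1)) := by
      rw [← Real.rpow_add hx]
      congr 1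
      rw [hθ]; field_simp; ring
    rw [h3] at h1 ⊢
    have h5 : θ * (p - 1) = q - 1 := by rw [hθ]; field_simp
    rw [div_mul_eq_mul_div, one_mul, div_sub_div _ _ h1.ne' h2.ne', div_mul_div_comm, one_mul,
      mul_div_assoc', mul_one]
    congr 1
    calc θ * x ^ (θ - 1) * (Λ + (p - 1) * x ^ (p / (p - 1)))
          - (M + (q - 1) * x ^ (q / (p - 1)))
        = θ * Λ * x ^ (θ - 1) - M + (θ * (p - 1)) * (x ^ (θ - 1) * x ^ (p / (p - 1)))
          - (q - 1) * x ^ (q / (p - 1)) := by ring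
      _ = (θ * Λ * x ^ (θ - 1) - M) * 1 := by rw [h4, h5]; ring
  set A := (θ * Λ / M) ^ (1 / (1 - θ)) with hA
  have hApos : 0 < A := Real.rpow_pos_of_pos (by positivity) _
  have hA1 : A ^ (1 - θ) = θ * Λ / M := by
    rw [hA, ← Real.rpow_mul (by positivity), one_div, inv_mul_cancel₀ (by linarith), Real.rpow_one]
  have hsign : ∀ x, 0 < x → θ * Λ * x ^ (θ - 1) - M = (θ * Λ - M * x ^ (1 - θ)) * x ^ (θ - 1) := by
    intro x hx
    have : x ^ (1 - θ) * x ^ (θ - 1) = 1 := by
      rw [← Real.rpow_add hx]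
      simp
    calc θ * Λ * x ^ (θ - 1) - M = θ * Λ * x ^ (θ - 1) - M * (x ^ (1 - θ) * x ^ (θ - 1)) := by
          rw [this, mul_one]
      _ = _ := by ring
  have hpos : ∀ x, 0 < x → 0 < hh q M (x ^ θ) * hh p Λ x := fun x _ =>
    mul_pos (hh_pos hq hM _) (hh_pos hp hΛ _)
  have hle : ∀ x, 0 < x → x ≤ A → 0 ≤ deriv φ x := by
    intro x hx hxA
    rw [(hφd x hx).deriv, hform x hx, hsign x hx]
    apply mul_nonneg _ (hpos x hx).le
    apply mul_nonneg _ (Real.rpow_nonneg hx.le _)
    have h1 : x ^ (1 - θ) ≤ A ^ (1 - θ) := Real.rpow_le_rpow hx.le hxA (by linarith)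
    rw [hA1, le_div_iff₀ hM] at h1
    linarith
  have hge : ∀ x, A ≤ x → deriv φ x ≤ 0 := by
    intro x hxA
    have hx : 0 < x := lt_of_lt_of_le hApos hxA
    rw [(hφd x hx).deriv, hform x hx, hsign x hx]
    apply mul_nonpos_of_nonpos_of_nonneg _ (hpos x hx).le
    apply mul_nonpos_of_nonpos_of_nonneg _ (Real.rpow_nonneg hx.le _)
    have h1 : A ^ (1 - θ) ≤ x ^ (1 - θ) := Real.rpow_le_rpow hApos.le hxA (by linarith)
    rw [hA1, div_le_iff₀ hM] at h1
    linarith
  have hmon : MonotoneOn φ (Icc 0 A) := by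
    apply monotoneOn_of_deriv_nonneg (convex_Icc 0 A) hφc.continuousOn
    · rw [interior_Icc]
      intro x hx
      exact (hφd x hx.1).differentiableAt.differentiableWithinAt
    · rw [interior_Icc]
      intro x hx
      exact hle x hx.1 hx.2.le
  have hanti : AntitoneOn φ (Ici A) := by
    apply antitoneOn_of_deriv_nonpos (convex_Ici A) hφc.continuousOn
    · rw [interior_Ici]
      intro x hx
      exact (hφd x (hApos.trans hx)).differentiableAt.differentiableWithinAt
    · rw [interior_Ici]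
      intro x hx
      exact hge x (le_of_lt hx)
  have hφ0 : φ 0 = 0 := by
    simp only [hφ]
    rw [Real.zero_rpow hθ0.ne', TT_zero, TT_zero, sub_zero]
  have hlim : Tendsto φ atTop (𝓝 0) := by
    have h1 : Tendsto (fun a : ℝ => TT q M (a ^ θ)) atTop (𝓝 (JJ q M)) :=
      (TT_tendsto hq hM).comp (tendsto_rpow_atTop hθ0)
    have h2 := h1.sub (TT_tendsto hp hΛ)
    rw [htot, sub_self] at h2
    exact h2
  have hfin : 0 ≤ φ a := by
    rcases le_total a A with h | h
    · have := hmon (left_mem_Icc.mpr hApos.le) ⟨ha.le, h⟩ ha.le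
      rw [hφ0] at this
      exact this
    · apply le_of_tendsto hlim
      filter_upwards [eventually_ge_atTop a] with x hx
      exact hanti h (h.trans hx) hx
  simp only [hφ] at hfin
  linarith

/-- Phase map between the `p`- and the `q`-problem. -/
theorem phase_map {p q Λ M : ℝ} (hq : 1 < q) (hpq : q < p) (hΛ : 0 < Λ) (hM : 0 < M)
    (htot : (∫ a in Ioi (0 : ℝ), 1 / (M + (q - 1) * a ^ (q / (q - 1)))) =
      ∫ a in Ioi (0 : ℝ), 1 / (Λ + (p - 1) * a ^ (p / (p - 1)))) :
    ∃ f : ℝ → ℝ, f 0 = 0 ∧ (∀ a, 0 < a → 0 < f a) ∧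
      (∀ a, 0 ≤ a → HasDerivAt f
        ((M + (q - 1) * (f a) ^ (q / (q - 1))) / (Λ + (p - 1) * a ^ (p / (p - 1)))) a) ∧
      (∀ a, 0 < a → a * ((M + (q - 1) * (f a) ^ (q / (q - 1))) /
        (Λ + (p - 1) * a ^ (p / (p - 1)))) < f a) := by
  have hp : 1 < p := hq.trans hpq
  have hp1 : 0 < p - 1 := by linarith
  have hq1 : 0 < q - 1 := by linarith
  have htot' : JJ q M = JJ p Λ := htot
  -- attained values
  have key : ∀ {r s M' Λ' : ℝ} (hr : 1 < r) (hs : 1 < s) (hM' : 0 < M') (hΛ' : 0 < Λ')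
      (hJ : JJ r M' = JJ s Λ') (a : ℝ), ∃ y, TT r M' y = TT s Λ' a := by
    intro r s M' Λ' hr hs hM' hΛ' hJ a
    have h1 : ∀ a, ∃ y, TT s Λ' a ≤ TT r M' y := by
      intro a
      have h2 : TT s Λ' a < JJ r M' := by rw [hJ]; exact TT_lt hs hΛ' a
      have h3 := (TT_tendsto hr hM').eventually (lt_mem_nhds h2)
      obtain ⟨y, hy⟩ := h3.exists
      exact ⟨y, hy.le⟩
    apply mem_range_of_exists_le_of_exists_ge (TT_continuous hr hM')
    · obtain ⟨y, hy⟩ := h1 (-a)
      refine ⟨-y, ?_⟩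
      rw [TT_neg] at hy ⊢
      linarith
    · exact h1 a
  choose f hf using key hq hp hM hΛ htot'
  have hmonof : StrictMono f := by
    intro a b hab
    have h1 := TT_mono hp hΛ hab
    rw [← hf a, ← hf b] at h1
    exact (TT_mono hq hM).lt_iff_lt.mp h1
  have hsurj : Function.Surjective f := by
    intro b
    obtain ⟨a, ha⟩ := key hp hq hΛ hM htot'.symm b
    refine ⟨a, ?_⟩
    apply (TT_mono hq hM).injective
    rw [hf a, ha]
  have hfc : Continuous f := hmonof.monotone.continuous_of_surjective hsurj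
  have hf0 : f 0 = 0 := by
    apply (TT_mono hq hM).injective
    rw [hf 0, TT_zero, TT_zero]
  have hfpos : ∀ a, 0 < a → 0 < f a := by
    intro a ha
    have := hmonof ha
    rwa [hf0] at this
  have hder : ∀ a, HasDerivAt f (hh p Λ a / hh q M (f a)) a := by
    intro a
    have h1 := TT_strict hq hM (f a)
    have h2 : hh q M (f a) ≠ 0 := (hh_pos hq hM (f a)).ne'
    have h3 := (h1.to_localInverse h2).hasDerivAt
    rw [hf a] at h3
    have h4 := h3.comp a (TT_hasDeriv hp hΛ a)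
    have h5 : ∀ᶠ x in 𝓝 (f a), HasStrictDerivAt.localInverse (TT q M) (hh q M (f a)) (f a) h1 h2
        (TT q M x) = x := HasStrictFDerivAt.eventually_left_inverse _
    have h6 : f =ᶠ[𝓝 a] (HasStrictDerivAt.localInverse (TT q M) (hh q M (f a)) (f a) h1 h2) ∘
        (TT p Λ) := by
      have h7 := hfc.continuousAt.eventually h5
      filter_upwards [h7] with x hx
      rw [hf x] at hx
      exact hx.symm
    have h8 := h4.congr_of_eventuallyEq h6
    have h9 : (hh q M (f a))⁻¹ * hh p Λ a = hh p Λ a / hh q M (f a) := by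
      rw [div_eq_mul_inv, mul_comm]
    rw [h9] at h8
    exact h8
  have hfnn : ∀ a, 0 ≤ a → 0 ≤ f a := by
    intro a ha
    rcases ha.eq_or_lt with h | h
    · rw [← h, hf0]
    · exact (hfpos a h).le
  have hval : ∀ a, 0 ≤ a → hh p Λ a / hh q M (f a)
      = (M + (q - 1) * (f a) ^ (q / (q - 1))) / (Λ + (p - 1) * a ^ (p / (p - 1))) := by
    intro a ha
    unfold hh
    rw [abs_of_nonneg ha, abs_of_nonneg (hfnn a ha)]
    rw [div_div_eq_mul_div, div_mul_eq_mul_div, one_mul, div_one]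
  have hder' : ∀ a, 0 ≤ a → HasDerivAt f
        ((M + (q - 1) * (f a) ^ (q / (q - 1))) / (Λ + (p - 1) * a ^ (p / (p - 1)))) a := by
    intro a ha
    rw [← hval a ha]
    exact hder a
  refine ⟨f, hf0, hfpos, hder', ?_⟩
  -- comparison
  have hcmp : ∀ a, 0 < a → (f a) ^ (1 / (q - 1)) ≤ a ^ (1 / (p - 1)) := by
    intro a ha
    have h1 := TT_compare hq hpq hΛ hM htot' ha
    rw [← hf a] at h1
    have h2 := (TT_mono hq hM).le_iff_le.mp h1
    have h3 := Real.rpow_le_rpow (hfnn a ha.le) h2 (show 0 ≤ 1 / (q - 1) by positivity)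
    rw [← Real.rpow_mul ha.le] at h3
    have h4 : (q - 1) / (p - 1) * (1 / (q - 1)) = 1 / (p - 1) := by field_simp
    rw [h4] at h3
    exact h3
  -- the auxiliary functions
  set N : ℝ → ℝ := fun a => M + (q - 1) * (f a) ^ (q / (q - 1)) with hN
  set D : ℝ → ℝ := fun a => Λ + (p - 1) * a ^ (p / (p - 1)) with hD
  have hNpos : ∀ a, 0 ≤ a → 0 < N a := by
    intro a ha
    have := den_pos hq hM (f a)
    rwa [abs_of_nonneg (hfnn a ha)] at this
  have hDpos : ∀ a, 0 ≤ a → 0 < D a := by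
    intro a ha
    have := den_pos hp hΛ a
    rwa [abs_of_nonneg ha] at this
  have hN' : ∀ a, 0 < a → HasDerivAt N (q * (f a) ^ (1 / (q - 1)) * (N a / D a)) a := by
    intro a ha
    have h1 : HasDerivAt (fun x => (f x) ^ (q / (q - 1)))
        ((N a / D a) * (q / (q - 1)) * (f a) ^ (q / (q - 1) - 1)) a :=
      (hder' a ha.le).rpow_const (Or.inl (hfpos a ha).ne')
    have h2 := (h1.const_mul (q - 1)).const_add M
    have h3 : q / (q - 1) - 1 = 1 / (q - 1) := by field_simp; ring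
    have h4 : (q - 1) * ((N a / D a) * (q / (q - 1)) * (f a) ^ (q / (q - 1) - 1))
        = q * (f a) ^ (1 / (q - 1)) * (N a / D a) := by
      rw [h3]
      field_simp
    rw [h4] at h2
    exact h2
  have hD' : ∀ a, 0 < a → HasDerivAt D (p * a ^ (1 / (p - 1))) a := by
    intro a ha
    have h1 : HasDerivAt (fun x : ℝ => x ^ (p / (p - 1)))
        ((p / (p - 1)) * a ^ (p / (p - 1) - 1)) a := Real.hasDerivAt_rpow_const (Or.inl ha.ne')
    have h2 := (h1.const_mul (p - 1)).const_add Λ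
    have h3 : p / (p - 1) - 1 = 1 / (p - 1) := by field_simp; ring
    have h4 : (p - 1) * ((p / (p - 1)) * a ^ (p / (p - 1) - 1)) = p * a ^ (1 / (p - 1)) := by
      rw [h3]
      field_simp
    rw [h4] at h2
    exact h2
  set G : ℝ → ℝ := fun a => f a - a * (N a / D a) with hG
  have hGd : ∀ a, 0 < a → HasDerivAt G (N a / D a - (1 * (N a / D a) +
      a * ((q * (f a) ^ (1 / (q - 1)) * (N a / D a) * D a - N a * (p * a ^ (1 / (p - 1))))
        / D a ^ 2))) a := by
    intro a ha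
    have h1 := (hN' a ha).div (hD' a ha) (hDpos a ha.le).ne'
    exact (hder' a ha.le).sub ((hasDerivAt_id a).mul h1)
  have hGpos : ∀ a, 0 < a → 0 < N a / D a - (1 * (N a / D a) +
      a * ((q * (f a) ^ (1 / (q - 1)) * (N a / D a) * D a - N a * (p * a ^ (1 / (p - 1))))
        / D a ^ 2)) := by
    intro a ha
    have hDa := hDpos a ha.le
    have hNa := hNpos a ha.le
    have h1 : N a / D a - (1 * (N a / D a) +
      a * ((q * (f a) ^ (1 / (q - 1)) * (N a / D a) * D a - N a * (p * a ^ (1 / (p - 1))))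
        / D a ^ 2)) = a * N a * (p * a ^ (1 / (p - 1)) - q * (f a) ^ (1 / (q - 1))) / D a ^ 2 := by
      field_simp
      ring
    rw [h1]
    have h2 := hcmp a ha
    have h3 : 0 < a ^ (1 / (p - 1)) := Real.rpow_pos_of_pos ha _
    have h4 : q * (f a) ^ (1 / (q - 1)) < p * a ^ (1 / (p - 1)) := by
      calc q * (f a) ^ (1 / (q - 1)) ≤ q * a ^ (1 / (p - 1)) :=
            mul_le_mul_of_nonneg_left h2 (by linarith)
        _ < p * a ^ (1 / (p - 1)) := mul_lt_mul_of_pos_right hpq h3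
    have h5 : 0 < p * a ^ (1 / (p - 1)) - q * (f a) ^ (1 / (q - 1)) := by linarith
    positivity
  have hGc : ContinuousOn G (Ici 0) := by
    apply hfc.continuousOn.sub
    apply continuousOn_id.mul
    apply ContinuousOn.div
    · apply Continuous.continuousOn
      apply continuous_const.add
      apply continuous_const.mul
      exact hfc.rpow_const (fun a => Or.inr (by linarith [exp_gt hq]))
    · apply Continuous.continuousOn
      apply continuous_const.add
      apply continuous_const.mul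
      exact continuous_id.rpow_const (fun a => Or.inr (by linarith [exp_gt hp]))
    · intro a ha
      exact (hDpos a ha).ne'
  have hGm : StrictMonoOn G (Ici 0) := by
    apply strictMonoOn_of_deriv_pos (convex_Ici 0) hGc
    rw [interior_Ici]
    intro a ha
    rw [(hGd a ha).deriv]
    exact hGpos a ha
  intro a ha
  have h1 := hGm (show (0:ℝ) ∈ Ici (0:ℝ) by simp) ha.le ha
  have h2 : G 0 = 0 := by simp [hG, hf0]
  rw [h2] at h1
  simp only [hG] at h1
  linarith

end Pool.Agent.TH596.J52
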