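import Pool.Agent.TH331.RZ.Defs
import Pool.Agent.Helper88.SE.P_ball_low

/-!
# Job 236 (RZ-H): rounding of a measure of integer mass on the sphere in a feature space
-/

set_option autoImplicit false

open MeasureTheory Set Filter Topology
open scoped ENNReal Real FourierTransform

namespace Pool.Agent.TH596.J236

open Pool.Agent.Helper88.SE

/-- The sphere has finite Borel partitions into `≤ C t^(-d)` pieces of diameter `≤ t`. -/
theorem cover (d : ℕ) : ∃ C : ℝ, 0 < C ∧ ∀ t : ℝ, 0 < t → t ≤ 2 →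
    ∃ (n : ℕ) (A : Fin n → Set (S d)), (n:ℝ) ≤ C * (t ^ d)⁻¹ ∧ (∀ i, MeasurableSet (A i)) ∧
      Pairwise (Function.onFun Disjoint A) ∧ (⋃ i, A i) = univ ∧
      ∀ i, ∀ x ∈ A i, ∀ y ∈ A i, dist x y ≤ t := by
  classical
  have := sg_prob d
  obtain ⟨c, hc, hball⟩ := ball_low d
  refine ⟨4 ^ d / c, by positivity, fun t ht ht2 => ?_⟩
  let P : ℕ → Prop := fun n => ∃ s : Finset (S d), s.card = n ∧
    ∀ x ∈ s, ∀ y ∈ s, x ≠ y → t / 2 < dist x y
  have hbd : ∀ n, P n → (n:ℝ) ≤ 4 ^ d / c * (t ^ d)⁻¹ := by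
    rintro n ⟨s, rfl, hs⟩
    have h1 : ∑ x ∈ s, (sg d (Metric.closedBall x (t / 4))).toReal ≤ 1 := by
      have h2 : (sg d (⋃ x ∈ s, Metric.closedBall x (t / 4))).toReal ≤ 1 := by
        refine ENNReal.toReal_le_of_le_ofReal (by norm_num) ?_
        rw [ENNReal.ofReal_one]
        exact prob_le_one
      rw [measure_biUnion_finset] at h2
      · rwa [ENNReal.toReal_sum (fun x _ => measure_ne_top _ _)] at h2
      · intro x hx y hy hxy
        refine Set.disjoint_left.2 fun z hz1 hz2 => ?_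
        have h3 := hs x hx y hy hxy
        have h4 := dist_triangle_right x y z
        rw [Metric.mem_closedBall] at hz1 hz2
        rw [dist_comm z x] at hz1
        rw [dist_comm z y] at hz2
        linarith
      · intro x _
        exact Metric.isClosed_closedBall.measurableSet
    have h5 : (s.card : ℝ) * (c * (t / 4) ^ d) ≤ 1 := by
      refine le_trans ?_ h1
      rw [← nsmul_eq_mul]
      exact Finset.card_nsmul_le_sum _ _ _
        (fun x _ => hball x (t / 4) (by positivity) (by linarith))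
    rw [div_pow] at h5
    have h6 : 0 < t ^ d := by positivity
    have h7 : (4:ℝ) ^ d / c * (t ^ d)⁻¹ = 1 / (c * (t ^ d / 4 ^ d)) := by
      field_simp
    rw [h7, le_div_iff₀ (by positivity)]
    exact h5
  have hbdd : BddAbove {n | P n} := by
    refine ⟨⌊4 ^ d / c * (t ^ d)⁻¹⌋₊, fun n hn => ?_⟩
    exact Nat.le_floor (hbd n hn)
  have hne : {n | P n}.Nonempty := ⟨0, ∅, by simp, by simp⟩
  obtain ⟨s, hsc, hs⟩ := Nat.sSup_mem hne hbdd
  have hmax : ∀ z : S d, ∃ x ∈ s, dist z x ≤ t / 2 := by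
    intro z
    by_contra hcon
    push Not at hcon
    have hz : z ∉ s := by
      intro hz
      have := hcon z hz
      rw [dist_self] at this
      linarith
    have h1 : s.card + 1 ∈ {n | P n} := by
      refine ⟨insert z s, Finset.card_insert_of_notMem hz, ?_⟩
      intro x hx y hy hxy
      rw [Finset.mem_insert] at hx hy
      rcases hx with rfl | hx <;> rcases hy with rfl | hy
      · exact absurd rfl hxy
      · exact hcon y hy
      · rw [dist_comm]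
        exact hcon x hx
      · exact hs x hx y hy hxy
    have h2 := le_csSup hbdd h1
    rw [← hsc] at h2
    omega
  let e : Fin s.card ≃ s := s.equivFin.symm
  let B : Fin s.card → Set (S d) := fun i => Metric.closedBall (e i : S d) (t / 2)
  refine ⟨s.card, fun i => B i \ ⋃ j ∈ {j | j < i}, B j, ?_, ?_, ?_, ?_, ?_⟩
  · exact hbd _ ⟨s, rfl, hs⟩
  · intro i
    refine Metric.isClosed_closedBall.measurableSet.diff ?_
    exact MeasurableSet.biUnion (Set.to_countable _)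
      (fun j _ => Metric.isClosed_closedBall.measurableSet)
  · intro i j hij
    refine Set.disjoint_left.2 fun z hz1 hz2 => ?_
    rcases lt_or_gt_of_ne hij with h | h
    · exact hz2.2 (Set.mem_biUnion h hz1.1)
    · exact hz1.2 (Set.mem_biUnion h hz2.1)
  · refine Set.eq_univ_of_forall fun z => ?_
    obtain ⟨x, hx, hzx⟩ := hmax z
    have h1 : (Finset.univ.filter (fun i => z ∈ B i)).Nonempty := by
      refine ⟨e.symm ⟨x, hx⟩, ?_⟩
      simp only [Finset.mem_filter, Finset.mem_univ, true_and, B, Equiv.apply_symm_apply]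
      exact Metric.mem_closedBall.2 hzx
    refine Set.mem_iUnion.2 ⟨(Finset.univ.filter (fun i => z ∈ B i)).min' h1, ?_, ?_⟩
    · exact (Finset.mem_filter.1 (Finset.min'_mem _ h1)).2
    · intro hz
      obtain ⟨j, hj, hz⟩ := Set.mem_iUnion₂.1 hz
      exact absurd (Finset.min'_le _ j (Finset.mem_filter.2 ⟨Finset.mem_univ _, hz⟩)) (not_le.2 hj)
  · intro i x hx y hy
    have h1 := Metric.mem_closedBall.1 hx.1
    have h2 := Metric.mem_closedBall.1 hy.1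
    have h3 := dist_triangle_right x y (e i : S d)
    linarith

set_option linter.unusedSectionVars false

section

variable {d : ℕ} {H : Type} [NormedAddCommGroup H] [InnerProductSpace ℝ H] [CompleteSpace H]

/-- rounding with error `c` -/
def R (Φ : E d → H) (ρ : Measure (S d)) (m : ℕ) (c : ℝ) : Prop :=
  ∀ e : H, ∃ t : Multiset (S d), Multiset.card t = m ∧
    ‖e + (t.map (fun x : S d => Φ x)).sum - ∫ x : S d, Φ x ∂ρ‖ ^ 2 ≤ ‖e‖ ^ 2 + c

theorem cont {Φ : E d → H} {a : ℝ} (ha : 0 < a) (hΦ : ∀ u v, ‖Φ u - Φ v‖ ^ 2 = ‖u - v‖ ^ a) :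
    Continuous Φ := by
  rw [continuous_iff_continuousAt]
  intro u
  rw [ContinuousAt, tendsto_iff_norm_sub_tendsto_zero]
  have h1 : Tendsto (fun v => ‖Φ v - Φ u‖ ^ 2) (𝓝 u) (𝓝 0) := by
    simp only [hΦ]
    have h2 : Tendsto (fun v => ‖v - u‖) (𝓝 u) (𝓝 0) := by
      rw [← tendsto_iff_norm_sub_tendsto_zero]
      exact tendsto_id
    have h3 := h2.rpow_const (p := a) (Or.inr ha.le)
    rwa [Real.zero_rpow ha.ne'] at h3
  have h4 := h1.sqrt
  simpa [Real.sqrt_sq] using h4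

theorem integrable {Φ : E d → H} (hc : Continuous Φ) (ρ : Measure (S d)) [IsFiniteMeasure ρ] :
    Integrable (fun x : S d => Φ x) ρ := by
  have h1 : Continuous (fun x : S d => Φ x) := hc.comp continuous_subtype_val
  exact h1.integrable_of_hasCompactSupport (HasCompactSupport.of_compactSpace _)

theorem R_zero (Φ : E d → H) {ρ : Measure (S d)} (h : ρ univ = 0) (c : ℝ) (hc : 0 ≤ c) :
    R Φ ρ 0 c := by
  intro e
  refine ⟨0, rfl, ?_⟩
  rw [Measure.measure_univ_eq_zero] at h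
  subst h
  simp [hc]

theorem R_mono {Φ : E d → H} {ρ : Measure (S d)} {m : ℕ} {c c' : ℝ} (h : R Φ ρ m c)
    (hc : c ≤ c') : R Φ ρ m c' := by
  intro e
  obtain ⟨t, ht, h⟩ := h e
  exact ⟨t, ht, by linarith⟩

theorem R_add {Φ : E d → H} (hcont : Continuous Φ) {ρ₁ ρ₂ : Measure (S d)} [IsFiniteMeasure ρ₁]
    [IsFiniteMeasure ρ₂] {m₁ m₂ : ℕ} {c₁ c₂ : ℝ} (h₁ : R Φ ρ₁ m₁ c₁) (h₂ : R Φ ρ₂ m₂ c₂) :
    R Φ (ρ₁ + ρ₂) (m₁ + m₂) (c₁ + c₂) := by
  intro e
  obtain ⟨t₁, ht₁, h₁⟩ := h₁ e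
  obtain ⟨t₂, ht₂, h₂⟩ := h₂ (e + (t₁.map (fun x : S d => Φ x)).sum - ∫ x : S d, Φ x ∂ρ₁)
  refine ⟨t₁ + t₂, by simp [ht₁, ht₂], ?_⟩
  rw [integral_add_measure (integrable hcont ρ₁) (integrable hcont ρ₂), Multiset.map_add,
    Multiset.sum_add]
  have h3 : e + ((t₁.map (fun x : S d => Φ x)).sum + (t₂.map (fun x : S d => Φ x)).sum) -
      (∫ x : S d, Φ x ∂ρ₁ + ∫ x : S d, Φ x ∂ρ₂) =
      e + (t₁.map (fun x : S d => Φ x)).sum - ∫ x : S d, Φ x ∂ρ₁ +
        (t₂.map (fun x : S d => Φ x)).sum - ∫ x : S d, Φ x ∂ρ₂ := by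
    abel
  rw [h3]
  linarith

/-- A probability measure carried by a set of small diameter. -/
theorem R_prob {Φ : E d → H} {a : ℝ} (ha : 0 < a) (hΦ : ∀ u v, ‖Φ u - Φ v‖ ^ 2 = ‖u - v‖ ^ a)
    (ρ : Measure (S d)) [IsProbabilityMeasure ρ] {D : ℝ} (hD : 0 ≤ D)
    (hρ : ∀ᵐ x ∂ρ, ∀ᵐ y ∂ρ, dist x y ≤ D) : R Φ ρ 1 (D ^ a) := by
  have hcont := cont ha hΦ
  intro e
  have hint := integrable hcont ρ
  set M : H := ∫ x : S d, Φ x ∂ρ with hM
  have hcont' : Continuous (fun x : S d => Φ x - M) :=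
    (hcont.comp continuous_subtype_val).sub continuous_const
  have h1 : ∀ᵐ x : S d ∂ρ, ‖Φ x - M‖ ^ 2 ≤ D ^ a := by
    filter_upwards [hρ] with x hx
    have h2 : Φ x - M = ∫ y : S d, (Φ x - Φ y) ∂ρ := by
      rw [integral_sub (integrable_const _) hint]
      simp [hM]
    have h3 : ‖Φ x - M‖ ≤ D ^ (a / 2) := by
      rw [h2]
      have h4 := norm_integral_le_of_norm_le_const (μ := ρ) (f := fun y : S d => Φ x - Φ y)
        (C := D ^ (a / 2)) (by
          filter_upwards [hx] with y hy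
          have h5 := hΦ x y
          have h6 : ‖(x : E d) - y‖ ^ a ≤ D ^ a := by
            refine Real.rpow_le_rpow (norm_nonneg _) ?_ ha.le
            rw [← dist_eq_norm]
            exact hy
          have h7 : (D ^ (a / 2)) ^ 2 = D ^ a := by
            rw [← Real.rpow_natCast, ← Real.rpow_mul hD]
            norm_num
          refine le_of_sq_le_sq ?_ (by positivity)
          rw [h5, h7]
          exact h6)
      simpa using h4
    calc ‖Φ x - M‖ ^ 2 ≤ (D ^ (a / 2)) ^ 2 := by gcongr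
      _ = D ^ a := by
          rw [← Real.rpow_natCast, ← Real.rpow_mul hD]
          norm_num
  have hi1 : Integrable (fun x : S d => ‖Φ x - M‖ ^ 2) ρ :=
    (hcont'.norm.pow 2).integrable_of_hasCompactSupport (HasCompactSupport.of_compactSpace _)
  have hi2 : Integrable (fun x : S d => 2 * inner ℝ e (Φ x - M)) ρ :=
    (continuous_const.mul (continuous_const.inner hcont')).integrable_of_hasCompactSupport
      (HasCompactSupport.of_compactSpace _)
  have h2 : ∀ x : S d, ‖e + (Φ x - M)‖ ^ 2 = ‖e‖ ^ 2 + 2 * inner ℝ e (Φ x - M) + ‖Φ x - M‖ ^ 2 :=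
    fun x => norm_add_sq_real _ _
  have hi3 : Integrable (fun x : S d => ‖e + (Φ x - M)‖ ^ 2) ρ := by
    simp only [h2]
    exact ((integrable_const _).add hi2).add hi1
  have h3 : ∫ x : S d, ‖e + (Φ x - M)‖ ^ 2 ∂ρ ≤ ‖e‖ ^ 2 + D ^ a := by
    simp only [h2]
    have hi4 : Integrable (fun x : S d => ‖e‖ ^ 2 + 2 * inner ℝ e (Φ x - M)) ρ :=
      (integrable_const _).add hi2
    rw [integral_add hi4 hi1, integral_add (integrable_const _) hi2,
      integral_const_mul]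
    have h4 : ∫ x : S d, inner ℝ e (Φ x - M) ∂ρ = 0 := by
      have hi5 : Integrable (fun x : S d => Φ x - M) ρ := hint.sub (integrable_const _)
      rw [integral_inner (𝕜 := ℝ) hi5, integral_sub hint (integrable_const _)]
      simp [hM]
    rw [h4]
    have h5 : ∫ x : S d, ‖Φ x - M‖ ^ 2 ∂ρ ≤ D ^ a := by
      have h6 := integral_mono_ae hi1 (integrable_const (D ^ a)) h1
      simpa using h6
    have h7 : ∫ x : S d, ‖e‖ ^ 2 ∂ρ = ‖e‖ ^ 2 := by simp
    rw [h7]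
    linarith
  obtain ⟨x, hx⟩ := exists_le_integral hi3
  refine ⟨{x}, by simp, ?_⟩
  have h8 : e + (({x} : Multiset (S d)).map (fun x : S d => Φ x)).sum - M = e + (Φ x - M) := by
    simp [add_sub_assoc]
  rw [h8]
  linarith

theorem R_nsmul {Φ : E d → H} {a : ℝ} (ha : 0 < a) (hΦ : ∀ u v, ‖Φ u - Φ v‖ ^ 2 = ‖u - v‖ ^ a)
    (ρ : Measure (S d)) [IsProbabilityMeasure ρ] {D : ℝ} (hD : 0 ≤ D)
    (hρ : ∀ᵐ x ∂ρ, ∀ᵐ y ∂ρ, dist x y ≤ D) (n : ℕ) : R Φ ((n : ℝ≥0∞) • ρ) n (n * D ^ a) := by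
  induction n with
  | zero => exact R_zero Φ (by simp) _ (by simp)
  | succ n ih =>
    have h1 : ((n + 1 : ℕ) : ℝ≥0∞) • ρ = (n : ℝ≥0∞) • ρ + ρ := by
      rw [Nat.cast_add, Nat.cast_one, add_smul, one_smul]
    rw [h1]
    have : IsFiniteMeasure ((n : ℝ≥0∞) • ρ) := ⟨by simp⟩
    have h2 := R_add (cont ha hΦ) ih (R_prob ha hΦ ρ hD hρ)
    push_cast
    rw [add_mul, one_mul]
    exact h2

/-- Splitting off the integer part of a finite measure carried by a set of small diameter. -/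
theorem split {Φ : E d → H} {a : ℝ} (ha : 0 < a) (hΦ : ∀ u v, ‖Φ u - Φ v‖ ^ 2 = ‖u - v‖ ^ a)
    (ρ : Measure (S d)) [IsFiniteMeasure ρ] {D : ℝ} (hD : 0 ≤ D)
    (hρ : ∀ᵐ x ∂ρ, ∀ᵐ y ∂ρ, dist x y ≤ D) :
    ∃ (m : ℕ) (α β : Measure (S d)), IsFiniteMeasure α ∧ IsFiniteMeasure β ∧ ρ = α + β ∧
      α univ = m ∧ β univ ≤ 1 ∧ R Φ α m (m * D ^ a) := by
  by_cases h0 : ρ univ = 0
  · exact ⟨0, 0, ρ, inferInstance, inferInstance, by simp, by simp, by simp [h0],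
      R_zero Φ (by simp) _ (by simp)⟩
  have htop : ρ univ ≠ ⊤ := measure_ne_top _ _
  let ν : Measure (S d) := (ρ univ)⁻¹ • ρ
  have hν : IsProbabilityMeasure ν := ⟨by
    simp only [ν, Measure.smul_apply, smul_eq_mul]
    exact ENNReal.inv_mul_cancel h0 htop⟩
  let m : ℕ := ⌊(ρ univ).toReal⌋₊
  have hm : (m : ℝ≥0∞) ≤ ρ univ := by
    rw [← ENNReal.ofReal_toReal htop, ← ENNReal.ofReal_natCast]
    exact ENNReal.ofReal_le_ofReal (Nat.floor_le ENNReal.toReal_nonneg)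
  have hm2 : ρ univ ≤ m + 1 := by
    rw [← ENNReal.ofReal_toReal htop]
    have h1 : ((m : ℝ≥0∞) + 1) = ENNReal.ofReal ((m : ℝ) + 1) := by
      rw [ENNReal.ofReal_add (by positivity) (by norm_num), ENNReal.ofReal_natCast,
        ENNReal.ofReal_one]
    rw [h1]
    exact ENNReal.ofReal_le_ofReal (Nat.lt_floor_add_one _).le
  have hρν : ρ = (ρ univ) • ν := by
    simp only [ν, smul_smul]
    rw [ENNReal.mul_inv_cancel h0 htop, one_smul]
  have hadd : (m : ℝ≥0∞) + (ρ univ - m) = ρ univ := add_tsub_cancel_of_le hm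
  refine ⟨m, (m : ℝ≥0∞) • ν, (ρ univ - m) • ν, ⟨by simp⟩,
    ⟨by
      simp only [Measure.smul_apply, smul_eq_mul, measure_univ, mul_one]
      exact lt_of_le_of_lt tsub_le_self (lt_top_iff_ne_top.2 htop)⟩, ?_, by simp, ?_, ?_⟩
  · rw [← add_smul, hadd]
    exact hρν
  · simp only [Measure.smul_apply, smul_eq_mul, measure_univ, mul_one]
    exact tsub_le_iff_left.2 hm2
  · have hac : ν ≪ ρ := Measure.smul_absolutelyContinuous
    refine R_nsmul ha hΦ ν hD ?_ m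
    filter_upwards [hac.ae_le hρ] with x hx
    exact hac.ae_le hx

theorem sphere_dist (x y : S d) : dist x y ≤ 2 := by
  have h1 := norm_sub_le (x : E d) (y : E d)
  rw [norm_eq_of_mem_sphere x, norm_eq_of_mem_sphere y] at h1
  rw [Subtype.dist_eq, dist_eq_norm]
  linarith

theorem R_whole {Φ : E d → H} {a : ℝ} (ha : 0 < a) (hΦ : ∀ u v, ‖Φ u - Φ v‖ ^ 2 = ‖u - v‖ ^ a)
    (ρ : Measure (S d)) (m : ℕ) (hm : ρ univ = m) : R Φ ρ m (m * 2 ^ a) := by
  rcases Nat.eq_zero_or_pos m with h0 | hpos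
  · subst h0
    exact R_zero Φ (by simpa using hm) _ (by simp)
  · have hm0 : (m : ℝ≥0∞) ≠ 0 := by
      simp only [ne_eq, Nat.cast_eq_zero]
      omega
    have hmt : (m : ℝ≥0∞) ≠ ⊤ := ENNReal.natCast_ne_top m
    let ν : Measure (S d) := (m : ℝ≥0∞)⁻¹ • ρ
    have hν : IsProbabilityMeasure ν := ⟨by
      simp only [ν, Measure.smul_apply, smul_eq_mul]
      rw [hm]
      exact ENNReal.inv_mul_cancel hm0 hmt⟩
    have hρν : ρ = (m : ℝ≥0∞) • ν := by
      simp only [ν, smul_smul]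
      rw [ENNReal.mul_inv_cancel hm0 hmt, one_smul]
    rw [hρν]
    exact R_nsmul ha hΦ ν (by norm_num) (ae_of_all _ fun x => ae_of_all _ fun y => sphere_dist x y) m

theorem R_sum {Φ : E d → H} (hcont : Continuous Φ) {ι : Type} (s : Finset ι)
    (α : ι → Measure (S d)) (hα : ∀ i, IsFiniteMeasure (α i)) (m : ι → ℕ) (c : ι → ℝ)
    (h : ∀ i, R Φ (α i) (m i) (c i)) :
    IsFiniteMeasure (∑ i ∈ s, α i) ∧ R Φ (∑ i ∈ s, α i) (∑ i ∈ s, m i) (∑ i ∈ s, c i) := by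
  classical
  induction s using Finset.induction_on with
  | empty =>
    refine ⟨?_, ?_⟩
    · simp only [Finset.sum_empty]
      infer_instance
    · simp only [Finset.sum_empty]
      exact R_zero Φ (by simp) _ le_rfl
  | insert i s hi ih =>
    obtain ⟨h1, h2⟩ := ih
    have := hα i
    rw [Finset.sum_insert hi, Finset.sum_insert hi, Finset.sum_insert hi]
    exact ⟨inferInstance, R_add hcont (h i) h2⟩

theorem step {Φ : E d → H} {a : ℝ} (ha : 0 < a) (hΦ : ∀ u v, ‖Φ u - Φ v‖ ^ 2 = ‖u - v‖ ^ a)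
    (ρ : Measure (S d)) {m : ℕ} (hm : ρ univ = m) {D : ℝ} (hD : 0 ≤ D) {n : ℕ}
    (A : Fin n → Set (S d)) (hA : ∀ i, MeasurableSet (A i))
    (hdisj : Pairwise (Function.onFun Disjoint A)) (hU : ⋃ i, A i = univ)
    (hdiam : ∀ i, ∀ x ∈ A i, ∀ y ∈ A i, dist x y ≤ D) :
    ∃ (M m' : ℕ) (α β : Measure (S d)), IsFiniteMeasure α ∧ IsFiniteMeasure β ∧ ρ = α + β ∧
      m = M + m' ∧ m' ≤ n ∧ β univ = m' ∧ R Φ α M (M * D ^ a) := by
  have hfin : IsFiniteMeasure ρ := ⟨by rw [hm]; exact ENNReal.natCast_lt_top m⟩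
  have h1 : ∀ i, ∃ (M : ℕ) (α β : Measure (S d)), IsFiniteMeasure α ∧ IsFiniteMeasure β ∧
      ρ.restrict (A i) = α + β ∧ α univ = M ∧ β univ ≤ 1 ∧ R Φ α M (M * D ^ a) := by
    intro i
    refine split ha hΦ (ρ.restrict (A i)) hD ?_
    filter_upwards [ae_restrict_mem (hA i)] with x hx
    filter_upwards [ae_restrict_mem (hA i)] with y hy
    exact hdiam i x hx y hy
  choose M α β hα hβ hαβ hαM hβ1 hR using h1
  obtain ⟨h2, h3⟩ := R_sum (cont ha hΦ) Finset.univ α hα M (fun i => M i * D ^ a) hR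
  have h4 : ρ = (∑ i, α i) + ∑ i, β i := by
    rw [← Finset.sum_add_distrib]
    calc ρ = ρ.restrict (⋃ i, A i) := by rw [hU, Measure.restrict_univ]
      _ = Measure.sum fun i => ρ.restrict (A i) := Measure.restrict_iUnion hdisj hA
      _ = ∑ i, ρ.restrict (A i) := Measure.sum_fintype _
      _ = ∑ i, (α i + β i) := Finset.sum_congr rfl fun i _ => hαβ i
  have h5 : (∑ i, α i) univ = ((∑ i, M i : ℕ) : ℝ≥0∞) := by
    rw [Measure.finsetSum_apply, Nat.cast_sum]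
    exact Finset.sum_congr rfl fun i _ => hαM i
  have h6 : (∑ i, β i) univ ≤ (n : ℝ≥0∞) := by
    rw [Measure.finsetSum_apply]
    calc ∑ i, (β i) univ ≤ ∑ i : Fin n, (1 : ℝ≥0∞) := Finset.sum_le_sum fun i _ => hβ1 i
      _ = n := by simp
  have h7 : (m : ℝ≥0∞) = ((∑ i, M i : ℕ) : ℝ≥0∞) + (∑ i, β i) univ := by
    rw [← hm, ← h5]
    conv_lhs => rw [h4]
    rfl
  have h8 : ∑ i, M i ≤ m := by
    have h9 : ((∑ i, M i : ℕ) : ℝ≥0∞) ≤ m := by
      rw [h7]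
      exact le_self_add
    exact_mod_cast h9
  have h10 : (∑ i, β i) univ = ((m - ∑ i, M i : ℕ) : ℝ≥0∞) := by
    rw [ENNReal.natCast_sub, h7]
    exact (ENNReal.add_sub_cancel_left (ENNReal.natCast_ne_top _)).symm
  refine ⟨∑ i, M i, m - ∑ i, M i, ∑ i, α i, ∑ i, β i, h2, ⟨?_⟩, h4, by omega, ?_, h10, ?_⟩
  · exact lt_of_le_of_lt h6 (ENNReal.natCast_lt_top n)
  · rw [h10] at h6
    exact_mod_cast h6
  · rw [← Finset.sum_mul] at h3
    rw [Nat.cast_sum]
    exact h3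

theorem claim (a : ℝ) (ha : 0 < a) (had : a < d)
    (Φ : E d → H) (hΦ : ∀ u v, ‖Φ u - Φ v‖ ^ 2 = ‖u - v‖ ^ a) :
    ∃ C : ℝ, 0 ≤ C ∧ ∀ (k : ℕ) (ρ : Measure (S d)) (m : ℕ), ρ univ = m →
      R Φ ρ m (m * (2 * (1 / 2 : ℝ) ^ k) ^ a + C * ((2:ℝ) ^ k) ^ ((d:ℝ) - a)) := by
  obtain ⟨C, hC, hcov⟩ := cover d
  have hq : 1 < (2:ℝ) ^ ((d:ℝ) - a) := Real.one_lt_rpow (by norm_num) (by linarith)
  refine ⟨C * 2 ^ a / ((2:ℝ) ^ ((d:ℝ) - a) - 1), by
    have : 0 < (2:ℝ) ^ ((d:ℝ) - a) - 1 := by linarith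
    positivity, ?_⟩
  set C3 := C * 2 ^ a / ((2:ℝ) ^ ((d:ℝ) - a) - 1) with hC3
  have hC30 : 0 ≤ C3 := by
    have : 0 < (2:ℝ) ^ ((d:ℝ) - a) - 1 := by linarith
    positivity
  intro k
  induction k with
  | zero =>
    intro ρ m hm
    refine R_mono (R_whole ha hΦ ρ m hm) ?_
    simp [hC30]
  | succ k ih =>
    intro ρ m hm
    have hD : (0:ℝ) < (1 / 2) ^ k := by positivity
    have hD2 : ((1:ℝ) / 2) ^ k ≤ 2 :=
      (pow_le_one₀ (by norm_num) (by norm_num)).trans (by norm_num)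
    obtain ⟨n, A, hn, hA, hdisj, hU, hdiam⟩ := hcov _ hD hD2
    obtain ⟨M, m', α, β, hα, hβ, hαβ, hmm, hmn, hβm, hR⟩ :=
      step ha hΦ ρ hm hD.le A hA hdisj hU hdiam
    have h1 := R_add (cont ha hΦ) hR (ih β m' hβm)
    rw [← hαβ, ← hmm] at h1
    refine R_mono h1 ?_
    have h2 : (2 * (1 / 2 : ℝ) ^ (k + 1)) = (1 / 2) ^ k := by
      rw [pow_succ]
      ring
    rw [h2]
    have h3 : (M : ℝ) * ((1 / 2 : ℝ) ^ k) ^ a ≤ m * ((1 / 2 : ℝ) ^ k) ^ a := by
      have : (M:ℝ) ≤ m := by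
        have : M ≤ m := by omega
        exact_mod_cast this
      gcongr
    have h4 : (m' : ℝ) * (2 * (1 / 2 : ℝ) ^ k) ^ a ≤ C * 2 ^ a * ((2:ℝ) ^ k) ^ ((d:ℝ) - a) := by
      have h5 : (m' : ℝ) ≤ C * (((1 / 2 : ℝ) ^ k) ^ d)⁻¹ := by
        refine le_trans ?_ hn
        exact_mod_cast hmn
      have h6 : ((1 / 2 : ℝ) ^ k) = ((2:ℝ) ^ k)⁻¹ := by
        rw [one_div, inv_pow]
      have h7 : (0:ℝ) < 2 ^ k := by positivity
      calc (m' : ℝ) * (2 * (1 / 2 : ℝ) ^ k) ^ a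
          ≤ C * (((1 / 2 : ℝ) ^ k) ^ d)⁻¹ * (2 * (1 / 2 : ℝ) ^ k) ^ a := by gcongr
        _ = C * 2 ^ a * ((2:ℝ) ^ k) ^ ((d:ℝ) - a) := by
          rw [Real.mul_rpow (by norm_num) hD.le, h6, Real.inv_rpow h7.le, inv_pow, inv_inv,
            Real.rpow_sub h7, Real.rpow_natCast]
          ring
    have h8 : ((2:ℝ) ^ (k + 1)) ^ ((d:ℝ) - a) = ((2:ℝ) ^ k) ^ ((d:ℝ) - a) * 2 ^ ((d:ℝ) - a) := by
      rw [pow_succ, Real.mul_rpow (by positivity) (by norm_num)]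
    have h9 : C * 2 ^ a = C3 * ((2:ℝ) ^ ((d:ℝ) - a) - 1) := by
      rw [hC3]
      have : (2:ℝ) ^ ((d:ℝ) - a) - 1 ≠ 0 := by
        intro h
        linarith
      field_simp
    rw [h8]
    rw [h9] at h4
    nlinarith

end

theorem pool_round (d : ℕ) (hd : 1 ≤ d) (a : ℝ) (ha : 0 < a) (ha2 : a < 2) (had : a < d)
    {H : Type} [NormedAddCommGroup H] [InnerProductSpace ℝ H] [CompleteSpace H]
    (Φ : E d → H) (hΦ : ∀ u v, ‖Φ u - Φ v‖ ^ 2 = ‖u - v‖ ^ a) :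
    ∃ C : ℝ, 0 ≤ C ∧ ∀ (ρ : Measure (S d)) (m : ℕ), ρ univ = m → ∀ e : H,
      ∃ t : Multiset (S d), Multiset.card t = m ∧
        ‖e + (t.map (fun x : S d => Φ x)).sum - ∫ x : S d, Φ x ∂ρ‖ ^ 2 ≤
          ‖e‖ ^ 2 + C * (m:ℝ) ^ (1 - a / d) := by
  have hdpos : (0:ℝ) < d := by exact_mod_cast hd
  obtain ⟨C, hC, h⟩ := claim a ha had Φ hΦ
  refine ⟨4 ^ a + C, by positivity, fun ρ m hm e => ?_⟩
  rcases Nat.eq_zero_or_pos m with h0 | hpos
  · subst h0
    obtain ⟨t, ht, h1⟩ := R_zero Φ (by simpa using hm) 0 le_rfl e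
    refine ⟨t, ht, h1.trans ?_⟩
    have : 0 ≤ (4 ^ a + C) * ((0:ℕ):ℝ) ^ (1 - a / d) := by positivity
    linarith
  · have hmr : (1:ℝ) ≤ m := by exact_mod_cast hpos
    set k := Nat.log (2 ^ d) m with hk
    have h2d : 1 < 2 ^ d := Nat.one_lt_pow (by omega) (by norm_num)
    have h1 : (2 ^ d) ^ k ≤ m := Nat.pow_log_le_self _ (by omega)
    have h2 : m < (2 ^ d) ^ (k + 1) := Nat.lt_pow_succ_log_self h2d m
    set x : ℝ := (m:ℝ) ^ (1 / (d:ℝ)) with hx
    have hx0 : 0 < x := by positivity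
    have hxm : x ^ (d:ℝ) = m := by
      rw [hx, ← Real.rpow_mul (by positivity)]
      rw [one_div, inv_mul_cancel₀ hdpos.ne', Real.rpow_one]
    have h3 : (2:ℝ) ^ k ≤ x := by
      have h4 : ((2:ℝ) ^ k) ^ (d:ℝ) ≤ x ^ (d:ℝ) := by
        rw [hxm, Real.rpow_natCast, ← pow_mul, mul_comm, pow_mul]
        exact_mod_cast h1
      exact (Real.rpow_le_rpow_iff (by positivity) hx0.le hdpos).1 h4
    have h5 : x ≤ (2:ℝ) ^ (k + 1) := by
      have h4 : x ^ (d:ℝ) ≤ ((2:ℝ) ^ (k + 1)) ^ (d:ℝ) := by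
        rw [hxm, Real.rpow_natCast, ← pow_mul, mul_comm, pow_mul]
        exact_mod_cast h2.le
      exact (Real.rpow_le_rpow_iff hx0.le (by positivity) hdpos).1 h4
    obtain ⟨t, ht, h6⟩ := h k ρ m hm e
    refine ⟨t, ht, h6.trans ?_⟩
    have h7 : (m:ℝ) ^ (1 - a / d) = x ^ ((d:ℝ) - a) := by
      rw [hx, ← Real.rpow_mul (by positivity)]
      congr 1
      field_simp
    have h8 : ((2:ℝ) ^ k) ^ ((d:ℝ) - a) ≤ x ^ ((d:ℝ) - a) :=
      Real.rpow_le_rpow (by positivity) h3 (by linarith)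
    have h9 : (m:ℝ) * (2 * (1 / 2 : ℝ) ^ k) ^ a ≤ 4 ^ a * x ^ ((d:ℝ) - a) := by
      have h10 : 2 * (1 / 2 : ℝ) ^ k ≤ 4 / x := by
        rw [le_div_iff₀ hx0, one_div, inv_pow]
        rw [pow_succ] at h5
        have h11 : (0:ℝ) < 2 ^ k := by positivity
        calc 2 * ((2:ℝ) ^ k)⁻¹ * x ≤ 2 * ((2:ℝ) ^ k)⁻¹ * (2 ^ k * 2) := by gcongr
          _ = 4 := by
            field_simp
            norm_num
      calc (m:ℝ) * (2 * (1 / 2 : ℝ) ^ k) ^ a ≤ m * (4 / x) ^ a := by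
            have := Real.rpow_le_rpow (by positivity) h10 ha.le
            gcongr
        _ = 4 ^ a * x ^ ((d:ℝ) - a) := by
            rw [Real.div_rpow (by norm_num) hx0.le, Real.rpow_sub hx0, hxm]
            ring
    rw [h7, add_mul]
    have h12 : C * ((2:ℝ) ^ k) ^ ((d:ℝ) - a) ≤ C * x ^ ((d:ℝ) - a) :=
      mul_le_mul_of_nonneg_left h8 hC
    linarith

end Pool.Agent.TH596.J236
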