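import Pool.Agent.TH563.Z.Defs

/-!
# Job 367 (Z-INEQ): the exponents
-/

set_option autoImplicit false

namespace Pool.Agent.TH596.J367

open Finset Filter Topology Metric
open Pool.Agent.TH563.Z
open Pool.Agent.W711.HT (bet)
open scoped Real

/-- `log (2 sin t)` -/
noncomputable def h (t : ℝ) : ℝ := Real.log (2 * Real.sin t)

/-- the inverse Gudermannian -/
noncomputable def Li (t : ℝ) : ℝ := Real.arsinh (Real.tan t)

lemma h_int (a b : ℝ) : IntervalIntegrable h MeasureTheory.volume a b := by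
  have h1 : IntervalIntegrable (fun t => Real.log 2 + Real.log (Real.sin t))
      MeasureTheory.volume a b :=
    intervalIntegrable_const.add (intervalIntegrable_log_sin)
  refine h1.congr_ae ?_
  have h2 : ∀ᵐ t : ℝ ∂(MeasureTheory.volume), Real.sin t ≠ 0 := by
    have h3 : {t : ℝ | ¬ Real.sin t ≠ 0}.Countable := by
      have h4 : {t : ℝ | ¬ Real.sin t ≠ 0} ⊆ Set.range (fun n : ℤ => (n : ℝ) * π) := by
        intro t ht
        simp only [ne_eq, not_not, Set.mem_ofPred_eq] at ht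
        obtain ⟨n, hn⟩ := Real.sin_eq_zero_iff.1 ht
        exact ⟨n, hn⟩
      exact (Set.countable_range _).mono h4
    exact h3.measure_zero _
  filter_upwards [MeasureTheory.ae_restrict_of_ae h2] with t ht
  rw [h, Real.log_mul (by norm_num) ht]

lemma triple {u : ℝ} (h0 : 0 < u) (h1 : u ≤ π / 12) :
    h (3 * u) = h u + h (π / 3 - u) + h (π / 3 + u) := by
  have hpi := Real.pi_pos
  have s1 : 0 < Real.sin u := Real.sin_pos_of_pos_of_lt_pi h0 (by linarith)
  have s2 : 0 < Real.sin (π / 3 - u) := Real.sin_pos_of_pos_of_lt_pi (by linarith) (by linarith)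
  have s3 : 0 < Real.sin (π / 3 + u) := Real.sin_pos_of_pos_of_lt_pi (by linarith) (by linarith)
  unfold h
  rw [← Real.log_mul (by positivity) (by positivity), ← Real.log_mul (by positivity) (by positivity)]
  congr 1
  rw [Real.sin_sub, Real.sin_add, Real.sin_three_mul, Real.sin_pi_div_three, Real.cos_pi_div_three]
  have h2 := Real.sin_sq_add_cos_sq u
  have h3 : √3 * √3 = 3 := Real.mul_self_sqrt (by norm_num)
  have h4 : Real.cos u ^ 2 = 1 - Real.sin u ^ 2 := by linarith
  have h5 : 2 * Real.sin u * (2 * (√3 / 2 * Real.cos u - 1 / 2 * Real.sin u)) *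
      (2 * (√3 / 2 * Real.cos u + 1 / 2 * Real.sin u)) =
      2 * Real.sin u * ((√3 * √3) * Real.cos u ^ 2 - Real.sin u ^ 2) := by ring
  rw [h5, h3, h4]
  ring

lemma lob_id : (∫ t in (π / 4)..(5 * π / 12), h t) - (∫ t in (π / 12)..(π / 4), h t) =
    -(2 / 3) * ∫ t in (0:ℝ)..(π / 4), h t := by
  have hpi := Real.pi_pos
  have e1 : ∫ u in (0:ℝ)..(π / 12), h (3 * u) = (1 / 3) * ∫ t in (0:ℝ)..(π / 4), h t := by
    rw [intervalIntegral.integral_comp_mul_left h (by norm_num : (3:ℝ) ≠ 0)]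
    simp only [mul_zero, smul_eq_mul]
    rw [show 3 * (π / 12) = π / 4 by ring]
    norm_num
  have e2 : ∫ u in (0:ℝ)..(π / 12), h (π / 3 - u) = ∫ t in (π / 4)..(π / 3), h t := by
    rw [intervalIntegral.integral_comp_sub_left h]
    congr 1 <;> ring
  have e3 : ∫ u in (0:ℝ)..(π / 12), h (π / 3 + u) = ∫ t in (π / 3)..(5 * π / 12), h t := by
    rw [intervalIntegral.integral_comp_add_left h]
    congr 1 <;> ring
  have i2 : IntervalIntegrable (fun u => h (π / 3 - u)) MeasureTheory.volume 0 (π / 12) := by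
    have := (h_int (π / 3) (π / 3 - π / 12)).comp_sub_left (π / 3)
    simpa using this
  have i3 : IntervalIntegrable (fun u => h (π / 3 + u)) MeasureTheory.volume 0 (π / 12) := by
    have := (h_int (π / 3) (π / 3 + π / 12)).comp_add_left (π / 3)
    simpa using this
  have e4 : ∫ u in (0:ℝ)..(π / 12), h (3 * u) = (∫ u in (0:ℝ)..(π / 12), h u) +
      (∫ u in (0:ℝ)..(π / 12), h (π / 3 - u)) + ∫ u in (0:ℝ)..(π / 12), h (π / 3 + u) := by
    rw [← intervalIntegral.integral_add (h_int _ _) i2,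
      ← intervalIntegral.integral_add ((h_int _ _).add i2) i3]
    refine intervalIntegral.integral_congr_ae ?_
    filter_upwards with u hu
    rw [Set.uIoc_of_le (by positivity)] at hu
    exact triple hu.1 hu.2
  rw [e1, e2, e3] at e4
  have a1 := intervalIntegral.integral_add_adjacent_intervals (h_int 0 (π / 12))
    (h_int (π / 12) (π / 4))
  have a2 := intervalIntegral.integral_add_adjacent_intervals (h_int (π / 4) (π / 3))
    (h_int (π / 3) (5 * π / 12))
  linarith

lemma Li_eq {t : ℝ} (h0 : 0 ≤ t) (h1 : t ≤ π / 3) :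
    Li t = h (π / 4 + t / 2) - h (π / 4 - t / 2) := by
  have hpi := Real.pi_pos
  have s1 : 0 < Real.sin (π / 4 + t / 2) := Real.sin_pos_of_pos_of_lt_pi (by linarith) (by linarith)
  have s2 : 0 < Real.sin (π / 4 - t / 2) := Real.sin_pos_of_pos_of_lt_pi (by linarith) (by linarith)
  have c1 : 0 < Real.cos t := Real.cos_pos_of_mem_Ioo ⟨by linarith, by linarith⟩
  have h2 : Real.sqrt (1 + Real.tan t ^ 2) = 1 / Real.cos t := by
    rw [Real.sqrt_eq_iff_mul_self_eq (by positivity) (by positivity), Real.tan_eq_sin_div_cos]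
    have := Real.sin_sq_add_cos_sq t
    field_simp
    linarith
  unfold Li h
  rw [Real.arsinh, h2, ← Real.log_div (by positivity) (by positivity)]
  congr 1
  rw [Real.tan_eq_sin_div_cos]
  have h3 : t = 2 * (t / 2) := by ring
  have h4 : Real.sin t = 2 * Real.sin (t / 2) * Real.cos (t / 2) := by
    conv_lhs => rw [h3]
    exact Real.sin_two_mul _
  have h5 : Real.cos t = Real.cos (t / 2) ^ 2 - Real.sin (t / 2) ^ 2 := by
    conv_lhs => rw [h3]
    exact Real.cos_two_mul' _
  have h6 := Real.sin_sq_add_cos_sq (t / 2)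
  rw [← add_div, div_eq_div_iff c1.ne' (by positivity), Real.sin_add, Real.sin_sub,
    Real.sin_pi_div_four, Real.cos_pi_div_four, h4, h5]
  linear_combination (-√2 * (Real.cos (t / 2) - Real.sin (t / 2))) * h6

lemma Li_cont {b : ℝ} (hb : b < π / 2) : ContinuousOn Li (Set.Icc 0 b) := by
  have hpi := Real.pi_pos
  refine Real.continuous_arsinh.comp_continuousOn (Real.continuousOn_tan.mono ?_)
  intro t ht
  exact (Real.cos_pos_of_mem_Ioo ⟨by linarith [ht.1], by linarith [ht.2]⟩).ne'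

lemma Li_mono {s t : ℝ} (h0 : 0 ≤ s) (hst : s ≤ t) (ht : t < π / 2) : Li s ≤ Li t := by
  have hpi := Real.pi_pos
  refine Real.arsinh_le_arsinh.2 ?_
  rcases eq_or_lt_of_le hst with h | h
  · rw [h]
  · exact (Real.tan_lt_tan_of_lt_of_lt_pi_div_two (by linarith) ht h).le

lemma int_Li : ∫ t in (0:ℝ)..(π / 3), Li t = π / 3 * bet := by
  have hpi := Real.pi_pos
  have i1 : IntervalIntegrable (fun t => h (π / 4 + t / 2)) MeasureTheory.volume 0 (π / 3) := by
    have h1 := ((h_int (π / 4) (5 * π / 12)).comp_add_left (π / 4)).comp_mul_left (c := 1 / 2)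
    convert h1 using 1
    · funext t
      congr 1
      ring
    · simp
    · field_simp
      ring
  have i2 : IntervalIntegrable (fun t => h (π / 4 - t / 2)) MeasureTheory.volume 0 (π / 3) := by
    have h1 := ((h_int (π / 4) (π / 12)).comp_sub_left (π / 4)).comp_mul_left (c := 1 / 2)
    convert h1 using 1
    · funext t
      congr 1
      ring
    · simp
    · field_simp
      ring
  have e1 : ∫ t in (0:ℝ)..(π / 3), Li t = (∫ t in (0:ℝ)..(π / 3), h (π / 4 + t / 2)) -
      ∫ t in (0:ℝ)..(π / 3), h (π / 4 - t / 2) := by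
    rw [← intervalIntegral.integral_sub i1 i2]
    refine intervalIntegral.integral_congr fun t ht => ?_
    rw [Set.uIcc_of_le (by positivity)] at ht
    exact Li_eq ht.1 ht.2
  have e2 : ∫ t in (0:ℝ)..(π / 3), h (π / 4 + t / 2) = 2 * ∫ t in (π / 4)..(5 * π / 12), h t := by
    rw [intervalIntegral.integral_comp_add_div h (by norm_num : (2:ℝ) ≠ 0), smul_eq_mul]
    congr 2 <;> ring
  have e3 : ∫ t in (0:ℝ)..(π / 3), h (π / 4 - t / 2) = 2 * ∫ t in (π / 12)..(π / 4), h t := by
    rw [intervalIntegral.integral_comp_sub_div h (by norm_num : (2:ℝ) ≠ 0), smul_eq_mul]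
    congr 2 <;> ring
  have e4 : bet = -(4 / π) * ∫ t in (0:ℝ)..(π / 4), h t := rfl
  have e5 := lob_id
  rw [e1, e2, e3, e4]
  have e6 : π / 3 * (-(4 / π) * ∫ t in (0:ℝ)..(π / 4), h t) =
      2 * (-(2 / 3) * ∫ t in (0:ℝ)..(π / 4), h t) := by
    field_simp
    ring
  rw [e6, ← e5]
  ring

lemma int_Li_le {θ : ℝ} (h0 : 0 < θ) (h1 : θ ≤ π / 3) : ∫ t in (0:ℝ)..θ, Li t ≤ θ * bet := by
  have hpi := Real.pi_pos
  set r : ℝ := θ / (π / 3) with hr
  have hr0 : 0 < r := by positivity
  have hr1 : r ≤ 1 := by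
    rw [hr, div_le_one (by positivity)]
    exact h1
  have e1 : ∫ t in (0:ℝ)..θ, Li t = r * ∫ s in (0:ℝ)..(π / 3), Li (r * s) := by
    rw [intervalIntegral.integral_comp_mul_left Li hr0.ne', smul_eq_mul, ← mul_assoc,
      mul_inv_cancel₀ hr0.ne', one_mul, mul_zero]
    congr 1
    rw [hr]
    field_simp
  have hc1 := Li_cont (b := π / 3) (by linarith)
  have e2 : ∫ s in (0:ℝ)..(π / 3), Li (r * s) ≤ ∫ s in (0:ℝ)..(π / 3), Li s := by
    refine intervalIntegral.integral_mono_on (by positivity) ?_ ?_ fun s hs => ?_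
    · refine ContinuousOn.intervalIntegrable ?_
      rw [Set.uIcc_of_le (by positivity)]
      refine hc1.comp (by fun_prop) ?_
      intro s hs
      refine ⟨mul_nonneg hr0.le hs.1, ?_⟩
      calc r * s ≤ 1 * s := mul_le_mul_of_nonneg_right hr1 hs.1
        _ ≤ π / 3 := by linarith [hs.2]
    · refine ContinuousOn.intervalIntegrable ?_
      rw [Set.uIcc_of_le (by positivity)]
      exact hc1
    · refine Li_mono (mul_nonneg hr0.le hs.1) ?_ (by linarith [hs.2])
      calc r * s ≤ 1 * s := mul_le_mul_of_nonneg_right hr1 hs.1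
        _ = s := one_mul s
  rw [e1]
  calc r * ∫ s in (0:ℝ)..(π / 3), Li (r * s) ≤ r * ∫ s in (0:ℝ)..(π / 3), Li s :=
        mul_le_mul_of_nonneg_left e2 hr0.le
    _ = θ * bet := by
      rw [int_Li, hr]
      field_simp

lemma gd_Li {θ : ℝ} (h0 : -(π / 2) < θ) (h1 : θ < π / 2) : gd (Li θ) = θ := by
  unfold gd Li
  rw [Real.sinh_arsinh, Real.arctan_tan h0 h1]

lemma int_gd {θ : ℝ} (h0 : 0 < θ) (h1 : θ < π / 2) :
    ∫ t in (0:ℝ)..(Li θ), gd t = θ * Li θ - ∫ t in (0:ℝ)..θ, Li t := by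
  have hgc : Continuous gd := Real.continuous_arctan.comp Real.continuous_sinh
  have hd : ∀ x ∈ Set.uIcc 0 θ, HasDerivAt (fun x => x * Li x - ∫ t in (0:ℝ)..(Li x), gd t)
      (Li x) x := by
    intro x hx
    rw [Set.uIcc_of_le h0.le] at hx
    have hc : 0 < Real.cos x := Real.cos_pos_of_mem_Ioo ⟨by linarith [hx.1], by linarith [hx.2]⟩
    have d1 : HasDerivAt Li ((√(1 + Real.tan x ^ 2))⁻¹ * (1 / Real.cos x ^ 2)) x :=
      (Real.hasDerivAt_arsinh _).comp x (Real.hasDerivAt_tan hc.ne')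
    have d2 : HasDerivAt (fun y => ∫ t in (0:ℝ)..y, gd t) (gd (Li x)) (Li x) :=
      intervalIntegral.integral_hasDerivAt_right (hgc.intervalIntegrable _ _)
        (hgc.stronglyMeasurableAtFilter _ _) hgc.continuousAt
    have d3 := d2.comp x d1
    have d4 : HasDerivAt (fun x => x * Li x - ∫ t in (0:ℝ)..(Li x), gd t)
        (1 * Li x + x * ((√(1 + Real.tan x ^ 2))⁻¹ * (1 / Real.cos x ^ 2)) -
          gd (Li x) * ((√(1 + Real.tan x ^ 2))⁻¹ * (1 / Real.cos x ^ 2))) x :=
      ((hasDerivAt_id x).mul d1).sub d3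
    rw [gd_Li (by linarith [hx.1]) (by linarith [hx.2])] at d4
    exact d4.congr_deriv (by ring)
  have hi : IntervalIntegrable Li MeasureTheory.volume 0 θ := by
    refine ContinuousOn.intervalIntegrable ?_
    rw [Set.uIcc_of_le h0.le]
    exact Li_cont h1
  have h2 := intervalIntegral.integral_eq_sub_of_hasDerivAt hd hi
  have h3 : Li 0 = 0 := by simp [Li]
  simp only [h3, mul_zero, intervalIntegral.integral_same, sub_self, sub_zero] at h2
  linarith

theorem ineq' (k : ℕ) (hk : 3 ≤ k) : Adm (et k) ∧ gd (et k / 2) = π / k ∧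
    (k - 1 : ℝ) * (2 * bet) ≤ k * AA (et k) - et k := by
  have hpi := Real.pi_pos
  have hk3 : (3:ℝ) ≤ k := by exact_mod_cast hk
  set θ : ℝ := π / k with hθ
  have hθ0 : 0 < θ := by positivity
  have hθ3 : θ ≤ π / 3 := by
    rw [hθ]
    gcongr
  have het : et k / 2 = Li θ := by
    rw [et, Li]
    ring
  have hcos : 1 / 2 ≤ Real.cos θ := by
    rw [← Real.cos_pi_div_three]
    exact Real.cos_le_cos_of_nonneg_of_le_pi hθ0.le (by linarith) hθ3
  refine ⟨⟨?_, ?_⟩, ?_, ?_⟩
  · rw [et]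
    have : 0 < Real.arsinh (Real.tan (π / k)) := by
      rw [Real.arsinh_pos_iff]
      exact Real.tan_pos_of_pos_of_lt_pi_div_two hθ0 (by linarith)
    linarith
  · rw [het, Li, Real.cosh_arsinh]
    rw [Real.sqrt_le_left (by norm_num), Real.tan_eq_sin_div_cos, div_pow]
    have h2 := Real.sin_sq_add_cos_sq θ
    have h3 : 0 < Real.cos θ := by linarith
    have h4 : 1 + Real.sin θ ^ 2 / Real.cos θ ^ 2 = 1 / Real.cos θ ^ 2 := by
      field_simp
      linarith
    rw [h4, div_le_iff₀ (by positivity)]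
    nlinarith
  · rw [het]
    exact gd_Li (by linarith) (by linarith)
  · have h1 := int_gd hθ0 (by linarith)
    have h2 := int_Li_le hθ0 hθ3
    have h3 : et k = 2 * Li θ := by linarith
    rw [AA, het, h3, h1]
    have h4 : (k:ℝ) * θ = π := by
      rw [hθ]
      field_simp
    have h5 : (k:ℝ) * (2 * bet + 2 / π * (θ * Li θ - ∫ t in (0:ℝ)..θ, Li t)) - 2 * Li θ =
        2 * k * bet - 2 * k / π * ∫ t in (0:ℝ)..θ, Li t := by
      have h6 : (k:ℝ) * (2 / π * (θ * Li θ)) = 2 * Li θ := by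
        calc (k:ℝ) * (2 / π * (θ * Li θ)) = 2 / π * (k * θ) * Li θ := by ring
          _ = 2 * Li θ := by
            rw [h4]
            field_simp
      have h7 : (k:ℝ) * (2 * bet + 2 / π * (θ * Li θ - ∫ t in (0:ℝ)..θ, Li t)) - 2 * Li θ =
        2 * k * bet + (k:ℝ) * (2 / π * (θ * Li θ)) - 2 * k / π * (∫ t in (0:ℝ)..θ, Li t)
          - 2 * Li θ := by ring
      rw [h7, h6]
      ring
    rw [h5]
    have h8 : 2 * k / π * ∫ t in (0:ℝ)..θ, Li t ≤ 2 * bet := by
      calc 2 * k / π * ∫ t in (0:ℝ)..θ, Li t ≤ 2 * k / π * (θ * bet) := by gcongr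
        _ = 2 / π * (k * θ) * bet := by ring
        _ = 2 * bet := by
          rw [h4]
          field_simp
    linarith

theorem ineq : Pool.Agent.TH563.Z.S_INEQ := ineq'

end Pool.Agent.TH596.J367
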